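import Pool.Agent.H149Z.SU.Basic

/-! The periodic part of a long bispecial word starts and ends near the ends. -/

set_option autoImplicit false

namespace Pool.Agent.H149Z.SU

namespace TLE

variable {A : Type}

/-- a maximal periodic run of length at least `N` starts at `p` -/
def Start (U : ℤ → A) (Q N : ℕ) (p : ℤ) : Prop :=
  Per U Q p (p + N) ∧ U (p - 1) ≠ U (p - 1 + Q)

/-- left contexts of starts -/
def Z (U : ℤ → A) (Q D N : ℕ) : Set (List A) :=
  {w | ∃ p, Start U Q N p ∧ w = fac U (p - D) (D + Q)}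

theorem Z_finite [Fintype A] (U : ℤ → A) (Q D N : ℕ) : (Z U Q D N).Finite :=
  finite_fac U (Start U Q N) (fun p => p - D) (D + Q)

theorem Start.mono {U : ℤ → A} {Q N N' : ℕ} {p : ℤ} (h : Start U Q N' p) (hN : N ≤ N') :
    Start U Q N p := ⟨h.1.mono le_rfl (by omega), h.2⟩

theorem exists_least_per (U : ℤ → A) (Q : ℕ) (a b e : ℤ) (hab : a ≤ b) (h : Per U Q b e) :
    ∃ p, a ≤ p ∧ p ≤ b ∧ Per U Q p e ∧ (a < p → U (p - 1) ≠ U (p - 1 + Q)) := by
  obtain ⟨p, ⟨hp1, hp2⟩, hmin⟩ := Int.exists_least_of_bdd (P := fun p => a ≤ p ∧ Per U Q p e)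
    ⟨a, fun z hz => hz.1⟩ ⟨b, hab, h⟩
  refine ⟨p, hp1, hmin b ⟨hab, h⟩, hp2, fun hlt heq => ?_⟩
  have : Per U Q (p - 1) e := by
    intro t h1 h2
    by_cases ht : t = p - 1
    · rw [ht]; exact heq
    · exact hp2 t (by omega) h2
  have := hmin (p - 1) ⟨by omega, this⟩
  omega

theorem parent {X : Sys A} {Q K : ℕ} (G : Good X Q K) (N : ℕ) (hN : Q ≤ N) (p' : ℤ)
    (h : Start X.U Q (K + K * (N + 2 * K)) p') :
    ∃ p, Start X.U Q N p ∧ p' ≤ X.c p ∧ X.c p ≤ p' + (K * K + K : ℕ) := by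
  obtain ⟨l, hl1, hl2⟩ := X.idx (p' - 1)
  have u1 := G.ub (show l ≤ l + 1 by omega)
  have u2 := G.ub (show l + 1 ≤ l + 1 + (N + 2 * K) by omega)
  rw [show l + 1 + (N + 2 * K : ℤ) - (l + 1) = N + 2 * K by ring] at u2
  rw [show l + 1 - l = 1 by ring] at u1
  have h1 : Per X.U Q (X.c (l + 1)) (X.c (l + 1 + (N + 2 * K))) := by
    refine h.1.mono (by omega) ?_
    push_cast
    omega
  have h2 := G.per_pre _ _ h1
  obtain ⟨p, hp1, hp2, hp3, hp4⟩ := exists_least_per X.U Q (l + 1) (l + 1 + K) _ (by omega) h2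
  have m1 : X.c (l + 1) ≤ X.c p := X.mono.monotone hp1
  have u3 := G.ub hp1
  have u4 : (K : ℤ) * (p - (l + 1)) ≤ K * K :=
    mul_le_mul_of_nonneg_left (by omega) (by positivity)
  refine ⟨p, ⟨hp3.mono le_rfl (by omega), ?_⟩, by omega, by push_cast; omega⟩
  by_cases hlt : l + 1 < p
  · exact hp4 hlt
  · have hp : p = l + 1 := by omega
    intro heq
    have h3 : Per X.U Q l (l + (K + N + 1)) := by
      intro t t1 t2
      by_cases ht : t = p - 1
      · rw [ht]; exact heq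
      · exact hp3 t (by omega) (by omega)
    have h4 := G.per_img l (K + N + 1) (by omega) h3
    have l1 := X.lb (show l + 1 ≤ l + (K + N + 1) by omega)
    exact h.2 (h4 (p' - 1) hl1 (by omega))

theorem determined {X : Sys A} {Q : ℕ} (hQ : 1 ≤ Q) (E D N N' : ℕ) (hD : E + 1 ≤ D) (hN : Q ≤ N)
    (hN' : E + Q ≤ N') (p q p' q' : ℤ) (hp : Start X.U Q N p) (hq : Start X.U Q N q)
    (hp' : Start X.U Q N' p') (hq' : Start X.U Q N' q')
    (a1 : p' ≤ X.c p) (a2 : X.c p ≤ p' + E) (b1 : q' ≤ X.c q) (b2 : X.c q ≤ q' + E)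
    (h : fac X.U (p - D) (D + Q) = fac X.U (q - D) (D + Q)) :
    fac X.U (p' - (D + 1 : ℕ)) (D + 1 + Q) = fac X.U (q' - (D + 1 : ℕ)) (D + 1 + Q) := by
  rw [fac_eq_iff] at h ⊢
  push_cast at h ⊢
  have h1 : Agr X.U X.U p q N :=
    Agr.of_per (π := Q) (by omega) (h.sub (by omega) (by omega) (by omega)) hp.1 hq.1
  have h2 : Agr X.U X.U (p - D) (q - D) (D + N) := by
    intro t t1 t2
    by_cases ht : t < D
    · exact h t t1 (by omega)
    · exact h1.at (by omega) (by omega) (by omega)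
  have h3 := X.agr h2
  rw [show p - D + (D + N) = p + N by ring] at h3
  have h4 := X.cut_at h2 (x := p) (y := q) (by omega) (by omega) (by omega)
  have l1 := X.lb (show p - D ≤ p by omega)
  have l2 := X.lb (show p ≤ p + N by omega)
  have he : X.c p - p' = X.c q - q' := by
    rcases lt_trichotomy (X.c p - p') (X.c q - q') with hlt | heq | hlt
    · exfalso
      apply hp'.2
      rw [h3.at (x := p' - 1) (y := p' - 1 + (X.c q - X.c p)) (by omega) (by omega) (by omega),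
        h3.at (x := p' - 1 + Q) (y := p' - 1 + (X.c q - X.c p) + Q) (by omega) (by omega)
          (by omega)]
      exact hq'.1 _ (by omega) (by omega)
    · exact heq
    · exfalso
      apply hq'.2
      rw [← h3.at (x := q' - 1 - (X.c q - X.c p)) (y := q' - 1) (by omega) (by omega) (by omega),
        ← h3.at (x := q' - 1 - (X.c q - X.c p) + Q) (y := q' - 1 + Q) (by omega) (by omega)
          (by omega)]
      exact hp'.1 _ (by omega) (by omega)
  exact h3.sub (by omega) (by omega) (by omega)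

theorem card_step [Fintype A] {X : Sys A} {Q K : ℕ} (G : Good X Q K) (D N : ℕ)
    (hD : K * K + K + 1 ≤ D) (hN : Q ≤ N) :
    ∃ N', N ≤ N' ∧ (Z X.U Q (D + 1) N').ncard ≤ (Z X.U Q D N).ncard := by
  classical
  set N' := N + (K * K + K + Q) + (K + K * (N + 2 * K)) with hN'
  refine ⟨N', by omega, ?_⟩
  have key : ∀ w : List A, ∃ p p' : ℤ, w ∈ Z X.U Q (D + 1) N' →
      Start X.U Q N' p' ∧ w = fac X.U (p' - (D + 1 : ℕ)) (D + 1 + Q) ∧
      Start X.U Q N p ∧ p' ≤ X.c p ∧ X.c p ≤ p' + (K * K + K : ℕ) := by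
    intro w
    by_cases hw : w ∈ Z X.U Q (D + 1) N'
    · obtain ⟨p', h1, h2⟩ := hw
      obtain ⟨p, h3⟩ := parent G N hN p' (h1.mono (by omega))
      exact ⟨p, p', fun _ => ⟨h1, h2, h3⟩⟩
    · exact ⟨0, 0, fun h => absurd h hw⟩
  choose f g hfg using key
  refine Set.ncard_le_ncard_of_injOn (fun w => fac X.U (f w - D) (D + Q)) ?_ ?_
    (Z_finite _ _ _ _)
  · intro w hw
    exact ⟨f w, (hfg w hw).2.2.1, rfl⟩
  · intro w hw v hv h
    obtain ⟨a1, a2, a3, a4, a5⟩ := hfg w hw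
    obtain ⟨b1, b2, b3, b4, b5⟩ := hfg v hv
    rw [a2, b2]
    exact determined G.Qpos (K * K + K) D N N' hD hN (by omega) _ _ _ _ a3 b3 a1 b1 a4 a5 b4 b5 h

theorem fac_tail (U : ℤ → A) (p : ℤ) (D Q : ℕ) :
    (fac U (p - (D + 1 : ℕ)) (D + 1 + Q)).tail = fac U (p - D) (D + Q) := by
  rw [show D + 1 + Q = 1 + (D + Q) by ring, fac_add, fac_one]
  simp only [List.cons_append, List.nil_append, List.tail_cons]
  congr 1
  push_cast
  ring

theorem not_special [Fintype A] {X : Sys A} {Q K : ℕ} (G : Good X Q K) (D : ℕ) :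
    ∃ N : ℕ, K * K + K + 1 ≤ D → ∀ p q : ℤ, Start X.U Q N p → Start X.U Q N q →
      Agr X.U X.U (p - D) (q - D) (D + Q) → X.U (p - D - 1) = X.U (q - D - 1) := by
  classical
  by_cases hD : K * K + K + 1 ≤ D
  swap
  · exact ⟨0, fun h => absurd h hD⟩
  obtain ⟨N, hN, hmin⟩ := (measure fun N : ℕ => (Z X.U Q D N).ncard).wf.has_min
    {N | Q ≤ N} ⟨Q, le_refl Q⟩
  obtain ⟨N', h1, h2⟩ := card_step G D N hD hN
  have h3 : ¬ (Z X.U Q D N').ncard < (Z X.U Q D N).ncard := hmin N' (le_trans hN h1)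
  have himg : List.tail '' Z X.U Q (D + 1) N' = Z X.U Q D N' := by
    ext w
    constructor
    · rintro ⟨v, ⟨p, hp, rfl⟩, rfl⟩
      exact ⟨p, hp, fac_tail _ _ _ _⟩
    · rintro ⟨p, hp, rfl⟩
      exact ⟨_, ⟨p, hp, rfl⟩, fac_tail _ _ _ _⟩
  have hfin := Z_finite X.U Q (D + 1) N'
  have hinj : Set.InjOn List.tail (Z X.U Q (D + 1) N') := by
    refine Set.injOn_of_ncard_image_eq ?_ hfin
    refine le_antisymm (Set.ncard_image_le hfin) ?_
    rw [himg]
    omega
  refine ⟨N', fun _ p q hp hq hA => ?_⟩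
  have h4 : fac X.U (p - (D + 1 : ℕ)) (D + 1 + Q) = fac X.U (q - (D + 1 : ℕ)) (D + 1 + Q) := by
    refine hinj ⟨p, hp, rfl⟩ ⟨q, hq, rfl⟩ ?_
    rw [fac_tail, fac_tail, fac_eq_iff]
    push_cast
    exact hA
  rw [fac_eq_iff] at h4
  push_cast at h4
  exact h4.at (by omega) (by omega) (by omega)

theorem left [Fintype A] {X : Sys A} {Q K : ℕ} (G : Good X Q K) (B : ℕ) :
    ∃ N : ℕ, ∀ p q n : ℤ, (N : ℤ) ≤ n → Agr X.U X.U p q n → X.U (p - 1) ≠ X.U (q - 1) →
      Per X.U Q (p + B) (p + n - B) → Per X.U Q (p + (K * K + K + 1 : ℕ)) (p + n - B) := by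
  choose Nf hNf using not_special G
  refine ⟨(∑ D ∈ Finset.range (B + 1), Nf D) + 2 * B + Q, fun p q n hn hA hne hP => ?_⟩
  obtain ⟨s, hs1, hs2, hs3, hs4⟩ := exists_least_per X.U Q p (p + B) _ (by omega) hP
  by_cases hle : s ≤ p + (K * K + K + 1 : ℕ)
  · exact hs3.mono hle le_rfl
  exfalso
  obtain ⟨t, ht⟩ := Int.eq_ofNat_of_zero_le (show 0 ≤ s - p by omega)
  have htB : t ≤ B := by omega
  have htD : K * K + K + 1 ≤ t := by omega
  have hsum : Nf t ≤ ∑ D ∈ Finset.range (B + 1), Nf D :=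
    Finset.single_le_sum (fun _ _ => Nat.zero_le _) (Finset.mem_range.2 (by omega))
  have hn' : (Nf t : ℤ) + 2 * B + Q ≤ n := by
    have : ((Nf t + 2 * B + Q : ℕ) : ℤ) ≤ n := le_trans (by exact_mod_cast by omega) hn
    exact_mod_cast this
  have hlt : p < s := by omega
  have S1 : Start X.U Q (Nf t) s := ⟨hs3.mono le_rfl (by omega), hs4 hlt⟩
  have S2 : Start X.U Q (Nf t) (s - p + q) := by
    refine ⟨(hs3.agr (by omega) hA hs1 (by omega)).mono le_rfl (by omega), ?_⟩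
    rw [← hA.at (x := s - 1) (y := s - p + q - 1) (by omega) (by omega) (by omega),
      ← hA.at (x := s - 1 + Q) (y := s - p + q - 1 + Q) (by omega) (by omega) (by omega)]
    exact hs4 hlt
  have := hNf t htD s (s - p + q) S1 S2 (hA.sub (by omega) (by omega) (by omega))
  rw [show s - t - 1 = p - 1 by omega, show s - p + q - t - 1 = q - 1 by omega] at this
  exact hne this

end TLE

theorem thm_LE : S_LE := by
  intro A _ X Q K G
  refine ⟨K * K + K + 1, fun B => ?_⟩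
  obtain ⟨N1, h1⟩ := TLE.left G B
  obtain ⟨N2, h2⟩ := TLE.left G.rev B
  refine ⟨N1 + N2 + 2 * B + Q, fun p q r n hn hq hr hl hrr hP => ?_⟩
  push_cast at hn
  have a1 := h1 p q n (by omega) hq hl hP
  have a2 := h2 (-p - n) (-r - n) n (by omega) (by
      simp only [Sys.rev]
      rw [agr_rev, show -(-p - n) - n = p by ring, show -(-r - n) - n = r by ring]
      exact hr) (by
      simp only [Sys.rev]
      rwa [show -1 - (-p - n - 1) = p + n by ring, show -1 - (-r - n - 1) = r + n by ring]) (by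
      simp only [Sys.rev]
      rw [per_rev]
      exact hP.mono (by omega) (by omega))
  simp only [Sys.rev] at a2
  rw [per_rev] at a2
  exact (a1.glue a2 (by omega)).mono le_rfl (by omega)

end Pool.Agent.H149Z.SU
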