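import Pool.Agent.H149Z.SU.Basic

/-! Elementary morphisms: bounded delay and synchronisation (`S_elem`), through a finite form of
the graph lemma of the defect theorem. -/

set_option autoImplicit false

namespace Pool.Agent.H149Z.SU

namespace Telem

variable {A B : Type}

/-- Two products of blocks over `S`, starting with `b` and `b'`, agree on `K` letters. -/
def Rel (S : Finset B) (γ : B → List A) (K : ℕ) (b b' : B) : Prop :=
  ∃ xs ys : List B, (∀ x ∈ xs, x ∈ S) ∧ (∀ y ∈ ys, y ∈ S) ∧
    K ≤ ((b :: xs).flatMap γ).length ∧ K ≤ ((b' :: ys).flatMap γ).length ∧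
    ((b :: xs).flatMap γ).take K = ((b' :: ys).flatMap γ).take K

theorem Rel.mono {S : Finset B} {γ : B → List A} {K K' : ℕ} {b b' : B} (h : Rel S γ K b b')
    (hK : K' ≤ K) : Rel S γ K' b b' := by
  obtain ⟨xs, ys, h1, h2, h3, h4, h5⟩ := h
  refine ⟨xs, ys, h1, h2, hK.trans h3, hK.trans h4, ?_⟩
  have := congrArg (List.take K') h5
  rwa [List.take_take, List.take_take, min_eq_left hK] at this

theorem Rel.symm {S : Finset B} {γ : B → List A} {K : ℕ} {b b' : B} (h : Rel S γ K b b') :
    Rel S γ K b' b := by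
  obtain ⟨xs, ys, h1, h2, h3, h4, h5⟩ := h
  exact ⟨ys, xs, h2, h1, h4, h3, h5.symm⟩

/-- The conclusion of the graph lemma. -/
def Graph (S : Finset B) (γ : B → List A) : Prop :=
  ∃ (β : B → List B) (μ : B → List A) (K : ℕ), (∀ b ∈ S, γ b = (β b).flatMap μ) ∧
    (∀ b ∈ S, ∀ e ∈ β b, ∃ b0 ∈ S, (β b0).head? = some e) ∧
    ∀ b ∈ S, ∀ b' ∈ S, Rel S γ K b b' → (β b).head? = (β b').head?

theorem flatMap_congr' {γ γ' : B → List A} {l : List B} (h : ∀ x ∈ l, γ x = γ' x) :
    l.flatMap γ = l.flatMap γ' := by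
  induction l with
  | nil => rfl
  | cons a l ih =>
    rw [List.flatMap_cons, List.flatMap_cons, h a (by simp), ih fun x hx => h x (by simp [hx])]

theorem step {S S' : Finset B} {γ γ' : B → List A} (hd : B → B) (tl : B → List B)
    (hne : ∀ b ∈ S', γ' b ≠ [])
    (h1 : ∀ b ∈ S, γ b = (hd b :: tl b).flatMap γ') (h2 : ∀ b ∈ S, hd b ∈ S')
    (h3 : ∀ b ∈ S, ∀ x ∈ tl b, x ∈ S')
    (h4 : ∀ x ∈ S', (∃ b ∈ S, hd b = x) ∨ ∀ K, ∃ b ∈ S, Rel S' γ' K x (hd b))
    (hG : Graph S' γ') : Graph S γ := by
  obtain ⟨β, μ, K, g1, g2, g3⟩ := hG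
  have βne : ∀ x ∈ S', β x ≠ [] := by
    intro x hx h
    apply hne x hx
    rw [g1 x hx, h]; rfl
  have hhead : ∀ b ∈ S, ((hd b :: tl b).flatMap β).head? = (β (hd b)).head? := by
    intro b hb
    rw [List.flatMap_cons, List.head?_append_of_ne_nil _ (βne _ (h2 b hb))]
  have hfl : ∀ l : List B, (∀ x ∈ l, x ∈ S) →
      l.flatMap γ = (l.flatMap fun b => hd b :: tl b).flatMap γ' := by
    intro l hl
    rw [List.flatMap_assoc]
    exact flatMap_congr' fun x hx => h1 x (hl x hx)
  have hmem : ∀ l : List B, (∀ x ∈ l, x ∈ S) →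
      ∀ y ∈ (l.flatMap fun b => hd b :: tl b), y ∈ S' := by
    intro l hl y hy
    obtain ⟨x, hx, hyx⟩ := List.mem_flatMap.1 hy
    rcases List.mem_cons.1 hyx with rfl | h
    · exact h2 x (hl x hx)
    · exact h3 x (hl x hx) y h
  refine ⟨fun b => (hd b :: tl b).flatMap β, μ, K, fun b hb => ?_, fun b hb e he => ?_,
    fun b hb b' hb' hR => ?_⟩
  · rw [h1 b hb, List.flatMap_assoc]
    apply flatMap_congr'
    intro x hx
    rcases List.mem_cons.1 hx with rfl | h
    · exact g1 _ (h2 b hb)
    · exact g1 _ (h3 b hb x h)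
  · obtain ⟨x, hx, hex⟩ := List.mem_flatMap.1 he
    have hxS : x ∈ S' := by
      rcases List.mem_cons.1 hx with rfl | h
      · exact h2 b hb
      · exact h3 b hb x h
    obtain ⟨x0, hx0, e0⟩ := g2 x hxS e hex
    rcases h4 x0 hx0 with ⟨b0, hb0, rfl⟩ | h
    · exact ⟨b0, hb0, by rw [hhead b0 hb0, e0]⟩
    · obtain ⟨b0, hb0, hR⟩ := h K
      exact ⟨b0, hb0, by rw [hhead b0 hb0, ← g3 x0 hx0 _ (h2 b0 hb0) hR, e0]⟩
  · rw [hhead b hb, hhead b' hb']
    apply g3 _ (h2 b hb) _ (h2 b' hb')
    obtain ⟨xs, ys, r1, r2, r3, r4, r5⟩ := hR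
    have e1 := hfl (b :: xs) (by simpa [hb] using r1)
    have e2 := hfl (b' :: ys) (by simpa [hb'] using r2)
    rw [e1] at r3 r5
    rw [e2] at r4 r5
    refine ⟨tl b ++ xs.flatMap fun b => hd b :: tl b, tl b' ++ ys.flatMap fun b => hd b :: tl b,
      ?_, ?_, r3, r4, r5⟩
    · intro x hx
      rcases List.mem_append.1 hx with h | h
      · exact h3 b hb x h
      · exact hmem xs r1 x h
    · intro x hx
      rcases List.mem_append.1 hx with h | h
      · exact h3 b' hb' x h
      · exact hmem ys r2 x h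

theorem graph (n : ℕ) : ∀ (S : Finset B) (γ : B → List A), (∀ b ∈ S, γ b ≠ []) →
    ∑ b ∈ S, (γ b).length = n → Graph S γ := by
  classical
  induction n using Nat.strong_induction_on with
  | _ n ih =>
  intro S γ hne hn
  by_cases hex : ∃ b ∈ S, ∃ b' ∈ S, b ≠ b' ∧ ∀ K, Rel S γ K b b'
  · obtain ⟨b, hb, b', hb', hbb, hR⟩ := hex
    wlog hle : (γ b).length ≤ (γ b').length generalizing b b'
    · exact this b' hb' b hb hbb.symm (fun K => (hR K).symm) (by omega)
    obtain ⟨s, hs⟩ : ∃ s, γ b' = γ b ++ s := by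
      obtain ⟨xs, ys, -, -, -, -, r5⟩ := hR (γ b).length
      rw [List.flatMap_cons, List.flatMap_cons, List.take_left',
        List.take_append_of_le_length hle] at r5
      · refine ⟨(γ b').drop (γ b).length, ?_⟩
        have := List.take_append_drop (γ b).length (γ b')
        rw [← r5] at this
        exact this.symm
      · rfl
    have hb0 : 0 < (γ b).length := List.length_pos_of_ne_nil (hne b hb)
    by_cases hs0 : s = []
    · subst hs0
      rw [List.append_nil] at hs
      have hlt : ∑ x ∈ S.erase b', (γ x).length < n := by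
        rw [← hn, ← Finset.add_sum_erase S _ hb', hs]; omega
      refine step (S' := S.erase b') (γ' := γ) (fun x => if x = b' then b else x) (fun _ => [])
        (fun x hx => hne x (Finset.mem_of_mem_erase hx)) ?_ ?_ (by simp) ?_
        (ih _ hlt _ γ (fun x hx => hne x (Finset.mem_of_mem_erase hx)) rfl)
      · intro x _
        by_cases h : x = b' <;> simp [h, hs]
      · intro x hx
        by_cases h : x = b' <;> simp [h, hbb, hb, hx]
      · intro x hx
        left
        exact ⟨x, Finset.mem_of_mem_erase hx, by simp [(Finset.mem_erase.1 hx).1]⟩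
    · set γ' := Function.update γ b' s with hγ'
      have e1 : γ' b' = s := by simp [hγ']
      have e2 : ∀ x, x ≠ b' → γ' x = γ x := fun x hx => by simp [hγ', hx]
      have hne' : ∀ x ∈ S, γ' x ≠ [] := by
        intro x hx
        by_cases h : x = b'
        · rw [h, e1]; exact hs0
        · rw [e2 x h]; exact hne x hx
      have hlt : ∑ x ∈ S, (γ' x).length < n := by
        rw [← hn, ← Finset.add_sum_erase S _ hb', ← Finset.add_sum_erase S _ hb', e1, hs,
          Finset.sum_congr rfl fun x hx => by rw [e2 x (Finset.mem_erase.1 hx).1]]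
        simp; omega
      have h1 : ∀ x ∈ S, γ x =
          ((if x = b' then b else x) :: (if x = b' then [b'] else [])).flatMap γ' := by
        intro x _
        by_cases h : x = b'
        · simp [h, e1, e2 b hbb, hs]
        · simp [h, e2 x h]
      have h2 : ∀ x ∈ S, (if x = b' then b else x) ∈ S := by
        intro x hx
        by_cases h : x = b' <;> simp [h, hb, hx]
      have h3 : ∀ x ∈ S, ∀ y ∈ (if x = b' then [b'] else []), y ∈ S := by
        intro x _ y hy
        by_cases h : x = b'
        · simp [h] at hy; rw [hy]; exact hb'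
        · simp [h] at hy
      refine step (S' := S) (γ' := γ') (fun x => if x = b' then b else x)
        (fun x => if x = b' then [b'] else []) hne' h1 h2 h3 ?_ (ih _ hlt _ γ' hne' rfl)
      intro x hx
      by_cases h : x = b'
      · right
        intro K
        subst h
        obtain ⟨xs, ys, r1, r2, r3, r4, r5⟩ := hR ((γ b).length + (K + 1))
        have hfl : ∀ l : List B, (∀ y ∈ l, y ∈ S) → l.flatMap γ = (l.flatMap fun y =>
            (if y = x then b else y) :: (if y = x then [x] else [])).flatMap γ' := by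
          intro l hl
          rw [List.flatMap_assoc]
          exact flatMap_congr' fun y hy => h1 y (hl y hy)
        have hmem : ∀ l : List B, (∀ y ∈ l, y ∈ S) → ∀ z ∈ (l.flatMap fun y =>
            (if y = x then b else y) :: (if y = x then [x] else [])), z ∈ S := by
          intro l hl z hz
          obtain ⟨y, hy, hzy⟩ := List.mem_flatMap.1 hz
          rcases List.mem_cons.1 hzy with rfl | h
          · exact h2 y (hl y hy)
          · exact h3 y (hl y hy) z h
        rw [List.flatMap_cons, List.length_append] at r3 r4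
        rw [List.flatMap_cons, List.flatMap_cons, hs, List.append_assoc, List.take_length_add_append,
          List.take_length_add_append, List.append_cancel_left_eq] at r5
        rw [hs, List.length_append] at r4
        cases xs with
        | nil => simp at r3
        | cons x1 xs =>
          have hx1 : x1 ∈ S := r1 x1 (by simp)
          refine ⟨x1, hx1, Rel.mono (K := K + 1) ⟨_, (if x1 = x then [x] else []) ++ _, hmem ys r2,
            fun z hz => (List.mem_append.1 hz).elim (h3 x1 hx1 z)
              (hmem xs (fun y hy => r1 y (by simp [hy])) z), ?_, ?_, ?_⟩ (by omega)⟩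
          · rw [List.flatMap_cons, e1, ← hfl ys r2, List.length_append]; omega
          · have := hfl (x1 :: xs) r1
            rw [List.flatMap_cons (f := fun y =>
              (if y = x then b else y) :: (if y = x then [x] else [])), List.cons_append] at this
            rw [← this]; omega
          · have := hfl (x1 :: xs) r1
            rw [List.flatMap_cons (f := fun y =>
              (if y = x then b else y) :: (if y = x then [x] else [])), List.cons_append] at this
            rw [← this, List.flatMap_cons (xs := ys.flatMap _), e1, ← hfl ys r2, r5]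
      · left
        exact ⟨x, hx, by simp [h]⟩
  · push Not at hex
    have : ∀ b b' : B, ∃ K, b ∈ S → b' ∈ S → b ≠ b' → ¬ Rel S γ K b b' := by
      intro b b'
      by_cases h : b ∈ S ∧ b' ∈ S ∧ b ≠ b'
      · obtain ⟨K, hK⟩ := hex b h.1 b' h.2.1 h.2.2
        exact ⟨K, fun _ _ _ => hK⟩
      · exact ⟨0, fun a b c => absurd ⟨a, b, c⟩ h⟩
    choose f hf using this
    refine ⟨fun b => [b], γ, (S ×ˢ S).sup fun p => f p.1 p.2, by simp, ?_, ?_⟩
    · intro b hb e he
      simp at he
      exact ⟨b, hb, by simp [he]⟩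
    · intro b hb b' hb' hR
      by_contra hc
      have hbb : b ≠ b' := by rintro rfl; exact hc rfl
      exact hf b b' hb hb' hbb (hR.mono (Finset.le_sup (f := fun p : B × B => f p.1 p.2)
        (b := (b, b')) (Finset.mem_product.2 ⟨hb, hb'⟩)))

theorem factor_card [Fintype B] {γ : B → List A} (h : Elementary γ) {E : Type}
    (β : B → List E) (μ : E → List A) (hf : ∀ b, γ b = (β b).flatMap μ) (T : Finset E)
    (hT : ∀ b, ∀ e ∈ β b, e ∈ T) : Fintype.card B ≤ T.card := by
  have := h {e // e ∈ T} (fun b => (β b).attachWith (· ∈ T) (hT b)) (fun e => μ e.1) (by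
    intro b
    rw [hf b]
    conv_lhs => rw [← List.unattach_attachWith (l := β b) (H := hT b)]
    rw [List.unattach, List.flatMap_map])
  simpa using this

theorem nonerasing [Fintype B] {γ : B → List A} (h : Elementary γ) (b : B) : γ b ≠ [] := by
  classical
  intro hb
  have := factor_card h (fun x => if x = b then [] else [x]) γ
    (fun x => by by_cases e : x = b <;> simp [e, hb]) (Finset.univ.erase b)
    (fun x e he => by by_cases c : x = b <;> simp_all)
  rw [Finset.card_erase_of_mem (Finset.mem_univ b), Finset.card_univ] at this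
  have : 0 < Fintype.card B := Fintype.card_pos_iff.2 ⟨b⟩
  omega

theorem determ [Fintype B] {γ : B → List A} (h : Elementary γ) (r : List A) (hr : r ≠ []) :
    ∃ K, ∀ x x' : B, Rel Finset.univ (fun o : Option B => o.elim r γ) K none (some x) →
      Rel Finset.univ (fun o : Option B => o.elim r γ) K none (some x') → x = x' := by
  classical
  obtain ⟨β, μ, K, g1, g2, g3⟩ := graph _ Finset.univ (fun o : Option B => o.elim r γ)
    (fun o _ => by cases o with
      | none => exact hr
      | some b => exact nonerasing h b) rfl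
  refine ⟨K, fun x x' h1 h2 => ?_⟩
  by_contra hne
  have e1 := g3 _ (Finset.mem_univ _) _ (Finset.mem_univ _) h1
  have e2 := g3 _ (Finset.mem_univ _) _ (Finset.mem_univ _) h2
  have := factor_card h (fun b => (β (some b)).map some) (fun o => o.elim [] μ)
    (fun b => by
      have := g1 (some b) (Finset.mem_univ _)
      simp only [Option.elim] at this
      rw [this, List.flatMap_map]; rfl)
    ((Finset.univ.erase x').image fun b => (β (some b)).head?) (by
      intro b e he
      obtain ⟨e', he', rfl⟩ := List.mem_map.1 he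
      obtain ⟨b0, -, hb0⟩ := g2 _ (Finset.mem_univ _) e' he'
      rw [Finset.mem_image]
      have hx : x ∈ Finset.univ.erase x' := by simp [hne]
      cases b0 with
      | none => exact ⟨x, hx, by rw [← e1, hb0]⟩
      | some b1 =>
        by_cases c : b1 = x'
        · exact ⟨x, hx, by rw [← e1, e2, ← c, hb0]⟩
        · exact ⟨b1, by simp [c], hb0⟩)
  have h3 := this.trans Finset.card_image_le
  rw [Finset.card_erase_of_mem (Finset.mem_univ _), Finset.card_univ] at h3
  have : 0 < Fintype.card B := Fintype.card_pos_iff.2 ⟨x⟩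
  omega

theorem fac_take (U : ℤ → A) (p : ℤ) (n K : ℕ) (h : K ≤ n) : (fac U p n).take K = fac U p K := by
  simpa using fac_drop_take U p n 0 K (by omega)

theorem rel_of_parse [Fintype B] {γ : B → List A} (hr : ∀ b, 1 ≤ (γ b).length)
    {V V' : ℤ → B} {C C' : ℤ → ℤ} {U U' : ℤ → A} (h : IsParse γ V C U) (h' : IsParse γ V' C' U')
    {i j : ℤ} {d K : ℕ} (hd : d < (γ (V' j)).length) (hA : Agr U U' (C i) (C' j + d) K) :
    Rel Finset.univ (fun o : Option B => o.elim ((γ (V' j)).drop d) γ) K none (some (V i)) := by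
  have f1 := h.flatMap_fac i (1 + K)
  have f2 := h'.flatMap_fac j (1 + K)
  have l1 := h.le_add hr i ((1 + K : ℕ) : ℤ) (by omega)
  have l2 := h'.le_add hr (j + 1) (K : ℤ) (by omega)
  have s2 := h'.step j
  rw [fac_add, fac_one] at f1 f2
  have e1 : (some (V i) :: (fac V (i + (1 : ℕ)) K).map some).flatMap
      (fun o : Option B => o.elim ((γ (V' j)).drop d) γ) =
      fac U (C i) (C (i + (1 + K : ℕ)) - C i).toNat := by
    rw [← f1, List.flatMap_cons, List.flatMap_map]; simp
  have e2 : (none :: (fac V' (j + (1 : ℕ)) K).map some).flatMap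
      (fun o : Option B => o.elim ((γ (V' j)).drop d) γ) =
      (fac U' (C' j) (C' (j + (1 + K : ℕ)) - C' j).toNat).drop d := by
    rw [← f2, List.flatMap_cons, List.flatMap_map, List.singleton_append, List.flatMap_cons,
      List.drop_append_of_le_length hd.le]
    rfl
  have e3 : j + ((1 + K : ℕ) : ℤ) = j + 1 + K := by push_cast; ring
  refine ⟨(fac V' (j + (1 : ℕ)) K).map some, (fac V (i + (1 : ℕ)) K).map some, by simp, by simp,
    ?_, ?_, ?_⟩
  · rw [e2, List.length_drop, fac_length, e3]; omega
  · rw [e1, fac_length]; omega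
  · rw [e2, e1, fac_drop_take _ _ _ _ _ (by rw [e3]; omega), fac_take _ _ _ _ (by omega)]
    exact (fac_eq_iff _ _ _ _ _).2 hA.symm

theorem determ_parse [Fintype B] {γ : B → List A} (h : Elementary γ) :
    ∃ K : ℕ, ∀ (V₁ V₂ W₁ W₂ : ℤ → B) (C₁ C₂ D₁ D₂ : ℤ → ℤ) (U₁ U₂ T₁ T₂ : ℤ → A),
      IsParse γ V₁ C₁ U₁ → IsParse γ V₂ C₂ U₂ → IsParse γ W₁ D₁ T₁ → IsParse γ W₂ D₂ T₂ →
      ∀ (i₁ i₂ j₁ j₂ d : ℤ), W₁ j₁ = W₂ j₂ → 0 ≤ d → D₁ j₁ + d < D₁ (j₁ + 1) →
        Agr U₁ T₁ (C₁ i₁) (D₁ j₁ + d) K → Agr U₂ T₂ (C₂ i₂) (D₂ j₂ + d) K → V₁ i₁ = V₂ i₂ := by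
  classical
  have hr : ∀ b, 1 ≤ (γ b).length := fun b => List.length_pos_of_ne_nil (nonerasing h b)
  have : ∀ (b : B) (d : ℕ), ∃ K, d < (γ b).length → ∀ x x' : B,
      Rel Finset.univ (fun o : Option B => o.elim ((γ b).drop d) γ) K none (some x) →
      Rel Finset.univ (fun o : Option B => o.elim ((γ b).drop d) γ) K none (some x') → x = x' := by
    intro b d
    by_cases hd : d < (γ b).length
    · obtain ⟨K, hK⟩ := determ h ((γ b).drop d) (by simpa using hd)
      exact ⟨K, fun _ => hK⟩
    · exact ⟨0, fun h => absurd h hd⟩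
  choose f hf using this
  refine ⟨Finset.univ.sup fun b => (Finset.range (γ b).length).sup (f b), ?_⟩
  intro V₁ V₂ W₁ W₂ C₁ C₂ D₁ D₂ U₁ U₂ T₁ T₂ p1 p2 q1 q2 i₁ i₂ j₁ j₂ d hW hd0 hd a1 a2
  obtain ⟨d, rfl⟩ := Int.eq_ofNat_of_zero_le hd0
  have hd' : d < (γ (W₁ j₁)).length := by have := q1.step j₁; omega
  have hle : f (W₁ j₁) d ≤ Finset.univ.sup fun b => (Finset.range (γ b).length).sup (f b) :=
    (Finset.le_sup (f := f (W₁ j₁)) (Finset.mem_range.2 hd')).trans
      (Finset.le_sup (f := fun b => (Finset.range (γ b).length).sup (f b)) (Finset.mem_univ _))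
  have r1 := rel_of_parse hr p1 q1 hd' a1
  have r2 := rel_of_parse hr p2 q2 (hW ▸ hd') a2
  rw [← hW] at r2
  exact hf _ d hd' _ _ (r1.mono hle) (r2.mono hle)

theorem delay [Fintype B] {γ : B → List A} (h : Elementary γ) :
    ∃ K : ℕ, ∀ (V V' : ℤ → B) (C C' : ℤ → ℤ) (U U' : ℤ → A),
      IsParse γ V C U → IsParse γ V' C' U' → ∀ i j : ℤ, Agr U U' (C i) (C' j) K → V i = V' j := by
  obtain ⟨K, hK⟩ := determ_parse h
  have hr : ∀ b, 1 ≤ (γ b).length := fun b => List.length_pos_of_ne_nil (nonerasing h b)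
  refine ⟨K, fun V V' C C' U U' p q i j a => ?_⟩
  have := q.step j
  have := hr (V' j)
  exact hK V V' V' V' C C' C' C' U U' U' U' p q q q i j j j 0 rfl le_rfl (by omega)
    (by simpa using a) (by simpa using Agr.refl _ _ _)

theorem parse_rev {γ : B → List A} {V : ℤ → B} {C : ℤ → ℤ} {U : ℤ → A} (h : IsParse γ V C U) :
    IsParse (fun b => (γ b).reverse) (fun t => V (-1 - t)) (fun i => -C (-i))
      (fun t => U (-1 - t)) := by
  constructor
  · intro i
    have := h.step (-1 - i)
    rw [show -1 - i + 1 = -i by ring] at this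
    rw [show -(i + 1) = -1 - i by ring, List.length_reverse]
    omega
  · intro i j hj
    have h1 := h.step (-1 - i)
    rw [show -1 - i + 1 = -i by ring] at h1
    rw [List.length_reverse] at hj
    rw [List.getElem_reverse, ← h.val]
    congr 1
    omega

theorem elem_rev [Fintype B] {γ : B → List A} (h : Elementary γ) :
    Elementary fun b => (γ b).reverse := by
  intro E _ β μ hf
  apply h E (fun b => (β b).reverse) (fun e => (μ e).reverse)
  intro b
  have := congrArg List.reverse (hf b)
  rw [List.reverse_reverse, List.reverse_flatMap] at this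
  exact this

theorem part3 [Fintype B] {γ : B → List A} (h : Elementary γ) :
    ∃ K P : ℕ, ∀ (V V' : ℤ → B) (C C' : ℤ → ℤ) (U U' : ℤ → A),
      IsParse γ V C U → IsParse γ V' C' U' → ∀ p q n : ℤ, Agr U U' p q n →
        (∃ i j : ℤ, C i - p = C' j - q ∧ p ≤ C i ∧ C i ≤ p + n) ∨
        (∃ π : ℤ, 1 ≤ π ∧ π ≤ P ∧ Per U π (p + K) (p + n - K)) := by
  classical
  obtain ⟨K, hK⟩ := determ_parse h
  have hr : ∀ b, 1 ≤ (γ b).length := fun b => List.length_pos_of_ne_nil (nonerasing h b)
  obtain ⟨M, hM⟩ : ∃ M : ℕ, ∀ b, (γ b).length ≤ M :=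
    ⟨Finset.univ.sup fun b => (γ b).length, fun b =>
      Finset.le_sup (f := fun b => (γ b).length) (Finset.mem_univ b)⟩
  set S := (Finset.univ ×ˢ Finset.range M : Finset (B × ℕ)).card with hS
  refine ⟨M * (S + 1) + K, M * S + 1, fun V V' C C' U U' hp hq p q n hA => ?_⟩
  by_cases hn : n ≤ (M * (S + 1) + K : ℕ)
  · right
    refine ⟨1, le_rfl, by push_cast; nlinarith [Nat.zero_le (M * S)], fun t a b => ?_⟩
    omega
  by_cases hc : ∃ i j : ℤ, C i - p = C' j - q ∧ p ≤ C i ∧ C i ≤ p + n
  · exact Or.inl hc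
  right
  push Not at hc hn
  push_cast at hn
  obtain ⟨i0, a0, b0⟩ := hp.exists_idx hr p
  have c0 : C (i0 + 1) ≤ p + M := by
    have := hp.step i0
    have := hM (V i0)
    omega
  choose J hJ1 hJ2 using hq.exists_idx hr
  obtain ⟨s1, hs1, s2, hs2, hne, hst⟩ := Finset.exists_ne_map_eq_of_card_lt_of_maps_to
    (s := Finset.range (S + 1)) (t := (Finset.univ ×ˢ Finset.range M : Finset (B × ℕ)))
    (by simp [hS]) (f := fun s : ℕ => (V' (J (C (i0 + 1 + s) - p + q)),
      (C (i0 + 1 + s) - p + q - C' (J (C (i0 + 1 + s) - p + q))).toNat)) (by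
      intro s _
      have := hJ1 (C (i0 + 1 + s) - p + q)
      have := hJ2 (C (i0 + 1 + s) - p + q)
      have := hq.step (J (C (i0 + 1 + s) - p + q))
      have := hM (V' (J (C (i0 + 1 + s) - p + q)))
      simp only [Finset.coe_product, Finset.coe_univ, Finset.coe_range, Set.mem_prod,
        Set.mem_univ, Set.mem_Iio, true_and]
      omega)
  wlog hlt : s1 < s2 generalizing s1 s2
  · exact this s2 hs2 s1 hs1 hne.symm hst.symm (by omega)
  rw [Finset.mem_range] at hs1 hs2
  obtain ⟨e1, e2⟩ := Prod.mk.inj hst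
  have mC := hp.strictMono hr
  have mC' := hq.strictMono hr
  set i1 := i0 + 1 + s1 with hi1
  set i2 := i0 + 1 + s2 with hi2
  set j1 := J (C i1 - p + q) with hj1
  set j2 := J (C i2 - p + q) with hj2
  have u1 := hJ1 (C i1 - p + q)
  have u2 := hJ2 (C i1 - p + q)
  have u3 := hJ1 (C i2 - p + q)
  have u4 := hJ2 (C i2 - p + q)
  rw [← hj1] at u1 u2
  rw [← hj2] at u3 u4
  have v1 : C (i0 + 1) ≤ C i1 := mC.monotone (by omega)
  have v2 : C i1 < C i2 := mC (by omega)
  have v3 : C i2 ≤ C (i0 + 1) + M * S := by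
    have := hp.add_le hM (i0 + 1) s2 (by omega)
    rw [← hi2] at this
    have h2 : (M : ℤ) * s2 ≤ M * S := by
      apply mul_le_mul_of_nonneg_left _ (by omega); omega
    omega
  have v4 : (M : ℤ) * (S + 1) = M * S + M := by ring
  have v5 : (0 : ℤ) ≤ M * S := by positivity
  have w0 : C' j2 - C' j1 = C i2 - C i1 := by omega
  have key : ∀ N : ℕ, (∃ a : ℕ, Agr V V i1 i2 a ∧ p + n - K < C (i2 + a)) ∨
      ∃ a b : ℕ, a + b = N ∧ Agr V V i1 i2 a ∧ Agr V' V' j1 j2 (b + 1) ∧
        C' (j2 + b) ≤ q + n := by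
    intro N
    induction N with
    | zero =>
      right
      refine ⟨0, 0, rfl, fun t a b => by omega, fun t a b => ?_, by simp; omega⟩
      have : t = 0 := by omega
      simpa [this] using e1
    | succ N ih =>
      rcases ih with hd | ⟨a, b, hab, A1, A2, A3⟩
      · exact Or.inl hd
      by_cases hdone : p + n - K < C (i2 + a)
      · exact Or.inl ⟨a, A1, hdone⟩
      right
      have k1 := hp.cut_eq hp A1 a (by omega) le_rfl
      have k2 := hq.cut_eq hq A2 (b + 1) (by omega) le_rfl
      have k3 : C i1 ≤ C (i1 + a) := mC.monotone (by omega)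
      have k4 : C' (j1 + 1) ≤ C' (j1 + (b + 1)) := mC'.monotone (by omega)
      rcases lt_trichotomy (C (i1 + a) - p) (C' (j1 + (b + 1)) - q) with c | c | c
      · refine ⟨a + 1, b, by omega, ?_, A2, A3⟩
        set l := J (C (i1 + a) - p + q) with hl
        have l1 := hJ1 (C (i1 + a) - p + q)
        have l2 := hJ2 (C (i1 + a) - p + q)
        rw [← hl] at l1 l2
        have l3 : j1 < l + 1 := mC'.lt_iff_lt.mp (by omega)
        have l4 : l < j1 + (b + 1) := mC'.lt_iff_lt.mp (by omega)
        have l5 := hq.cut_at hq A2 (x := l) (y := l - j1 + j2) (by omega) (by omega) (by omega)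
        have l6 : V' l = V' (l - j1 + j2) := A2.at (by omega) (by omega) (by omega)
        have := hK V V V' V' C C C' C' U U U' U' hp hp hq hq (i1 + a) (i2 + a) l (l - j1 + j2)
          (C (i1 + a) - p + q - C' l) l6 (by omega) (by omega)
          (hA.sub (by omega) (by omega) (by omega)) (hA.sub (by omega) (by omega) (by omega))
        intro t t0 t1
        by_cases ht : t < a
        · exact A1 t t0 ht
        · have : t = a := by push_cast at t1; omega
          subst this; assumption
      · have := hc _ _ c (by omega)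
        omega
      · refine ⟨a, b + 1, by omega, A1, ?_, by push_cast; omega⟩
        obtain ⟨l, l1, l2⟩ := hp.exists_idx hr (C' (j1 + (b + 1)) - q + p)
        have l3 : i1 < l + 1 := mC.lt_iff_lt.mp (by omega)
        have l4 : l < i1 + a := mC.lt_iff_lt.mp (by omega)
        have l5 := hp.cut_at hp A1 (x := l) (y := l - i1 + i2) (by omega) (by omega) (by omega)
        have l6 : V l = V (l - i1 + i2) := A1.at (by omega) (by omega) (by omega)
        have := hK V' V' V V C' C' C C U' U' U U hq hq hp hp (j1 + (b + 1)) (j2 + (b + 1)) l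
          (l - i1 + i2) (C' (j1 + (b + 1)) - q + p - C l) l6 (by omega) (by omega)
          (hA.symm.sub (by omega) (by omega) (by omega))
          (hA.symm.sub (by omega) (by omega) (by omega))
        intro t t0 t1
        by_cases ht : t < b + 1
        · exact A2 t t0 ht
        · have : t = b + 1 := by push_cast at t1; omega
          subst this; assumption
  have fin : ∃ a : ℕ, Agr V V i1 i2 a ∧ p + n - K < C (i2 + a) := by
    rcases key ((q + n - C' j2).toNat + (n.toNat + 1)) with hd | ⟨a, b, hab, A1, -, A3⟩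
    · exact hd
    · refine ⟨a, A1, ?_⟩
      have := hq.le_add hr j2 b (by omega)
      have := hp.le_add hr i2 a (by omega)
      push_cast at *
      omega
  obtain ⟨a, A1, A2⟩ := fin
  have k1 := hp.cut_eq hp A1 a (by omega) le_rfl
  have A3 := hp.agr hp hr A1
  refine ⟨C i2 - C i1, by omega, by push_cast; omega, fun t t0 t1 => ?_⟩
  push_cast at t0 t1
  exact A3.at (by omega) (by omega) (by omega)

end Telem

theorem thm_elem : S_elem := by
  intro A B _ γ h
  obtain ⟨K1, h1⟩ := Telem.delay h
  obtain ⟨K2, h2⟩ := Telem.delay (Telem.elem_rev h)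
  obtain ⟨K3, P, h3⟩ := Telem.part3 h
  refine ⟨K1 + K2 + K3, P, fun V V' C C' U U' p q => ⟨fun i j a => ?_, fun i j a => ?_,
    fun x y n a => ?_⟩⟩
  · exact h1 V V' C C' U U' p q i j (a.sub le_rfl (by push_cast; omega) (by omega))
  · have := h2 _ _ _ _ _ _ (Telem.parse_rev p) (Telem.parse_rev q) (-i) (-j) (by
      intro t t0 t1
      simp only [neg_neg]
      push_cast at a
      exact a.at (by omega) (by omega) (by omega))
    rwa [show -1 - -i = i - 1 by ring, show -1 - -j = j - 1 by ring] at this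
  · rcases h3 V V' C C' U U' p q x y n a with c | ⟨π, c1, c2, c3⟩
    · exact Or.inl c
    · exact Or.inr ⟨π, c1, c2, c3.mono (by push_cast; omega) (by push_cast; omega)⟩

end Pool.Agent.H149Z.SU
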