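import Pool.Agent.H149Z.SU.Basic

/-! The restricted second difference as a signed count of branching families. -/

set_option autoImplicit false

namespace Pool.Agent.H149Z.SU

open Finset

namespace Tfam

theorem fiber_ite {ι Y : Type*} [DecidableEq Y] (g : ι → Y) (I : Finset ι) (S : Finset Y) :
    ∑ T ∈ I.powerset, (if T.image g = S then (-1 : ℤ) ^ T.card else 0) =
      if S ⊆ I.image g then (-1) ^ S.card else 0 := by
  classical
  induction I using Finset.induction_on generalizing S with
  | empty =>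
    by_cases h : S = ∅
    · subst h; simp
    · simp [h, Ne.symm h]
  | insert a I ha ih =>
    rw [sum_powerset_insert ha, ih S]
    by_cases hS : g a ∈ S
    · have e : ∀ T ∈ I.powerset,
          (if (insert a T).image g = S then (-1 : ℤ) ^ (insert a T).card else 0) =
          -((if T.image g = S then (-1 : ℤ) ^ T.card else 0) +
            (if T.image g = S.erase (g a) then (-1 : ℤ) ^ T.card else 0)) := by
        intro T hT
        have haT : a ∉ T := fun h => ha (mem_powerset.1 hT h)
        rw [card_insert_of_notMem haT, image_insert, pow_succ]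
        by_cases h1 : T.image g = S
        · have h2 : T.image g ≠ S.erase (g a) := by
            rw [h1]; intro h; exact notMem_erase (g a) S (h ▸ hS)
          rw [if_pos h1, if_neg h2, if_pos (by rw [h1, insert_eq_of_mem hS])]; ring
        · by_cases h2 : T.image g = S.erase (g a)
          · rw [if_neg h1, if_pos h2, if_pos (by rw [h2, insert_erase hS])]; ring
          · rw [if_neg h1, if_neg h2, if_neg]
            · simp
            · intro h
              by_cases h3 : g a ∈ T.image g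
              · exact h1 (by rw [← h, insert_eq_of_mem h3])
              · exact h2 (by rw [← h, erase_insert h3])
      rw [sum_congr rfl e, sum_neg_distrib, sum_add_distrib, ih S, ih (S.erase (g a)), image_insert]
      have hc : S.card = (S.erase (g a)).card + 1 := (card_erase_add_one hS).symm
      by_cases h4 : S.erase (g a) ⊆ I.image g
      · rw [if_pos h4, if_pos (subset_insert_iff.2 h4), hc, pow_succ]; ring
      · rw [if_neg h4, if_neg fun h => h4 (subset_insert_iff.1 h)]; ring
    · have e : ∀ T ∈ I.powerset,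
          (if (insert a T).image g = S then (-1 : ℤ) ^ (insert a T).card else 0) = 0 := by
        intro T _
        rw [if_neg]
        intro h
        exact hS (h ▸ mem_image_of_mem g (mem_insert_self a T))
      rw [sum_congr rfl e, image_insert]
      simp only [sum_const_zero, add_zero, subset_insert_iff_of_notMem hS]

end Tfam

theorem fiber_sum {ι Y : Type*} [DecidableEq Y] (I : Finset ι) (g : ι → Y) (S : Finset Y)
    (hS : S ⊆ I.image g) :
    ∑ T ∈ I.powerset.filter (fun T => T.image g = S), (-1 : ℤ) ^ T.card = (-1) ^ S.card := by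
  rw [sum_filter, Tfam.fiber_ite, if_pos hS]

namespace Tfam

theorem count_const {ι Y : Type*} [DecidableEq Y] (g : ι → Y) (I : Finset ι) :
    ∑ T ∈ I.powerset, (if (T.image g).card = 1 then (-1 : ℤ) ^ (T.card + 1) else 0) =
      (I.image g).card := by
  have e : ∀ T ∈ I.powerset, (if (T.image g).card = 1 then (-1 : ℤ) ^ (T.card + 1) else 0) =
      ∑ y ∈ I.image g, -(if T.image g = {y} then (-1 : ℤ) ^ T.card else 0) := by
    intro T hT
    split_ifs with h
    · obtain ⟨y, hy⟩ := card_eq_one.1 h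
      have hyI : y ∈ I.image g :=
        image_subset_image (mem_powerset.1 hT) (hy ▸ mem_singleton_self y)
      rw [sum_eq_single y]
      · rw [if_pos hy, pow_succ]; ring
      · intro z _ hz
        rw [if_neg]
        · simp
        · rw [hy]; intro h'; exact hz (singleton_injective h').symm
      · intro h'; exact absurd hyI h'
    · symm
      refine sum_eq_zero fun y _ => ?_
      rw [if_neg]
      · simp
      · intro h'; exact h (by rw [h', card_singleton])
  rw [sum_congr rfl e, sum_comm]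
  have e2 : ∀ y ∈ I.image g,
      ∑ T ∈ I.powerset, -(if T.image g = {y} then (-1 : ℤ) ^ T.card else 0) = 1 := by
    intro y hy
    rw [sum_neg_distrib, fiber_ite, if_pos (singleton_subset_iff.2 hy)]
    simp
  rw [sum_congr rfl e2]
  simp

theorem agrL {A : Type} (U : ℤ → A) (p q n : ℤ) (hn : 0 ≤ n) :
    Agr U U (p - 1) (q - 1) (n + 1) ↔ U (p - 1) = U (q - 1) ∧ Agr U U p q n := by
  constructor
  · intro h
    exact ⟨h.at le_rfl (by omega) (by omega), fun t a b => h.at (by omega) (by omega) (by omega)⟩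
  · rintro ⟨h1, h2⟩ t a b
    by_cases ht : t = 0
    · subst ht; simpa using h1
    · exact h2.at (by omega) (by omega) (by omega)

theorem agrR {A : Type} (U : ℤ → A) (p q n : ℤ) (hn : 0 ≤ n) :
    Agr U U p q (n + 1) ↔ U (p + n) = U (q + n) ∧ Agr U U p q n := by
  constructor
  · intro h
    exact ⟨h n hn (by omega), fun t a b => h t a (by omega)⟩
  · rintro ⟨h1, h2⟩ t a b
    by_cases ht : t = n
    · subst ht; exact h1
    · exact h2 t a (by omega)

end Tfam

open Tfam in
theorem thm_fam : S_fam := by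
  intro A _ _ U P D n hD
  classical
  have hfin := finite_fac U (fun p => P p n) (fun p => p - D) (n + 2 * D)
  set Ω := hfin.toFinset with hΩ
  have hmem : ∀ ω, ω ∈ Ω ↔ ∃ p, P p n ∧ ω = fac U (p - D) (n + 2 * D) := fun ω => by
    simp [hΩ]
  let g : ℕ → ℕ → List A → List A := fun i j ω => (ω.drop (D - i)).take (n + i + j)
  have hg : ∀ i j, i ≤ 1 → j ≤ 1 → ∀ p : ℤ,
      g i j (fac U (p - D) (n + 2 * D)) = fac U (p - i) (n + i + j) := by
    intro i j hi hj p
    simp only [g]
    rw [fac_drop_take _ _ _ _ _ (by omega)]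
    congr 1
    omega
  have hcnt : ∀ i j, i ≤ 1 → j ≤ 1 → cnt U P i j n = (Ω.image (g i j)).card := by
    intro i j hi hj
    rw [cnt, ← Set.ncard_coe_finset]
    congr 1
    ext w
    simp only [Set.mem_ofPred_eq, coe_image, Set.mem_image, mem_coe, hmem]
    constructor
    · rintro ⟨p, hp, rfl⟩; exact ⟨_, ⟨p, hp, rfl⟩, hg i j hi hj p⟩
    · rintro ⟨_, ⟨p, hp, rfl⟩, rfl⟩; exact ⟨p, hp, hg i j hi hj p⟩
  have hone : ∀ i j, i ≤ 1 → j ≤ 1 → ∀ T : Finset ℤ,
      (((T.image fun p => fac U (p - D) (n + 2 * D)).image (g i j)).card = 1 ↔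
        T.Nonempty ∧ ∀ p ∈ T, ∀ q ∈ T, Agr U U (p - i) (q - i) (n + i + j)) := by
    intro i j hi hj T
    rw [image_image]
    have : (g i j ∘ fun p : ℤ => fac U (p - D) (n + 2 * D)) =
        fun p : ℤ => fac U (p - i) (n + i + j) := funext fun p => hg i j hi hj p
    rw [this]
    constructor
    · intro h
      refine ⟨image_nonempty.1 (card_pos.1 (h.symm ▸ one_pos)), fun p hp q hq => ?_⟩
      have := card_le_one.1 h.le _ (mem_image_of_mem _ hp) _ (mem_image_of_mem _ hq)
      simpa using (fac_eq_iff _ _ _ _ _).1 this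
    · rintro ⟨h1, h2⟩
      refine le_antisymm (card_le_one.2 ?_) (card_pos.2 (h1.image _))
      intro a ha b hb
      obtain ⟨p, hp, rfl⟩ := mem_image.1 ha
      obtain ⟨q, hq, rfl⟩ := mem_image.1 hb
      exact (fac_eq_iff _ _ _ _ _).2 (by simpa using h2 p hp q hq)
  have hn : (0 : ℤ) ≤ n := Int.natCast_nonneg n
  have key : ∀ T : Finset ℤ, ∀ S, S = (T.image fun p => fac U (p - D) (n + 2 * D)) →
      ((S.image (g 0 0)).card = 1 ↔ T.Nonempty ∧ ∀ p ∈ T, ∀ q ∈ T, Agr U U p q n) ∧
      ((S.image (g 1 0)).card = 1 ↔ T.Nonempty ∧ ∀ p ∈ T, ∀ q ∈ T,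
        U (p - 1) = U (q - 1) ∧ Agr U U p q n) ∧
      ((S.image (g 0 1)).card = 1 ↔ T.Nonempty ∧ ∀ p ∈ T, ∀ q ∈ T,
        U (p + n) = U (q + n) ∧ Agr U U p q n) ∧
      ((S.image (g 1 1)).card = 1 ↔ T.Nonempty ∧ ∀ p ∈ T, ∀ q ∈ T,
        U (p + n) = U (q + n) ∧ U (p - 1) = U (q - 1) ∧ Agr U U p q n) := by
    rintro T _ rfl
    refine ⟨?_, ?_, ?_, ?_⟩
    · simpa using hone 0 0 zero_le_one zero_le_one T
    · simpa [agrL U _ _ _ hn] using hone 1 0 le_rfl zero_le_one T
    · simpa [agrR U _ _ _ hn] using hone 0 1 zero_le_one le_rfl T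
    · have := hone 1 1 le_rfl le_rfl T
      simp only [Nat.cast_one, agrR U _ _ _ (by omega : (0 : ℤ) ≤ n + 1), agrL U _ _ _ hn,
        sub_add_add_cancel] at this
      exact this
  have hF : FamSet U P D n = ↑(Ω.powerset.filter fun S => (S.image (g 0 0)).card = 1 ∧
      ¬(S.image (g 1 0)).card = 1 ∧ ¬(S.image (g 0 1)).card = 1) := by
    ext S
    simp only [FamSet, Set.mem_ofPred_eq, coe_filter, mem_powerset]
    constructor
    · rintro ⟨T, hS, h1, h2, ⟨p, hp, q, hq, h3⟩, ⟨p', hp', q', hq', h4⟩⟩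
      obtain ⟨k0, k1, k2, -⟩ := key T S hS
      refine ⟨?_, k0.2 ⟨⟨p, hp⟩, h2⟩, fun h => h3 ((k1.1 h).2 p hp q hq).1,
        fun h => h4 ((k2.1 h).2 p' hp' q' hq').1⟩
      intro ω hω
      rw [hS] at hω
      obtain ⟨r, hr, rfl⟩ := mem_image.1 hω
      exact (hmem _).2 ⟨r, h1 r hr, rfl⟩
    · rintro ⟨hS, c0, c1, c2⟩
      have : ∀ ω ∈ S, ∃ p, P p n ∧ ω = fac U (p - D) (n + 2 * D) := fun ω h => (hmem ω).1 (hS h)
      choose! pos h1 h2 using this
      have hT : S = (S.image pos).image fun p => fac U (p - D) (n + 2 * D) := by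
        rw [image_image]
        conv_lhs => rw [← image_id (s := S)]
        exact image_congr fun ω hω => h2 ω hω
      obtain ⟨k0, k1, k2, -⟩ := key _ S hT
      obtain ⟨hne, hag⟩ := k0.1 c0
      refine ⟨S.image pos, hT, ?_, hag, ?_, ?_⟩
      · intro p hp
        obtain ⟨ω, hω, rfl⟩ := mem_image.1 hp
        exact h1 ω hω
      · by_contra h
        push Not at h
        exact c1 (k1.2 ⟨hne, fun p hp q hq => ⟨h p hp q hq, hag p hp q hq⟩⟩)
      · by_contra h
        push Not at h
        exact c2 (k2.2 ⟨hne, fun p hp q hq => ⟨h p hp q hq, hag p hp q hq⟩⟩)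
  refine ⟨hF ▸ finite_toSet _, ?_⟩
  rw [hF, finsum_mem_coe_finset, sum_filter, B2, hcnt 1 1 le_rfl le_rfl, hcnt 1 0 le_rfl zero_le_one,
    hcnt 0 1 zero_le_one le_rfl, hcnt 0 0 zero_le_one zero_le_one, ← count_const, ← count_const,
    ← count_const, ← count_const, ← sum_sub_distrib, ← sum_sub_distrib, ← sum_add_distrib]
  refine sum_congr rfl fun S hS => ?_
  have : ∀ ω ∈ S, ∃ p, P p n ∧ ω = fac U (p - D) (n + 2 * D) :=
    fun ω h => (hmem ω).1 (mem_powerset.1 hS h)
  choose! pos h1 h2 using this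
  have hT : S = (S.image pos).image fun p => fac U (p - D) (n + 2 * D) := by
    rw [image_image]
    conv_lhs => rw [← image_id (s := S)]
    exact image_congr fun ω hω => h2 ω hω
  obtain ⟨k0, k1, k2, k3⟩ := key _ S hT
  have a1 : (S.image (g 1 0)).card = 1 → (S.image (g 0 0)).card = 1 := fun h =>
    k0.2 ⟨(k1.1 h).1, fun p hp q hq => ((k1.1 h).2 p hp q hq).2⟩
  have a2 : (S.image (g 0 1)).card = 1 → (S.image (g 0 0)).card = 1 := fun h =>
    k0.2 ⟨(k2.1 h).1, fun p hp q hq => ((k2.1 h).2 p hp q hq).2⟩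
  have a3 : (S.image (g 1 1)).card = 1 ↔
      (S.image (g 1 0)).card = 1 ∧ (S.image (g 0 1)).card = 1 := by
    rw [k1, k2, k3]
    exact ⟨fun h => ⟨⟨h.1, fun p hp q hq => (h.2 p hp q hq).2⟩,
      ⟨h.1, fun p hp q hq => ⟨(h.2 p hp q hq).1, (h.2 p hp q hq).2.2⟩⟩⟩,
      fun h => ⟨h.1.1, fun p hp q hq => ⟨(h.2.2 p hp q hq).1, h.1.2 p hp q hq⟩⟩⟩
  simp only [a3]
  by_cases b1 : (S.image (g 1 0)).card = 1
  · by_cases b2 : (S.image (g 0 1)).card = 1 <;> simp [b1, b2, a1 b1]
  · by_cases b2 : (S.image (g 0 1)).card = 1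
    · simp [b1, b2, a2 b2]
    · simp [b1, b2]

end Pool.Agent.H149Z.SU
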