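import Pool.Agent.H149Z.SU.Basic

/-! The recognizability package `Good` exists (task `good` of the plan for `S08765`). -/

set_option autoImplicit false

namespace Pool.Agent.H149Z.SU

namespace Tgood

variable {A : Type}

/-- One threshold for all periods up to a bound. -/
theorem univB {U : ℤ → A} {Q : ℕ}
    (hN : ∀ π : ℤ, 1 ≤ π → ∃ N : ℕ, ∀ a b : ℤ, a + N ≤ b → Per U π a b → Per U Q a b) (B : ℕ) :
    ∃ N : ℕ, ∀ π : ℤ, 1 ≤ π → π ≤ B → ∀ a b : ℤ, a + N ≤ b → Per U π a b → Per U Q a b := by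
  induction B with
  | zero => exact ⟨0, fun π h1 h2 => by omega⟩
  | succ B ih =>
    obtain ⟨N1, h1⟩ := ih
    obtain ⟨N2, h2⟩ := hN ((B : ℤ) + 1) (by omega)
    refine ⟨N1 + N2, fun π a1 a2 a b hab hp => ?_⟩
    by_cases hc : π ≤ B
    · exact h1 π a1 hc a b (by push_cast at hab; omega) hp
    · have e : π = (B : ℤ) + 1 := by push_cast at a2; omega
      subst e
      exact h2 a b (by push_cast at hab; omega) hp

/-- Trimmed form, without length condition. -/
theorem trim {U : ℤ → A} {Q : ℕ} {π a b : ℤ} {N : ℕ}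
    (h : ∀ a b : ℤ, a + N ≤ b → Per U π a b → Per U Q a b) (hp : Per U π a b) :
    Per U Q (a + N) (b - N) := by
  by_cases hc : a + N ≤ b
  · exact (h a b hc hp).mono (by omega) (by omega)
  · intro t h1 h2
    omega

theorem sync_mono {X : Sys A} {K K' : ℕ} (hK : K ≤ K') {p q n : ℤ} (h : Sync X K p q n) :
    Sync X K' p q n := by
  obtain ⟨i, j, m, h0, h1, h2, h3, h4, h5, h6⟩ := h
  exact ⟨i, j, m, h0, h1, h2, by omega, by omega, h5, h6⟩

theorem agr_glue {U U' : ℤ → A} {p q n p' q' n' : ℤ} (h : Agr U U' p q n)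
    (h' : Agr U U' p' q' n') (e1 : p' = p + n) (e2 : q' = q + n) :
    Agr U U' p q (n + n') := by
  intro t h0 ht
  by_cases hc : t < n
  · exact h t h0 hc
  · exact h'.at (by omega) (by omega) (by omega)

theorem ub (X : Sys A) {M : ℕ} (hM : ∀ a, (X.σ a).length ≤ M) {i j : ℤ} (h : i ≤ j) :
    X.c j ≤ X.c i + M * (j - i) := by
  have := X.parse.add_le hM i (j - i) (by omega)
  rwa [show i + (j - i) = j by ring] at this

theorem delayL (X : Sys A) {Q M K1 K3 K : ℕ} (hQ : 1 ≤ Q) (hM : ∀ a, (X.σ a).length ≤ M)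
    (hs : ∀ p q n : ℤ, Agr X.U X.U p q n → Sync X K1 p q n ∨ Per X.U Q (p + K1) (p + n - K1))
    (hp : ∀ i m : ℤ, Per X.U Q (X.c i) (X.c (i + m)) → Per X.U Q (i + K3) (i + m - K3))
    (hK1 : K1 + M * (K3 + 1) ≤ K) (hK2 : Q + K3 + K1 ≤ K) (i j : ℤ)
    (hA : Agr X.U X.U i j K) (hne : X.U (i - 1) ≠ X.U (j - 1)) :
    ¬ Agr X.U X.U (X.c i - K) (X.c j - K) K := by
  intro hB
  have hK1' : (K1 : ℤ) + M * (K3 + 1) ≤ K := by exact_mod_cast hK1
  have hC := agr_glue hB (X.agr hA) (by ring) (by ring)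
  have hcut := X.cut_at hA (x := i + K) (y := j + K) (by omega) (by omega) (by omega)
  have hlb := X.lb (show i ≤ i + K by omega)
  rcases hs _ _ _ hC with ⟨i', j', m', h0, h1, h2, h3, h4, h5, h6⟩ | hper
  · have a1 : i' < i := X.mono.lt_iff_lt.mp (by omega)
    have a2 : i ≤ i' + m' := X.mono.le_iff_le.mp (by omega)
    have a3 := X.cut_at h6 (x := i) (y := j' + (i - i')) (by omega) (by omega) (by omega)
    have a4 : j' + (i - i') = j := X.mono.injective (by omega)
    exact hne (h6.at (by omega) (by omega) (by omega))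
  · have hper' := hper.agr (by omega) hC (by omega) (by omega)
    have key : ∀ l : ℤ, Per X.U Q (X.c l - K + K1) (X.c (l + K) - K1) →
        X.U (l - 1) = X.U (l - 1 + Q) := by
      intro l hl
      have b1 := ub X hM (show l - (K3 + 1) ≤ l by omega)
      rw [show l - (l - (K3 + 1)) = (K3 : ℤ) + 1 by ring] at b1
      have b2 := X.lb (show l - (K3 + 1) + (Q + (K3 + 1) + K3) ≤ l + K by omega)
      have b3 := hp (l - (K3 + 1)) (Q + (K3 + 1) + K3) (hl.mono (by omega) (by omega))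
      exact b3 (l - 1) (by omega) (by omega)
    have e1 := key i (hper.mono (by omega) (by omega))
    have e2 := key j (hper'.mono (by omega) (by omega))
    have e3 : X.U (i - 1 + Q) = X.U (j - 1 + Q) := hA.at (by omega) (by omega) (by omega)
    exact hne (e1.trans (e3.trans e2.symm))

theorem delayR (X : Sys A) {Q M K1 K3 K : ℕ} (hQ : 1 ≤ Q) (hM : ∀ a, (X.σ a).length ≤ M)
    (hs : ∀ p q n : ℤ, Agr X.U X.U p q n → Sync X K1 p q n ∨ Per X.U Q (p + K1) (p + n - K1))
    (hp : ∀ i m : ℤ, Per X.U Q (X.c i) (X.c (i + m)) → Per X.U Q (i + K3) (i + m - K3))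
    (hK1 : K1 + M * (K3 + 1) ≤ K) (hK2 : Q + K3 + K1 ≤ K) (i j : ℤ)
    (hA : Agr X.U X.U (i - K) (j - K) K) (hne : X.U i ≠ X.U j) :
    ¬ Agr X.U X.U (X.c i) (X.c j) K := by
  intro hB
  have hK1' : (K1 : ℤ) + M * (K3 + 1) ≤ K := by exact_mod_cast hK1
  have hcut := X.cut_at hA (x := i) (y := j) (by omega) (by omega) (by omega)
  have hA' := X.agr hA
  rw [show i - K + K = i by ring] at hA'
  have hC := agr_glue hA' hB (by ring) (by omega)
  have hlb := X.lb (show i - K ≤ i by omega)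
  rcases hs _ _ _ hC with ⟨i', j', m', h0, h1, h2, h3, h4, h5, h6⟩ | hper
  · have a1 : i' ≤ i := X.mono.le_iff_le.mp (by omega)
    have a2 : i < i' + m' := X.mono.lt_iff_lt.mp (by omega)
    have a3 := X.cut_at h6 (x := i) (y := j' + (i - i')) (by omega) (by omega) (by omega)
    have a4 : j' + (i - i') = j := X.mono.injective (by omega)
    exact hne (h6.at (by omega) (by omega) (by omega))
  · have hper' := hper.agr (by omega) hC (by omega) (by omega)
    have key : ∀ l : ℤ, Per X.U Q (X.c (l - K) + K1) (X.c l + K - K1) →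
        X.U (l - Q) = X.U l := by
      intro l hl
      have b1 := ub X hM (show l ≤ l - Q - K3 + (Q + 2 * K3 + 1) by omega)
      rw [show l - Q - K3 + (Q + 2 * K3 + 1) - l = (K3 : ℤ) + 1 by ring] at b1
      have b2 := X.lb (show l - K ≤ l - Q - K3 by omega)
      have b3 := hp (l - Q - K3) (Q + 2 * K3 + 1) (hl.mono (by omega) (by omega))
      have b4 := b3 (l - Q) (by omega) (by omega)
      rwa [show l - Q + Q = l by ring] at b4
    have e1 := key i (hper.mono (by omega) (by omega))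
    have e2 := key j (hper'.mono (by omega) (by omega))
    have e3 : X.U (i - Q) = X.U (j - Q) := hA.at (by omega) (by omega) (by omega)
    exact hne (e1.symm.trans (e3.trans e2))

theorem per_img (X : Sys A) {Q M N : ℕ} (hQ : 1 ≤ Q) (hM : ∀ a, (X.σ a).length ≤ M)
    (hN : ∀ π : ℤ, 1 ≤ π → π ≤ (M * Q : ℕ) → ∀ a b : ℤ, a + N ≤ b → Per X.U π a b →
      Per X.U Q a b) (i m : ℤ) (h1 : (Q : ℤ) ≤ m) (h2 : (N : ℤ) ≤ m)
    (h : Per X.U Q i (i + m)) : Per X.U Q (X.c i) (X.c (i + m)) := by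
  have hA : Agr X.U X.U i (i + Q) (m - Q) := by
    intro t h0 ht
    rw [h (i + t) (by omega) (by omega)]
    congr 1
    ring
  have hB := X.agr hA
  have hcut := X.cut_at hA (x := i + (m - Q)) (y := i + m) (by omega) (by omega) (by omega)
  have b1 := X.lb (show i ≤ i + Q by omega)
  have b2 := ub X hM (show i ≤ i + Q by omega)
  rw [show i + Q - i = (Q : ℤ) by ring] at b2
  have b3 := X.lb (show i ≤ i + m by omega)
  refine hN (X.c (i + Q) - X.c i) (by omega) (by push_cast; omega) _ _ (by omega) ?_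
  intro t a1 a2
  exact hB.at (by omega) (by omega) (by omega)

end Tgood

theorem thm_good (h1 : S_rec) (h2 : S_univ) : S_good := by
  intro A _ X
  obtain ⟨Q, hQ, hN⟩ := h2 A X
  obtain ⟨⟨K0, P, hS⟩, hR⟩ := h1 A X
  obtain ⟨M, hM⟩ : ∃ M : ℕ, ∀ a, (X.σ a).length ≤ M :=
    ⟨Finset.univ.sup fun a => (X.σ a).length, fun a =>
      Finset.le_sup (f := fun a => (X.σ a).length) (Finset.mem_univ a)⟩
  obtain ⟨N1, hN1⟩ := Tgood.univB hN P
  obtain ⟨N2, hN2⟩ := Tgood.univB hN (M * Q)
  obtain ⟨K', P', hR'⟩ := hR Q (by omega)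
  obtain ⟨N3, hN3⟩ := Tgood.univB hN P'
  have hs : ∀ p q n : ℤ, Agr X.U X.U p q n →
      Sync X (K0 + N1) p q n ∨ Per X.U Q (p + (K0 + N1 : ℕ)) (p + n - (K0 + N1 : ℕ)) := by
    intro p q n h
    rcases hS p q n h with h | ⟨π, a1, a2, a3⟩
    · exact Or.inl (Tgood.sync_mono (by omega) h)
    · exact Or.inr ((Tgood.trim (hN1 π a1 a2) a3).mono (by push_cast; omega)
        (by push_cast; omega))
  have hp : ∀ i m : ℤ, Per X.U Q (X.c i) (X.c (i + m)) →
      Per X.U Q (i + (K' + N3 : ℕ)) (i + m - (K' + N3 : ℕ)) := by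
    intro i m h
    obtain ⟨π, a1, a2, a3⟩ := hR' i m h
    exact (Tgood.trim (hN3 π a1 a2) a3).mono (by push_cast; omega) (by push_cast; omega)
  obtain ⟨W, hW⟩ : ∃ W : ℕ, W = M * (K' + N3 + 1) := ⟨_, rfl⟩
  refine ⟨Q, K0 + N1 + W + Q + (K' + N3) + N2 + M, hQ, fun a => ?_, ?_, ?_, ?_, ?_, ?_⟩
  · have := hM a
    omega
  · intro p q n h
    rcases hs p q n h with h | h
    · exact Or.inl (Tgood.sync_mono (by omega) h)
    · exact Or.inr (h.mono (by push_cast; omega) (by push_cast; omega))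
  · intro i m hm h
    exact Tgood.per_img X hQ hM hN2 i m (by push_cast at hm; omega) (by push_cast at hm; omega) h
  · intro i m h
    exact (hp i m h).mono (by push_cast; omega) (by push_cast; omega)
  · exact Tgood.delayL X hQ hM hs hp (by omega) (by omega)
  · exact Tgood.delayR X hQ hM hs hp (by omega) (by omega)

end Pool.Agent.H149Z.SU
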