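import Pool.Agent.H149Z.SU.Basic

/-! Growth of `|σ^k(b)|` for a substitution all of whose images have length at least two. -/

set_option autoImplicit false

namespace Pool.Agent.H149Z.SU

namespace Tgrowth

theorem pf_le {ι : Type*} [Fintype ι] (A : Matrix ι ι ℝ)
    (h0 : ∀ i j, 0 ≤ A i j) (w : ι → ℝ) (hw : ∀ i, 0 ≤ w i) (hs : 0 < ∑ i, w i) (r : ℝ)
    (hr : ∀ i, r * w i ≤ A.mulVec w i) : r ≤ ∑ i, ∑ j, A i j := by
  have h1 : r * ∑ i, w i ≤ (∑ i, ∑ j, A i j) * ∑ i, w i := by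
    rw [Finset.mul_sum]
    calc ∑ i, r * w i ≤ ∑ i, A.mulVec w i := Finset.sum_le_sum fun i _ => hr i
      _ = ∑ i, ∑ j, A i j * w j := rfl
      _ ≤ ∑ i, ∑ j, A i j * ∑ k, w k := by
          refine Finset.sum_le_sum fun i _ => Finset.sum_le_sum fun j _ => ?_
          exact mul_le_mul_of_nonneg_left
            (Finset.single_le_sum (f := w) (fun k _ => hw k) (Finset.mem_univ j)) (h0 i j)
      _ = (∑ i, ∑ j, A i j) * ∑ i, w i := by
          rw [Finset.sum_mul]
          exact Finset.sum_congr rfl fun i _ => by rw [Finset.sum_mul]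
  exact le_of_mul_le_mul_right h1 hs

/-- Maximal Collatz-Wielandt number. -/
theorem pf_max {ι : Type*} [Fintype ι] [DecidableEq ι] [Nonempty ι] (A : Matrix ι ι ℝ)
    (h0 : ∀ i j, 0 ≤ A i j) :
    ∃ (v : ι → ℝ) (L : ℝ), (∀ i, 0 ≤ v i) ∧ ∑ i, v i = 1 ∧ 0 ≤ L ∧ (∀ i, L * v i ≤ A.mulVec v i) ∧
      ∀ (w : ι → ℝ) (r : ℝ), (∀ i, 0 ≤ w i) → 0 < ∑ i, w i → 0 ≤ r →
        (∀ i, r * w i ≤ A.mulVec w i) → r ≤ L := by
  set R : ℝ := ∑ i, ∑ j, A i j with hR
  have hR0 : 0 ≤ R := Finset.sum_nonneg fun i _ => Finset.sum_nonneg fun j _ => h0 i j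
  set K : Set ((ι → ℝ) × ℝ) := (stdSimplex ℝ ι ×ˢ Set.Icc 0 R) ∩
    {x | ∀ i, x.2 * x.1 i ≤ A.mulVec x.1 i} with hK
  have hmc : ∀ i, Continuous fun x : (ι → ℝ) × ℝ => A.mulVec x.1 i := by
    intro i
    unfold Matrix.mulVec dotProduct
    fun_prop
  have hclosed : IsClosed {x : (ι → ℝ) × ℝ | ∀ i, x.2 * x.1 i ≤ A.mulVec x.1 i} := by
    have : {x : (ι → ℝ) × ℝ | ∀ i, x.2 * x.1 i ≤ A.mulVec x.1 i} =
        ⋂ i, {x : (ι → ℝ) × ℝ | x.2 * x.1 i ≤ A.mulVec x.1 i} := by
      ext x; simp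
    rw [this]
    refine isClosed_iInter fun i => isClosed_le ?_ (hmc i)
    fun_prop
  have hcomp : IsCompact K :=
    ((isCompact_stdSimplex ℝ ι).prod isCompact_Icc).inter_right hclosed
  have hne : K.Nonempty := by
    obtain ⟨i0⟩ := (inferInstance : Nonempty ι)
    refine ⟨(Pi.single i0 1, 0), ⟨⟨single_mem_stdSimplex ℝ i0, ⟨le_refl _, hR0⟩⟩, ?_⟩⟩
    intro i
    simp only [zero_mul]
    unfold Matrix.mulVec dotProduct
    refine Finset.sum_nonneg fun j _ => mul_nonneg (h0 i j) ?_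
    by_cases h : j = i0
    · subst h; simp
    · simp [Pi.single_eq_of_ne h]
  obtain ⟨x, hxK, hxmax⟩ := hcomp.exists_isMaxOn hne (f := fun x => x.2) continuous_snd.continuousOn
  obtain ⟨⟨hx1, hx2⟩, hx3⟩ := hxK
  refine ⟨x.1, x.2, hx1.1, hx1.2, hx2.1, hx3, ?_⟩
  intro w r hw hs hr0 hr
  have hrR : r ≤ R := pf_le A h0 w hw hs r hr
  have hmem : (((∑ i, w i)⁻¹ • w, r) : (ι → ℝ) × ℝ) ∈ K := by
    refine ⟨⟨⟨fun i => ?_, ?_⟩, ⟨hr0, hrR⟩⟩, ?_⟩
    · exact mul_nonneg (inv_nonneg.mpr hs.le) (hw i)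
    · show ∑ i, (∑ i, w i)⁻¹ * w i = 1
      rw [← Finset.mul_sum]
      exact inv_mul_cancel₀ hs.ne'
    · intro i
      show r * ((∑ i, w i)⁻¹ * w i) ≤ A.mulVec ((∑ i, w i)⁻¹ • w) i
      rw [Matrix.mulVec_smul]
      show r * ((∑ i, w i)⁻¹ * w i) ≤ (∑ i, w i)⁻¹ * A.mulVec w i
      have := mul_le_mul_of_nonneg_left (hr i) (inv_nonneg.mpr hs.le)
      calc r * ((∑ i, w i)⁻¹ * w i) = (∑ i, w i)⁻¹ * (r * w i) := by ring
        _ ≤ _ := this
  exact hxmax hmem

/-- A nonnegative eigenvector of an irreducible nonnegative matrix. -/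
theorem pf_eig {ι : Type*} [Fintype ι] [DecidableEq ι] [Nonempty ι] (A : Matrix ι ι ℝ)
    (h0 : ∀ i j, 0 ≤ A i j)
    (hirr : ∀ S : Finset ι, S.Nonempty → S ≠ Finset.univ → ∃ i, i ∉ S ∧ ∃ j ∈ S, 0 < A i j) :
    ∃ (v : ι → ℝ) (L : ℝ), (∀ i, 0 ≤ v i) ∧ 0 < ∑ i, v i ∧ 0 ≤ L ∧
      ∀ i, A.mulVec v i = L * v i := by
  classical
  obtain ⟨v0, L, hv0, hvs, hL0, hLv, hmax⟩ := pf_max A h0
  by_contra hcon
  push Not at hcon
  have hmv : ∀ z : ι → ℝ, (∀ i, 0 ≤ z i) → ∀ i, 0 ≤ A.mulVec z i := by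
    intro z hz i
    unfold Matrix.mulVec dotProduct
    exact Finset.sum_nonneg fun j _ => mul_nonneg (h0 i j) (hz j)
  have key : ∀ n : ℕ, ∃ v : ι → ℝ, (∀ i, 0 ≤ v i) ∧ 0 < ∑ i, v i ∧
      (∀ i, L * v i ≤ A.mulVec v i) ∧
      n ≤ (Finset.univ.filter (fun i => L * v i < A.mulVec v i)).card := by
    intro n
    induction n with
    | zero => exact ⟨v0, hv0, by rw [hvs]; norm_num, hLv, Nat.zero_le _⟩
    | succ n ih =>
      obtain ⟨v, hv, hs, hL, hn⟩ := ih
      set S := Finset.univ.filter (fun i => L * v i < A.mulVec v i) with hS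
      have hmem : ∀ i, i ∈ S ↔ L * v i < A.mulVec v i := fun i => by simp [hS]
      have hne : S.Nonempty := by
        obtain ⟨i, hi⟩ := hcon v L hv hs hL0
        exact ⟨i, (hmem i).2 (lt_of_le_of_ne (hL i) (Ne.symm hi))⟩
      have hnu : S ≠ Finset.univ := by
        intro hU
        have hall : ∀ i, L * v i < A.mulVec v i := fun i =>
          (hmem i).1 (hU ▸ Finset.mem_univ i)
        obtain ⟨i0, hi0⟩ := Finite.exists_min (fun i => (A.mulVec v i - L * v i) / (v i + 1))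
        set ε := (A.mulVec v i0 - L * v i0) / (v i0 + 1) with hε
        have hε0 : 0 < ε := div_pos (by linarith [hall i0]) (by linarith [hv i0])
        have := hmax v (L + ε) hv hs (by linarith) (fun i => by
          have h1 := hi0 i
          rw [le_div_iff₀ (by linarith [hv i])] at h1
          nlinarith [hv i])
        linarith
      obtain ⟨i1, hiS, j1, hjS, hij⟩ := hirr S hne hnu
      set z : ι → ℝ := A.mulVec v - L • v with hz
      have hzi : ∀ i, z i = A.mulVec v i - L * v i := fun i => rfl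
      have hz0 : ∀ i, 0 ≤ z i := fun i => by rw [hzi]; linarith [hL i]
      have hdiff : ∀ i, A.mulVec (v + A.mulVec v) i - L * (v + A.mulVec v) i
          = z i + A.mulVec z i := by
        intro i
        rw [hz, Matrix.mulVec_add, Matrix.mulVec_sub, Matrix.mulVec_smul]
        simp only [Pi.add_apply, Pi.sub_apply, Pi.smul_apply, smul_eq_mul]
        ring
      refine ⟨v + A.mulVec v, fun i => add_nonneg (hv i) (hmv v hv i), ?_, ?_, ?_⟩
      · refine lt_of_lt_of_le hs (Finset.sum_le_sum fun i _ => ?_)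
        have := hmv v hv i
        simp only [Pi.add_apply]
        linarith
      · intro i
        have := hdiff i
        linarith [hz0 i, hmv z hz0 i]
      · have hsub : insert i1 S ⊆ Finset.univ.filter
            (fun i => L * (v + A.mulVec v) i < A.mulVec (v + A.mulVec v) i) := by
          intro i hi
          rw [Finset.mem_filter]
          refine ⟨Finset.mem_univ _, ?_⟩
          have h1 := hdiff i
          rcases Finset.mem_insert.1 hi with rfl | hi
          · have h2 : 0 < A.mulVec z i := by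
              unfold Matrix.mulVec dotProduct
              refine Finset.sum_pos' (fun k _ => mul_nonneg (h0 i k) (hz0 k))
                ⟨j1, Finset.mem_univ _, mul_pos hij ?_⟩
              rw [hzi]
              linarith [(hmem j1).1 hjS]
            linarith [hz0 i]
          · have h2 : 0 < z i := by
              rw [hzi]
              linarith [(hmem i).1 hi]
            linarith [hmv z hz0 i]
        have := Finset.card_le_card hsub
        rw [Finset.card_insert_of_notMem hiS] at this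
        omega
  obtain ⟨v, -, -, -, hn⟩ := key (Fintype.card ι + 1)
  have := Finset.card_le_univ (Finset.univ.filter (fun i => L * v i < A.mulVec v i))
  omega

/-- `g k` has exact order `(k+1)^d lam^k`. -/
def Th (lam : ℝ) (d : ℕ) (g : ℕ → ℝ) : Prop :=
  ∃ c1 c2 : ℝ, 0 < c1 ∧ 0 < c2 ∧ ∀ k : ℕ,
    c1 * (((k : ℝ) + 1) ^ d * lam ^ k) ≤ g k ∧ g k ≤ c2 * (((k : ℝ) + 1) ^ d * lam ^ k)

def Cls (g : ℕ → ℝ) : Prop := ∃ (lam : ℝ) (d : ℕ), 1 < lam ∧ Th lam d g

theorem dom (d : ℕ) {lam mu : ℝ} (h0 : 0 < lam) (h : lam < mu) :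
    ∃ K : ℝ, 0 < K ∧ ∀ k : ℕ, ((k : ℝ) + 1) ^ d * lam ^ k ≤ K * mu ^ k := by
  have hmu : 0 < mu := h0.trans h
  set r : ℝ := lam / mu with hr
  have hr0 : 0 < r := div_pos h0 hmu
  have hr1 : r < 1 := (div_lt_one hmu).2 h
  have ht := tendsto_pow_const_mul_const_pow_of_abs_lt_one d (r := r) (by rwa [abs_of_pos hr0])
  obtain ⟨B, hB⟩ := ht.bddAbove_range
  have hB' : ∀ n : ℕ, (n : ℝ) ^ d * r ^ n ≤ B := fun n => hB ⟨n, rfl⟩
  have hBpos : 0 < B := by
    have := hB' 1
    simp only [Nat.cast_one, one_pow, pow_one, one_mul] at this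
    linarith
  refine ⟨B / r, div_pos hBpos hr0, fun k => ?_⟩
  have h1 := hB' (k + 1)
  push_cast at h1
  have h2 : lam ^ k = r ^ k * mu ^ k := by
    rw [← mul_pow, hr, div_mul_cancel₀ _ hmu.ne']
  have h3 : ((k : ℝ) + 1) ^ d * r ^ k ≤ B / r := by
    rw [le_div_iff₀ hr0, mul_assoc, ← pow_succ]
    exact h1
  rw [h2, ← mul_assoc]
  exact mul_le_mul_of_nonneg_right h3 (pow_pos hmu k).le

theorem wt_pos (d : ℕ) {lam : ℝ} (h : 0 < lam) (k : ℕ) : 0 < ((k : ℝ) + 1) ^ d * lam ^ k := by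
  positivity

theorem one_le_wt (d : ℕ) (k : ℕ) : (1 : ℝ) ≤ ((k : ℝ) + 1) ^ d :=
  one_le_pow₀ (by have : (0 : ℝ) ≤ k := Nat.cast_nonneg k; linarith)

theorem Th.add_of_le {l1 l2 : ℝ} {d1 d2 : ℕ} {g h : ℕ → ℝ} (hl : 0 < l1) (hg : Th l1 d1 g)
    (hh : Th l2 d2 h) (K : ℝ) (hK0 : 0 < K)
    (hK : ∀ k : ℕ, ((k : ℝ) + 1) ^ d1 * l1 ^ k ≤ K * (((k : ℝ) + 1) ^ d2 * l2 ^ k)) :
    Th l2 d2 (fun k => g k + h k) := by
  obtain ⟨a1, a2, ha1, ha2, ha⟩ := hg
  obtain ⟨b1, b2, hb1, hb2, hb⟩ := hh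
  refine ⟨b1, a2 * K + b2, hb1, by positivity, fun k => ⟨?_, ?_⟩⟩
  · have h1 := (ha k).1
    have h2 := (hb k).1
    have h3 := mul_pos ha1 (wt_pos d1 hl k)
    show _ ≤ g k + h k
    linarith
  · have h1 := (ha k).2
    have h2 := (hb k).2
    have h3 := mul_le_mul_of_nonneg_left (hK k) ha2.le
    show g k + h k ≤ _
    nlinarith

theorem wt_cmp {l1 l2 : ℝ} {d1 d2 : ℕ} (hl : 0 < l1) (h : l1 < l2 ∨ (l1 = l2 ∧ d1 ≤ d2)) :
    ∃ K : ℝ, 0 < K ∧
      ∀ k : ℕ, ((k : ℝ) + 1) ^ d1 * l1 ^ k ≤ K * (((k : ℝ) + 1) ^ d2 * l2 ^ k) := by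
  rcases h with h | ⟨rfl, h⟩
  · obtain ⟨K, hK0, hK⟩ := dom d1 hl h
    refine ⟨K, hK0, fun k => (hK k).trans (mul_le_mul_of_nonneg_left ?_ hK0.le)⟩
    have h1 := one_le_wt d2 k
    have h2 : 0 < l2 ^ k := pow_pos (hl.trans h) k
    nlinarith
  · refine ⟨1, one_pos, fun k => ?_⟩
    rw [one_mul]
    refine mul_le_mul_of_nonneg_right ?_ (pow_pos hl k).le
    exact pow_le_pow_right₀ (by have : (0 : ℝ) ≤ k := Nat.cast_nonneg k; linarith) h

theorem Cls.add {g h : ℕ → ℝ} (hg : Cls g) (hh : Cls h) : Cls (fun k => g k + h k) := by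
  obtain ⟨l1, d1, hl1, hg⟩ := hg
  obtain ⟨l2, d2, hl2, hh⟩ := hh
  by_cases hc : l1 < l2 ∨ (l1 = l2 ∧ d1 ≤ d2)
  · obtain ⟨K, hK0, hK⟩ := wt_cmp (by linarith) hc
    exact ⟨l2, d2, hl2, hg.add_of_le (by linarith) hh K hK0 hK⟩
  · have hc' : l2 < l1 ∨ (l2 = l1 ∧ d2 ≤ d1) := by
      push Not at hc
      rcases hc.1.lt_or_eq with h1 | h1
      · exact Or.inl h1
      · exact Or.inr ⟨h1, (hc.2 h1.symm).le⟩
    obtain ⟨K, hK0, hK⟩ := wt_cmp (by linarith) hc'
    refine ⟨l1, d1, hl1, ?_⟩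
    have := hh.add_of_le (by linarith) hg K hK0 hK
    simpa only [add_comm] using this

theorem Cls.of_cmp {g h : ℕ → ℝ} (hg : Cls g) (K1 K2 : ℝ) (h1 : 0 < K1) (h2 : 0 < K2)
    (hl : ∀ k, g k ≤ K1 * h k) (hu : ∀ k, h k ≤ K2 * g k) : Cls h := by
  obtain ⟨l, d, hl1, a1, a2, ha1, ha2, ha⟩ := hg
  refine ⟨l, d, hl1, a1 / K1, K2 * a2, div_pos ha1 h1, mul_pos h2 ha2, fun k => ⟨?_, ?_⟩⟩
  · rw [div_mul_eq_mul_div, div_le_iff₀ h1]
    have := (ha k).1
    have := hl k
    linarith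
  · have h3 := mul_le_mul_of_nonneg_left (ha k).2 h2.le
    have := hu k
    rw [mul_assoc]
    linarith

theorem Cls.smul {g : ℕ → ℝ} (hg : Cls g) {c : ℝ} (hc : 0 < c) : Cls (fun k => c * g k) := by
  refine hg.of_cmp c⁻¹ c (inv_pos.2 hc) hc (fun k => ?_) (fun k => le_rfl)
  rw [← mul_assoc, inv_mul_cancel₀ hc.ne', one_mul]

/-- Zero, or of some exact order. -/
def ZC (g : ℕ → ℝ) : Prop := (∀ k, g k = 0) ∨ Cls g

theorem ZC.add {g h : ℕ → ℝ} (hg : ZC g) (hh : ZC h) : ZC (fun k => g k + h k) := by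
  rcases hg with hg | hg
  · rcases hh with hh | hh
    · exact Or.inl fun k => by simp [hg k, hh k]
    · right
      have : (fun k => g k + h k) = h := funext fun k => by simp [hg k]
      rwa [this]
  · rcases hh with hh | hh
    · right
      have : (fun k => g k + h k) = g := funext fun k => by simp [hh k]
      rwa [this]
    · exact Or.inr (hg.add hh)

theorem ZC_sum {ι : Type*} (s : Finset ι) (F : ι → ℕ → ℝ) (h : ∀ i ∈ s, ZC (F i)) :
    ZC (fun k => ∑ i ∈ s, F i k) := by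
  classical
  induction s using Finset.induction_on with
  | empty => exact Or.inl fun k => by simp
  | insert a s ha ih =>
    have h1 := (h a (Finset.mem_insert_self _ _)).add
      (ih fun i hi => h i (Finset.mem_insert_of_mem hi))
    have : (fun k => ∑ i ∈ insert a s, F i k) = fun k => F a k + ∑ i ∈ s, F i k :=
      funext fun k => Finset.sum_insert ha
    rwa [this]

theorem pow_step (d : ℕ) : ∃ K : ℝ, 0 < K ∧ ∀ x : ℝ, 1 ≤ x →
    (x + 1) ^ (d + 1) ≤ x ^ (d + 1) + K * x ^ d := by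
  induction d with
  | zero => exact ⟨1, one_pos, fun x _ => by simp⟩
  | succ d ih =>
    obtain ⟨K, hK0, hK⟩ := ih
    refine ⟨1 + 2 * K, by positivity, fun x hx => ?_⟩
    have h1 := mul_le_mul_of_nonneg_right (hK x hx) (by linarith : 0 ≤ x + 1)
    have h2 : x ^ d ≤ x ^ (d + 1) := pow_le_pow_right₀ hx (Nat.le_succ d)
    have h3 := mul_le_mul_of_nonneg_left h2 hK0.le
    calc (x + 1) ^ (d + 1 + 1) = (x + 1) ^ (d + 1) * (x + 1) := pow_succ _ _
      _ ≤ (x ^ (d + 1) + K * x ^ d) * (x + 1) := h1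
      _ = x ^ (d + 1 + 1) + (1 + K) * x ^ (d + 1) + K * x ^ d := by ring
      _ ≤ _ := by linarith

theorem rec_lt {g h : ℕ → ℝ} {ρ lam : ℝ} {d : ℕ} (hρ : 0 ≤ ρ) (hl : ρ < lam) (hg0 : 0 < g 0)
    (hg : ∀ k, 0 ≤ g k) (hrec : ∀ k, g (k + 1) = ρ * g k + h k) (hh : Th lam d h) :
    Th lam d g := by
  obtain ⟨a1, a2, ha1, ha2, ha⟩ := hh
  have hl0 : 0 < lam := lt_of_le_of_lt hρ hl
  set C : ℝ := g 0 + a2 / (lam - ρ) with hC
  have hq : 0 < a2 / (lam - ρ) := div_pos ha2 (by linarith)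
  have hC0 : 0 < C := by linarith
  have hCa : ρ * C + a2 ≤ C * lam := by
    have h1 : a2 / (lam - ρ) * (lam - ρ) = a2 := div_mul_cancel₀ _ (by linarith)
    have h2 : 0 ≤ g 0 * (lam - ρ) := mul_nonneg hg0.le (by linarith)
    rw [hC]
    nlinarith
  have hq2 : 0 < a1 / (2 ^ d * lam) := by positivity
  refine ⟨min (g 0) (a1 / (2 ^ d * lam)), C, lt_min hg0 hq2, hC0, fun k => ⟨?_, ?_⟩⟩
  · cases k with
    | zero => simp
    | succ k =>
      have h1 := (ha k).1
      have h2 : 0 ≤ ρ * g k := mul_nonneg hρ (hg k)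
      have hk : (0 : ℝ) ≤ k := Nat.cast_nonneg k
      have h3 : (((k + 1 : ℕ) : ℝ) + 1) ^ d ≤ 2 ^ d * ((k : ℝ) + 1) ^ d := by
        rw [← mul_pow]
        push_cast
        exact pow_le_pow_left₀ (by linarith) (by linarith) d
      have h4 : min (g 0) (a1 / (2 ^ d * lam)) * ((((k + 1 : ℕ) : ℝ) + 1) ^ d * lam ^ (k + 1))
          ≤ a1 / (2 ^ d * lam) * (2 ^ d * ((k : ℝ) + 1) ^ d * lam ^ (k + 1)) := by
        refine mul_le_mul (min_le_right _ _) ?_ (wt_pos d hl0 _).le hq2.le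
        exact mul_le_mul_of_nonneg_right h3 (pow_pos hl0 _).le
      have h5 : a1 / (2 ^ d * lam) * (2 ^ d * ((k : ℝ) + 1) ^ d * lam ^ (k + 1))
          = a1 * (((k : ℝ) + 1) ^ d * lam ^ k) := by
        field_simp
        ring
      rw [hrec]
      linarith
  · induction k with
    | zero => simp [hC]; exact hq.le
    | succ k ih =>
      have h1 := (ha k).2
      have h2 := mul_le_mul_of_nonneg_left ih hρ
      have hk : (0 : ℝ) ≤ k := Nat.cast_nonneg k
      have h3 : ((k : ℝ) + 1) ^ d ≤ (((k + 1 : ℕ) : ℝ) + 1) ^ d := by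
        push_cast
        exact pow_le_pow_left₀ (by linarith) (by linarith) d
      have h4 := mul_le_mul_of_nonneg_right hCa (wt_pos d hl0 k).le
      have h5 : C * lam * (((k : ℝ) + 1) ^ d * lam ^ k)
          ≤ C * ((((k + 1 : ℕ) : ℝ) + 1) ^ d * lam ^ (k + 1)) := by
        have h6 := mul_le_mul_of_nonneg_right h3 (pow_pos hl0 (k + 1)).le
        have h7 := mul_le_mul_of_nonneg_left h6 hC0.le
        calc C * lam * (((k : ℝ) + 1) ^ d * lam ^ k)
            = C * (((k : ℝ) + 1) ^ d * lam ^ (k + 1)) := by ring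
          _ ≤ _ := h7
      rw [hrec]
      nlinarith

theorem rec_eq {g h : ℕ → ℝ} {lam : ℝ} {d : ℕ} (hl0 : 0 < lam) (hg0 : 0 < g 0)
    (hrec : ∀ k, g (k + 1) = lam * g k + h k) (hh : Th lam d h) :
    Th lam (d + 1) g := by
  obtain ⟨a1, a2, ha1, ha2, ha⟩ := hh
  obtain ⟨K, hK0, hK⟩ := pow_step d
  set c : ℝ := min (g 0) (a1 / (K * lam)) with hc
  have hq : 0 < a1 / (K * lam) := by positivity
  have hc0 : 0 < c := lt_min hg0 hq
  have hca : c * (K * lam) ≤ a1 := by
    have := min_le_right (g 0) (a1 / (K * lam))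
    rwa [le_div_iff₀ (by positivity)] at this
  set C : ℝ := g 0 + a2 / lam with hC
  have hq2 : 0 < a2 / lam := by positivity
  have hC0 : 0 < C := by linarith
  have hCa : a2 ≤ C * lam := by
    have h1 : a2 / lam * lam = a2 := div_mul_cancel₀ _ hl0.ne'
    have h2 : 0 ≤ g 0 * lam := mul_nonneg hg0.le hl0.le
    rw [hC]
    nlinarith
  refine ⟨c, C, hc0, hC0, fun k => ⟨?_, ?_⟩⟩
  · induction k with
    | zero => simp [hc]
    | succ k ih =>
      have h1 := (ha k).1
      have h2 := mul_le_mul_of_nonneg_left ih hl0.le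
      have hk : (0 : ℝ) ≤ k := Nat.cast_nonneg k
      have h3 := hK ((k : ℝ) + 1) (by linarith)
      have h4 := mul_le_mul_of_nonneg_right hca (wt_pos d hl0 k).le
      have h5 := mul_le_mul_of_nonneg_left
        (mul_le_mul_of_nonneg_right h3 (pow_pos hl0 (k + 1)).le) hc0.le
      rw [hrec]
      push_cast
      calc c * (((k : ℝ) + 1 + 1) ^ (d + 1) * lam ^ (k + 1))
          ≤ c * ((((k : ℝ) + 1) ^ (d + 1) + K * ((k : ℝ) + 1) ^ d) * lam ^ (k + 1)) := h5
        _ = lam * (c * (((k : ℝ) + 1) ^ (d + 1) * lam ^ k))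
              + c * (K * lam) * (((k : ℝ) + 1) ^ d * lam ^ k) := by ring
        _ ≤ _ := by linarith
  · induction k with
    | zero => simp [hC]; exact hq2.le
    | succ k ih =>
      have h1 := (ha k).2
      have h2 := mul_le_mul_of_nonneg_left ih hl0.le
      have hk : (0 : ℝ) ≤ k := Nat.cast_nonneg k
      have h3 : ((k : ℝ) + 1) ^ (d + 1) + ((k : ℝ) + 1) ^ d ≤ ((k : ℝ) + 1 + 1) ^ (d + 1) := by
        have h6 : ((k : ℝ) + 1) ^ d ≤ ((k : ℝ) + 1 + 1) ^ d :=
          pow_le_pow_left₀ (by linarith) (by linarith) d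
        have h7 := mul_le_mul_of_nonneg_right h6 (by linarith : (0 : ℝ) ≤ (k : ℝ) + 1 + 1)
        calc ((k : ℝ) + 1) ^ (d + 1) + ((k : ℝ) + 1) ^ d
            = ((k : ℝ) + 1) ^ d * ((k : ℝ) + 1 + 1) := by ring
          _ ≤ _ := h7
          _ = _ := (pow_succ _ _).symm
      have h4 := mul_le_mul_of_nonneg_right hCa (wt_pos d hl0 k).le
      have h5 := mul_le_mul_of_nonneg_left
        (mul_le_mul_of_nonneg_right h3 (pow_pos hl0 (k + 1)).le) hC0.le
      rw [hrec]
      push_cast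
      calc lam * g k + h k ≤ lam * (C * (((k : ℝ) + 1) ^ (d + 1) * lam ^ k))
              + C * lam * (((k : ℝ) + 1) ^ d * lam ^ k) := by linarith
        _ = C * ((((k : ℝ) + 1) ^ (d + 1) + ((k : ℝ) + 1) ^ d) * lam ^ (k + 1)) := by ring
        _ ≤ _ := h5

theorem rec_gt' {g h : ℕ → ℝ} {ρ mu a : ℝ} (hmu : 0 < mu) (hl : mu < ρ) (hg0 : 0 < g 0)
    (hrec : ∀ k, g (k + 1) = ρ * g k + h k) (ha : 0 < a) (hh0 : ∀ k, 0 ≤ h k)
    (hh : ∀ k, h k ≤ a * mu ^ k) : Th ρ 0 g := by
  have hρ : 0 < ρ := hmu.trans hl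
  set B : ℝ := a / (ρ - mu) with hB
  have hB0 : 0 < B := div_pos ha (by linarith)
  have hBa : B * (ρ - mu) = a := div_mul_cancel₀ _ (by linarith)
  refine ⟨g 0, g 0 + B, hg0, by linarith, fun k => ⟨?_, ?_⟩⟩
  · simp only [pow_zero, one_mul]
    induction k with
    | zero => simp
    | succ k ih =>
      have h2 := mul_le_mul_of_nonneg_left ih hρ.le
      rw [hrec, pow_succ]
      nlinarith [hh0 k]
  · simp only [pow_zero, one_mul]
    have key : ∀ k : ℕ, g k + B * mu ^ k ≤ (g 0 + B) * ρ ^ k := by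
      intro k
      induction k with
      | zero => simp
      | succ k ih =>
        have h2 := mul_le_mul_of_nonneg_left ih hρ.le
        have h3 := hh k
        rw [← hBa] at h3
        rw [hrec, pow_succ, pow_succ]
        nlinarith
    have h1 := key k
    have h2 : 0 < B * mu ^ k := mul_pos hB0 (pow_pos hmu k)
    linarith

theorem rec_cls {g h : ℕ → ℝ} {ρ : ℝ} (hρ : 0 ≤ ρ) (hg0 : 0 < g 0) (hg : ∀ k, 0 ≤ g k)
    (hg1 : 2 * g 0 ≤ g 1) (hrec : ∀ k, g (k + 1) = ρ * g k + h k) (hh : ZC h) : Cls g := by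
  rcases hh with hh | ⟨lam, d, hl, hh⟩
  · have h1 : g 1 = ρ * g 0 + h 0 := hrec 0
    rw [hh 0, add_zero] at h1
    have h2 : 2 ≤ ρ := by
      rw [h1] at hg1
      exact le_of_mul_le_mul_right hg1 hg0
    exact ⟨ρ, 0, by linarith, rec_gt' (mu := 1) (a := 1) one_pos (by linarith) hg0 hrec one_pos
      (fun k => (hh k).ge) (fun k => by rw [hh k]; simp)⟩
  · rcases lt_trichotomy ρ lam with h1 | h1 | h1
    · exact ⟨lam, d, hl, rec_lt hρ h1 hg0 hg hrec hh⟩
    · subst h1
      exact ⟨ρ, d + 1, hl, rec_eq (by linarith) hg0 hrec hh⟩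
    · obtain ⟨a1, a2, ha1, ha2, ha⟩ := hh
      obtain ⟨K, hK0, hK⟩ := dom d (lam := lam) (mu := (lam + ρ) / 2) (by linarith) (by linarith)
      refine ⟨ρ, 0, by linarith, rec_gt' (mu := (lam + ρ) / 2) (a := a2 * K) (by linarith)
        (by linarith) hg0 hrec (mul_pos ha2 hK0) (fun k => ?_) (fun k => ?_)⟩
      · exact (mul_pos ha1 (wt_pos d (by linarith) k)).le.trans (ha k).1
      · rw [mul_assoc]
        exact (ha k).2.trans (mul_le_mul_of_nonneg_left (hK k) ha2.le)

theorem growth {A : Type} [Fintype A] (N : A → A → ℝ) (hN : ∀ a e, 0 ≤ N a e)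
    (h2 : ∀ a, 2 ≤ ∑ e, N a e) (f : A → ℕ → ℝ) (f0 : ∀ a, f a 0 = 1)
    (fs : ∀ a k, f a (k + 1) = ∑ e, N a e * f e k) (b : A) : Cls (f b) := by
  classical
  have fnn : ∀ k a, 0 ≤ f a k := by
    intro k
    induction k with
    | zero => intro a; rw [f0]; exact zero_le_one
    | succ k ih =>
      intro a
      rw [fs]
      exact Finset.sum_nonneg fun e _ => mul_nonneg (hN a e) (ih e)
  have f1 : ∀ a, f a 1 = ∑ e, N a e := fun a => by
    rw [fs a 0]
    exact Finset.sum_congr rfl fun e _ => by rw [f0, mul_one]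
  set M : ℝ := ∑ a, ∑ e, N a e with hM
  have hMa : ∀ a, ∑ e, N a e ≤ M := fun a =>
    Finset.single_le_sum (f := fun a => ∑ e, N a e)
      (fun a _ => Finset.sum_nonneg fun e _ => hN a e) (Finset.mem_univ a)
  have hM0 : 0 < M := by linarith [hMa b, h2 b]
  have fM : ∀ k a, f a (k + 1) ≤ M * f a k := by
    intro k
    induction k with
    | zero => intro a; rw [zero_add, f1, f0, mul_one]; exact hMa a
    | succ k ih =>
      intro a
      rw [fs a (k + 1), fs a k, Finset.mul_sum]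
      refine Finset.sum_le_sum fun e _ => ?_
      have := mul_le_mul_of_nonneg_left (ih e) (hN a e)
      linarith
  set E : A → A → Prop := fun a e => 0 < N a e with hE
  have hdom : ∀ a e, Relation.ReflTransGen E a e →
      ∃ K : ℝ, 0 < K ∧ ∀ k, f e k ≤ K * f a k := by
    intro a e h
    induction h with
    | refl => exact ⟨1, one_pos, fun k => by rw [one_mul]⟩
    | @tail x y _ hxy ih =>
      obtain ⟨K, hK0, hK⟩ := ih
      have hxy' : 0 < N x y := hxy
      refine ⟨M * K / N x y, by positivity, fun k => ?_⟩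
      rw [div_mul_eq_mul_div, le_div_iff₀ hxy']
      have h1 : N x y * f y k ≤ f x (k + 1) := by
        rw [fs]
        exact Finset.single_le_sum (f := fun e => N x e * f e k)
          (fun e _ => mul_nonneg (hN x e) (fnn k e)) (Finset.mem_univ y)
      have h3 := fM k x
      have h4 := mul_le_mul_of_nonneg_left (hK k) hM0.le
      nlinarith
  suffices H : ∀ n : ℕ, ∀ b : A,
      (Finset.univ.filter (fun c => Relation.ReflTransGen E b c)).card = n → Cls (f b) from
    H _ b rfl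
  intro n
  induction n using Nat.strong_induction_on with
  | _ n ih =>
  intro b hb
  set C : A → Prop := fun c => Relation.ReflTransGen E b c ∧ Relation.ReflTransGen E c b with hC
  have hbC : C b := ⟨Relation.ReflTransGen.refl, Relation.ReflTransGen.refl⟩
  have hIH : ∀ e, Relation.ReflTransGen E b e → ¬ C e → Cls (f e) := by
    intro e hbe hne
    refine ih _ ?_ e rfl
    rw [← hb]
    refine Finset.card_lt_card ⟨fun x hx => ?_, fun hsub => hne ⟨hbe, ?_⟩⟩
    · rw [Finset.mem_filter] at hx ⊢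
      exact ⟨hx.1, hbe.trans hx.2⟩
    · have : b ∈ Finset.univ.filter (fun c => Relation.ReflTransGen E b c) :=
        Finset.mem_filter.2 ⟨Finset.mem_univ _, Relation.ReflTransGen.refl⟩
      exact (Finset.mem_filter.1 (hsub this)).2
  haveI : Nonempty {c // C c} := ⟨⟨b, hbC⟩⟩
  obtain ⟨v, L, hv, hvs, hL, heig⟩ := pf_eig (ι := {c // C c})
    (Matrix.of fun i j => N j.1 i.1) (fun i j => hN _ _) (by
      intro S hS hSU
      by_contra hcon
      push Not at hcon
      obtain ⟨j0, hj0⟩ := hS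
      have hall : ∀ x, Relation.ReflTransGen E j0.1 x → ∀ hx : C x, (⟨x, hx⟩ : {c // C c}) ∈ S := by
        intro x hx
        induction hx with
        | refl => intro _; exact hj0
        | @tail y x hy hyx ihy =>
          intro hx
          have hyC : C y := ⟨j0.2.1.trans hy, Relation.ReflTransGen.head hyx hx.2⟩
          by_contra hxS
          have h3 := hcon ⟨x, hx⟩ hxS ⟨y, hyC⟩ (ihy hyC)
          have h4 : 0 < N y x := hyx
          have h5 : N y x ≤ 0 := h3
          linarith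
      apply hSU
      rw [Finset.eq_univ_iff_forall]
      intro i
      exact hall i.1 (j0.2.2.trans i.2.1) i.2)
  have heig' : ∀ i : {c // C c}, ∑ j : {c // C c}, v j * N j.1 i.1 = L * v i := by
    intro i
    rw [← heig i]
    unfold Matrix.mulVec dotProduct
    exact Finset.sum_congr rfl fun j _ => mul_comm _ _
  set g : ℕ → ℝ := fun k => ∑ j : {c // C c}, v j * f j.1 k with hg
  set w : A → ℝ := fun e => ∑ j : {c // C c}, v j * N j.1 e with hw
  set h : ℕ → ℝ := fun k => ∑ e : {c // ¬ C c}, w e.1 * f e.1 k with hh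
  have hrec : ∀ k, g (k + 1) = L * g k + h k := by
    intro k
    have h3 : g (k + 1) = ∑ e, w e * f e k := by
      simp only [hg, hw, fs, Finset.mul_sum, Finset.sum_mul]
      rw [Finset.sum_comm]
      exact Finset.sum_congr rfl fun e _ => Finset.sum_congr rfl fun j _ => by ring
    rw [h3, ← Fintype.sum_subtype_add_sum_subtype C]
    congr 1
    simp only [hg, hw, Finset.mul_sum]
    refine Finset.sum_congr rfl fun i _ => ?_
    rw [heig' i]
    ring
  have hZ : ZC h := by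
    refine ZC_sum Finset.univ (fun (e : {c // ¬ C c}) k => w e.1 * f e.1 k) fun e _ => ?_
    have hw0 : 0 ≤ w e.1 := Finset.sum_nonneg fun j _ => mul_nonneg (hv j) (hN _ _)
    rcases hw0.lt_or_eq with h3 | h3
    · right
      refine Cls.smul (hIH e.1 ?_ e.2) h3
      obtain ⟨j, -, hj⟩ := Finset.exists_ne_zero_of_sum_ne_zero h3.ne'
      have h4 : N j.1 e.1 ≠ 0 := right_ne_zero_of_mul hj
      exact j.2.1.tail (lt_of_le_of_ne (hN _ _) h4.symm)
    · left
      intro k
      show w e.1 * f e.1 k = 0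
      rw [← h3, zero_mul]
  have hg0 : g 0 = ∑ j, v j := by
    simp only [hg, f0, mul_one]
  have hgc : Cls g := by
    refine rec_cls hL (by rw [hg0]; exact hvs) (fun k => ?_) ?_ hrec hZ
    · exact Finset.sum_nonneg fun j _ => mul_nonneg (hv j) (fnn k _)
    · rw [hg0, Finset.mul_sum]
      refine Finset.sum_le_sum fun j _ => ?_
      rw [f1, mul_comm]
      exact mul_le_mul_of_nonneg_left (h2 _) (hv j)
  obtain ⟨j0, -, hj0⟩ := Finset.exists_ne_zero_of_sum_ne_zero hvs.ne'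
  have hj0' : 0 < v j0 := lt_of_le_of_ne (hv j0) hj0.symm
  obtain ⟨K2, hK2, hK2'⟩ := hdom j0.1 b j0.2.2
  choose K1 hK1 hK1' using fun j : {c // C c} => hdom b j.1 j.2.1
  have hK : 0 < ∑ j, v j * K1 j :=
    Finset.sum_pos' (fun j _ => mul_nonneg (hv j) (hK1 j).le)
      ⟨j0, Finset.mem_univ _, mul_pos hj0' (hK1 j0)⟩
  refine hgc.of_cmp (∑ j, v j * K1 j) (K2 / v j0) hK (div_pos hK2 hj0') (fun k => ?_)
    (fun k => ?_)
  · rw [Finset.sum_mul]
    refine Finset.sum_le_sum fun j _ => ?_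
    rw [mul_assoc]
    exact mul_le_mul_of_nonneg_left (hK1' j k) (hv j)
  · have h3 : v j0 * f j0.1 k ≤ g k :=
      Finset.single_le_sum (f := fun j : {c // C c} => v j * f j.1 k)
        (fun j _ => mul_nonneg (hv j) (fnn k _)) (Finset.mem_univ j0)
    rw [div_mul_eq_mul_div, le_div_iff₀ hj0']
    have h4 := mul_le_mul_of_nonneg_left (hK2' k) hj0'.le
    have h5 := mul_le_mul_of_nonneg_left h3 hK2.le
    nlinarith

theorem iter_append {A : Type} (σ : A → List A) (k : ℕ) : ∀ u w : List A,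
    (fun w : List A => w.flatMap σ)^[k] (u ++ w)
      = (fun w : List A => w.flatMap σ)^[k] u ++ (fun w : List A => w.flatMap σ)^[k] w := by
  induction k with
  | zero => intro u w; rfl
  | succ k ih =>
    intro u w
    simp only [Function.iterate_succ_apply, List.flatMap_append]
    exact ih _ _

theorem iter_nil {A : Type} (σ : A → List A) (k : ℕ) :
    (fun w : List A => w.flatMap σ)^[k] [] = [] := by
  induction k with
  | zero => rfl
  | succ k ih => simpa only [Function.iterate_succ_apply, List.flatMap_nil] using ih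

theorem iter_len {A : Type} [Fintype A] [DecidableEq A] (σ : A → List A) (k : ℕ) (w : List A) :
    (((fun w : List A => w.flatMap σ)^[k] w).length : ℝ)
      = ∑ e, (w.count e : ℝ) * (((fun w : List A => w.flatMap σ)^[k] [e]).length : ℝ) := by
  induction w with
  | nil => simp [iter_nil]
  | cons x w ih =>
    have h1 : x :: w = [x] ++ w := rfl
    have h2 : ∀ e, ((x :: w).count e : ℝ) = (w.count e : ℝ) + if x = e then 1 else 0 := by
      intro e
      rw [List.count_cons]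
      by_cases h : x = e <;> simp [h]
    simp only [h2, add_mul, Finset.sum_add_distrib, ite_mul, one_mul, zero_mul,
      Finset.sum_ite_eq, Finset.mem_univ, if_true]
    rw [h1, iter_append, List.length_append, Nat.cast_add, ih, add_comm]

end Tgrowth

theorem thm_growth : S_growth := by
  classical
  intro A _ σ hσ b
  have h := Tgrowth.growth (fun a e => ((σ a).count e : ℝ)) (fun a e => Nat.cast_nonneg _)
    (fun a => by
      have h1 := Tgrowth.iter_len σ 0 (σ a)
      simp only [Function.iterate_zero, id, List.length_singleton, Nat.cast_one, mul_one] at h1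
      rw [← h1]
      exact_mod_cast hσ a)
    (fun a k => (((fun w : List A => w.flatMap σ)^[k] [a]).length : ℝ))
    (fun a => by simp)
    (fun a k => by
      rw [Function.iterate_succ_apply, ← Tgrowth.iter_len]
      simp) b
  obtain ⟨lam, d, hl, c1, c2, hc1, -, hk⟩ := h
  refine ⟨lam, d, c1, c2, hl, hc1, fun k => ?_⟩
  rw [mul_assoc, mul_assoc]
  exact hk k

end Pool.Agent.H149Z.SU
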