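import Pool.Agent.H149Z.SU.Basic

set_option autoImplicit false

namespace Pool.Agent.H149Z.SU

open Filter Topology

namespace Tray

variable {A : Type}

theorem iter_append (σ : A → List A) (k : ℕ) (u v : List A) :
    (fun w : List A => w.flatMap σ)^[k] (u ++ v) =
      (fun w : List A => w.flatMap σ)^[k] u ++ (fun w : List A => w.flatMap σ)^[k] v := by
  induction k generalizing u v with
  | zero => rfl
  | succ k ih => simp only [Function.iterate_succ_apply, List.flatMap_append, ih]

theorem iter_nil (σ : A → List A) (k : ℕ) :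
    (fun w : List A => w.flatMap σ)^[k] [] = [] := by
  induction k with
  | zero => rfl
  | succ k ih => simp only [Function.iterate_succ_apply, List.flatMap_nil, ih]

theorem len_le (σ : A → List A) (k : ℕ) (B : ℝ) (u : List A)
    (h : ∀ b ∈ u, (((fun w : List A => w.flatMap σ)^[k] [b]).length : ℝ) ≤ B) :
    (((fun w : List A => w.flatMap σ)^[k] u).length : ℝ) ≤ u.length * B := by
  induction u with
  | nil => simp [iter_nil]
  | cons b u ih =>
    have e : b :: u = [b] ++ u := rfl
    have h1 := h b (by simp)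
    have h2 := ih fun c hc => h c (by simp [hc])
    rw [e, iter_append, List.length_append, List.length_append]
    push_cast
    simp only [List.length_singleton, Nat.cast_one]
    linarith

theorem len_ge (σ : A → List A) (k : ℕ) (u : List A) (b : A) (hb : b ∈ u) :
    ((fun w : List A => w.flatMap σ)^[k] [b]).length ≤
      ((fun w : List A => w.flatMap σ)^[k] u).length := by
  obtain ⟨s, t, rfl⟩ := List.append_of_mem hb
  have e : b :: t = [b] ++ t := rfl
  rw [iter_append, e, iter_append, List.length_append, List.length_append]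
  omega

theorem two_le (σ : A → List A) (hσ : ∀ a, 2 ≤ (σ a).length) (u : List A) :
    2 * u.length ≤ (u.flatMap σ).length := by
  induction u with
  | nil => simp
  | cons b u ih =>
    rw [List.flatMap_cons, List.length_append, List.length_cons]
    have := hσ b
    omega

theorem compare {lam lam' : ℝ} {d d' : ℕ} (h0 : 1 < lam) (h0' : 1 < lam')
    (h : toLex (lam, d) ≤ toLex (lam', d')) :
    ∃ C : ℝ, 0 ≤ C ∧ ∀ k : ℕ, ((k : ℝ) + 1) ^ d * lam ^ k ≤ C * (((k : ℝ) + 1) ^ d' * lam' ^ k) := by
  rcases Prod.Lex.toLex_le_toLex.1 h with h1 | ⟨h1, h2⟩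
  · simp only at h1
    have hr : |lam / lam'| < 1 := by
      rw [abs_of_pos (by positivity), div_lt_one (by linarith)]
      exact h1
    have h3 := (tendsto_pow_const_mul_const_pow_of_abs_lt_one d hr).comp (tendsto_add_atTop_nat 1)
    obtain ⟨B, hB⟩ := h3.bddAbove_range
    have hB' : ∀ k : ℕ, ((k : ℝ) + 1) ^ d * (lam / lam') ^ (k + 1) ≤ B := by
      intro k
      have := hB ⟨k, rfl⟩
      simpa using this
    have hq : 0 < lam / lam' := by positivity
    have hB0 : 0 ≤ B := le_trans (by positivity) (hB' 0)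
    refine ⟨B / (lam / lam'), by positivity, fun k => ?_⟩
    have h4 : ((k : ℝ) + 1) ^ d * (lam / lam') ^ k ≤ B / (lam / lam') := by
      rw [le_div_iff₀ hq, mul_assoc, ← pow_succ]
      exact hB' k
    have h5 : (1 : ℝ) ≤ ((k : ℝ) + 1) ^ d' := one_le_pow₀ (by linarith [Nat.cast_nonneg (α := ℝ) k])
    have h6 : lam ^ k = (lam / lam') ^ k * lam' ^ k := by
      rw [div_pow]; field_simp
    have h7 : (0 : ℝ) < lam' ^ k := by positivity
    calc ((k : ℝ) + 1) ^ d * lam ^ k = (((k : ℝ) + 1) ^ d * (lam / lam') ^ k) * lam' ^ k := by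
          rw [h6]; ring
      _ ≤ B / (lam / lam') * lam' ^ k := mul_le_mul_of_nonneg_right h4 h7.le
      _ ≤ B / (lam / lam') * (((k : ℝ) + 1) ^ d' * lam' ^ k) := by
          refine mul_le_mul_of_nonneg_left ?_ (by positivity)
          nlinarith
  · simp only at h1 h2
    refine ⟨1, zero_le_one, fun k => ?_⟩
    rw [one_mul, h1]
    exact mul_le_mul_of_nonneg_right
      (pow_le_pow_right₀ (by linarith [Nat.cast_nonneg (α := ℝ) k]) h2) (by positivity)

theorem sum_le {lam : ℝ} (h0 : 1 < lam) (d n : ℕ) :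
    ∑ k ∈ Finset.range n, ((k : ℝ) + 1) ^ d * lam ^ k ≤
      1 / (lam - 1) * (((n : ℝ) + 1) ^ d * lam ^ n) := by
  have h1 : ∑ k ∈ Finset.range n, ((k : ℝ) + 1) ^ d * lam ^ k ≤
      ∑ k ∈ Finset.range n, ((n : ℝ) + 1) ^ d * lam ^ k := by
    refine Finset.sum_le_sum fun k hk => ?_
    have hk' : (k : ℝ) ≤ n := by exact_mod_cast (Finset.mem_range.1 hk).le
    exact mul_le_mul_of_nonneg_right
      (pow_le_pow_left₀ (by positivity) (by linarith) d) (by positivity)
  refine h1.trans ?_
  rw [← Finset.mul_sum, geom_sum_eq h0.ne']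
  have h2 : (lam ^ n - 1) / (lam - 1) ≤ lam ^ n / (lam - 1) :=
    div_le_div_of_nonneg_right (by linarith) (by linarith)
  calc ((n : ℝ) + 1) ^ d * ((lam ^ n - 1) / (lam - 1))
      ≤ ((n : ℝ) + 1) ^ d * (lam ^ n / (lam - 1)) := mul_le_mul_of_nonneg_left h2 (by positivity)
    _ = _ := by ring

theorem logclass_of (N : ℕ → ℕ) {lam c c' : ℝ} (d : ℕ) (h0 : 1 < lam) (hc : 0 < c)
    (hc' : 0 < c')
    (h : ∀ n : ℕ, 3 ≤ n → c * (((N n : ℝ) + 1) ^ d * lam ^ N n) ≤ n ∧
      (n : ℝ) ≤ c' * (((N n : ℝ) + 1) ^ d * lam ^ N n)) :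
    LogClass (fun n => (N n : ℝ)) := by
  have hl : 0 < Real.log lam := Real.log_pos h0
  set l := Real.log lam with hldef
  set C0 := |Real.log c| + |Real.log c'| with hC0
  have hC00 : 0 ≤ C0 := by positivity
  set C1 := |Real.log (C0 + d + l)| + |Real.log (1 / l + C0 / l + 1)| with hC1
  refine ⟨1 / l, -(d / l), (C0 + d * C1) / l, fun n hn => ?_⟩
  obtain ⟨h1, h2⟩ := h n hn
  have hn3 : (3 : ℝ) ≤ n := by exact_mod_cast hn
  have hN : (0 : ℝ) ≤ N n := Nat.cast_nonneg _
  have hg : 0 < ((N n : ℝ) + 1) ^ d * lam ^ N n := by positivity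
  have hlogg : Real.log (((N n : ℝ) + 1) ^ d * lam ^ N n) =
      d * Real.log ((N n : ℝ) + 1) + N n * l := by
    rw [Real.log_mul (by positivity) (by positivity), Real.log_pow, Real.log_pow]
  have h3 := Real.log_le_log (by positivity) h1
  have h4 := Real.log_le_log (by linarith) h2
  rw [Real.log_mul hc.ne' hg.ne', hlogg] at h3
  rw [Real.log_mul hc'.ne' hg.ne', hlogg] at h4
  have a1 := neg_abs_le (Real.log c)
  have a2 := le_abs_self (Real.log c')
  have a3 := abs_nonneg (Real.log c)
  have a4 := abs_nonneg (Real.log c')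
  have hlog1 : 1 ≤ Real.log n := by
    rw [Real.le_log_iff_exp_le (by linarith)]
    linarith [Real.exp_one_lt_three]
  have hp0 : 0 ≤ Real.log ((N n : ℝ) + 1) := Real.log_nonneg (by linarith)
  have hp1 : Real.log ((N n : ℝ) + 1) ≤ (N n : ℝ) + 1 :=
    (Real.log_le_sub_one_of_pos (by linarith)).trans (by linarith)
  have hd : (0 : ℝ) ≤ d := Nat.cast_nonneg _
  have h5 : Real.log n ≤ (C0 + d + l) * ((N n : ℝ) + 1) := by
    have e1 := mul_le_mul_of_nonneg_left hp1 hd
    have e2 := mul_nonneg hC00 hN
    have e3 : (C0 + d + l) * ((N n : ℝ) + 1) =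
        C0 * N n + C0 + d * ((N n : ℝ) + 1) + N n * l + l := by ring
    rw [e3]
    linarith
  have h6 : (N n : ℝ) + 1 ≤ (1 / l + C0 / l + 1) * Real.log n := by
    have e1 : (N n : ℝ) * l ≤ Real.log n + C0 := by
      have := mul_nonneg hd hp0
      linarith
    have e2 : (N n : ℝ) ≤ (Real.log n + C0) / l := by rwa [le_div_iff₀ hl]
    have e3 : C0 / l ≤ C0 / l * Real.log n := le_mul_of_one_le_right (by positivity) hlog1
    have e4 : (Real.log n + C0) / l = 1 / l * Real.log n + C0 / l := by ring
    have e5 : (1 / l + C0 / l + 1) * Real.log n =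
        1 / l * Real.log n + C0 / l * Real.log n + Real.log n := by ring
    rw [e5]
    linarith
  have h7 := Real.log_le_log (by linarith) h5
  have h8 := Real.log_le_log (by linarith) h6
  rw [Real.log_mul (by positivity) (by linarith)] at h7
  rw [Real.log_mul (by positivity) (by linarith)] at h8
  have b1 := le_abs_self (Real.log (C0 + d + l))
  have b2 := le_abs_self (Real.log (1 / l + C0 / l + 1))
  have b3 := abs_nonneg (Real.log (C0 + d + l))
  have b4 := abs_nonneg (Real.log (1 / l + C0 / l + 1))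
  have h9 : Real.log (Real.log n) - Real.log ((N n : ℝ) + 1) ≤ C1 := by linarith
  have h10 : Real.log ((N n : ℝ) + 1) - Real.log (Real.log n) ≤ C1 := by linarith
  have h11 := mul_le_mul_of_nonneg_left h9 hd
  have h12 := mul_le_mul_of_nonneg_left h10 hd
  have e : (N n : ℝ) - 1 / l * Real.log n - -(d / l) * Real.log (Real.log n) =
      (N n * l - Real.log n + d * Real.log (Real.log n)) / l := by
    field_simp
    ring
  simp only
  rw [e, abs_div, abs_of_pos hl]
  refine div_le_div_of_nonneg_right ?_ hl.le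
  rw [mul_sub] at h11 h12
  rw [abs_le]
  constructor <;> linarith

end Tray

open Tray in
theorem thm_ray (h : S_growth) : S_ray := by
  classical
  intro A _ σ hσ K w hw0 hw
  choose lam d c1 c2 hlam hc1 hL using h A σ hσ
  choose s t hs ht hst using hw
  have hdouble : ∀ k, 2 * (w k).length ≤ (w (k + 1)).length := by
    intro k
    have := two_le σ hσ (w k)
    rw [hst k, List.length_append, List.length_append]
    omega
  have hpos : ∀ k, 1 ≤ (w k).length := by
    intro k
    induction k with
    | zero => exact List.length_pos_iff.2 hw0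
    | succ k ih => have := hdouble k; omega
  have hmono : StrictMono fun k => (w k).length :=
    strictMono_nat_of_lt_succ fun k => by
      have := hdouble k
      have := hpos k
      omega
  let E : Finset A := Finset.univ.filter fun b => ∃ k, b ∈ w k
  have hE : E.Nonempty := by
    obtain ⟨b, hb⟩ := List.exists_mem_of_ne_nil _ hw0
    exact ⟨b, by simpa [E] using ⟨0, hb⟩⟩
  obtain ⟨b0, hb0, hmax⟩ := Finset.exists_max_image E (fun b => toLex (lam b, d b)) hE
  obtain ⟨j0, hj0⟩ : ∃ k, b0 ∈ w k := by simpa [E] using hb0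
  set g : ℕ → ℝ := fun k => ((k : ℝ) + 1) ^ d b0 * lam b0 ^ k with hg
  have hl0 := hlam b0
  have hgpos : ∀ k, 0 < g k := fun k => by simp only [hg]; positivity
  obtain ⟨C, hC0, hC⟩ : ∃ C : ℝ, 0 ≤ C ∧ ∀ b ∈ E, ∀ k,
      (((fun w : List A => w.flatMap σ)^[k] [b]).length : ℝ) ≤ C * g k := by
    have h1 : ∀ b, ∃ C : ℝ, 0 ≤ C ∧ (b ∈ E → ∀ k,
        (((fun w : List A => w.flatMap σ)^[k] [b]).length : ℝ) ≤ C * g k) := by
      intro b
      by_cases hb : b ∈ E
      · obtain ⟨C, hC0, hC⟩ := compare (hlam b) (hlam b0) (hmax b hb)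
        refine ⟨|c2 b| * C, by positivity, fun _ k => ?_⟩
        have h2 := (hL b k).2
        have h3 : c2 b * ((k : ℝ) + 1) ^ d b * lam b ^ k ≤
            |c2 b| * (((k : ℝ) + 1) ^ d b * lam b ^ k) := by
          rw [mul_assoc]
          have := hlam b
          exact mul_le_mul_of_nonneg_right (le_abs_self _) (by positivity)
        have h4 := mul_le_mul_of_nonneg_left (hC k) (abs_nonneg (c2 b))
        rw [mul_assoc]
        exact h2.trans (h3.trans h4)
      · exact ⟨0, le_rfl, fun h => absurd h hb⟩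
    choose C hC0 hC using h1
    refine ⟨∑ b, C b, Finset.sum_nonneg fun b _ => hC0 b, fun b hb k => ?_⟩
    refine (hC b hb k).trans (mul_le_mul_of_nonneg_right ?_ (hgpos k).le)
    exact Finset.single_le_sum (fun b _ => hC0 b) (Finset.mem_univ b)
  let T : ℕ → ℕ → ℕ := fun j k => ((fun w : List A => w.flatMap σ)^[k] (w j)).length
  have hT : ∀ j k, T (j + 1) k = ((fun w : List A => w.flatMap σ)^[k] (s j)).length +
      T j (k + 1) + ((fun w : List A => w.flatMap σ)^[k] (t j)).length := by
    intro j k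
    simp only [T]
    rw [hst j, iter_append, iter_append, List.length_append, List.length_append,
      Function.iterate_succ_apply]
  have hmemE : ∀ j b, b ∈ w j → b ∈ E := fun j b hb => by simpa [E] using ⟨j, hb⟩
  have hTup : ∀ j k, (T (j + 1) k : ℝ) ≤ T j (k + 1) + 2 * K * C * g k := by
    intro j k
    have h1 := len_le σ k (C * g k) (s j) fun b hb =>
      hC b (hmemE (j + 1) b (by rw [hst j]; simp [hb])) k
    have h2 := len_le σ k (C * g k) (t j) fun b hb =>
      hC b (hmemE (j + 1) b (by rw [hst j]; simp [hb])) k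
    have h3 : ((s j).length : ℝ) ≤ K := by exact_mod_cast hs j
    have h4 : ((t j).length : ℝ) ≤ K := by exact_mod_cast ht j
    have h5 : 0 ≤ C * g k := mul_nonneg hC0 (hgpos k).le
    have h6 := mul_le_mul_of_nonneg_right h3 h5
    have h7 := mul_le_mul_of_nonneg_right h4 h5
    rw [hT]
    push_cast
    linarith
  have hup : ∀ k j, (T (j + k) 0 : ℝ) ≤ T j k + 2 * K * C * ∑ i ∈ Finset.range k, g i := by
    intro k
    induction k with
    | zero => intro j; simp
    | succ k ih =>
      intro j
      have h1 := ih (j + 1)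
      have h2 := hTup j k
      rw [Finset.sum_range_succ, show j + (k + 1) = j + 1 + k by ring]
      linarith
  have hlow : ∀ k j, T j k ≤ T (j + k) 0 := by
    intro k
    induction k with
    | zero => intro j; simp
    | succ k ih =>
      intro j
      have h1 := ih (j + 1)
      have h2 := hT j k
      rw [show j + (k + 1) = j + 1 + k by ring]
      omega
  have hupper : ∀ n, ((w n).length : ℝ) ≤
      ((w 0).length * C + 2 * K * C * (1 / (lam b0 - 1)) + 1) * g n := by
    intro n
    have h1 := hup n 0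
    rw [zero_add] at h1
    have h2 : (T 0 n : ℝ) ≤ (w 0).length * (C * g n) :=
      len_le σ n (C * g n) (w 0) fun b hb => hC b (hmemE 0 b hb) n
    have h3 := mul_le_mul_of_nonneg_left (sum_le hl0 (d b0) n)
      (show 0 ≤ 2 * (K : ℝ) * C by positivity)
    have h4 := hgpos n
    change ((w n).length : ℝ) ≤ _ at h1
    change 2 * (K : ℝ) * C * ∑ i ∈ Finset.range n, g i ≤ 2 * K * C * (1 / (lam b0 - 1) * g n) at h3
    nlinarith
  have hgadd : ∀ j k, g (j + k) ≤ g j * g k := by
    intro j k
    simp only [hg]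
    have h1 : ((j + k : ℕ) : ℝ) + 1 ≤ ((j : ℝ) + 1) * ((k : ℝ) + 1) := by
      push_cast
      nlinarith [Nat.cast_nonneg (α := ℝ) j, Nat.cast_nonneg (α := ℝ) k]
    have h2 := pow_le_pow_left₀ (by positivity) h1 (d b0)
    rw [mul_pow] at h2
    calc (((j + k : ℕ) : ℝ) + 1) ^ d b0 * lam b0 ^ (j + k)
        ≤ (((j : ℝ) + 1) ^ d b0 * ((k : ℝ) + 1) ^ d b0) * lam b0 ^ (j + k) :=
          mul_le_mul_of_nonneg_right h2 (by positivity)
      _ = _ := by rw [pow_add]; ring
  have hgmono : ∀ j k, j ≤ k → g j ≤ g k := by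
    intro j k hjk
    simp only [hg]
    have h1 : (j : ℝ) ≤ k := by exact_mod_cast hjk
    exact mul_le_mul (pow_le_pow_left₀ (by positivity) (by linarith) _)
      (pow_le_pow_right₀ hl0.le hjk) (by positivity) (by positivity)
  have hm0 : 0 < min (c1 b0) 1 := lt_min (hc1 b0) one_pos
  have hlower : ∀ n, min (c1 b0) 1 / g j0 * g n ≤ ((w n).length : ℝ) := by
    intro n
    rw [div_mul_eq_mul_div, div_le_iff₀ (hgpos j0)]
    rcases le_total n j0 with hn | hn
    · have h1 : (1 : ℝ) ≤ (w n).length := by exact_mod_cast hpos n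
      have h2 := hgmono n j0 hn
      have h3 := min_le_right (c1 b0) 1
      have h4 := hgpos n
      nlinarith
    · obtain ⟨k, rfl⟩ := Nat.exists_eq_add_of_le hn
      have h1 : (((fun w : List A => w.flatMap σ)^[k] [b0]).length : ℝ) ≤ (w (j0 + k)).length := by
        exact_mod_cast (len_ge σ k (w j0) b0 hj0).trans (hlow k j0)
      have h2 := (hL b0 k).1
      rw [mul_assoc] at h2
      change c1 b0 * g k ≤ _ at h2
      have h3 := min_le_left (c1 b0) 1
      have h4 := hgadd j0 k
      have h5 := hgpos k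
      have h6 := hgpos j0
      calc min (c1 b0) 1 * g (j0 + k) ≤ min (c1 b0) 1 * (g j0 * g k) :=
            mul_le_mul_of_nonneg_left h4 hm0.le
        _ ≤ c1 b0 * (g j0 * g k) := mul_le_mul_of_nonneg_right h3 (by positivity)
        _ = (c1 b0 * g k) * g j0 := by ring
        _ ≤ _ := mul_le_mul_of_nonneg_right (h2.trans h1) h6.le
  have hex : ∀ n : ℕ, ∃ k, n ≤ (w k).length := fun n => ⟨n, hmono.le_apply⟩
  have hcount : ∀ n, Set.ncard {k : ℕ | (w k).length < n} = Nat.find (hex n) := by
    intro n
    have : {k : ℕ | (w k).length < n} = (Finset.range (Nat.find (hex n)) : Set ℕ) := by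
      ext k
      simp only [Set.mem_ofPred_eq, Finset.coe_range, Set.mem_Iio]
      constructor
      · intro hk
        by_contra hcon
        have h1 := Nat.find_spec (hex n)
        have h2 := hmono.monotone (not_lt.1 hcon)
        omega
      · intro hk
        exact not_le.1 (Nat.find_min (hex n) hk)
    rw [this, Set.ncard_coe_finset, Finset.card_range]
  simp only [hcount]
  have hc : 0 < min (c1 b0) 1 / g j0 := div_pos hm0 (hgpos j0)
  have hl1 : 0 < lam b0 - 1 := by linarith
  refine logclass_of _ (c := min (min (c1 b0) 1 / g j0 / g 1) 1)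
    (c' := (w 0).length * C + 2 * K * C * (1 / (lam b0 - 1)) + 1) (d b0) hl0
    (lt_min (div_pos hc (hgpos 1)) one_pos) (by positivity) ?_
  intro n hn
  have hn3 : (3 : ℝ) ≤ n := by exact_mod_cast hn
  change _ * g _ ≤ _ ∧ _ ≤ _ * g _
  refine ⟨?_, ?_⟩
  · rcases Nat.eq_zero_or_pos (Nat.find (hex n)) with h0 | h0
    · rw [h0]
      have h1 : g 0 = 1 := by simp [hg]
      have h2 := min_le_right (min (c1 b0) 1 / g j0 / g 1) 1
      rw [h1]
      linarith
    · obtain ⟨m, hm⟩ : ∃ m, Nat.find (hex n) = 1 + m := ⟨Nat.find (hex n) - 1, by omega⟩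
      have h1 : ((w m).length : ℝ) < n := by
        exact_mod_cast not_le.1 (Nat.find_min (hex n) (show m < Nat.find (hex n) by omega))
      rw [hm]
      have h2 := hgadd 1 m
      have h3 := hlower m
      have h4 := hgpos 1
      calc min (min (c1 b0) 1 / g j0 / g 1) 1 * g (1 + m)
          ≤ (min (c1 b0) 1 / g j0 / g 1) * (g 1 * g m) :=
            mul_le_mul (min_le_left _ _) h2 (hgpos _).le (div_pos hc h4).le
        _ = min (c1 b0) 1 / g j0 * g m := by field_simp
        _ ≤ n := h3.trans h1.le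
  · have h1 : (n : ℝ) ≤ (w (Nat.find (hex n))).length := by exact_mod_cast Nat.find_spec (hex n)
    exact h1.trans (hupper _)

end Pool.Agent.H149Z.SU
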