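import Pool.Agent.H149Z.SU.Basic

/-! Sums over forward orbits: `thm_raysum` and `thm_raycount`. -/

set_option autoImplicit false

namespace Pool.Agent.H149Z.SU

namespace Traysum

open Classical

variable {O : Type} (good : O → Prop) (len : O → ℕ) (F : O → O)

/-- number of points of the forward orbit of `r` with length below `n` -/
noncomputable def ray (r : O) (n : ℕ) : ℕ := Set.ncard {k : ℕ | len (F^[k] r) < n}

variable {good len F}

lemma iter_good (hF : ∀ o, good o → good (F o) ∧ len o < len (F o)) {o : O} (ho : good o) (k : ℕ) :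
    good (F^[k] o) ∧ len o + k ≤ len (F^[k] o) := by
  induction k with
  | zero => exact ⟨ho, le_rfl⟩
  | succ k ih =>
    rw [Function.iterate_succ_apply']
    have := hF _ ih.1
    exact ⟨this.1, by omega⟩

lemma ray_zero (hF : ∀ o, good o → good (F o) ∧ len o < len (F o)) {o : O} (ho : good o) {n : ℕ}
    (hn : n ≤ len o) : ray len F o n = 0 := by
  have : {k : ℕ | len (F^[k] o) < n} = ∅ := by
    ext k
    have := (iter_good hF ho k).2
    simp only [Set.mem_setOf_eq, Set.mem_empty_iff_false, iff_false, not_lt]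
    omega
  simp [ray, this]

lemma ray_succ (hF : ∀ o, good o → good (F o) ∧ len o < len (F o)) {o : O} (ho : good o) {n : ℕ}
    (hn : len o < n) : ray len F o n = ray len F (F o) n + 1 := by
  have hfin : {k : ℕ | len (F^[k] (F o)) < n}.Finite := by
    refine (Set.finite_lt_nat n).subset ?_
    intro k hk
    have := (iter_good hF (hF o ho).1 k).2
    simp only [Set.mem_setOf_eq] at hk ⊢
    omega
  have e : {k : ℕ | len (F^[k] o) < n} = insert 0 (Nat.succ '' {k : ℕ | len (F^[k] (F o)) < n}) := by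
    ext k
    cases k with
    | zero => simpa using hn
    | succ k => simp [Function.iterate_succ_apply]
  unfold ray
  rw [e, Set.ncard_insert_of_notMem (by simp) (hfin.image _),
    Set.ncard_image_of_injective _ Nat.succ_injective]

lemma child_sum (hfin : ∀ n : ℕ, {o | good o ∧ len o < n}.Finite)
    (hF : ∀ o, good o → good (F o) ∧ len o < len (F o)) (μ : O → ℤ) (n : ℕ) (r : O)
    (hr : len r < n) :
    ∑ᶠ o ∈ {o | good o ∧ F o = r}, μ o = ∑ o ∈ (hfin n).toFinset with F o = r, μ o := by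
  have e : {o | good o ∧ F o = r} = ↑((hfin n).toFinset.filter (fun o => F o = r)) := by
    ext o
    simp only [Set.mem_setOf_eq, Finset.coe_filter, Set.Finite.mem_toFinset]
    constructor
    · rintro ⟨h1, h2⟩
      have := (hF o h1).2
      rw [h2] at this
      exact ⟨⟨h1, by omega⟩, h2⟩
    · rintro ⟨⟨h1, -⟩, h2⟩
      exact ⟨h1, h2⟩
  rw [e, finsum_mem_coe_finset]

lemma fiber_sum (s : Finset O) (F : O → O) (μ g : O → ℤ) :
    ∑ r ∈ s, (∑ o ∈ s with F o = r, μ o) * g r = ∑ o ∈ s with F o ∈ s, μ o * g (F o) := by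
  rw [← Finset.sum_fiberwise_of_maps_to (s := s.filter (fun o => F o ∈ s)) (t := s) (g := F)
    (fun o ho => (Finset.mem_filter.1 ho).2)]
  refine Finset.sum_congr rfl fun r hr => ?_
  rw [Finset.sum_mul, Finset.filter_filter]
  refine Finset.sum_congr ?_ ?_
  · ext o
    simp only [Finset.mem_filter]
    constructor
    · rintro ⟨h1, h2⟩
      exact ⟨h1, h2 ▸ hr, h2⟩
    · rintro ⟨h1, -, h2⟩
      exact ⟨h1, h2⟩
  · intro o ho
    rw [(Finset.mem_filter.1 ho).2.2]

lemma key (hfin : ∀ n : ℕ, {o | good o ∧ len o < n}.Finite)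
    (hF : ∀ o, good o → good (F o) ∧ len o < len (F o)) (μ : O → ℤ) (n : ℕ) :
    ∑ o ∈ (hfin n).toFinset, μ o = ∑ r ∈ (hfin n).toFinset,
      (μ r - ∑ᶠ o ∈ {o | good o ∧ F o = r}, μ o) * (ray len F r n : ℤ) := by
  have h1 : ∀ r ∈ (hfin n).toFinset,
      (μ r - ∑ᶠ o ∈ {o | good o ∧ F o = r}, μ o) * (ray len F r n : ℤ) =
      μ r * (ray len F r n : ℤ) -
        (∑ o ∈ (hfin n).toFinset with F o = r, μ o) * (ray len F r n : ℤ) := by
    intro r hr
    rw [Set.Finite.mem_toFinset] at hr
    rw [child_sum hfin hF μ n r hr.2, sub_mul]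
  rw [Finset.sum_congr rfl h1, Finset.sum_sub_distrib,
    fiber_sum _ F μ (fun r => (ray len F r n : ℤ)), Finset.sum_filter, ← Finset.sum_sub_distrib]
  refine Finset.sum_congr rfl fun o ho => ?_
  rw [Set.Finite.mem_toFinset] at ho
  rw [ray_succ hF ho.1 ho.2]
  split_ifs with h
  · push_cast; ring
  · have : ray len F (F o) n = 0 := by
      refine ray_zero hF (hF o ho.1).1 ?_
      by_contra hc
      apply h
      rw [Set.Finite.mem_toFinset]
      exact ⟨(hF o ho.1).1, by omega⟩
    rw [this]; simp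

lemma raysum_abs (hfin : ∀ n : ℕ, {o | good o ∧ len o < n}.Finite)
    (hF : ∀ o, good o → good (F o) ∧ len o < len (F o)) (μ : O → ℤ) (N : ℕ)
    (hμ : ∀ o', good o' → N ≤ len o' → μ o' = ∑ᶠ o ∈ {o | good o ∧ F o = o'}, μ o)
    (hray : ∀ r, good r → LogClass (fun n => (ray len F r n : ℝ))) :
    LogClass (fun n => ((∑ᶠ o ∈ {o | good o ∧ len o < n}, μ o : ℤ) : ℝ)) := by
  have hL := LogClass.sum (hfin N).toFinset
    (fun r n => ((μ r - ∑ᶠ o ∈ {o | good o ∧ F o = r}, μ o : ℤ) : ℝ) * (ray len F r n : ℝ))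
    (fun r hr => (hray r ((Set.Finite.mem_toFinset _).1 hr).1).smul _)
  refine hL.of_bdd 0 fun n => ?_
  have e : (∑ᶠ o ∈ {o | good o ∧ len o < n}, μ o : ℤ) = ∑ r ∈ (hfin N).toFinset,
      (μ r - ∑ᶠ o ∈ {o | good o ∧ F o = r}, μ o) * (ray len F r n : ℤ) := by
    rw [finsum_mem_eq_finite_toFinset_sum _ (hfin n), key hfin hF μ n]
    rcases le_total n N with h | h
    · refine Finset.sum_subset ?_ ?_
      · intro o ho
        rw [Set.Finite.mem_toFinset] at ho ⊢
        exact ⟨ho.1, lt_of_lt_of_le ho.2 h⟩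
      · intro o ho hno
        rw [Set.Finite.mem_toFinset] at ho hno
        rw [ray_zero hF ho.1 (by by_contra hc; exact hno ⟨ho.1, by omega⟩)]
        simp
    · refine (Finset.sum_subset ?_ ?_).symm
      · intro o ho
        rw [Set.Finite.mem_toFinset] at ho ⊢
        exact ⟨ho.1, lt_of_lt_of_le ho.2 h⟩
      · intro o ho hno
        rw [Set.Finite.mem_toFinset] at ho hno
        rw [← hμ o ho.1 (by by_contra hc; exact hno ⟨ho.1, by omega⟩)]
        simp
  rw [e]
  push_cast
  simp

lemma raycount_abs (hfin : ∀ n : ℕ, {o | good o ∧ len o < n}.Finite)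
    (hF : ∀ o, good o → good (F o) ∧ len o < len (F o)) (N : ℕ)
    (hpar : ∀ o', good o' → N ≤ len o' → ∃ o, good o ∧ F o = o')
    (hray : ∀ r, good r → LogClass (fun n => (ray len F r n : ℝ))) :
    LogClass (fun n => (Set.ncard {o | good o ∧ len o < n} : ℝ)) := by
  set ν : O → ℤ := fun r => 1 - ∑ᶠ o ∈ {o | good o ∧ F o = r}, (1 : ℤ) with hν
  have hnonneg : ∀ n, 0 ≤ ∑ r ∈ (hfin n).toFinset, ν r := by
    intro n
    have h1 : ∀ r ∈ (hfin n).toFinset,
        ν r = 1 - (∑ o ∈ (hfin n).toFinset with F o = r, (1 : ℤ)) * 1 := by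
      intro r hr
      rw [Set.Finite.mem_toFinset] at hr
      simp only [hν]
      rw [child_sum hfin hF (fun _ => (1 : ℤ)) n r hr.2, mul_one]
    rw [Finset.sum_congr rfl h1, Finset.sum_sub_distrib,
      fiber_sum _ F (fun _ => (1 : ℤ)) (fun _ => (1 : ℤ))]
    simp only [mul_one, Finset.sum_const, nsmul_eq_mul, sub_nonneg, Nat.cast_le]
    exact Finset.card_filter_le _ _
  have hneg : ∀ r, good r → N ≤ len r → ν r ≤ 0 := by
    intro r hr hN
    obtain ⟨o, ho, hor⟩ := hpar r hr hN
    simp only [hν]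
    rw [child_sum hfin hF (fun _ => (1 : ℤ)) (len r + 1) r (by omega)]
    simp only [Finset.sum_const, nsmul_eq_mul, mul_one, tsub_le_iff_right, zero_add, Nat.one_le_cast]
    refine Finset.card_pos.2 ⟨o, ?_⟩
    rw [Finset.mem_filter, Set.Finite.mem_toFinset]
    have := (hF o ho).2
    rw [hor] at this
    exact ⟨⟨ho, by omega⟩, hor⟩
  have hM : {r | good r ∧ N ≤ len r ∧ ν r ≠ 0}.Finite := by
    by_contra hinf
    obtain ⟨T, hT, hcard⟩ := Set.Infinite.exists_subset_card_eq hinf
      ((∑ r ∈ (hfin N).toFinset, ν r).toNat + 1)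
    set n := max N (T.sup len + 1) with hn
    have hsub : (hfin N).toFinset ⊆ (hfin n).toFinset := by
      intro o ho
      rw [Set.Finite.mem_toFinset] at ho ⊢
      exact ⟨ho.1, lt_of_lt_of_le ho.2 (le_max_left _ _)⟩
    have h0 := hnonneg n
    rw [← Finset.sum_sdiff hsub] at h0
    have hT2 : T ⊆ (hfin n).toFinset \ (hfin N).toFinset := by
      intro o ho
      have h1 := hT ho
      have h2 : len o ≤ T.sup len := Finset.le_sup ho
      rw [Finset.mem_sdiff, Set.Finite.mem_toFinset, Set.Finite.mem_toFinset]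
      refine ⟨⟨h1.1, lt_of_lt_of_le (by omega) (le_max_right _ _)⟩, fun h => ?_⟩
      have := h1.2.1
      have := h.2
      omega
    have h3 : ∑ r ∈ T, -ν r ≤ ∑ r ∈ (hfin n).toFinset \ (hfin N).toFinset, -ν r := by
      refine Finset.sum_le_sum_of_subset_of_nonneg hT2 fun o ho _ => ?_
      rw [Finset.mem_sdiff, Set.Finite.mem_toFinset, Set.Finite.mem_toFinset] at ho
      have := hneg o ho.1.1 (by by_contra hc; exact ho.2 ⟨ho.1.1, by omega⟩)
      omega
    have h4 : ∑ _r ∈ T, (1 : ℤ) ≤ ∑ r ∈ T, -ν r := by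
      refine Finset.sum_le_sum fun o ho => ?_
      have h1 := hT ho
      have := hneg o h1.1 h1.2.1
      have := h1.2.2
      omega
    rw [Finset.sum_neg_distrib] at h3
    rw [Finset.sum_neg_distrib] at h3
    rw [Finset.sum_neg_distrib, Finset.sum_const, hcard, nsmul_eq_mul, mul_one] at h4
    push_cast at h4
    have := Int.self_le_toNat (∑ r ∈ (hfin N).toFinset, ν r)
    omega
  have hL := raysum_abs hfin hF (fun _ => (1 : ℤ)) (max N (hM.toFinset.sup len + 1)) ?_ hray
  · refine hL.of_bdd 0 fun n => ?_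
    rw [finsum_mem_eq_finite_toFinset_sum _ (hfin n), Set.ncard_eq_toFinset_card _ (hfin n)]
    simp
  · intro r hr hN
    by_contra hne
    have hmem : r ∈ hM.toFinset := by
      rw [Set.Finite.mem_toFinset]
      refine ⟨hr, le_trans (le_max_left _ _) hN, fun h0 => hne ?_⟩
      simp only [hν] at h0
      omega
    have h2 : len r ≤ hM.toFinset.sup len := Finset.le_sup hmem
    have h3 := le_trans (le_max_right _ _) hN
    omega

lemma len_flatMap {A : Type} (σ : A → List A) (h2 : ∀ a, 2 ≤ (σ a).length) (w : List A) :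
    2 * w.length ≤ (w.flatMap σ).length := by
  induction w with
  | nil => simp
  | cons a w ih =>
    rw [List.flatMap_cons, List.length_append, List.length_cons]
    have := h2 a
    omega

lemma prep (h : S_ray) (A : Type) [Fintype A] (σ : A → List A) (h2 : ∀ a, 2 ≤ (σ a).length)
    (good : O → Prop) (mid : O → List A) (F : O → O) (K : ℕ)
    (hF : ∀ o, good o → mid o ≠ [] ∧ good (F o) ∧ ∃ s t : List A, s.length ≤ K ∧ t.length ≤ K ∧
        mid (F o) = s ++ (mid o).flatMap σ ++ t) :
    (∀ o, good o → good (F o) ∧ (mid o).length < (mid (F o)).length) ∧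
      ∀ r, good r → LogClass (fun n => (ray (fun o => (mid o).length) F r n : ℝ)) := by
  have h1 : ∀ o, good o → good (F o) ∧ (mid o).length < (mid (F o)).length := by
    intro o ho
    obtain ⟨hne, hg, s, t, -, -, e⟩ := hF o ho
    refine ⟨hg, ?_⟩
    have := len_flatMap σ h2 (mid o)
    have := List.length_pos_iff.2 hne
    rw [e, List.length_append, List.length_append]
    omega
  refine ⟨h1, fun r hr => ?_⟩
  refine h A σ h2 K (fun k => mid (F^[k] r)) (hF r hr).1 fun k => ?_
  have hk := (iter_good (len := fun o => (mid o).length) h1 hr k).1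
  rw [Function.iterate_succ_apply']
  exact (hF _ hk).2.2

end Traysum

theorem thm_raysum (h : S_ray) : S_raysum := by
  intro A _ σ h2 O good mid F μ K N hfin hF hμ
  obtain ⟨h1, hray⟩ := Traysum.prep h A σ h2 good mid F K hF
  exact Traysum.raysum_abs (len := fun o => (mid o).length) hfin h1 μ N hμ hray

theorem thm_raycount (h : S_ray) : S_raycount := by
  intro A _ σ h2 O good mid F K N hfin hF hpar
  obtain ⟨h1, hray⟩ := Traysum.prep h A σ h2 good mid F K hF
  exact Traysum.raycount_abs (len := fun o => (mid o).length) hfin h1 N hpar hray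

end Pool.Agent.H149Z.SU
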