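import Pool.Agent.H149Z.SU.Basic

/-! Recognizability for an arbitrary system, from the elementary case. -/

set_option autoImplicit false

namespace Pool.Agent.H149Z.SU

namespace Trec

variable {A B : Type}

/-- Powers of a morphism. -/
def pw (σ : A → List A) : ℕ → A → List A
  | 0, a => [a]
  | n + 1, a => (pw σ n a).flatMap σ

theorem pw_parse (X : Sys A) (n : ℕ) : ∃ C : ℤ → ℤ, IsParse (pw X.σ n) X.U C X.U := by
  induction n with
  | zero =>
    refine ⟨fun i => i, ⟨fun i => by simp [pw], fun i j hj => ?_⟩⟩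
    have : j = 0 := by simpa [pw] using hj
    subst this
    simp [pw]
  | succ n ih =>
    obtain ⟨C, hC⟩ := ih
    exact ⟨_, hC.comp X.parse⟩

theorem pw_len (X : Sys A) (n : ℕ) (a : A) : 1 ≤ (pw X.σ n a).length := by
  induction n with
  | zero => simp [pw]
  | succ n ih =>
    simp only [pw]
    cases h : pw X.σ n a with
    | nil => rw [h] at ih; simp at ih
    | cons x l =>
      have := X.one x
      simp only [List.flatMap_cons, List.length_append]
      omega

theorem elem_ne [Fintype B] {γ : B → List A} (h : Elementary γ) (b : B) : 1 ≤ (γ b).length := by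
  classical
  by_contra hc
  have h0 : γ b = [] := List.eq_nil_of_length_eq_zero (by omega)
  have := h {x : B // x ≠ b} (fun x => if hx : x ≠ b then [⟨x, hx⟩] else []) (fun e => γ e.1) (by
    intro x
    by_cases hx : x ≠ b
    · simp [hx]
    · have : x = b := by simpa using hx
      subst this
      simp [h0])
  have h2 : Fintype.card {x : B // x ≠ b} < Fintype.card B :=
    Fintype.card_subtype_lt (x := b) (by simp)
  omega

theorem exists_elem [Fintype A] (X : Sys A) :
    ∃ (m : ℕ) (α : Fin m → List A) (V : ℤ → Fin m) (ca : ℤ → ℤ),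
      IsParse α V ca X.U ∧ (∀ b, 1 ≤ (α b).length) ∧
      Elementary (fun b => (α b).flatMap X.σ) := by
  classical
  have hex : ∃ m : ℕ, ∃ (n : ℕ) (β : A → List (Fin m)) (α : Fin m → List A),
      ∀ a, pw X.σ n a = (β a).flatMap α :=
    ⟨Fintype.card A, 0, fun a => [Fintype.equivFin A a], fun b => [(Fintype.equivFin A).symm b],
      fun a => by simp [pw]⟩
  obtain ⟨n, β, α, hf⟩ := Nat.find_spec hex
  have hel : Elementary (fun b => (α b).flatMap X.σ) := by
    intro E _ β' μ hE
    rw [Fintype.card_fin]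
    apply Nat.find_min' hex
    refine ⟨n + 1, fun a => ((β a).flatMap β').map (Fintype.equivFin E),
      fun e => μ ((Fintype.equivFin E).symm e), fun a => ?_⟩
    simp only [pw]
    rw [hf a, List.flatMap_assoc, List.flatMap_map, List.flatMap_assoc]
    congr 1
    funext b
    simpa using hE b
  have hα : ∀ b, 1 ≤ (α b).length := by
    intro b
    have := elem_ne hel b
    by_contra hc
    have h0 : α b = [] := List.eq_nil_of_length_eq_zero (by omega)
    simp [h0] at this
  have hβ : ∀ a, 1 ≤ (β a).length := by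
    intro a
    have := pw_len X n a
    by_contra hc
    have h0 : β a = [] := List.eq_nil_of_length_eq_zero (by omega)
    rw [hf a, h0] at this
    simp at this
  obtain ⟨C, hC⟩ := pw_parse X n
  obtain ⟨C1, V, h1, h10⟩ := exists_parse β hβ X.U 0
  obtain ⟨C2, U', h2, h20⟩ := exists_parse α hα V (C 0)
  have h3 := h1.comp h2
  have e : (fun b => (β b).flatMap α) = pw X.σ n := funext fun a => (hf a).symm
  rw [e] at h3
  have h4 := (hC.unique h3 (pw_len X n)).2
  have e2 : U' = X.U := by
    funext t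
    have := h4 t
    simp only [h10, h20, sub_self, add_zero] at this
    exact this
  exact ⟨_, α, V, C2, e2 ▸ h2, hα, hel⟩

theorem walkR {γ : B → List A} {V : ℤ → B} {G : ℤ → ℤ} {U : ℤ → A} (h : IsParse γ V G U)
    (hr : ∀ b, 1 ≤ (γ b).length) {K : ℕ} (hK : ∀ b, (γ b).length ≤ K)
    (hd : ∀ i j : ℤ, Agr U U (G i) (G j) K → V i = V j) (N : ℕ) :
    ∀ (L i j : ℤ), 0 ≤ L → L ≤ N → Agr U U (G i) (G j) L →
      ∃ r : ℤ, 0 ≤ r ∧ Agr V V i j r ∧ G (i + r) ≤ G i + L ∧ G i + L - K ≤ G (i + r) := by
  induction N with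
  | zero =>
    intro L i j h0 hN _
    refine ⟨0, le_rfl, fun t a b => by omega, ?_, ?_⟩ <;> simp only [add_zero] <;> omega
  | succ N ih =>
    intro L i j h0 hN hA
    by_cases hL : L ≤ K
    · refine ⟨0, le_rfl, fun t a b => by omega, ?_, ?_⟩ <;> simp only [add_zero] <;> omega
    · have e : V i = V j := hd i j (hA.sub le_rfl (by omega) (by omega))
      have s1 := h.step i
      have s2 := h.step j
      rw [← e] at s2
      have b1 := hr (V i)
      have b2 := hK (V i)
      obtain ⟨r, r0, r1, r2, r3⟩ := ih (L - (γ (V i)).length) (i + 1) (j + 1) (by omega) (by omega)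
        (hA.sub (by omega) (by omega) (by omega))
      refine ⟨r + 1, by omega, ?_, ?_, ?_⟩
      · intro t t0 t1
        by_cases ht : t = 0
        · subst ht; simpa using e
        · exact r1.at (by omega) (by omega) (by omega)
      · rw [show i + (r + 1) = i + 1 + r by ring]; omega
      · rw [show i + (r + 1) = i + 1 + r by ring]; omega

theorem walkL {γ : B → List A} {V : ℤ → B} {G : ℤ → ℤ} {U : ℤ → A} (h : IsParse γ V G U)
    (hr : ∀ b, 1 ≤ (γ b).length) {K : ℕ} (hK : ∀ b, (γ b).length ≤ K)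
    (hd : ∀ i j : ℤ, Agr U U (G i - K) (G j - K) K → V (i - 1) = V (j - 1)) (N : ℕ) :
    ∀ (L i j : ℤ), 0 ≤ L → L ≤ N → Agr U U (G i - L) (G j - L) L →
      ∃ r : ℤ, 0 ≤ r ∧ Agr V V (i - r) (j - r) r ∧ G i - L ≤ G (i - r) ∧
        G (i - r) ≤ G i - L + K := by
  induction N with
  | zero =>
    intro L i j h0 hN _
    refine ⟨0, le_rfl, fun t a b => by omega, ?_, ?_⟩ <;> simp only [sub_zero] <;> omega
  | succ N ih =>
    intro L i j h0 hN hA
    by_cases hL : L ≤ K
    · refine ⟨0, le_rfl, fun t a b => by omega, ?_, ?_⟩ <;> simp only [sub_zero] <;> omega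
    · have e : V (i - 1) = V (j - 1) := hd i j (hA.sub (by omega) (by omega) (by omega))
      have s1 := h.step (i - 1)
      have s2 := h.step (j - 1)
      rw [← e] at s2
      rw [sub_add_cancel] at s1 s2
      have b1 := hr (V (i - 1))
      have b2 := hK (V (i - 1))
      obtain ⟨r, r0, r1, r2, r3⟩ := ih (L - (γ (V (i - 1))).length) (i - 1) (j - 1) (by omega)
        (by omega) (hA.sub (by omega) (by omega) (by omega))
      refine ⟨r + 1, by omega, ?_, ?_, ?_⟩
      · intro t t0 t1
        by_cases ht : t = r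
        · subst ht
          rw [show i - (t + 1) + t = i - 1 by ring, show j - (t + 1) + t = j - 1 by ring]
          exact e
        · exact r1.at (by omega) (by omega) (by omega)
      · rw [show i - (r + 1) = i - 1 - r by ring]; omega
      · rw [show i - (r + 1) = i - 1 - r by ring]; omega

theorem exists_bound [Fintype B] (γ : B → List A) : ∃ M : ℕ, ∀ b, (γ b).length ≤ M :=
  ⟨Finset.univ.sup fun b => (γ b).length,
    fun b => Finset.le_sup (f := fun b => (γ b).length) (Finset.mem_univ b)⟩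

theorem pigeon (G : ℤ → ℤ) (π : ℤ) (hπ : 1 ≤ π) (l : ℤ) :
    ∃ l1 l2 : ℤ, l ≤ l1 ∧ l1 < l2 ∧ l2 ≤ l + π ∧ π ∣ G l2 - G l1 := by
  obtain ⟨x, hx, y, hy, hne, he⟩ := Finset.exists_ne_map_eq_of_card_lt_of_maps_to
    (s := Finset.Icc l (l + π)) (t := Finset.Ico (0 : ℤ) π) (f := fun s => G s % π)
    (by simp only [Int.card_Icc, Int.card_Ico]; omega)
    (by
      intro s _
      simp only [Finset.coe_Ico, Set.mem_Ico]
      exact ⟨Int.emod_nonneg _ (by omega), Int.emod_lt_of_pos _ (by omega)⟩)
  rw [Finset.mem_Icc] at hx hy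
  rcases lt_or_gt_of_ne hne with h | h
  · exact ⟨x, y, hx.1, h, hy.2, Int.ModEq.dvd he⟩
  · exact ⟨y, x, hy.1, h, hx.2, Int.ModEq.dvd he.symm⟩

end Trec

open Trec in
theorem thm_rec (h : S_elem) : S_rec := by
  intro A _ X
  obtain ⟨m0, α, V, ca, hα, hα1, hel⟩ := exists_elem X
  have hγ := hα.comp X.parse
  have hγ1 := elem_ne hel
  obtain ⟨K0, P0, hE⟩ := h A (Fin m0) _ hel
  obtain ⟨e1, e2, e3⟩ := hE V V _ _ X.U X.U hγ hγ
  obtain ⟨M, hM⟩ := exists_bound (fun b => (α b).flatMap X.σ)
  obtain ⟨Ma, hMa⟩ := exists_bound α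
  have hK : ∀ b, ((α b).flatMap X.σ).length ≤ K0 + M := fun b => le_trans (hM b) (by omega)
  have d1 : ∀ i j : ℤ, Agr X.U X.U (X.c (ca i)) (X.c (ca j)) ((K0 + M : ℕ) : ℤ) → V i = V j :=
    fun i j hA => e1 i j (hA.sub le_rfl (by push_cast; omega) (by omega))
  have d2 : ∀ i j : ℤ, Agr X.U X.U (X.c (ca i) - ((K0 + M : ℕ) : ℤ))
      (X.c (ca j) - ((K0 + M : ℕ) : ℤ)) ((K0 + M : ℕ) : ℤ) → V (i - 1) = V (j - 1) :=
    fun i j hA => e2 i j (hA.sub (by push_cast; omega) (by push_cast; omega)
      (by push_cast; omega))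
  have hmono := hα.strictMono hα1
  constructor
  · refine ⟨K0 + M, P0, fun p q n hA => ?_⟩
    rcases e3 p q n hA with ⟨i, j, c1, c2, c3⟩ | ⟨π, p1, p2, p3⟩
    · left
      obtain ⟨r, r0, r1, r2, r3⟩ := walkR hγ hγ1 hK d1 (p + n - X.c (ca i)).toNat
        (p + n - X.c (ca i)) i j (by omega) (by omega) (hA.sub (by omega) (by omega) (by omega))
      obtain ⟨l, l0, l1, l2, l3⟩ := walkL hγ hγ1 hK d2 (X.c (ca i) - p).toNat
        (X.c (ca i) - p) i j (by omega) (by omega) (hA.sub (by omega) (by omega) (by omega))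
      have hV : Agr V V (i - l) (j - l) (l + r) := by
        intro t t0 t1
        by_cases ht : t < l
        · exact l1 t t0 ht
        · exact r1.at (by omega) (by omega) (by omega)
      have hc := hγ.cut_at hγ hV (x := i) (y := j) (by omega) (by omega) (by omega)
      have hag := hα.agr hα hα1 hV
      rw [show i - l + (l + r) = i + r by ring] at hag
      have hle : ca (i - l) ≤ ca (i + r) := hmono.monotone (by omega)
      refine ⟨ca (i - l), ca (j - l), ca (i + r) - ca (i - l), by omega, by omega, by omega,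
        by omega, ?_, ?_, hag⟩
      · rw [show ca (i - l) + (ca (i + r) - ca (i - l)) = ca (i + r) by ring]; omega
      · rw [show ca (i - l) + (ca (i + r) - ca (i - l)) = ca (i + r) by ring]; omega
    · right
      exact ⟨π, p1, p2, p3.mono (by push_cast; omega) (by push_cast; omega)⟩
  · intro π hπ
    obtain ⟨k0, rfl⟩ := Int.eq_ofNat_of_zero_le (show 0 ≤ π by omega)
    refine ⟨Ma + Ma * k0 + (K0 + M), Ma * k0 + 1, fun i m hP => ?_⟩
    obtain ⟨l, hl1, hl2⟩ := hα.exists_idx hα1 i
    have hl3 := hα.step l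
    have hl4 := hMa (V l)
    obtain ⟨l1, l2, a1, a2, a3, k, hk⟩ := pigeon (fun s => X.c (ca s)) k0 hπ (l + 1)
    have b1 : ca (l + 1) ≤ ca l1 := hmono.monotone a1
    have b2 : ca l1 < ca l2 := hmono a2
    have b3 : ca l2 ≤ ca (l + 1 + k0) := hmono.monotone a3
    have b4 := hα.add_le hMa (l + 1) k0 (by omega)
    have b5 : X.c i ≤ X.c (ca l1) := X.mono.monotone (by omega)
    have b6 : X.c (ca l1) < X.c (ca l2) := X.mono b2
    have hMk : (0 : ℤ) ≤ (Ma : ℤ) * k0 := by positivity
    by_cases hL : X.c (ca l2) ≤ X.c (i + m)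
    · have hk0 : 0 ≤ k := by
        by_contra hc
        have : (k0 : ℤ) * k ≤ 0 := mul_nonpos_of_nonneg_of_nonpos (by omega) (by omega)
        omega
      obtain ⟨k', rfl⟩ := Int.eq_ofNat_of_zero_le hk0
      have hP2 := hP.mul (by omega) k'
      rw [mul_comm] at hk
      have hA : Agr X.U X.U (X.c (ca l1)) (X.c (ca l2)) (X.c (i + m) - X.c (ca l2)) := by
        intro t t0 t1
        rw [hP2 _ (by omega) (by omega)]
        congr 1
        omega
      obtain ⟨r, r0, r1, r2, r3⟩ := walkR hγ hγ1 hK d1 (X.c (i + m) - X.c (ca l2)).toNat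
        _ l1 l2 (by omega) (by omega) hA
      have hc := hγ.cut_at hγ r1 (x := l1 + r) (y := l2 + r) (by omega) (by omega) (by omega)
      have hc2 := hα.cut_at hα r1 (x := l1 + r) (y := l2 + r) (by omega) (by omega) (by omega)
      have hag := hα.agr hα hα1 r1
      have b7 : i + m - ((K0 + M : ℕ) : ℤ) ≤ ca (l2 + r) := by
        by_contra hc3
        have := X.lb (i := ca (l2 + r)) (j := i + m) (by omega)
        omega
      refine ⟨ca l2 - ca l1, by omega, by push_cast; omega, ?_⟩
      intro t t0 t1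
      push_cast at t0 t1 b7
      exact hag.at (by omega) (by omega) (by omega)
    · have b8 : i + m < ca l2 := X.mono.lt_iff_lt.mp (by omega)
      refine ⟨1, le_rfl, by push_cast; omega, ?_⟩
      intro t t0 t1
      push_cast at t0 t1
      omega

end Pool.Agent.H149Z.SU
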