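import Pool.Agent.H149Z.SU.Basic

/-! Counting maximal periodic runs (task `run` of the proof of `S08765`). -/

set_option autoImplicit false

namespace Pool.Agent.H149Z.SU

namespace Trun

variable {A : Type}

theorem ext_left {U : ℤ → A} {π a a0 b : ℤ} (h : Per U π a b) (h' : ¬ Per U π a0 b) :
    ∃ a', a0 < a' ∧ a' ≤ a ∧ Per U π a' b ∧ U (a' - 1) ≠ U (a' - 1 + π) := by
  have hb : ∀ t : ℤ, (a0 ≤ t ∧ t + π < b ∧ U t ≠ U (t + π)) → t ≤ a - 1 := fun t ht => by
    by_contra hc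
    exact ht.2.2 (h t (by omega) ht.2.1)
  have hne : ∃ t : ℤ, a0 ≤ t ∧ t + π < b ∧ U t ≠ U (t + π) := by
    by_contra hc
    exact h' fun t h1 h2 => by_contra fun h3 => hc ⟨t, h1, h2, h3⟩
  obtain ⟨t, ht, hmax⟩ := Int.exists_greatest_of_bdd ⟨_, hb⟩ hne
  have := hb t ht
  refine ⟨t + 1, by omega, by omega, fun s h1 h2 => by_contra fun h3 => ?_, ?_⟩
  · have := hmax s ⟨by omega, h2, h3⟩
    omega
  · rw [show t + 1 - 1 = t by ring]; exact ht.2.2

theorem ext_right {U : ℤ → A} {π a b b0 : ℤ} (h : Per U π a b) (h' : ¬ Per U π a b0) :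
    ∃ b', b ≤ b' ∧ b' < b0 ∧ Per U π a b' ∧ U b' ≠ U (b' - π) := by
  have hb : ∀ t : ℤ, (a ≤ t ∧ t + π < b0 ∧ U t ≠ U (t + π)) → a ≤ t := fun t ht => ht.1
  have hne : ∃ t : ℤ, a ≤ t ∧ t + π < b0 ∧ U t ≠ U (t + π) := by
    by_contra hc
    exact h' fun t h1 h2 => by_contra fun h3 => hc ⟨t, h1, h2, h3⟩
  obtain ⟨t, ht, hmin⟩ := Int.exists_least_of_bdd ⟨_, hb⟩ hne
  have h0 : b ≤ t + π := by
    by_contra hc
    exact ht.2.2 (h t ht.1 (by omega))
  refine ⟨t + π, h0, ht.2.1, fun s h1 h2 => by_contra fun h3 => ?_, ?_⟩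
  · have := hmin s ⟨h1, by omega, h3⟩
    omega
  · rw [show t + π - π = t by ring]; exact ht.2.2.symm

/-- `[a, b)` is a maximal run. -/
def Run (U : ℤ → A) (Q : ℕ) (a b : ℤ) : Prop :=
  Per U Q a b ∧ U (a - 1) ≠ U (a - 1 + Q) ∧ U b ≠ U (b - Q)

/-- `[a', b')` is within `E` of the image of `[a, b)`. -/
def Near (X : Sys A) (E : ℕ) (a b a' b' : ℤ) : Prop :=
  X.c a - E ≤ a' ∧ a' ≤ X.c a ∧ X.c b ≤ b' ∧ b' ≤ X.c b + E

theorem child {X : Sys A} {Q K : ℕ} (G : Good X Q K) {a b : ℤ} (h : Run X.U Q a b)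
    (hl : a + K + Q ≤ b) : ∃ a' b', Run X.U Q a' b' ∧ Near X (K * (K + 1)) a b a' b' := by
  obtain ⟨h1, h2, h3⟩ := h
  have h4 := G.per_img a (b - a) (by omega) (by rwa [show a + (b - a) = b by ring])
  rw [show a + (b - a) = b by ring] at h4
  obtain ⟨a', a1, a2, a3, a4⟩ := ext_left (a0 := X.c (a - K - 1)) h4 fun h5 => by
    have := G.per_pre (a - K - 1) (b - a + K + 1)
      (by rwa [show a - K - 1 + (b - a + K + 1) = b by ring])
    exact h2 (this _ (by omega) (by omega))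
  obtain ⟨b', b1, b2, b3, b4⟩ := ext_right (b0 := X.c (b + K + 1)) h4 fun h5 => by
    have := G.per_pre a (b - a + K + 1)
      (by rwa [show a + (b - a + K + 1) = b + K + 1 by ring])
    have := this (b - Q) (by omega) (by omega)
    rw [show b - Q + Q = b by ring] at this
    exact h3 this.symm
  have c1 := G.ub (i := a - K - 1) (j := a) (by omega)
  have c2 := G.ub (i := b) (j := b + K + 1) (by omega)
  have c3 := X.lb (i := a) (j := b) (by omega)
  rw [show a - (a - K - 1) = K + 1 by ring] at c1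
  rw [show b + K + 1 - b = K + 1 by ring] at c2
  refine ⟨a', b', ⟨a3.glue b3 (by omega), a4, b4⟩, ?_, a2, b1, ?_⟩ <;> push_cast <;> omega

theorem parent {X : Sys A} {Q K : ℕ} (G : Good X Q K) (N : ℕ) {a' b' : ℤ} (h : Run X.U Q a' b')
    (hl : a' + K * (N + 2 * K + Q + 2) ≤ b') :
    ∃ a b : ℤ, a + N ≤ b ∧ Run X.U Q a b ∧ Near X (K * (K + 1)) a b a' b' := by
  obtain ⟨h1, h2, h3⟩ := h
  obtain ⟨l, l1, l2⟩ := X.idx (a' - 1)
  obtain ⟨j, j1, j2⟩ := X.idx b'
  have hK : (2 : ℤ) ≤ K := by exact_mod_cast (X.two (X.U 0)).trans (G.len_le _)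
  have h0 : (0 : ℤ) ≤ K * (N + 2 * K + Q + 2) := by positivity
  have hlj : l < j + 1 := X.mono.lt_iff_lt.1 (by omega)
  have hd : l + 1 + N + 2 * K + Q ≤ j := by
    by_contra hc
    have c1 := G.ub (i := l) (j := j + 1) hlj.le
    have : (K : ℤ) * (j + 1 - l) ≤ K * (N + 2 * K + Q + 2) :=
      mul_le_mul_of_nonneg_left (by omega) (by omega)
    omega
  have h4 := G.per_pre (l + 1) (j - (l + 1))
    (by rw [show l + 1 + (j - (l + 1)) = j by ring]; exact h1.mono (by omega) j1)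
  rw [show l + 1 + (j - (l + 1)) - K = j - K by ring] at h4
  obtain ⟨a, a1, a2, a3, a4⟩ := ext_left (a0 := l) h4 fun h5 => by
    have := G.per_img l (j - K - l) (by omega) (by rwa [show l + (j - K - l) = j - K by ring])
    rw [show l + (j - K - l) = j - K by ring] at this
    have c1 := X.lb (i := l + 1) (j := j - K) (by omega)
    exact h2 (this _ l1 (by omega))
  obtain ⟨b, b1, b2, b3, b4⟩ := ext_right (b0 := j + 1) h4 fun h5 => by
    have := G.per_img (l + 1 + K) (j - l - K) (by omega)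
      (by rwa [show l + 1 + K + (j - l - K) = j + 1 by ring])
    rw [show l + 1 + K + (j - l - K) = j + 1 by ring] at this
    have c1 := X.lb (i := l + 1 + K) (j := j) (by omega)
    have := this (b' - Q) (by omega) (by omega)
    rw [show b' - Q + Q = b' by ring] at this
    exact h3 this.symm
  have c1 := G.ub (i := l) (j := a) (by omega)
  have c2 := G.ub (i := b) (j := j + 1) (by omega)
  have c3 := X.lb (i := l + 1) (j := a) (by omega)
  have c4 := X.lb (i := b) (j := j) (by omega)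
  have c5 : (K : ℤ) * (a - l) ≤ K * (K + 1) := mul_le_mul_of_nonneg_left (by omega) (by omega)
  have c6 : (K : ℤ) * (j + 1 - b) ≤ K * (K + 1) := mul_le_mul_of_nonneg_left (by omega) (by omega)
  refine ⟨a, b, by omega, ⟨a3.glue b3 (by omega), a4, b4⟩, ?_, by omega, by omega, ?_⟩ <;>
    push_cast <;> omega

theorem uniq_aux {U : ℤ → A} {Q : ℕ} {E D x y δ a b a' b' : ℤ} (hD : E + 1 ≤ D)
    (hA : Agr U U (x - 2 * D) (x + δ - 2 * D) (y - x + 4 * D)) (hxy : x + Q ≤ y)
    (h : Run U Q a b) (h' : Run U Q a' b') (a2 : a ≤ x) (b1 : y ≤ b)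
    (a3 : x + δ - E ≤ a') (a4 : a' ≤ x + δ) (b3 : y + δ ≤ b') (b4 : b' ≤ y + δ + E) :
    a' ≤ a + δ ∧ b + δ ≤ b' := by
  constructor
  · by_contra hc
    refine h'.2.1 ?_
    rw [← hA.at (x := a' - 1 - δ) (y := a' - 1) (by omega) (by omega) (by omega),
      ← hA.at (x := a' - 1 - δ + Q) (y := a' - 1 + Q) (by omega) (by omega) (by omega)]
    exact h.1 _ (by omega) (by omega)
  · by_contra hc
    refine h'.2.2 ?_
    rw [← hA.at (x := b' - δ - Q + Q) (y := b') (by omega) (by omega) (by omega),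
      ← hA.at (x := b' - δ - Q) (y := b' - Q) (by omega) (by omega) (by omega)]
    exact (h.1 _ (by omega) (by omega)).symm

theorem uniq {X : Sys A} {Q E D : ℕ} (hD : E + 1 ≤ D) {p q a b a' b' : ℤ} {n : ℕ} (hn : Q ≤ n)
    (hA : Agr X.U X.U (p - D) (q - D) (n + 2 * D : ℕ))
    (h : Run X.U Q a b) (h' : Run X.U Q a' b') (k : Near X E p (p + n) a b)
    (k' : Near X E q (q + n) a' b') :
    b' - a' = b - a ∧ Agr X.U X.U (a - D) (a' - D) (b - a + 2 * D) := by
  obtain ⟨a1, a2, b1, b2⟩ := k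
  obtain ⟨a3, a4, b3, b4⟩ := k'
  push_cast at hA
  have h1 := X.agr hA
  have h2 := X.cut_at hA (x := p) (y := q) (by omega) (by omega) (by omega)
  have h3 := X.cut_at hA (x := p + n) (y := q + n) (by omega) (by omega) (by omega)
  have h4 := X.lb (i := p - D) (j := p) (by omega)
  have h5 := X.lb (i := p + n) (j := p - D + (n + 2 * D)) (by omega)
  have h6 := X.lb (i := p) (j := p + n) (by omega)
  have h7 : Agr X.U X.U (X.c p - 2 * D) (X.c p + (X.c q - X.c p) - 2 * D)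
      (X.c (p + n) - X.c p + 4 * D) := h1.sub (by omega) (by omega) (by omega)
  have h8 : Agr X.U X.U (X.c q - 2 * D) (X.c q + (X.c p - X.c q) - 2 * D)
      (X.c (q + n) - X.c q + 4 * D) := h1.symm.sub (by omega) (by omega) (by omega)
  have h9 := uniq_aux (E := E) (by omega) h7 (by omega) h h' a2 b1 (by omega) (by omega)
    (by omega) (by omega)
  have h10 := uniq_aux (E := E) (by omega) h8 (by omega) h' h a4 b3 (by omega) (by omega)
    (by omega) (by omega)
  exact ⟨by omega, h7.sub (by omega) (by omega) (by omega)⟩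

/-- the child relation on words -/
def Ch (X : Sys A) (Q E D N : ℕ) (ω ω' : List A) : Prop :=
  ∃ (p : ℤ) (n : ℕ) (p' : ℤ) (n' : ℕ), N ≤ n ∧ ω = fac X.U (p - D) (n + 2 * D) ∧
    ω' = fac X.U (p' - D) (n' + 2 * D) ∧ Run X.U Q p' (p' + n') ∧ Near X E p (p + n) p' (p' + n')

theorem Ch.uniq {X : Sys A} {Q E D N : ℕ} (hD : E + 1 ≤ D) (hN : Q ≤ N) {ω ω₁ ω₂ : List A}
    (h1 : Ch X Q E D N ω ω₁) (h2 : Ch X Q E D N ω ω₂) : ω₁ = ω₂ := by
  obtain ⟨p, n, a, m, h3, rfl, rfl, h4, h5⟩ := h1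
  obtain ⟨q, n', a', m', -, e, rfl, h6, h7⟩ := h2
  obtain rfl : n = n' := by have := fac_eq_len e; omega
  obtain ⟨h8, h9⟩ := Trun.uniq hD (hN.trans h3) ((fac_eq_iff _ _ _ _ _).1 e) h4 h6 h5 h7
  obtain rfl : m = m' := by omega
  refine (fac_eq_iff _ _ _ _ _).2 ?_
  convert h9 using 1
  push_cast; ring

theorem mid_fac (U : ℤ → A) (p : ℤ) (n D : ℕ) :
    ((fac U (p - D) (n + 2 * D)).drop D).take ((fac U (p - D) (n + 2 * D)).length - 2 * D) =
      fac U p n := by
  rw [fac_length, show n + 2 * D - 2 * D = n by omega, fac_drop_take _ _ _ _ _ (by omega),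
    sub_add_cancel]

end Trun

open Trun in
theorem thm_run (h : S_raycount) : S_run := by
  classical
  intro A _ X Q K G
  refine ⟨K * (K + 1) + 1, K + Q + 1, fun D hD N hN => ?_⟩
  let mid : List A → List A := fun ω => (ω.drop D).take (ω.length - 2 * D)
  have hmid : ∀ p n, mid (fac X.U (p - D) (n + 2 * D)) = fac X.U p n := fun p n => mid_fac _ _ _ _
  let F : List A → List A := fun ω =>
    if h : ∃ ω', Ch X Q (K * (K + 1)) D N ω ω' then h.choose else ω
  have hF : ∀ ω ω', Ch X Q (K * (K + 1)) D N ω ω' → F ω = ω' := fun ω ω' h1 => by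
    have h2 : ∃ ω', Ch X Q (K * (K + 1)) D N ω ω' := ⟨ω', h1⟩
    simp only [F, dif_pos h2]
    exact h2.choose_spec.uniq hD (by omega) h1
  have key := h A X.σ X.two (List A) (· ∈ RunSet X.U Q D N) mid F (K * (K + 1))
    (K * (N + 2 * K + Q + 2)) (fun n => ?_) ?_ ?_
  · convert key using 5 with n
    funext ω
    refine propext (and_congr_right ?_)
    rintro ⟨p, m, -, rfl, -⟩
    rw [hmid, fac_length, fac_length]
    omega
  · refine (List.finite_length_lt A (n + 2 * D)).subset ?_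
    rintro ω ⟨⟨p, m, -, rfl, -⟩, h1⟩
    rw [hmid, fac_length] at h1
    simpa using h1
  · rintro ω ⟨p, n, h1, rfl, h2⟩
    obtain ⟨a, b, h3, h4⟩ := child G (a := p) (b := p + n) h2 (by omega)
    have h5 := X.lb (i := p) (j := p + n) (by omega)
    obtain ⟨a1, a2, b1, b2⟩ := id h4
    obtain ⟨m, hm⟩ := Int.eq_ofNat_of_zero_le (show 0 ≤ b - a by omega)
    obtain rfl : b = a + m := by omega
    rw [hF _ _ ⟨p, n, a, m, h1, rfl, rfl, h3, h4⟩, hmid, hmid]
    refine ⟨fun h0 => ?_, ⟨a, m, by omega, rfl, h3⟩, fac X.U a (X.c p - a).toNat,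
      fac X.U (X.c (p + n)) (a + m - X.c (p + n)).toNat, by rw [fac_length]; omega,
      by rw [fac_length]; omega, ?_⟩
    · have := congrArg List.length h0
      rw [fac_length, List.length_nil] at this
      omega
    · rw [X.parse.flatMap_fac, show m = (X.c p - a).toNat + (X.c (p + n) - X.c p).toNat +
        (a + m - X.c (p + n)).toNat by omega, fac_add, fac_add]
      congr 3 <;> omega
  · rintro ω ⟨p', n', -, rfl, h2⟩ h1
    rw [hmid, fac_length] at h1
    have h1' : ((K * (N + 2 * K + Q + 2) : ℕ) : ℤ) ≤ n' := by exact_mod_cast h1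
    push_cast at h1'
    obtain ⟨a, b, h3, h4, h5⟩ := parent G N (a' := p') (b' := p' + n') h2 (by omega)
    obtain ⟨m, hm⟩ := Int.eq_ofNat_of_zero_le (show 0 ≤ b - a by omega)
    obtain rfl : b = a + m := by omega
    exact ⟨_, ⟨a, m, by omega, rfl, h4⟩, hF _ _ ⟨a, m, p', n', by omega, rfl, rfl, h2, h5⟩⟩

end Pool.Agent.H149Z.SU
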