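import Pool.Agent.H149Z.SU.Basic

/-! `thm_split` and `thm_tel` (written by helper427). -/

set_option autoImplicit false

namespace Pool.Agent.H149Z.SU

namespace Ttel

variable {A : Type}

/-- words read at `p - i`, of length `n`, over positions satisfying `P` -/
def W (U : ℤ → A) (P : ℤ → Prop) (i : ℤ) (n : ℕ) : Set (List A) :=
  {ω | ∃ p : ℤ, P p ∧ ω = fac U (p - i) n}

theorem W_fin [Fintype A] (U : ℤ → A) (P : ℤ → Prop) (i : ℤ) (n : ℕ) : (W U P i n).Finite :=
  finite_fac U P (fun p => p - i) n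

theorem cnt_eq (U : ℤ → A) (P : ℤ → ℕ → Prop) (i j n : ℕ) :
    cnt U P i j n = (W U (fun p => P p n) i (n + i + j)).ncard := rfl

theorem W_split [Fintype A] (U : ℤ → A) (P R : ℤ → Prop) (i : ℤ) (n : ℕ)
    (hR : ∀ p q, Agr U U (p - i) (q - i) n → R p → R q) :
    (W U P i n).ncard = (W U (fun p => P p ∧ R p) i n).ncard +
      (W U (fun p => P p ∧ ¬ R p) i n).ncard := by
  rw [← Set.ncard_union_eq _ (W_fin _ _ _ _) (W_fin _ _ _ _)]
  · congr 1
    ext ω
    constructor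
    · rintro ⟨p, hp, rfl⟩
      by_cases h : R p
      · exact Or.inl ⟨p, ⟨hp, h⟩, rfl⟩
      · exact Or.inr ⟨p, ⟨hp, h⟩, rfl⟩
    · rintro (⟨p, hp, rfl⟩ | ⟨p, hp, rfl⟩)
      · exact ⟨p, hp.1, rfl⟩
      · exact ⟨p, hp.1, rfl⟩
  · rw [Set.disjoint_left]
    rintro ω ⟨p, hp, rfl⟩ ⟨q, hq, h⟩
    exact hq.2 (hR p q ((fac_eq_iff _ _ _ _ _).1 h) hp.2)

theorem W_shift (U : ℤ → A) (P P' : ℤ → Prop) (i i' : ℤ) (n n' : ℕ) (hn : n = n')
    (h : ∀ p, P p ↔ P' (p - i + i')) : W U P i n = W U P' i' n' := by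
  subst hn
  ext ω
  constructor
  · rintro ⟨p, hp, rfl⟩
    exact ⟨p - i + i', (h p).1 hp, by congr 1; ring⟩
  · rintro ⟨p, hp, rfl⟩
    refine ⟨p - i' + i, (h _).2 (by rwa [show p - i' + i - i + i' = p by ring]), by congr 1; ring⟩

theorem pc_eq (U : ℤ → A) (i : ℤ) (n : ℕ) : pc U n = (W U (fun _ => True) i n).ncard := by
  rw [W_shift U (fun _ => True) (fun _ => True) i 0 n n rfl (fun _ => Iff.rfl)]
  unfold pc W
  simp

theorem pc_split [Fintype A] (U : ℤ → A) (P : ℤ → ℕ → Prop)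
    (hP : ∀ (p q : ℤ) (n : ℕ), Agr U U p q n → P p n → P q n) (i j n : ℕ) :
    pc U (n + i + j) = cnt U P i j n + cnt U (fun p m => ¬ P p m) i j n := by
  rw [pc_eq U i, W_split U _ (fun p => P p n), cnt_eq, cnt_eq]
  · simp
  · intro p q h
    exact hP p q n (h.sub (by omega) (by push_cast; omega) (by omega))

/-- `q i j l` -/
noncomputable def q (U : ℤ → A) (Q i j l : ℕ) : ℕ :=
  (W U (fun p => Per U Q p (p + l)) i (l + i + j)).ncard

theorem bdd_of_ev (h : ℕ → ℤ) (n0 : ℕ) (C : ℤ) (hC : ∀ n, n0 ≤ n → |h n| ≤ C) :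
    ∃ C' : ℤ, ∀ n, |h n| ≤ C' := by
  refine ⟨|C| + ∑ m ∈ Finset.range n0, |h m|, fun n => ?_⟩
  have h0 : 0 ≤ ∑ m ∈ Finset.range n0, |h m| := Finset.sum_nonneg fun _ _ => abs_nonneg _
  by_cases hn : n0 ≤ n
  · have := hC n hn
    have := le_abs_self C
    omega
  · have : |h n| ≤ ∑ m ∈ Finset.range n0, |h m| :=
      Finset.single_le_sum (f := fun m => |h m|) (fun _ _ => abs_nonneg _)
        (Finset.mem_range.2 (by omega))
    have := abs_nonneg C
    omega

theorem q_bdd [Fintype A] (U : ℤ → A) (Q i j : ℕ) (hQ : 1 ≤ Q) :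
    ∃ C : ℤ, ∀ l, |(q U Q i j l : ℤ)| ≤ C := by
  refine bdd_of_ev _ Q
    ((({w : List A | w.length = i + Q} ×ˢ {w : List A | w.length = j}).ncard : ℕ) : ℤ) ?_
  intro l hl
  rw [abs_of_nonneg (by positivity)]
  have hf : ({w : List A | w.length = i + Q} ×ˢ {w : List A | w.length = j}).Finite :=
    (finite_len _).prod (finite_len _)
  have : q U Q i j l ≤ ({w : List A | w.length = i + Q} ×ˢ {w : List A | w.length = j}).ncard := by
    refine Set.ncard_le_ncard_of_injOn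
      (fun ω => ((ω.drop 0).take (i + Q), (ω.drop (l + i)).take j)) ?_ ?_ hf
    · rintro ω ⟨p, -, rfl⟩
      simp only [Set.mem_prod, Set.mem_setOf_eq]
      rw [fac_drop_take _ _ _ _ _ (by omega), fac_drop_take _ _ _ _ _ (by omega)]
      simp
    · rintro ω ⟨p, hp, rfl⟩ ω' ⟨p', hp', rfl⟩ h
      simp only [Prod.mk.injEq] at h
      rw [fac_drop_take _ _ _ _ _ (by omega), fac_drop_take _ _ _ _ _ (by omega),
        fac_drop_take _ _ _ _ _ (by omega), fac_drop_take _ _ _ _ _ (by omega),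
        fac_eq_iff, fac_eq_iff] at h
      obtain ⟨h1, h2⟩ := h
      push_cast at h1 h2
      have h3 : Agr U U p p' l :=
        Agr.of_per (π := Q) (by omega) (h1.sub (by omega) (by omega) (by omega)) hp hp'
      rw [fac_eq_iff]
      intro t a b
      push_cast at b
      by_cases c1 : t < i
      · exact h1.at (by omega) (by omega) (by omega)
      · by_cases c2 : t < i + l
        · exact h3.at (by omega) (by omega) (by omega)
        · exact h2.at (by omega) (by omega) (by omega)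
  exact_mod_cast this

/-- run words of exact length -/
noncomputable def CC (U : ℤ → A) (Q D l : ℕ) : ℕ :=
  (W U (fun p => (Per U Q p (p + l) ∧ ¬ U (p - 1) = U (p - 1 + Q)) ∧
    ¬ U (p + l) = U (p + l - Q)) D (l + D + D)).ncard

theorem CC_le [Fintype A] (U : ℤ → A) (Q D l : ℕ) : CC U Q D l ≤ q U Q D D l := by
  refine Set.ncard_le_ncard ?_ (W_fin _ _ _ _)
  rintro ω ⟨p, hp, rfl⟩
  exact ⟨p, hp.1.1, rfl⟩

theorem perL {U : ℤ → A} {Q p b : ℤ} (h : p - 1 + Q < b) :
    Per U Q (p - 1) b ↔ Per U Q p b ∧ U (p - 1) = U (p - 1 + Q) := by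
  constructor
  · intro H
    exact ⟨H.mono (by omega) le_rfl, H _ le_rfl h⟩
  · rintro ⟨H, e⟩ t x y
    by_cases ht : t = p - 1
    · rw [ht]; exact e
    · exact H t (by omega) y

theorem perR {U : ℤ → A} {Q p b : ℤ} (h : p ≤ b - Q) :
    Per U Q p (b + 1) ↔ Per U Q p b ∧ U b = U (b - Q) := by
  constructor
  · intro H
    refine ⟨H.mono le_rfl (by omega), ?_⟩
    have := H (b - Q) h (by omega)
    rw [show b - Q + Q = b by ring] at this
    exact this.symm
  · rintro ⟨H, e⟩ t x y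
    by_cases ht : t = b - Q
    · rw [ht, show b - Q + Q = b by ring]; exact e.symm
    · exact H t x (by omega)

theorem key [Fintype A] (U : ℤ → A) (Q K l : ℕ) (hl : Q ≤ l) :
    (q U Q (K + 1) (K + 1) l : ℤ) = CC U Q (K + 1) l + q U Q K (K + 1) (l + 1) +
      q U Q (K + 1) K (l + 1) - q U Q K K (l + 2) := by
  set n := l + (K + 1) + (K + 1) with hn
  have hL : ∀ p p' : ℤ, Agr U U (p - ((K + 1 : ℕ) : ℤ)) (p' - ((K + 1 : ℕ) : ℤ)) n →
      U (p - 1) = U (p - 1 + Q) → U (p' - 1) = U (p' - 1 + Q) := by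
    intro p p' h e
    rw [← h.at (x := p - 1) (y := p' - 1) (by omega) (by omega) (by omega),
      ← h.at (x := p - 1 + Q) (y := p' - 1 + Q) (by omega) (by omega) (by omega), e]
  have hR : ∀ p p' : ℤ, Agr U U (p - ((K + 1 : ℕ) : ℤ)) (p' - ((K + 1 : ℕ) : ℤ)) n →
      U (p + l) = U (p + l - Q) → U (p' + l) = U (p' + l - Q) := by
    intro p p' h e
    rw [← h.at (x := p + l) (y := p' + l) (by omega) (by omega) (by omega),
      ← h.at (x := p + l - Q) (y := p' + l - Q) (by omega) (by omega) (by omega), e]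
  have e1 := W_split U (fun p => Per U Q p (p + l)) _ ((K + 1 : ℕ) : ℤ) n hL
  have e2 := W_split U (fun p => Per U Q p (p + l) ∧ ¬ U (p - 1) = U (p - 1 + Q)) _
    ((K + 1 : ℕ) : ℤ) n hR
  have e3 := W_split U (fun p => Per U Q p (p + l) ∧ U (p + l) = U (p + l - Q)) _
    ((K + 1 : ℕ) : ℤ) n hL
  have s1 : W U (fun p => Per U Q p (p + l) ∧ U (p - 1) = U (p - 1 + Q)) ((K + 1 : ℕ) : ℤ) n =
      W U (fun p => Per U Q p (p + (l + 1 : ℕ))) K (l + 1 + K + (K + 1)) := by
    refine W_shift _ _ _ _ _ _ _ (by omega) fun p => ?_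
    rw [← perL (by omega)]
    push_cast
    rw [show p - (K + 1) + K = p - 1 by ring, show p - 1 + (l + 1) = p + l by ring]
  have s2 : W U (fun p => Per U Q p (p + l) ∧ U (p + l) = U (p + l - Q)) ((K + 1 : ℕ) : ℤ) n =
      W U (fun p => Per U Q p (p + (l + 1 : ℕ))) ((K + 1 : ℕ) : ℤ) (l + 1 + (K + 1) + K) := by
    refine W_shift _ _ _ _ _ _ _ (by omega) fun p => ?_
    rw [← perR (by omega)]
    push_cast
    rw [show p - (K + 1) + (K + 1) = p by ring, show p + (l + 1) = p + l + 1 by ring]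
  have s3 : W U (fun p => (Per U Q p (p + l) ∧ U (p + l) = U (p + l - Q)) ∧
        U (p - 1) = U (p - 1 + Q)) ((K + 1 : ℕ) : ℤ) n =
      W U (fun p => Per U Q p (p + (l + 2 : ℕ))) K (l + 2 + K + K) := by
    refine W_shift _ _ _ _ _ _ _ (by omega) fun p => ?_
    rw [← perR (by omega), ← perL (by omega)]
    push_cast
    rw [show p - (K + 1) + K = p - 1 by ring, show p - 1 + (l + 2) = p + l + 1 by ring]
  have s4 : W U (fun p => (Per U Q p (p + l) ∧ ¬ U (p - 1) = U (p - 1 + Q)) ∧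
        U (p + l) = U (p + l - Q)) ((K + 1 : ℕ) : ℤ) n =
      W U (fun p => (Per U Q p (p + l) ∧ U (p + l) = U (p + l - Q)) ∧
        ¬ U (p - 1) = U (p - 1 + Q)) ((K + 1 : ℕ) : ℤ) n := by
    congr 1
    funext p
    apply propext
    tauto
  rw [s1] at e1
  rw [s4] at e2
  rw [s2, s3] at e3
  unfold q CC
  rw [← hn]
  omega

theorem cnt_PT (U : ℤ → A) (Q K i j l : ℕ) :
    cnt U (PT U Q K) i j (l + 2 * K) = q U Q (K + i) (K + j) l := by
  rw [cnt_eq]
  unfold q
  congr 1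
  refine W_shift _ _ _ _ _ _ _ (by omega) fun p => ?_
  unfold PT
  push_cast
  rw [show p - i + (K + i) = p + K by ring, show p + (l + 2 * K) - K = p + K + l by ring]

/-- number of run words shorter than `n + 2D` -/
noncomputable def R (U : ℤ → A) (Q D N n : ℕ) : ℕ :=
  Set.ncard {ω | ω ∈ RunSet U Q D N ∧ ω.length < n + 2 * D}

theorem R_succ [Fintype A] (U : ℤ → A) (Q D N n : ℕ) (hn : N ≤ n) :
    R U Q D N (n + 1) = R U Q D N n + CC U Q D n := by
  unfold R CC
  have hfin : {ω | ω ∈ RunSet U Q D N ∧ ω.length < n + 2 * D}.Finite :=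
    (List.finite_length_lt A (n + 2 * D)).subset fun ω h => h.2
  rw [← Set.ncard_union_eq _ hfin (W_fin _ _ _ _)]
  · congr 1
    ext ω
    constructor
    · rintro ⟨⟨p, m, hm, rfl, h1, h2, h3⟩, hlen⟩
      simp only [fac_length] at hlen
      by_cases c : m = n
      · subst c
        exact Or.inr ⟨p, ⟨⟨h1, h2⟩, h3⟩, by congr 1; ring⟩
      · exact Or.inl ⟨⟨p, m, hm, rfl, h1, h2, h3⟩, by simp only [fac_length]; omega⟩
    · rintro (⟨h1, h2⟩ | ⟨p, ⟨⟨h1, h2⟩, h3⟩, rfl⟩)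
      · exact ⟨h1, by omega⟩
      · exact ⟨⟨p, n, hn, by congr 1; ring, h1, h2, h3⟩, by simp only [fac_length]; omega⟩
  · rw [Set.disjoint_left]
    rintro ω ⟨-, h1⟩ ⟨p, -, rfl⟩
    simp only [fac_length] at h1
    omega

end Ttel

open Ttel

theorem thm_split : S_split := by
  intro A _ U P hP n
  have h11 := pc_split U P hP 1 1 n
  have h10 := pc_split U P hP 1 0 n
  have h01 := pc_split U P hP 0 1 n
  have h00 := pc_split U P hP 0 0 n
  simp only [add_zero] at h10 h01 h00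
  rw [show n + 1 + 1 = n + 2 by ring] at h11
  unfold B2
  omega

theorem thm_tel : S_tel := by
  intro A _ U Q K N hQ
  obtain ⟨Ca, ha⟩ := q_bdd U Q K (K + 1) hQ
  obtain ⟨Cb, hb⟩ := q_bdd U Q (K + 1) K hQ
  obtain ⟨Cc, hc⟩ := q_bdd U Q K K hQ
  obtain ⟨Cd, hd⟩ := q_bdd U Q (K + 1) (K + 1) hQ
  set F : ℕ → ℤ := fun n => ∑ m ∈ Finset.range n, B2 U (PT U Q K) m with hF
  set T : ℕ → ℤ := fun l => (q U Q K (K + 1) l : ℤ) + q U Q (K + 1) K l - q U Q K K l -
    q U Q K K (l + 1) with hT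
  set G : ℕ → ℤ := fun l => F (l + 2 * K) - R U Q (K + 1) N l - T l with hG
  have hstep : ∀ l, Q + N ≤ l → G (l + 1) = G l := by
    intro l hl
    have e1 : F (l + 1 + 2 * K) = F (l + 2 * K) + B2 U (PT U Q K) (l + 2 * K) := by
      simp only [hF]
      rw [show l + 1 + 2 * K = l + 2 * K + 1 by ring, Finset.sum_range_succ]
    have e2 := R_succ U Q (K + 1) N l (by omega)
    have e3 := key U Q K l (by omega)
    have c11 := cnt_PT U Q K 1 1 l
    have c10 := cnt_PT U Q K 1 0 l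
    have c01 := cnt_PT U Q K 0 1 l
    have c00 := cnt_PT U Q K 0 0 l
    simp only [add_zero] at c10 c01 c00
    simp only [hG, hT]
    rw [e1, e2, B2, c11, c10, c01, c00, show l + 1 + 1 = l + 2 by ring]
    push_cast
    omega
  have hconst : ∀ l, Q + N ≤ l → G l = G (Q + N) := by
    intro l hl
    induction l, hl using Nat.le_induction with
    | base => rfl
    | succ l hl ih => rw [hstep l hl, ih]
  have hR : ∀ l s : ℕ, N ≤ l → |(R U Q (K + 1) N (l + s) : ℤ) - R U Q (K + 1) N l| ≤ s * Cd := by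
    intro l s hl
    induction s with
    | zero => simp
    | succ s ih =>
      have e2 := R_succ U Q (K + 1) N (l + s) (by omega)
      have e3 := CC_le U Q (K + 1) (l + s)
      have e4 := hd (l + s)
      rw [← add_assoc, e2]
      push_cast
      rw [add_mul]
      rw [abs_le] at ih e4 ⊢
      constructor <;> omega
  refine bdd_of_ev (fun n => F n - R U Q (K + 1) N n) (Q + N + 2 * K)
    (|G (Q + N)| + Ca + Cb + Cc + Cc + (2 * K : ℕ) * Cd) ?_
  intro n hn
  obtain ⟨l, rfl⟩ : ∃ l, n = l + 2 * K := ⟨n - 2 * K, by omega⟩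
  have e1 := hconst l (by omega)
  have e2 := hR l (2 * K) (by omega)
  have a1 := ha l
  have a2 := hb l
  have a3 := hc l
  have a4 := hc (l + 1)
  have a5 := le_abs_self (G (Q + N))
  have a6 := neg_abs_le (G (Q + N))
  have e3 : G l = F (l + 2 * K) - R U Q (K + 1) N l - ((q U Q K (K + 1) l : ℤ) +
    q U Q (K + 1) K l - q U Q K K l - q U Q K K (l + 1)) := rfl
  rw [abs_le] at e2 a1 a2 a3 a4 ⊢
  constructor <;> omega

end Pool.Agent.H149Z.SU
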