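import Pool.Agent.H149Z.SU.Basic

set_option autoImplicit false

namespace Pool.Agent.H149Z.SU

namespace Tuniv

open Function

variable {A B : Type}

theorem per_mod {x : ℤ → A} {D : ℤ} (h : Periodic x D) (p t : ℤ) :
    x (p + t) = x (p + t % D) := by
  have := h.int_mul (t / D) (p + t % D)
  rw [← this]
  congr 1
  have := Int.emod_add_mul_ediv t D
  push_cast
  linarith

theorem per_ext {x y : ℤ → A} {D p q : ℤ} (hD : 1 ≤ D) (hx : Periodic x D) (hy : Periodic y D)
    (h : Agr x y p q D) (t : ℤ) : x (p + t) = y (q + t) := by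
  rw [per_mod hx, per_mod hy]
  exact h _ (Int.emod_nonneg _ (by omega)) (Int.emod_lt_of_pos _ (by omega))

theorem per_dvd {x : ℤ → A} {D Q : ℤ} (h : Periodic x D) (hd : D ∣ Q) : Periodic x Q := by
  obtain ⟨k, rfl⟩ := hd
  have := h.int_mul k
  simpa [mul_comm] using this

theorem finite_per [Fintype A] (D : ℤ) (hD : 1 ≤ D) : {x : ℤ → A | Periodic x D}.Finite := by
  refine Set.Finite.of_finite_image (f := fun x => fun j : Fin D.toNat => x (j : ℕ))
    (Set.toFinite _) ?_
  intro x hx y hy h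
  funext t
  have := per_ext (p := 0) (q := 0) hD hx hy (fun s h0 h1 => by
    have := congrFun h ⟨s.toNat, by omega⟩
    simp only at this
    rwa [Int.toNat_of_nonneg h0, ← zero_add s] at this) t
  simpa using this

/-- `y` is a shift of `x`. -/
def Sh (x y : ℤ → A) : Prop := ∃ s : ℤ, ∀ t, y t = x (t + s)

theorem Sh.refl (x : ℤ → A) : Sh x x := ⟨0, fun t => by simp⟩

theorem Sh.symm {x y : ℤ → A} (h : Sh x y) : Sh y x := by
  obtain ⟨s, h⟩ := h
  exact ⟨-s, fun t => by rw [h]; simp⟩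

theorem Sh.trans {x y z : ℤ → A} (h : Sh x y) (h' : Sh y z) : Sh x z := by
  obtain ⟨s, h⟩ := h
  obtain ⟨s', h'⟩ := h'
  exact ⟨s' + s, fun t => by rw [h', h, add_assoc]⟩

theorem Sh.per {x y : ℤ → A} {Q : ℤ} (h : Sh x y) (hx : Periodic x Q) : Periodic y Q := by
  obtain ⟨s, h⟩ := h
  intro t
  rw [h, h, add_right_comm, hx]

theorem parse_shift {γ : B → List A} {V V' : ℤ → B} {C : ℤ → ℤ} {U : ℤ → A}
    (h : IsParse γ V C U) (s : ℤ) (hV : ∀ t, V' t = V (t + s)) :
    IsParse γ V' (fun i => C (i + s)) U := by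
  obtain rfl : V' = fun t => V (t + s) := funext hV
  constructor
  · intro i
    rw [add_right_comm, h.step]
  · intro i j hj
    exact h.val (i + s) j hj

theorem parse_sh {γ : B → List A} {V V' : ℤ → B} {C C' : ℤ → ℤ} {U U' : ℤ → A}
    (h : IsParse γ V C U) (h' : IsParse γ V' C' U') (hr : ∀ b, 1 ≤ (γ b).length)
    (hs : Sh V V') : Sh U U' := by
  obtain ⟨s, hs⟩ := hs
  exact Sh.symm ⟨_, fun t => (((parse_shift h s hs).unique h' hr).2 t).symm⟩

theorem parse_per {γ : B → List A} {V : ℤ → B} {C : ℤ → ℤ} {U : ℤ → A}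
    (h : IsParse γ V C U) (hr : ∀ b, 1 ≤ (γ b).length) {l : ℤ} (hV : Periodic V l) :
    Periodic U (C l - C 0) := by
  intro t
  have := (h.unique (parse_shift h l fun t => (hV t).symm) hr).2 t
  simpa using this

/-- The iterates of a morphism. -/
def it (σ : A → List A) : ℕ → A → List A
  | 0 => fun b => [b]
  | k + 1 => fun b => (it σ k b).flatMap σ

theorem len_flat (σ : A → List A) (h : ∀ a, 2 ≤ (σ a).length) (w : List A) :
    2 * w.length ≤ (w.flatMap σ).length := by
  induction w with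
  | nil => simp
  | cons a w ih =>
    have := h a
    simp only [List.flatMap_cons, List.length_append, List.length_cons]
    omega

theorem it_len (σ : A → List A) (h : ∀ a, 2 ≤ (σ a).length) (k : ℕ) (b : A) :
    k + 1 ≤ (it σ k b).length := by
  induction k with
  | zero => simp [it]
  | succ k ih =>
    have := len_flat σ h (it σ k b)
    simp only [it]
    omega

theorem parse_zero (σ : A → List A) (V : ℤ → A) : IsParse (it σ 0) V id V := by
  constructor
  · intro i
    simp [it]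
  · intro i j hj
    simp only [it, List.length_singleton] at hj
    obtain rfl : j = 0 := by omega
    simp [it]

theorem it_parse (σ : A → List A) (w : ℕ → ℤ → A)
    (hw : ∀ k, ∃ C, IsParse σ (w k) C (w (k + 1))) (k : ℕ) :
    ∃ C, IsParse (it σ k) (w 0) C (w k) := by
  induction k with
  | zero => exact ⟨id, parse_zero σ _⟩
  | succ k ih =>
    obtain ⟨C, h⟩ := ih
    obtain ⟨C', h'⟩ := hw k
    exact ⟨_, h.comp h'⟩

/-- A periodic word in the language of `γ(V)`, with long blocks, is the image of a word with a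
short period. -/
theorem short_pre [Fintype B] {γ : B → List A} {V : ℤ → B} {d : ℤ → ℤ} {U : ℤ → A}
    (h : IsParse γ V d U) {x : ℤ → A} {q : ℕ} (hq : 1 ≤ q) (hx : Periodic x q)
    (hr : ∀ b, q ≤ (γ b).length) (hl : ∀ n : ℤ, ∃ a, Agr x U 0 a n) :
    ∃ (z : ℤ → B) (C : ℤ → ℤ), Periodic z ((Fintype.card B).factorial : ℕ) ∧ IsParse γ z C x := by
  classical
  have hr1 : ∀ b, 1 ≤ (γ b).length := fun b => hq.trans (hr b)
  obtain ⟨M, hM⟩ : ∃ M : ℕ, ∀ b, (γ b).length ≤ M :=
    ⟨Finset.univ.sup fun b => (γ b).length, fun b =>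
      Finset.le_sup (f := fun b => (γ b).length) (Finset.mem_univ b)⟩
  obtain ⟨a, ha⟩ := hl (M * (Fintype.card B + 2 : ℕ))
  obtain ⟨i, hi1, hi2⟩ := h.exists_idx hr1 a
  have hm := h.strictMono hr1
  have hub := h.add_le hM i (Fintype.card B + 2 : ℕ) (by omega)
  obtain ⟨l, l', hll, h1, h2, he⟩ : ∃ l l' : ℤ, l < l' ∧ i + 1 ≤ l ∧
      l' ≤ i + 1 + Fintype.card B ∧ V l = V l' := by
    obtain ⟨u, v, huv, he⟩ := Fintype.exists_ne_map_eq_of_card_lt
      (fun j : Fin (Fintype.card B + 1) => V (i + 1 + (j : ℕ))) (by simp)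
    have hu := u.2
    have hv := v.2
    have : (u : ℕ) ≠ v := fun e => huv (Fin.ext e)
    rcases lt_or_gt_of_ne this with hlt | hlt
    · exact ⟨_, _, by omega, by omega, by omega, he⟩
    · exact ⟨_, _, by omega, by omega, by omega, he.symm⟩
  have b1 : d (i + 1) ≤ d l := hm.monotone h1
  have b2 : d (l' + 1) ≤ d (i + (Fintype.card B + 2 : ℕ)) := hm.monotone (by push_cast; omega)
  have b3 : d l < d l' := hm hll
  have b4 := h.step l'
  have b5 := h.step l
  have b6 : (q : ℤ) ≤ (γ (V l)).length := by exact_mod_cast hr _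
  have b7 : (q : ℤ) ≤ (γ (V l')).length := by exact_mod_cast hr _
  have hA : Agr U U (d l) (d l') (d (l + 1) - d l) :=
    h.agr h hr1 (m := 1) fun t t0 t1 => by
      obtain rfl : t = 0 := by omega
      simpa using he
  have hxD : Periodic x (d l' - d l) := by
    intro t
    have := per_ext (p := d l - a) (q := d l' - a) (by exact_mod_cast hq) hx hx
      (fun s s0 s1 => by
        rw [ha.at (x := d l - a + s) (y := d l + s) (by omega) (by omega) (by omega),
          ha.at (x := d l' - a + s) (y := d l' + s) (by omega) (by omega) (by omega)]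
        exact hA s s0 (by omega)) (t - (d l - a))
    rw [show d l - a + (t - (d l - a)) = t by ring,
      show d l' - a + (t - (d l - a)) = t + (d l' - d l) by ring] at this
    exact this.symm
  let z : ℤ → B := fun t => V (l + t % (l' - l))
  have hz : Periodic z (l' - l) := fun t => by simp [z]
  have hzV : Agr z V 0 l (l' - l) := fun s s0 s1 => by
    simp only [z, zero_add]
    rw [Int.emod_eq_of_lt s0 s1]
  obtain ⟨C, y, hy, hC⟩ := exists_parse γ hr1 z (d l - a)
  have e1 := hy.cut_eq h hzV (l' - l) (by omega) le_rfl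
  rw [zero_add, show l + (l' - l) = l' by ring] at e1
  have hyD := parse_per hy hr1 hz
  have hyU := hy.agr h hr1 hzV
  rw [zero_add, e1] at hyU
  rw [e1] at hyD
  have hxy : y = x := by
    funext t
    have := per_ext (p := C 0) (q := C 0) (by omega) hyD hxD (fun s s0 s1 => by
      rw [hyU s s0 s1, ha.at (x := C 0 + s) (y := d l + s) (by omega) (by omega) (by omega)])
      (t - C 0)
    simpa using this
  refine ⟨z, C, per_dvd hz ?_, hxy ▸ hy⟩
  obtain ⟨r, hr'⟩ := Int.eq_ofNat_of_zero_le (show 0 ≤ l' - l by omega)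
  rw [hr']
  exact_mod_cast Nat.dvd_factorial (by omega) (by omega)

/-- An orbit that returns to a shift of itself has a common period. -/
theorem orbit_per (σ : A → List A) (hr : ∀ b, 1 ≤ (σ b).length) (w : ℕ → ℤ → A)
    (hw : ∀ k, ∃ C, IsParse σ (w k) C (w (k + 1))) {L : ℤ} (hL : 1 ≤ L) (h0 : Periodic (w 0) L) :
    ∃ Q : ℕ, 1 ≤ Q ∧ ∀ k k', k < k' → Sh (w k) (w k') → Periodic (w k) Q := by
  have hp : ∀ k, ∃ p : ℕ, 1 ≤ p ∧ Periodic (w k) p := by
    intro k
    induction k with
    | zero => exact ⟨L.toNat, by omega, by rwa [Int.toNat_of_nonneg (by omega)]⟩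
    | succ k ih =>
      obtain ⟨p, p1, p2⟩ := ih
      obtain ⟨C, hC⟩ := hw k
      have := hC.strictMono hr (show (0 : ℤ) < p by omega)
      exact ⟨(C p - C 0).toNat, by omega, by
        rw [Int.toNat_of_nonneg (by omega)]; exact parse_per hC hr p2⟩
  choose p p1 p2 using hp
  by_cases hc : ∃ k0 k1, k0 < k1 ∧ Sh (w k0) (w k1)
  · obtain ⟨k0, k1, hk, hs⟩ := hc
    have h1 : ∀ r, Sh (w (k0 + r)) (w (k1 + r)) := by
      intro r
      induction r with
      | zero => exact hs
      | succ r ih =>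
        obtain ⟨C, hC⟩ := hw (k0 + r)
        obtain ⟨C', hC'⟩ := hw (k1 + r)
        exact parse_sh hC hC' hr ih
    have h2 : ∀ k, ∃ j, j < k1 ∧ Sh (w j) (w k) := by
      intro k
      induction k using Nat.strong_induction_on with
      | _ k ih =>
        by_cases hk1 : k < k1
        · exact ⟨k, hk1, Sh.refl _⟩
        · obtain ⟨r, rfl⟩ := Nat.exists_eq_add_of_le (not_lt.1 hk1)
          obtain ⟨j, j1, j2⟩ := ih (k0 + r) (by omega)
          exact ⟨j, j1, j2.trans (h1 r)⟩
    refine ⟨∏ j ∈ Finset.range k1, p j, Nat.succ_le_of_lt (Finset.prod_pos fun j _ => p1 j), fun k _ _ _ => ?_⟩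
    obtain ⟨j, j1, j2⟩ := h2 k
    refine j2.per (per_dvd (p2 j) ?_)
    exact_mod_cast Finset.dvd_prod_of_mem p (Finset.mem_range.2 j1)
  · exact ⟨1, le_rfl, fun k k' h1 h2 => absurd ⟨k, k', h1, h2⟩ hc⟩

/-- All periodic words of the language have a common period. -/
theorem common [Fintype A] (X : Sys A) : ∃ Q : ℕ, 1 ≤ Q ∧ ∀ (x : ℤ → A) (q : ℕ), 1 ≤ q →
    Periodic x q → (∀ n : ℤ, ∃ a, Agr x X.U 0 a n) → Periodic x Q := by
  classical
  choose Cf F hF _ using fun V => exists_parse X.σ X.one V 0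
  have hL : (1 : ℤ) ≤ ((Fintype.card A).factorial : ℕ) := by
    exact_mod_cast Nat.factorial_pos _
  have hw : ∀ (z : ℤ → A) (k : ℕ), ∃ C, IsParse X.σ (F^[k] z) C (F^[k + 1] z) := fun z k =>
    ⟨Cf _, by rw [iterate_succ_apply']; exact hF _⟩
  have hfin := finite_per (A := A) _ hL
  have : ∀ z : ℤ → A, ∃ Q : ℕ, 1 ≤ Q ∧ (Periodic z ((Fintype.card A).factorial : ℕ) →
      ∀ k k', k < k' → Sh (F^[k] z) (F^[k'] z) → Periodic (F^[k] z) Q) := by
    intro z
    by_cases hz : Periodic z ((Fintype.card A).factorial : ℕ)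
    · obtain ⟨Q, h1, h2⟩ := orbit_per X.σ X.one (fun k => F^[k] z) (hw z) hL hz
      exact ⟨Q, h1, fun _ => h2⟩
    · exact ⟨1, le_rfl, fun h => absurd h hz⟩
  choose Qf Q1 Q2 using this
  refine ⟨∏ z ∈ hfin.toFinset, Qf z, Nat.succ_le_of_lt (Finset.prod_pos fun z _ => Q1 z),
    fun x q hq hx hl => ?_⟩
  have hr : ∀ k b, 1 ≤ (it X.σ k b).length := fun k b => by
    have := it_len X.σ X.two k b
    omega
  have : ∀ k : ℕ, ∃ z : ℤ → A, Periodic z ((Fintype.card A).factorial : ℕ) ∧
      Sh (F^[q + k] z) x := by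
    intro k
    obtain ⟨d, hd⟩ := it_parse X.σ (fun _ => X.U) (fun _ => ⟨X.c, X.parse⟩) (q + k)
    obtain ⟨z, C, h1, h2⟩ := short_pre hd hq hx (fun b => by
      have := it_len X.σ X.two (q + k) b
      omega) hl
    obtain ⟨C', h3⟩ := it_parse X.σ (fun k => F^[k] z) (hw z) (q + k)
    exact ⟨z, h1, parse_sh h3 h2 (hr _) (Sh.refl _)⟩
  choose z z1 z2 using this
  obtain ⟨k, k', hk, he⟩ := Set.Finite.exists_lt_map_eq_of_forall_mem (f := z) z1 hfin
  have h1 := Q2 (z k) (z1 k) (q + k) (q + k') (by omega) ((z2 k).trans (he ▸ (z2 k').symm))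
  refine per_dvd ((z2 k).per h1) ?_
  exact_mod_cast Finset.dvd_prod_of_mem Qf (hfin.mem_toFinset.2 (z1 k))

theorem univ : S_univ := by
  intro A _ X
  obtain ⟨Q, hQ, h⟩ := common X
  refine ⟨Q, hQ, fun π hπ => ?_⟩
  have hfin := finite_per (A := A) π hπ
  have : ∀ x : ℤ → A, ∃ N : ℕ, Periodic x π → ∀ a n : ℤ, (N : ℤ) ≤ n → Agr x X.U 0 a n →
      Periodic x Q := by
    intro x
    by_cases hl : ∀ n : ℤ, ∃ a, Agr x X.U 0 a n
    · exact ⟨0, fun hx _ _ _ _ => h x π.toNat (by omega)
        (by rwa [Int.toNat_of_nonneg (by omega)]) hl⟩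
    · push Not at hl
      obtain ⟨n0, hn⟩ := hl
      exact ⟨n0.toNat, fun _ a n h1 h2 =>
        absurd (h2.sub (p' := 0) (q' := a) (n' := n0) le_rfl (by omega) (by omega)) (hn a)⟩
  choose Nf hN using this
  refine ⟨hfin.toFinset.sup Nf, fun a b hab hp => ?_⟩
  let x : ℤ → A := fun t => X.U (a + t % π)
  have hx : Periodic x π := fun t => by simp [x]
  have hA : Agr x X.U 0 a (b - a) := by
    refine Agr.of_per hπ (fun s s0 s1 => ?_) (fun t _ _ => (hx t).symm) (by simpa using hp)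
    simp only [x, zero_add]
    rw [Int.emod_eq_of_lt s0 s1]
  have hle : Nf x ≤ hfin.toFinset.sup Nf := Finset.le_sup (hfin.mem_toFinset.2 hx)
  have hQx := hN x hx a (b - a) (by omega) hA
  intro t t0 t1
  rw [← hA.at (x := t - a) (y := t) (by omega) (by omega) (by omega),
    ← hA.at (x := t - a + Q) (y := t + Q) (by omega) (by omega) (by omega), hQx]

end Tuniv

theorem thm_univ (_h : S_rec) : S_univ := Tuniv.univ

end Pool.Agent.H149Z.SU
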