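import Pool.Agent.H149Z.SU.Taper
import Pool.Agent.H149Z.SU.Tgrowth
import Pool.Agent.H149Z.SU.Telem
import Pool.Agent.H149Z.SU.Tuniv
import Pool.Agent.H149Z.SU.Trec
import Pool.Agent.H149Z.SU.Tray
import Pool.Agent.H149Z.SU.Traysum
import Pool.Agent.H149Z.SU.Tgood
import Pool.Agent.H149Z.SU.TLE
import Pool.Agent.H149Z.SU.Trun
import Pool.Agent.H149Z.SU.Ttel
import Pool.Agent.H149Z.SU.Tfam

/-! The structure theorem `s(n) = α log n + β log log n + O(1)`, assembled. -/

set_option autoImplicit false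

namespace Pool.Agent.H149Z.SU

theorem main_holds : S_main :=
  thm_main (thm_good (thm_rec thm_elem) (thm_univ (thm_rec thm_elem)))
    (thm_run (thm_raycount (thm_ray thm_growth))) thm_tel thm_split
    (thm_aper thm_fam thm_LE (thm_raysum (thm_ray thm_growth)))

end Pool.Agent.H149Z.SU
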