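import Pool.Agent.H149Z.SU.Basic

/-! `thm_final` (written by helper427). -/

set_option autoImplicit false

namespace Pool.Agent.H149Z.SU

namespace Tfinal

open Filter Asymptotics

variable {A : Type}

/-- iterate of a morphism -/
abbrev it (σ : A → List A) (m : ℕ) (w : List A) : List A := (fun w : List A => w.flatMap σ)^[m] w

theorem it_succ (σ : A → List A) (m : ℕ) (w : List A) :
    it σ (m + 1) w = (it σ m w).flatMap σ := Function.iterate_succ_apply' _ _ _

theorem it_add (σ : A → List A) (m n : ℕ) (w : List A) : it σ (m + n) w = it σ m (it σ n w) :=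
  Function.iterate_add_apply _ _ _ _

theorem it_nil (σ : A → List A) (m : ℕ) : it σ m [] = [] := by
  induction m with
  | zero => rfl
  | succ m ih => rw [it_succ, ih]; rfl

theorem it_flatMap (σ : A → List A) (m : ℕ) (w : List A) :
    w.flatMap (fun b => it σ m [b]) = it σ m w := by
  induction m with
  | zero => simp [it]
  | succ m ih =>
    rw [it_succ, ← ih, List.flatMap_assoc]
    simp only [it_succ]

theorem it_it (σ : A → List A) (N m : ℕ) (w : List A) :
    it (fun b => it σ N [b]) m w = it σ (N * m) w := by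
  induction m with
  | zero => rfl
  | succ m ih => rw [it_succ, ih, it_flatMap, ← it_add]; congr 1; ring

theorem it_head (σ : A → List A) (a : A) (h : (σ a).head? = some a) (m : ℕ) :
    (it σ m [a]).head? = some a := by
  induction m with
  | zero => rfl
  | succ m ih =>
    rw [it_succ]
    obtain ⟨t, ht⟩ := List.head?_eq_some_iff.1 ih
    obtain ⟨s, hs⟩ := List.head?_eq_some_iff.1 h
    rw [ht, List.flatMap_cons, hs]
    rfl

theorem len_ge (σ : A → List A) (h : ∀ b, 1 ≤ (σ b).length) (w : List A) :
    w.length ≤ (w.flatMap σ).length := by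
  induction w with
  | nil => simp
  | cons b w ih =>
    rw [List.flatMap_cons, List.length_append, List.length_cons]
    have := h b
    omega

theorem len_le (σ : A → List A) (M : ℕ) (h : ∀ b, (σ b).length ≤ M) (w : List A) :
    (w.flatMap σ).length ≤ M * w.length := by
  induction w with
  | nil => simp
  | cons b w ih =>
    rw [List.flatMap_cons, List.length_append, List.length_cons, mul_add]
    have := h b
    omega

theorem it_ge (σ : A → List A) (h : ∀ b, 1 ≤ (σ b).length) (r : ℕ) (w : List A) :
    w.length ≤ (it σ r w).length := by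
  induction r with
  | zero => exact le_rfl
  | succ r ih => rw [it_succ]; exact ih.trans (len_ge σ h _)

theorem it_le (σ : A → List A) (M : ℕ) (h : ∀ b, (σ b).length ≤ M) (r : ℕ) (w : List A) :
    (it σ r w).length ≤ M ^ r * w.length := by
  induction r with
  | zero => simp [it]
  | succ r ih =>
    rw [it_succ]
    calc _ ≤ M * (it σ r w).length := len_le σ M h _
      _ ≤ M * (M ^ r * w.length) := Nat.mul_le_mul_left _ ih
      _ = _ := by ring

theorem bigO_of (σ : A → List A) (h : ∀ b, 1 ≤ (σ b).length) (M : ℕ) (hM : ∀ b, (σ b).length ≤ M)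
    (N : ℕ) (hN : 1 ≤ N) (b c : A)
    (H : (fun m : ℕ => ((it σ (N * m) [b]).length : ℝ)) =O[atTop]
      (fun m : ℕ => ((it σ (N * m) [c]).length : ℝ))) :
    (fun m : ℕ => ((it σ m [b]).length : ℝ)) =O[atTop]
      (fun m : ℕ => ((it σ m [c]).length : ℝ)) := by
  have hM1 : 1 ≤ M := (h b).trans (hM b)
  have ht : Tendsto (fun m : ℕ => m / N) atTop atTop :=
    (Nat.tendsto_div_const_atTop (by omega))
  have H' := H.comp_tendsto ht
  have e : ∀ (m : ℕ) (x : A), it σ m [x] = it σ (m % N) (it σ (N * (m / N)) [x]) := by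
    intro m x
    rw [← it_add, Nat.mod_add_div]
  have h1 : (fun m : ℕ => ((it σ m [b]).length : ℝ)) =O[atTop]
      ((fun m : ℕ => ((it σ (N * m) [b]).length : ℝ)) ∘ fun m : ℕ => m / N) := by
    refine IsBigO.of_bound ((M : ℝ) ^ N) (Eventually.of_forall fun m => ?_)
    simp only [Function.comp, Real.norm_natCast]
    have a1 := it_le σ M hM (m % N) (it σ (N * (m / N)) [b])
    rw [← e] at a1
    have a2 : M ^ (m % N) ≤ M ^ N := Nat.pow_le_pow_right hM1 (Nat.mod_lt _ (by omega)).le
    exact_mod_cast a1.trans (Nat.mul_le_mul_right _ a2)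
  have h2 : ((fun m : ℕ => ((it σ (N * m) [c]).length : ℝ)) ∘ fun m : ℕ => m / N) =O[atTop]
      (fun m : ℕ => ((it σ m [c]).length : ℝ)) := by
    refine IsBigO.of_bound 1 (Eventually.of_forall fun m => ?_)
    simp only [Function.comp, Real.norm_natCast, one_mul]
    have a1 := it_ge σ h (m % N) (it σ (N * (m / N)) [c])
    rw [← e] at a1
    exact_mod_cast a1
  exact h1.trans (H'.trans h2)

/-- the bi-infinite extension -/
def UU (u : ℕ → A) (t : ℤ) : Option A := if t < 0 then none else some (u t.toNat)

def pre (u : ℕ → A) (i : ℕ) : List A := (List.range i).map u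

theorem pre_succ (u : ℕ → A) (i : ℕ) : pre u (i + 1) = pre u i ++ [u i] := by
  simp [pre, List.range_succ]

theorem fix (τ : A → List A) (a : A) (u : ℕ → A)
    (hg : ∀ i, ∃ m, i < (it τ m [a]).length)
    (hu : ∀ m i : ℕ, i < (it τ m [a]).length → (it τ m [a])[i]? = some (u i))
    (i j : ℕ) (hj : j < (τ (u i)).length) :
    u (((pre u i).flatMap τ).length + j) = (τ (u i))[j] := by
  obtain ⟨m, hm⟩ := hg i
  have e1 : (it τ m [a]).take (i + 1) = pre u (i + 1) := by
    apply List.ext_getElem?
    intro l
    by_cases hl : l < i + 1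
    · rw [List.getElem?_take_of_lt hl, hu m l (by omega)]
      simp [pre, hl]
    · rw [List.getElem?_eq_none (by simp; omega), List.getElem?_eq_none (by simp [pre]; omega)]
  have e2 : it τ (m + 1) [a] =
      (pre u i).flatMap τ ++ (τ (u i) ++ ((it τ m [a]).drop (i + 1)).flatMap τ) := by
    rw [it_succ]
    conv_lhs => rw [← List.take_append_drop (i + 1) (it τ m [a]), e1, pre_succ]
    simp
  have e3 := hu (m + 1) (((pre u i).flatMap τ).length + j) (by
    rw [e2, List.length_append, List.length_append]; omega)
  rw [e2, List.getElem?_append_right (by omega), Nat.add_sub_cancel_left,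
    List.getElem?_append_left hj, List.getElem?_eq_getElem hj] at e3
  exact (Option.some.inj e3).symm

/-- the system attached to a one-sided fixed point -/
def sys (τ : A → List A) (a : A) (u : ℕ → A) (h2 : ∀ b, 2 ≤ (τ b).length)
    (hg : ∀ i, ∃ m, i < (it τ m [a]).length)
    (hu : ∀ m i : ℕ, i < (it τ m [a]).length → (it τ m [a])[i]? = some (u i)) :
    Sys (Option A) where
  σ := fun x => match x with
    | none => [none, none]
    | some b => (τ b).map some
  U := UU u
  c := fun i => if i < 0 then 2 * i else (((pre u i.toNat).flatMap τ).length : ℤ)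
  two := by
    rintro (_ | b)
    · simp
    · simpa using h2 b
  parse := by
    constructor
    · intro i
      by_cases hi : i < 0
      · have : UU u i = none := by simp [UU, hi]
        rw [this]
        by_cases h1 : i + 1 < 0
        · simp only [hi, h1, if_true, List.length_cons, List.length_nil]; omega
        · have : i = -1 := by omega
          subst this
          simp [pre]
      · obtain ⟨n, rfl⟩ := Int.eq_ofNat_of_zero_le (not_lt.1 hi)
        have : UU u n = some (u n) := by simp [UU]
        rw [this]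
        have h1 : ¬ ((n : ℤ) + 1 < 0) := by omega
        have e : ((n : ℤ) + 1).toNat = n + 1 := by omega
        simp only [hi, h1, if_false, e, Int.toNat_natCast, pre_succ]
        simp
    · intro i j hj
      by_cases hi : i < 0
      · have e : UU u i = none := by simp [UU, hi]
        simp only [e, List.length_cons, List.length_nil] at hj
        simp only [e, hi, if_true]
        have : UU u (2 * i + j) = none := by
          have : 2 * i + j < 0 := by omega
          simp [UU, this]
        rw [this]
        interval_cases j <;> rfl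
      · obtain ⟨n, rfl⟩ := Int.eq_ofNat_of_zero_le (not_lt.1 hi)
        have e : UU u n = some (u n) := by simp [UU]
        simp only [e, List.length_map] at hj
        simp only [e, hi, if_false, Int.toNat_natCast, List.getElem_map]
        rw [← fix τ a u hg hu n j hj, ← Nat.cast_add]
        unfold UU
        rw [if_neg (by omega), Int.toNat_natCast]

theorem fac_nat (u : ℕ → A) (i n : ℕ) :
    fac (UU u) i n = (List.ofFn (fun j : Fin n => u (i + j.val))).map some := by
  apply List.ext_getElem (by simp)
  intro j h1 h2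
  rw [fac_getElem, ← Nat.cast_add]
  unfold UU
  rw [if_neg (by omega), Int.toNat_natCast]
  simp

theorem pc_eq [Fintype A] (u : ℕ → A) (n : ℕ) : pc (UU u) n = pu u n + n := by
  unfold pc pu
  have hf1 : (Set.range (fun i : ℕ => List.ofFn (fun j : Fin n => u (i + j.val)))).Finite :=
    (finite_len n).subset (by rintro w ⟨i, rfl⟩; simp)
  have hinj : Function.Injective (List.map (some : A → Option A)) :=
    List.map_injective_iff.2 (Option.some_injective A)
  have hinj2 : Function.Injective (fun s : Fin n => fac (UU u) (-(s : ℤ) - 1) n) := by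
    have key : ∀ s s' : Fin n, s.val < s'.val →
        fac (UU u) (-(s : ℤ) - 1) n ≠ fac (UU u) (-(s' : ℤ) - 1) n := by
      intro s s' hs h
      rw [fac_eq_iff] at h
      have := h (s + 1) (by omega) (by omega)
      unfold UU at this
      rw [if_neg (by omega), if_pos (by omega)] at this
      cases this
    intro s s' h
    rcases lt_trichotomy s.val s'.val with c | c | c
    · exact absurd h (key s s' c)
    · exact Fin.ext c
    · exact absurd h.symm (key s' s c)
  have e : {w : List (Option A) | ∃ p : ℤ, w = fac (UU u) p n} =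
      List.map some '' (Set.range (fun i : ℕ => List.ofFn (fun j : Fin n => u (i + j.val)))) ∪
        Set.range (fun s : Fin n => fac (UU u) (-(s : ℤ) - 1) n) := by
    ext w
    constructor
    · rintro ⟨p, rfl⟩
      by_cases hp : 0 ≤ p
      · obtain ⟨i, rfl⟩ := Int.eq_ofNat_of_zero_le hp
        exact Or.inl ⟨_, ⟨i, rfl⟩, (fac_nat u i n).symm⟩
      · rcases Nat.eq_zero_or_pos n with rfl | hn
        · exact Or.inl ⟨_, ⟨0, rfl⟩, by simp [fac_zero]⟩
        · by_cases hq : -(n : ℤ) ≤ p
          · refine Or.inr ⟨⟨(-p - 1).toNat, by omega⟩, ?_⟩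
            simp only
            congr 1
            omega
          · refine Or.inr ⟨⟨n - 1, by omega⟩, ?_⟩
            simp only
            rw [fac_eq_iff]
            intro t a b
            unfold UU
            rw [if_pos (by omega), if_pos (by omega)]
    · rintro (⟨_, ⟨i, rfl⟩, rfl⟩ | ⟨s, rfl⟩)
      · exact ⟨i, (fac_nat u i n).symm⟩
      · exact ⟨_, rfl⟩
  rw [e, Set.ncard_union_eq _ (hf1.image _) (Set.finite_range _), Set.ncard_image_of_injective _ hinj,
    Set.ncard_range_of_injective hinj2]
  · simp
  · rw [Set.disjoint_left]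
    rintro _ ⟨_, ⟨i, rfl⟩, rfl⟩ ⟨s, hs⟩
    simp only at hs
    rw [← fac_nat, fac_eq_iff] at hs
    have hs' := s.2
    have := hs 0 le_rfl (by omega)
    unfold UU at this
    rw [if_pos (by omega), if_neg (by omega)] at this
    cases this

theorem equiv_of (f g h : ℕ → ℝ) (α C : ℝ) (hα : 0 < α) (hg : Tendsto g atTop atTop)
    (hh : h =o[atTop] g) (hb : ∀ n, 3 ≤ n → |f n - α * g n - h n| ≤ C) :
    IsEquivalent atTop f (fun n => α * g n) := by
  have h1 : (fun n => f n - α * g n - h n) =O[atTop] (fun _ => (1 : ℝ)) := by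
    refine IsBigO.of_bound C ?_
    filter_upwards [eventually_ge_atTop 3] with n hn
    simpa using hb n hn
  have h2 : (fun _ : ℕ => (1 : ℝ)) =o[atTop] g := by
    rw [isLittleO_const_left]
    right
    exact tendsto_norm_atTop_atTop.comp hg
  have h3 := ((h1.trans_isLittleO h2).add hh).const_mul_right hα.ne'
  unfold IsEquivalent
  refine h3.congr_left fun n => ?_
  simp

theorem linear_of (p : ℕ → ℕ) (C : ℝ) (h : ∀ᶠ n in atTop, (p (n + 1) : ℝ) - p n ≤ C) :
    ∃ D : ℕ, ∀ n, 1 ≤ n → p n ≤ D * n := by
  obtain ⟨n0, hn0⟩ := eventually_atTop.1 h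
  obtain ⟨c, hc⟩ := exists_nat_ge C
  have h1 : ∀ n, n0 ≤ n → p (n + 1) ≤ p n + c := by
    intro n hn
    have := hn0 n hn
    have : (p (n + 1) : ℝ) ≤ p n + c := by linarith
    exact_mod_cast this
  have h2 : ∀ n, n0 ≤ n → p n ≤ p n0 + c * n := by
    intro n hn
    induction n, hn using Nat.le_induction with
    | base => omega
    | succ n hn ih =>
      have := h1 n hn
      rw [mul_add]
      omega
  refine ⟨∑ m ∈ Finset.range (n0 + 1), p m + c, fun n hn => ?_⟩
  have h3 : ∀ m, m ≤ n0 → p m ≤ ∑ m ∈ Finset.range (n0 + 1), p m := fun m hm =>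
    Finset.single_le_sum (f := p) (fun _ _ => Nat.zero_le _) (Finset.mem_range.2 (by omega))
  have h4 : ∑ m ∈ Finset.range (n0 + 1), p m ≤ (∑ m ∈ Finset.range (n0 + 1), p m) * n :=
    Nat.le_mul_of_pos_right _ hn
  rw [add_mul]
  by_cases c1 : n0 ≤ n
  · have := h2 n c1
    have := h3 n0 le_rfl
    omega
  · have := h3 n (by omega)
    omega

end Tfinal

open Tfinal Filter Asymptotics

theorem thm_final (h1 : S_main) (h2 : S_pansiot) : S_final := by
  intro k σ a u hgrow hhead _ hu hall hnq
  right
  have hev : ∀ᶠ m : ℕ in atTop, ∀ b, 2 ≤ (it σ m [b]).length :=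
    eventually_all.2 fun b => (hgrow b).eventually_ge_atTop 2
  obtain ⟨N0, hN0⟩ := eventually_atTop.1 hev
  set N := N0 + 1 with hN
  have hne : ∀ b, 1 ≤ (σ b).length := by
    intro b
    by_contra hc
    have e : σ b = [] := List.length_eq_zero_iff.1 (by omega)
    have := hN0 N (by omega) b
    rw [hN, it_add] at this
    have e2 : it σ 1 [b] = [] := by simp [it, e]
    rw [e2, it_nil] at this
    simp at this
  set τ : Fin k → List (Fin k) := fun b => it σ N [b] with hτ
  have hτ2 : ∀ b, 2 ≤ (τ b).length := hN0 N (by omega)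
  have hτu : ∀ m i : ℕ, i < (it τ m [a]).length → (it τ m [a])[i]? = some (u i) := by
    intro m i
    rw [hτ, it_it]
    exact hu _ i
  have hτg : ∀ i, ∃ m, i < (it τ m [a]).length := by
    intro i
    obtain ⟨m, hm⟩ := eventually_atTop.1 ((hgrow a).eventually_gt_atTop i)
    refine ⟨m, ?_⟩
    rw [hτ, it_it]
    exact hm _ (Nat.le_mul_of_pos_left _ (by omega))
  have hτq : ¬ (∀ b c : Fin k, IsTheta atTop (fun m : ℕ => ((it τ m [b]).length : ℝ))
      (fun m : ℕ => ((it τ m [c]).length : ℝ))) := by
    intro H
    apply hnq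
    intro b c
    have hM : ∀ b, (σ b).length ≤ ∑ x, (σ x).length := fun b =>
      Finset.single_le_sum (f := fun x => (σ x).length) (fun _ _ => Nat.zero_le _)
        (Finset.mem_univ b)
    have H1 := H b c
    simp only [hτ, it_it] at H1
    exact ⟨bigO_of σ hne _ hM N (by omega) b c H1.1, bigO_of σ hne _ hM N (by omega) c b H1.2⟩
  have hP := h2 (Fin k) τ a u hτ2 (it_head σ a hhead N) hτu hall hτq
  obtain ⟨α, β, C, hC⟩ := h1 (Option (Fin k)) (sys τ a u hτ2 hτg hτu)
  have hC' : ∀ n : ℕ, 3 ≤ n → |((pu u (n + 1) : ℝ) - pu u n) - α * Real.log n -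
      β * Real.log (Real.log n)| ≤ C + 1 := by
    intro n hn
    have := hC n hn
    have e : (sys τ a u hτ2 hτg hτu).U = UU u := rfl
    simp only [e, pc_eq] at this
    push_cast at this
    rw [abs_le] at this ⊢
    constructor <;> linarith [this.1, this.2]
  have tl : Tendsto (fun n : ℕ => Real.log n) atTop atTop :=
    Real.tendsto_log_atTop.comp tendsto_natCast_atTop_atTop
  have tll : Tendsto (fun n : ℕ => Real.log (Real.log n)) atTop atTop :=
    Real.tendsto_log_atTop.comp tl
  have hoo : (fun n : ℕ => β * Real.log (Real.log n)) =o[atTop] (fun n : ℕ => Real.log n) :=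
    (Real.isLittleO_log_id_atTop.comp_tendsto tl).const_mul_left β
  have hcon : ¬ ∀ᶠ n : ℕ in atTop, α * Real.log n + β * Real.log (Real.log n) ≤ 0 := by
    intro H
    obtain ⟨D, hD⟩ := linear_of (pu u) (C + 1) (by
      filter_upwards [H, eventually_ge_atTop 3] with n h3 hn
      have := (abs_le.1 (hC' n hn)).2
      linarith)
    obtain ⟨n, hn, hlt⟩ := hP D
    have := hD n hn
    omega
  rcases lt_trichotomy 0 α with hα | hα | hα
  · exact ⟨α, hα, Or.inr (equiv_of _ _ _ α (C + 1) hα tl hoo hC')⟩
  · subst hα
    by_cases hβ : 0 < β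
    · refine ⟨β, hβ, Or.inl (equiv_of _ _ (fun _ => 0) β (C + 1) hβ tll (isLittleO_zero _ _) ?_)⟩
      intro n hn
      have := hC' n hn
      simp only [zero_mul, sub_zero] at this ⊢
      exact this
    · exfalso
      apply hcon
      filter_upwards [tll.eventually_ge_atTop 0] with n hn
      have := mul_nonpos_of_nonpos_of_nonneg (not_lt.1 hβ) hn
      linarith
  · exfalso
    apply hcon
    filter_upwards [hoo.bound (neg_pos.2 hα), tl.eventually_ge_atTop 0] with n h3 hn
    rw [Real.norm_eq_abs, Real.norm_eq_abs, abs_of_nonneg hn] at h3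
    have := le_abs_self (β * Real.log (Real.log n))
    linarith

end Pool.Agent.H149Z.SU
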