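import Pool.Agent.H149Z.SU.St

/-! Shared elementary lemmas on factors, parses and `LogClass`. -/

set_option autoImplicit false

namespace Pool.Agent.H149Z.SU

section fac
variable {A : Type}

@[simp] theorem fac_length (U : ℤ → A) (p : ℤ) (n : ℕ) : (fac U p n).length = n := by
  simp [fac]

theorem fac_getElem (U : ℤ → A) (p : ℤ) (n j : ℕ) (h : j < (fac U p n).length) :
    (fac U p n)[j] = U (p + j) := by
  simp [fac]

theorem fac_eq_iff (U U' : ℤ → A) (p q : ℤ) (n : ℕ) :
    fac U p n = fac U' q n ↔ Agr U U' p q n := by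
  constructor
  · intro h t h0 hn
    obtain ⟨j, rfl⟩ := Int.eq_ofNat_of_zero_le h0
    have hj : j < n := by exact_mod_cast hn
    have h1 : (fac U p n)[j]'(by simpa using hj) = (fac U' q n)[j]'(by simpa using hj) := by
      simp only [h]
    rwa [fac_getElem, fac_getElem] at h1
  · intro h
    apply List.ext_getElem (by simp)
    intro j h1 h2
    rw [fac_getElem, fac_getElem]
    exact h j (by omega) (by simpa using h1)

theorem fac_eq_len {U U' : ℤ → A} {p q : ℤ} {n m : ℕ} (h : fac U p n = fac U' q m) : n = m := by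
  simpa using congrArg List.length h

theorem fac_add (U : ℤ → A) (p : ℤ) (n m : ℕ) :
    fac U p (n + m) = fac U p n ++ fac U (p + n) m := by
  apply List.ext_getElem (by simp)
  intro j h1 h2
  rw [fac_getElem]
  by_cases hj : j < n
  · rw [List.getElem_append_left (by simpa using hj), fac_getElem]
  · rw [List.getElem_append_right (by simpa using hj), fac_getElem]
    congr 1
    simp only [fac_length]
    omega

theorem fac_zero (U : ℤ → A) (p : ℤ) : fac U p 0 = [] := by simp [fac]

theorem fac_one (U : ℤ → A) (p : ℤ) : fac U p 1 = [U p] := by simp [fac]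

theorem fac_drop_take (U : ℤ → A) (p : ℤ) (n a b : ℕ) (h : a + b ≤ n) :
    ((fac U p n).drop a).take b = fac U (p + a) b := by
  apply List.ext_getElem (by simp; omega)
  intro j h1 h2
  rw [List.getElem_take, List.getElem_drop, fac_getElem, fac_getElem]
  congr 1
  push_cast
  ring

theorem finite_len [Fintype A] (n : ℕ) : {w : List A | w.length = n}.Finite :=
  List.finite_length_eq A n

theorem finite_fac [Fintype A] (U : ℤ → A) (P : ℤ → Prop) (f : ℤ → ℤ) (n : ℕ) :
    {w : List A | ∃ p, P p ∧ w = fac U (f p) n}.Finite :=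
  (finite_len n).subset (by rintro w ⟨p, -, rfl⟩; simp)

theorem Agr.refl (U : ℤ → A) (p n : ℤ) : Agr U U p p n := fun _ _ _ => rfl

theorem Agr.symm {U U' : ℤ → A} {p q n : ℤ} (h : Agr U U' p q n) : Agr U' U q p n :=
  fun t a b => (h t a b).symm

theorem Agr.trans {U U' U'' : ℤ → A} {p q r n : ℤ} (h : Agr U U' p q n) (h' : Agr U' U'' q r n) :
    Agr U U'' p r n := fun t a b => (h t a b).trans (h' t a b)

/-- The most convenient way to use `Agr`. -/
theorem Agr.at {U U' : ℤ → A} {p q n : ℤ} (h : Agr U U' p q n) {x y : ℤ} (h1 : p ≤ x)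
    (h2 : x < p + n) (h3 : y - q = x - p) : U x = U' y := by
  have := h (x - p) (by omega) (by omega)
  rwa [show p + (x - p) = x by ring, show q + (x - p) = y by omega] at this

theorem Agr.sub {U U' : ℤ → A} {p q n : ℤ} (h : Agr U U' p q n) {p' q' n' : ℤ} (h1 : p ≤ p')
    (h2 : p' + n' ≤ p + n) (h3 : q' - q = p' - p) : Agr U U' p' q' n' :=
  fun t a b => h.at (by omega) (by omega) (by omega)

theorem Per.mono {U : ℤ → A} {π a b a' b' : ℤ} (h : Per U π a b) (h1 : a ≤ a') (h2 : b' ≤ b) :
    Per U π a' b' := fun t x y => h t (by omega) (by omega)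

/-- Transport of a period along an agreement. -/
theorem Per.agr {U U' : ℤ → A} {π a b p q n : ℤ} (h : Per U π a b) (hπ : 0 ≤ π)
    (hA : Agr U U' p q n) (h1 : p ≤ a) (h2 : b ≤ p + n) : Per U' π (a - p + q) (b - p + q) := by
  intro t x y
  rw [← hA.at (x := t - q + p) (y := t) (by omega) (by omega) (by omega),
    ← hA.at (x := t - q + p + π) (y := t + π) (by omega) (by omega) (by omega)]
  exact h _ (by omega) (by omega)

theorem Per.mul {U : ℤ → A} {π a b : ℤ} (h : Per U π a b) (hπ : 0 ≤ π) (k : ℕ) :
    Per U (k * π) a b := by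
  induction k with
  | zero => intro t _ _; simp
  | succ k ih =>
    intro t x y
    have hk : 0 ≤ (k : ℤ) * π := by positivity
    have e : ((k + 1 : ℕ) : ℤ) * π = k * π + π := by push_cast; ring
    rw [e] at y ⊢
    rw [ih t x (by omega), h (t + k * π) (by omega) (by omega), add_assoc]

/-- Two overlapping periodic intervals glue. -/
theorem Per.glue {U : ℤ → A} {π a b a' b' : ℤ} (h : Per U π a b) (h' : Per U π a' b')
    (ho : a' + π ≤ b) : Per U π a b' := by
  intro t x y
  by_cases ht : a' ≤ t
  · exact h' t ht y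
  · exact h t x (by omega)

/-- Two periodic intervals that agree on one period agree. -/
theorem Agr.of_per {U U' : ℤ → A} {π p q n : ℤ} (hπ : 1 ≤ π) (h : Agr U U' p q π)
    (h1 : Per U π p (p + n)) (h2 : Per U' π q (q + n)) : Agr U U' p q n := by
  intro t h0
  obtain ⟨j, rfl⟩ := Int.eq_ofNat_of_zero_le h0
  induction j using Nat.strong_induction_on with
  | _ j ih =>
    intro hj
    by_cases hc : (j : ℤ) < π
    · exact h j h0 hc
    · obtain ⟨i, hi⟩ := Int.eq_ofNat_of_zero_le (show 0 ≤ (j : ℤ) - π by omega)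
      have := ih i (by omega) (by omega) (by omega)
      rw [h1 (p + i) (by omega) (by omega), h2 (q + i) (by omega) (by omega)] at this
      rwa [show p + (j : ℤ) = p + i + π by omega, show q + (j : ℤ) = q + i + π by omega]

end fac

section parse
variable {A B E : Type}

theorem IsParse.le_add {γ : B → List A} {V : ℤ → B} {C : ℤ → ℤ} {U : ℤ → A}
    (h : IsParse γ V C U) {r : ℕ} (hr : ∀ b, r ≤ (γ b).length) (i m : ℤ) (hm : 0 ≤ m) :
    C i + r * m ≤ C (i + m) := by
  obtain ⟨k, rfl⟩ := Int.eq_ofNat_of_zero_le hm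
  induction k with
  | zero => simp
  | succ k ih =>
    have h1 := h.step (i + k)
    have h2 : (r : ℤ) ≤ (γ (V (i + k))).length := by exact_mod_cast hr _
    have h3 := ih (by omega)
    push_cast
    rw [← add_assoc, h1]
    nlinarith

theorem IsParse.add_le {γ : B → List A} {V : ℤ → B} {C : ℤ → ℤ} {U : ℤ → A}
    (h : IsParse γ V C U) {r : ℕ} (hr : ∀ b, (γ b).length ≤ r) (i m : ℤ) (hm : 0 ≤ m) :
    C (i + m) ≤ C i + r * m := by
  obtain ⟨k, rfl⟩ := Int.eq_ofNat_of_zero_le hm
  induction k with
  | zero => simp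
  | succ k ih =>
    have h1 := h.step (i + k)
    have h2 : ((γ (V (i + k))).length : ℤ) ≤ r := by exact_mod_cast hr _
    have h3 := ih (by omega)
    push_cast
    rw [← add_assoc, h1]
    nlinarith

theorem IsParse.strictMono {γ : B → List A} {V : ℤ → B} {C : ℤ → ℤ} {U : ℤ → A}
    (h : IsParse γ V C U) (hr : ∀ b, 1 ≤ (γ b).length) : StrictMono C := by
  intro i j hij
  have := h.le_add hr i (j - i) (by omega)
  rw [show i + (j - i) = j by ring] at this
  push_cast at this
  omega

theorem IsParse.exists_idx {γ : B → List A} {V : ℤ → B} {C : ℤ → ℤ} {U : ℤ → A}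
    (h : IsParse γ V C U) (hr : ∀ b, 1 ≤ (γ b).length) (t : ℤ) :
    ∃ i, C i ≤ t ∧ t < C (i + 1) := by
  have hb : ∀ z : ℤ, C z ≤ t → z ≤ |t - C 0| := by
    intro z hz
    by_cases h0 : 0 ≤ z
    · have := h.le_add hr 0 z h0
      simp only [zero_add] at this
      push_cast at this
      have := le_abs_self (t - C 0)
      omega
    · have := abs_nonneg (t - C 0)
      omega
  have hne : ∃ z : ℤ, C z ≤ t := by
    refine ⟨-|t - C 0|, ?_⟩
    have := h.le_add hr (-|t - C 0|) |t - C 0| (abs_nonneg _)
    simp only [neg_add_cancel] at this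
    push_cast at this
    have := neg_abs_le (t - C 0)
    omega
  obtain ⟨i, hi, hmax⟩ := Int.exists_greatest_of_bdd ⟨_, hb⟩ hne
  refine ⟨i, hi, ?_⟩
  by_contra hc
  have := hmax (i + 1) (by omega)
  omega

/-- Equal preimages have the same cut pattern. -/
theorem IsParse.cut_eq {γ : B → List A} {V V' : ℤ → B} {C C' : ℤ → ℤ} {U U' : ℤ → A}
    (h : IsParse γ V C U) (h' : IsParse γ V' C' U') {i j m : ℤ} (hA : Agr V V' i j m)
    (s : ℤ) (h0 : 0 ≤ s) (hs : s ≤ m) : C (i + s) - C i = C' (j + s) - C' j := by
  obtain ⟨k, rfl⟩ := Int.eq_ofNat_of_zero_le h0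
  induction k with
  | zero => simp
  | succ k ih =>
    have h1 := h.step (i + k)
    have h2 := h'.step (j + k)
    have h3 := ih (by omega) (by omega)
    have h4 := hA k (by omega) (by omega)
    push_cast
    rw [← add_assoc, ← add_assoc, h1, h2, h4]
    omega

/-- `cut_eq` for arbitrary aligned indices. -/
theorem IsParse.cut_at {γ : B → List A} {V V' : ℤ → B} {C C' : ℤ → ℤ} {U U' : ℤ → A}
    (h : IsParse γ V C U) (h' : IsParse γ V' C' U') {i j m : ℤ} (hA : Agr V V' i j m)
    {x y : ℤ} (h1 : i ≤ x) (h2 : x ≤ i + m) (h3 : y - j = x - i) :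
    C x - C i = C' y - C' j := by
  have := h.cut_eq h' hA (x - i) (by omega) (by omega)
  rwa [show i + (x - i) = x by ring, show j + (x - i) = y by omega] at this

/-- Equal preimages have equal images. -/
theorem IsParse.agr {γ : B → List A} {V V' : ℤ → B} {C C' : ℤ → ℤ} {U U' : ℤ → A}
    (h : IsParse γ V C U) (h' : IsParse γ V' C' U') (hr : ∀ b, 1 ≤ (γ b).length)
    {i j m : ℤ} (hA : Agr V V' i j m) : Agr U U' (C i) (C' j) (C (i + m) - C i) := by
  intro t h0 ht
  obtain ⟨l, hl1, hl2⟩ := h.exists_idx hr (C i + t)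
  have hm := h.strictMono hr
  have h1 : i < l + 1 := hm.lt_iff_lt.mp (by omega)
  have h2 : l < i + m := hm.lt_iff_lt.mp (by omega)
  have h3 := h.cut_at h' hA (x := l) (y := l - i + j) (by omega) (by omega) (by omega)
  have h4 : V l = V' (l - i + j) := hA.at (by omega) (by omega) (by omega)
  obtain ⟨k, hk⟩ := Int.eq_ofNat_of_zero_le (show 0 ≤ C i + t - C l by omega)
  have h5 := h.step l
  have hk1 : k < (γ (V l)).length := by omega
  have e1 := h.val l k hk1
  have e2 := h'.val (l - i + j) k (h4 ▸ hk1)
  rw [show C i + t = C l + k by omega, show C' j + t = C' (l - i + j) + k by omega, e1, e2]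
  simp only [h4]

theorem IsParse.flatMap_fac {γ : B → List A} {V : ℤ → B} {C : ℤ → ℤ} {U : ℤ → A}
    (h : IsParse γ V C U) (i : ℤ) (m : ℕ) :
    (fac V i m).flatMap γ = fac U (C i) (C (i + m) - C i).toNat := by
  induction m with
  | zero => simp [fac_zero]
  | succ m ih =>
    have h0 := h.le_add (r := 0) (fun _ => Nat.zero_le _) i m (by omega)
    have h1 := h.step (i + m)
    have e : (C (i + (m + 1 : ℕ)) - C i).toNat
        = (C (i + m) - C i).toNat + (γ (V (i + m))).length := by
      push_cast
      rw [← add_assoc, h1]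
      omega
    rw [fac_add, List.flatMap_append, ih, e, fac_add, fac_one]
    congr 1
    simp only [List.flatMap_cons, List.flatMap_nil, List.append_nil]
    apply List.ext_getElem (by simp)
    intro j h2 h3
    rw [fac_getElem, ← h.val (i + m) j h2]
    congr 1
    omega

/-- Composition of parses. -/
theorem IsParse.comp {β : B → List E} {μ : E → List A} {V : ℤ → B} {W : ℤ → E} {U : ℤ → A}
    {C1 C2 : ℤ → ℤ} (h1 : IsParse β V C1 W) (h2 : IsParse μ W C2 U) :
    IsParse (fun b => (β b).flatMap μ) V (fun i => C2 (C1 i)) U := by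
  have key : ∀ i, (β (V i)).flatMap μ = fac U (C2 (C1 i)) (C2 (C1 (i + 1)) - C2 (C1 i)).toNat := by
    intro i
    have e1 := h1.flatMap_fac i 1
    rw [fac_one] at e1
    simp only [List.flatMap_cons, List.flatMap_nil, List.append_nil, Nat.cast_one] at e1
    have s := h1.step i
    rw [e1, h2.flatMap_fac]
    congr 4
    omega
  have mono : ∀ i, C2 (C1 i) ≤ C2 (C1 (i + 1)) := by
    intro i
    have := h2.le_add (r := 0) (fun _ => Nat.zero_le _) (C1 i) ((β (V i)).length) (by omega)
    rw [← h1.step i] at this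
    simpa using this
  constructor
  · intro i
    have := mono i
    rw [key, fac_length]
    omega
  · intro i j hj
    simp only [key, fac_getElem]

/-- A parse is determined by the preimage and one cut. -/
theorem IsParse.unique {γ : B → List A} {V : ℤ → B} {C C' : ℤ → ℤ} {U U' : ℤ → A}
    (h : IsParse γ V C U) (h' : IsParse γ V C' U') (hr : ∀ b, 1 ≤ (γ b).length) :
    (∀ i, C' i = C i + (C' 0 - C 0)) ∧ ∀ t, U' (t + (C' 0 - C 0)) = U t := by
  have hc : ∀ i, C' i = C i + (C' 0 - C 0) := by
    intro i
    rcases le_total 0 i with hi | hi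
    · have := h.cut_at h' (Agr.refl V 0 i) (x := i) (y := i) hi (by omega) rfl
      omega
    · have := h.cut_at h' (Agr.refl V i (-i)) (x := 0) (y := 0) hi (by omega) rfl
      omega
  refine ⟨hc, fun t => ?_⟩
  obtain ⟨l, hl1, hl2⟩ := h.exists_idx hr t
  have := h.agr h' hr (Agr.refl V l 1)
  exact (this.at hl1 (by omega) (by have := hc l; omega)).symm

/-- Every bi-infinite word has an image. -/
theorem exists_parse (γ : B → List A) (hr : ∀ b, 1 ≤ (γ b).length) (V : ℤ → B) (c0 : ℤ) :
    ∃ (C : ℤ → ℤ) (U : ℤ → A), IsParse γ V C U ∧ C 0 = c0 := by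
  classical
  let C : ℤ → ℤ := fun i => c0 + (∑ j ∈ Finset.range i.toNat, ((γ (V j)).length : ℤ)) -
    ∑ j ∈ Finset.range (-i).toNat, ((γ (V (-1 - j))).length : ℤ)
  have hstep : ∀ i, C (i + 1) = C i + ((γ (V i)).length : ℤ) := by
    intro i
    by_cases hi : 0 ≤ i
    · obtain ⟨k, rfl⟩ := Int.eq_ofNat_of_zero_le hi
      have e1 : ((k : ℤ) + 1).toNat = k + 1 := by omega
      have e2 : (-((k : ℤ) + 1)).toNat = 0 := by omega
      have e3 : (-(k : ℤ)).toNat = 0 := by omega
      simp only [C, e1, e2, e3, Int.toNat_natCast, Finset.sum_range_succ]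
      ring
    · obtain ⟨k, hk⟩ := Int.eq_ofNat_of_zero_le (show 0 ≤ -1 - i by omega)
      have e1 : (i + 1).toNat = 0 := by omega
      have e2 : (-(i + 1)).toNat = k := by omega
      have e3 : (-i).toNat = k + 1 := by omega
      have e4 : i.toNat = 0 := by omega
      have e5 : -1 - (k : ℤ) = i := by omega
      simp only [C, e1, e2, e3, e4, Finset.sum_range_succ, e5]
      ring
  have hmono : StrictMono C := strictMono_int_of_lt_succ fun i => by
    have := hstep i
    have := hr (V i)
    omega
  have hidx : ∀ t, ∃ i, C i ≤ t ∧ t < C (i + 1) := by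
    have : IsParse (fun b => List.replicate (γ b).length ()) V C (fun _ => ()) :=
      ⟨by simpa using hstep, fun _ _ _ => rfl⟩
    exact this.exists_idx (by simpa using hr)
  choose idx h1 h2 using hidx
  refine ⟨C, fun t => (γ (V (idx t)))[(t - C (idx t)).toNat]'(by
    have := hstep (idx t); have := h1 t; have := h2 t; omega), ⟨hstep, ?_⟩, by simp [C]⟩
  intro i j hj
  have e : idx (C i + j) = i := by
    have a1 := h1 (C i + j)
    have a2 := h2 (C i + j)
    have a3 := hstep i
    have b1 : idx (C i + j) < i + 1 := hmono.lt_iff_lt.mp (by omega)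
    have b2 : i < idx (C i + j) + 1 := hmono.lt_iff_lt.mp (by omega)
    omega
  simp only [e]
  congr 1
  omega

end parse

section sys
variable {A : Type}

theorem Sys.one (X : Sys A) (a : A) : 1 ≤ (X.σ a).length := le_trans (by norm_num) (X.two a)

theorem Sys.mono (X : Sys A) : StrictMono X.c := X.parse.strictMono X.one

/-- Lower bound for the cut function. -/
theorem Sys.lb (X : Sys A) {i j : ℤ} (h : i ≤ j) : X.c i + 2 * (j - i) ≤ X.c j := by
  have := X.parse.le_add X.two i (j - i) (by omega)
  rw [show i + (j - i) = j by ring] at this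
  exact_mod_cast this

/-- Upper bound for the cut function. -/
theorem Good.ub {X : Sys A} {Q K : ℕ} (G : Good X Q K) {i j : ℤ} (h : i ≤ j) :
    X.c j ≤ X.c i + K * (j - i) := by
  have := X.parse.add_le G.len_le i (j - i) (by omega)
  rwa [show i + (j - i) = j by ring] at this

theorem Sys.idx (X : Sys A) (t : ℤ) : ∃ i, X.c i ≤ t ∧ t < X.c (i + 1) :=
  X.parse.exists_idx X.one t

theorem Sys.cut_at (X : Sys A) {i j m : ℤ} (hA : Agr X.U X.U i j m)
    {x y : ℤ} (h1 : i ≤ x) (h2 : x ≤ i + m) (h3 : y - j = x - i) :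
    X.c x - X.c i = X.c y - X.c j := X.parse.cut_at X.parse hA h1 h2 h3

theorem Sys.agr (X : Sys A) {i j m : ℤ} (hA : Agr X.U X.U i j m) :
    Agr X.U X.U (X.c i) (X.c j) (X.c (i + m) - X.c i) := X.parse.agr X.parse X.one hA

/-- The mirror image of a system. -/
def Sys.rev (X : Sys A) : Sys A where
  σ := fun a => (X.σ a).reverse
  U := fun t => X.U (-1 - t)
  c := fun i => -X.c (-i)
  two := fun a => by simpa using X.two a
  parse := by
    constructor
    · intro i
      have := X.parse.step (-1 - i)
      rw [show -1 - i + 1 = -i by ring] at this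
      rw [show -(i + 1) = -1 - i by ring, List.length_reverse]
      omega
    · intro i j hj
      have h1 := X.parse.step (-1 - i)
      rw [show -1 - i + 1 = -i by ring] at h1
      rw [List.length_reverse] at hj
      rw [List.getElem_reverse, ← X.parse.val]
      congr 1
      omega

theorem agr_rev {U : ℤ → A} {p q n : ℤ} :
    Agr (fun t => U (-1 - t)) (fun t => U (-1 - t)) p q n ↔ Agr U U (-p - n) (-q - n) n := by
  constructor
  · intro h t a b
    have := h (n - 1 - t) (by omega) (by omega)
    simp only at this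
    rwa [show -1 - (p + (n - 1 - t)) = -p - n + t by ring,
      show -1 - (q + (n - 1 - t)) = -q - n + t by ring] at this
  · intro h t a b
    exact h.at (by omega) (by omega) (by omega)

theorem per_rev {U : ℤ → A} {π a b : ℤ} :
    Per (fun t => U (-1 - t)) π a b ↔ Per U π (-b) (-a) := by
  constructor
  · intro h t x y
    have := h (-1 - t - π) (by omega) (by omega)
    simp only at this
    rw [show -1 - (-1 - t - π) = t + π by ring, show -1 - (-1 - t - π + π) = t by ring] at this
    exact this.symm
  · intro h t x y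
    have := h (-1 - t - π) (by omega) (by omega)
    simp only
    rw [show -1 - (t + π) = -1 - t - π by ring, this]
    congr 1
    ring

theorem Good.rev {X : Sys A} {Q K : ℕ} (G : Good X Q K) : Good X.rev Q K where
  Qpos := G.Qpos
  len_le := fun a => by simpa [Sys.rev] using G.len_le a
  sync := by
    intro p q n h
    simp only [Sys.rev] at h ⊢
    rw [agr_rev] at h
    rcases G.sync _ _ _ h with ⟨i, j, m, h0, h1, h2, h3, h4, h5, h6⟩ | h1
    · left
      have e := X.cut_at h6 (x := i + m) (y := j + m) (by omega) (by omega) (by omega)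
      refine ⟨-(i + m), -(j + m), m, h0, ?_, ?_, ?_, ?_, ?_, ?_⟩
      · simp only [neg_neg]; omega
      · simp only [neg_neg]; omega
      · simp only [neg_neg]; omega
      · simp only [show -(-(i + m) + m) = i by ring]; omega
      · simp only [show -(-(i + m) + m) = i by ring]; omega
      · simp only
        rw [agr_rev]
        convert h6 using 1 <;> ring
    · right
      rw [per_rev]
      exact h1.mono (by omega) (by omega)
  per_img := by
    intro i m hm h
    simp only [Sys.rev] at h ⊢
    rw [per_rev] at h ⊢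
    have := G.per_img (-(i + m)) m hm (h.mono (by omega) (by omega))
    rw [show -(i + m) + m = -i by ring] at this
    exact this.mono (by omega) (by omega)
  per_pre := by
    intro i m h
    simp only [Sys.rev] at h ⊢
    rw [per_rev] at h ⊢
    have := G.per_pre (-(i + m)) m (by
      rw [show -(i + m) + m = -i by ring]
      exact h.mono (by omega) (by omega))
    exact this.mono (by omega) (by omega)
  delayL := by
    intro i j h hne h'
    simp only [Sys.rev] at h hne h'
    rw [agr_rev] at h h'
    refine G.delayR (-i) (-j) h ?_ ?_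
    · rwa [show -1 - (i - 1) = -i by ring, show -1 - (j - 1) = -j by ring] at hne
    · convert h' using 1 <;> ring
  delayR := by
    intro i j h hne h'
    simp only [Sys.rev] at h hne h'
    rw [agr_rev] at h h'
    refine G.delayL (-i) (-j) ?_ ?_ ?_
    · convert h using 1 <;> ring
    · rwa [show -1 - i = -i - 1 by ring, show -1 - j = -j - 1 by ring] at hne
    · convert h' using 1 <;> ring

end sys

section logclass

theorem LogClass.add {f g : ℕ → ℝ} (hf : LogClass f) (hg : LogClass g) :
    LogClass (fun n => f n + g n) := by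
  obtain ⟨a, b, c, h⟩ := hf
  obtain ⟨a', b', c', h'⟩ := hg
  refine ⟨a + a', b + b', c + c', fun n hn => ?_⟩
  have h1 := abs_le.mp (h n hn)
  have h2 := abs_le.mp (h' n hn)
  rw [abs_le]
  constructor <;> nlinarith

theorem LogClass.smul {f : ℕ → ℝ} (hf : LogClass f) (r : ℝ) : LogClass (fun n => r * f n) := by
  obtain ⟨a, b, c, h⟩ := hf
  refine ⟨r * a, r * b, |r| * c, fun n hn => ?_⟩
  rw [show r * f n - r * a * Real.log n - r * b * Real.log (Real.log n)
    = r * (f n - a * Real.log n - b * Real.log (Real.log n)) by ring, abs_mul]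
  exact mul_le_mul_of_nonneg_left (h n hn) (abs_nonneg r)

theorem LogClass.of_bdd {f g : ℕ → ℝ} (hf : LogClass f) (C : ℝ) (h : ∀ n, |g n - f n| ≤ C) :
    LogClass g := by
  obtain ⟨a, b, c, h1⟩ := hf
  refine ⟨a, b, c + C, fun n hn => ?_⟩
  have h2 := abs_le.mp (h1 n hn)
  have h3 := abs_le.mp (h n)
  rw [abs_le]
  constructor <;> linarith

theorem LogClass.zero : LogClass (fun _ => 0) := ⟨0, 0, 0, fun _ _ => by simp⟩

theorem LogClass.sum {ι : Type} (s : Finset ι) (f : ι → ℕ → ℝ) (h : ∀ i ∈ s, LogClass (f i)) :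
    LogClass (fun n => ∑ i ∈ s, f i n) := by
  classical
  induction s using Finset.induction_on with
  | empty => simpa using LogClass.zero
  | insert a s ha ih =>
    simp only [Finset.sum_insert ha]
    exact (h a (by simp)).add (ih fun i hi => h i (by simp [hi]))

end logclass

end Pool.Agent.H149Z.SU
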