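import Mathlib

/-! Definitions for the proof of `S08765` (first difference of the factor complexity of a purely
morphic word).  Bi-infinite words are functions `ℤ → A`. -/

set_option autoImplicit false

namespace Pool.Agent.H149Z.SU

/-- The factor of length `n` of the bi-infinite word `U` that starts at position `p`. -/
def fac {A : Type} (U : ℤ → A) (p : ℤ) (n : ℕ) : List A :=
  (List.range n).map fun j : ℕ => U (p + j)

/-- `U[p, p+n) = U'[q, q+n)`. -/
def Agr {A : Type} (U U' : ℤ → A) (p q n : ℤ) : Prop :=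
  ∀ t : ℤ, 0 ≤ t → t < n → U (p + t) = U' (q + t)

/-- `U` has period `π` on the interval `[a, b)`. -/
def Per {A : Type} (U : ℤ → A) (π a b : ℤ) : Prop :=
  ∀ t : ℤ, a ≤ t → t + π < b → U t = U (t + π)

/-- `U = γ(V)`, the block `γ (V i)` sitting at positions `[C i, C (i+1))`. -/
structure IsParse {A B : Type} (γ : B → List A) (V : ℤ → B) (C : ℤ → ℤ) (U : ℤ → A) : Prop where
  step : ∀ i : ℤ, C (i + 1) = C i + ((γ (V i)).length : ℤ)
  val : ∀ (i : ℤ) (j : ℕ) (h : j < (γ (V i)).length), U (C i + j) = (γ (V i))[j]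

/-- An elementary morphism: it does not factor through a smaller alphabet. -/
def Elementary {A B : Type} [Fintype B] (γ : B → List A) : Prop :=
  ∀ (E : Type) [Fintype E] (β : B → List E) (μ : E → List A),
    (∀ b, γ b = (β b).flatMap μ) → Fintype.card B ≤ Fintype.card E

/-- A bi-infinite fixed point of a morphism all of whose images have length at least two. -/
structure Sys (A : Type) where
  σ : A → List A
  U : ℤ → A
  c : ℤ → ℤ
  two : ∀ a, 2 ≤ (σ a).length
  parse : IsParse σ U c U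

/-- The two occurrences `[p,p+n)`, `[q,q+n)` have a common `σ`-preimage up to `K` letters at the
two ends. -/
def Sync {A : Type} (X : Sys A) (K : ℕ) (p q n : ℤ) : Prop :=
  ∃ i j m : ℤ, 0 ≤ m ∧ X.c i - p = X.c j - q ∧ p ≤ X.c i ∧ X.c i ≤ p + K ∧
    p + n - K ≤ X.c (i + m) ∧ X.c (i + m) ≤ p + n ∧ Agr X.U X.U i j m

/-- The recognizability package: `Q` is a universal period, `K` a universal delay. -/
structure Good {A : Type} (X : Sys A) (Q K : ℕ) : Prop where
  Qpos : 1 ≤ Q
  len_le : ∀ a, (X.σ a).length ≤ K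
  sync : ∀ p q n : ℤ, Agr X.U X.U p q n →
    Sync X K p q n ∨ Per X.U Q (p + K) (p + n - K)
  per_img : ∀ i m : ℤ, (K : ℤ) ≤ m → Per X.U Q i (i + m) → Per X.U Q (X.c i) (X.c (i + m))
  per_pre : ∀ i m : ℤ, Per X.U Q (X.c i) (X.c (i + m)) → Per X.U Q (i + K) (i + m - K)
  delayL : ∀ i j : ℤ, Agr X.U X.U i j K → X.U (i - 1) ≠ X.U (j - 1) →
    ¬ Agr X.U X.U (X.c i - K) (X.c j - K) K
  delayR : ∀ i j : ℤ, Agr X.U X.U (i - K) (j - K) K → X.U i ≠ X.U j →
    ¬ Agr X.U X.U (X.c i) (X.c j) K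

/-- `f n = α log n + β log log n + O(1)`. -/
def LogClass (f : ℕ → ℝ) : Prop :=
  ∃ α β C : ℝ, ∀ n : ℕ, 3 ≤ n →
    |f n - α * Real.log n - β * Real.log (Real.log n)| ≤ C

/-- Factor complexity of a bi-infinite word. -/
noncomputable def pc {A : Type} (U : ℤ → A) (n : ℕ) : ℕ :=
  Set.ncard {w : List A | ∃ p : ℤ, w = fac U p n}

/-- Factor complexity of a one-sided word, written as in the frozen statement. -/
noncomputable def pu {A : Type} (u : ℕ → A) (n : ℕ) : ℕ :=
  (Set.range (fun i : ℕ => List.ofFn (fun j : Fin n => u (i + j.val)))).ncard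

/-- Number of words `x w y`, `|x| = i`, `|w| = n`, `|y| = j`, read around an occurrence
`[p, p+n)` that satisfies `P`. -/
noncomputable def cnt {A : Type} (U : ℤ → A) (P : ℤ → ℕ → Prop) (i j n : ℕ) : ℕ :=
  Set.ncard {ω : List A | ∃ p : ℤ, P p n ∧ ω = fac U (p - i) (n + i + j)}

/-- The second difference of the complexity restricted to the words satisfying `P`. -/
noncomputable def B2 {A : Type} (U : ℤ → A) (P : ℤ → ℕ → Prop) (n : ℕ) : ℤ :=
  (cnt U P 1 1 n : ℤ) - cnt U P 1 0 n - cnt U P 0 1 n + cnt U P 0 0 n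

/-- The interior of the occurrence `[p,p+n)` has period `Q`. -/
def PT {A : Type} (U : ℤ → A) (Q K : ℕ) (p : ℤ) (n : ℕ) : Prop :=
  Per U Q (p + K) (p + n - K)

/-- Maximal `Q`-periodic runs `[p,p+n)`, `n ≥ N`, read with `D` letters of context. -/
def RunSet {A : Type} (U : ℤ → A) (Q D N : ℕ) : Set (List A) :=
  {ω | ∃ (p : ℤ) (n : ℕ), N ≤ n ∧ ω = fac U (p - D) (n + 2 * D) ∧ Per U Q p (p + n) ∧
    U (p - 1) ≠ U (p - 1 + Q) ∧ U (p + n) ≠ U (p + n - Q)}

/-- Families of occurrences of one word of length `n` (satisfying `P`), read with `D` letters of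
context, that branch immediately on the left and on the right. -/
def FamSet {A : Type} [DecidableEq A] (U : ℤ → A) (P : ℤ → ℕ → Prop) (D n : ℕ) :
    Set (Finset (List A)) :=
  {S | ∃ T : Finset ℤ, S = T.image (fun p => fac U (p - D) (n + 2 * D)) ∧ (∀ p ∈ T, P p n) ∧
    (∀ p ∈ T, ∀ q ∈ T, Agr U U p q n) ∧ (∃ p ∈ T, ∃ q ∈ T, U (p - 1) ≠ U (q - 1)) ∧
    (∃ p ∈ T, ∃ q ∈ T, U (p + n) ≠ U (q + n))}

end Pool.Agent.H149Z.SU
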