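import Pool.Agent.H149Z.SU.Defs

/-! The statements into which the proof of `S08765` is split. -/

set_option autoImplicit false

namespace Pool.Agent.H149Z.SU

open Filter

/-- Growth of `|σ^k(b)|`. -/
def S_growth : Prop :=
  ∀ (A : Type) [Fintype A] (σ : A → List A), (∀ a, 2 ≤ (σ a).length) → ∀ b : A,
    ∃ (lam : ℝ) (d : ℕ) (c1 c2 : ℝ), 1 < lam ∧ 0 < c1 ∧ ∀ k : ℕ,
      c1 * ((k : ℝ) + 1) ^ d * lam ^ k ≤ (((fun w : List A => w.flatMap σ)^[k] [b]).length : ℝ) ∧
      (((fun w : List A => w.flatMap σ)^[k] [b]).length : ℝ) ≤ c2 * ((k : ℝ) + 1) ^ d * lam ^ k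

/-- Counting function of one ray `w (k+1) = s σ(w k) t`. -/
def S_ray : Prop :=
  ∀ (A : Type) [Fintype A] (σ : A → List A), (∀ a, 2 ≤ (σ a).length) →
    ∀ (K : ℕ) (w : ℕ → List A), w 0 ≠ [] →
      (∀ k, ∃ s t : List A, s.length ≤ K ∧ t.length ≤ K ∧
        w (k + 1) = s ++ (w k).flatMap σ ++ t) →
      LogClass (fun n => (Set.ncard {k : ℕ | (w k).length < n} : ℝ))

/-- A weight that is invariant under push-forward (up to finitely many objects). -/
def S_raysum : Prop :=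
  ∀ (A : Type) [Fintype A] (σ : A → List A), (∀ a, 2 ≤ (σ a).length) →
    ∀ (O : Type) (good : O → Prop) (mid : O → List A) (F : O → O) (μ : O → ℤ) (K N : ℕ),
      (∀ n : ℕ, {o | good o ∧ (mid o).length < n}.Finite) →
      (∀ o, good o → mid o ≠ [] ∧ good (F o) ∧ ∃ s t : List A, s.length ≤ K ∧ t.length ≤ K ∧
        mid (F o) = s ++ (mid o).flatMap σ ++ t) →
      (∀ o', good o' → N ≤ (mid o').length →
        μ o' = ∑ᶠ o ∈ {o | good o ∧ F o = o'}, μ o) →
      LogClass (fun n => ((∑ᶠ o ∈ {o | good o ∧ (mid o).length < n}, μ o : ℤ) : ℝ))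

/-- A set of objects all of whose long members have a parent. -/
def S_raycount : Prop :=
  ∀ (A : Type) [Fintype A] (σ : A → List A), (∀ a, 2 ≤ (σ a).length) →
    ∀ (O : Type) (good : O → Prop) (mid : O → List A) (F : O → O) (K N : ℕ),
      (∀ n : ℕ, {o | good o ∧ (mid o).length < n}.Finite) →
      (∀ o, good o → mid o ≠ [] ∧ good (F o) ∧ ∃ s t : List A, s.length ≤ K ∧ t.length ≤ K ∧
        mid (F o) = s ++ (mid o).flatMap σ ++ t) →
      (∀ o', good o' → N ≤ (mid o').length → ∃ o, good o ∧ F o = o') →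
      LogClass (fun n => (Set.ncard {o | good o ∧ (mid o).length < n} : ℝ))

/-- Elementary morphisms: bounded delay on both sides, and two parses of a common window have a
common cut unless the window is periodic. -/
def S_elem : Prop :=
  ∀ (A B : Type) [Fintype B] (γ : B → List A), Elementary γ →
    ∃ K P : ℕ, ∀ (V V' : ℤ → B) (C C' : ℤ → ℤ) (U U' : ℤ → A),
      IsParse γ V C U → IsParse γ V' C' U' →
      (∀ i j : ℤ, Agr U U' (C i) (C' j) K → V i = V' j) ∧
      (∀ i j : ℤ, Agr U U' (C i - K) (C' j - K) K → V (i - 1) = V' (j - 1)) ∧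
      (∀ p q n : ℤ, Agr U U' p q n →
        (∃ i j : ℤ, C i - p = C' j - q ∧ p ≤ C i ∧ C i ≤ p + n) ∨
        (∃ π : ℤ, 1 ≤ π ∧ π ≤ P ∧ Per U π (p + K) (p + n - K)))

/-- Recognizability for an arbitrary system. -/
def S_rec : Prop :=
  ∀ (A : Type) [Fintype A] (X : Sys A),
    (∃ K P : ℕ, ∀ p q n : ℤ, Agr X.U X.U p q n →
      Sync X K p q n ∨ ∃ π : ℤ, 1 ≤ π ∧ π ≤ P ∧ Per X.U π (p + K) (p + n - K)) ∧
    (∀ π : ℤ, 1 ≤ π → ∃ K' P' : ℕ, ∀ i m : ℤ, Per X.U π (X.c i) (X.c (i + m)) →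
      ∃ π' : ℤ, 1 ≤ π' ∧ π' ≤ P' ∧ Per X.U π' (i + K') (i + m - K'))

/-- One universal period for all long periodic factors. -/
def S_univ : Prop :=
  ∀ (A : Type) [Fintype A] (X : Sys A), ∃ Q : ℕ, 1 ≤ Q ∧ ∀ π : ℤ, 1 ≤ π → ∃ N : ℕ,
    ∀ a b : ℤ, a + N ≤ b → Per X.U π a b → Per X.U Q a b

/-- The recognizability package exists. -/
def S_good : Prop :=
  ∀ (A : Type) [Fintype A] (X : Sys A), ∃ Q K : ℕ, Good X Q K

/-- In a long bispecial word with periodic interior the periodic part starts and ends within a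
universal distance of the ends. -/
def S_LE : Prop :=
  ∀ (A : Type) [Fintype A] (X : Sys A) (Q K : ℕ), Good X Q K →
    ∃ K5 : ℕ, ∀ B : ℕ, ∃ N : ℕ, ∀ p q r n : ℤ, (N : ℤ) ≤ n →
      Agr X.U X.U p q n → Agr X.U X.U p r n →
      X.U (p - 1) ≠ X.U (q - 1) → X.U (p + n) ≠ X.U (r + n) →
      Per X.U Q (p + B) (p + n - B) → Per X.U Q (p + K5) (p + n - K5)

/-- Counting maximal runs. -/
def S_run : Prop :=
  ∀ (A : Type) [Fintype A] (X : Sys A) (Q K : ℕ), Good X Q K →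
    ∃ D0 N0 : ℕ, ∀ D : ℕ, D0 ≤ D → ∀ N : ℕ, N0 ≤ N →
      LogClass (fun n => (Set.ncard {ω | ω ∈ RunSet X.U Q D N ∧ ω.length < n + 2 * D} : ℝ))

/-- The words with periodic interior contribute the number of maximal runs, up to `O(1)`. -/
def S_tel : Prop :=
  ∀ (A : Type) [Fintype A] (U : ℤ → A) (Q K N : ℕ), 1 ≤ Q → ∃ C : ℤ, ∀ n : ℕ,
    |(∑ m ∈ Finset.range n, B2 U (PT U Q K) m) -
      (Set.ncard {ω | ω ∈ RunSet U Q (K + 1) N ∧ ω.length < n + 2 * (K + 1)} : ℤ)| ≤ C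

/-- The second difference of the complexity splits along a property of words. -/
def S_split : Prop :=
  ∀ (A : Type) [Fintype A] (U : ℤ → A) (P : ℤ → ℕ → Prop),
    (∀ (p q : ℤ) (n : ℕ), Agr U U p q n → P p n → P q n) → ∀ n : ℕ,
      ((pc U (n + 2) : ℤ) - pc U (n + 1)) - ((pc U (n + 1) : ℤ) - pc U n) =
        B2 U P n + B2 U (fun p m => ¬ P p m) n

/-- The restricted second difference as a signed count of branching families. -/
def S_fam : Prop :=
  ∀ (A : Type) [Fintype A] [DecidableEq A] (U : ℤ → A) (P : ℤ → ℕ → Prop) (D n : ℕ), 1 ≤ D →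
    (FamSet U P D n).Finite ∧ B2 U P n = ∑ᶠ S ∈ FamSet U P D n, (-1 : ℤ) ^ (S.card + 1)

/-- The words whose interior is not periodic. -/
def S_aper : Prop :=
  ∀ (A : Type) [Fintype A] (X : Sys A) (Q K : ℕ), Good X Q K →
    ∃ K0 : ℕ, ∀ K' : ℕ, K0 ≤ K' →
      LogClass (fun n =>
        ((∑ m ∈ Finset.range n, B2 X.U (fun p l => ¬ PT X.U Q K' p l) m : ℤ) : ℝ))

/-- The structure theorem. -/
def S_main : Prop :=
  ∀ (A : Type) [Fintype A] (X : Sys A),
    LogClass (fun n => (pc X.U (n + 1) : ℝ) - pc X.U n)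

/-- Pansiot's lower bound: the complexity is not linear. -/
def S_pansiot : Prop :=
  ∀ (A : Type) [Fintype A] (σ : A → List A) (a : A) (u : ℕ → A),
    (∀ b, 2 ≤ (σ b).length) → (σ a).head? = some a →
    (∀ m i : ℕ, i < ((fun w : List A => w.flatMap σ)^[m] [a]).length →
      ((fun w : List A => w.flatMap σ)^[m] [a])[i]? = some (u i)) →
    (∀ b : A, ∃ i : ℕ, u i = b) →
    ¬ (∀ b c : A, Asymptotics.IsTheta atTop
        (fun m : ℕ => (((fun w : List A => w.flatMap σ)^[m] [b]).length : ℝ))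
        (fun m : ℕ => (((fun w : List A => w.flatMap σ)^[m] [c]).length : ℝ))) →
    ∀ C : ℕ, ∃ n : ℕ, 1 ≤ n ∧ C * n < pu u n

/-- The frozen statement `S08765`. -/
def S_final : Prop :=
  ∀ (k : ℕ) (σ : Fin k → List (Fin k)) (a : Fin k) (u : ℕ → Fin k),
    (∀ b : Fin k, Tendsto
      (fun m : ℕ => ((fun w : List (Fin k) => w.flatMap σ)^[m] [b]).length) atTop atTop) →
    (σ a).head? = some a → 2 ≤ (σ a).length →
    (∀ m i : ℕ, i < ((fun w : List (Fin k) => w.flatMap σ)^[m] [a]).length →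
      ((fun w : List (Fin k) => w.flatMap σ)^[m] [a])[i]? = some (u i)) →
    (∀ b : Fin k, ∃ i : ℕ, u i = b) →
    ¬ (∀ b c : Fin k, Asymptotics.IsTheta atTop
        (fun m : ℕ => (((fun w : List (Fin k) => w.flatMap σ)^[m] [b]).length : ℝ))
        (fun m : ℕ => (((fun w : List (Fin k) => w.flatMap σ)^[m] [c]).length : ℝ))) →
    (∃ p N : ℕ, 0 < p ∧ ∀ i : ℕ, N ≤ i → u (i + p) = u i) ∨
    ∃ C : ℝ, 0 < C ∧
      (Asymptotics.IsEquivalent atTop
        (fun n : ℕ =>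
          ((Set.range (fun i : ℕ => List.ofFn (fun j : Fin (n + 1) => u (i + j.val)))).ncard : ℝ)
          - ((Set.range (fun i : ℕ => List.ofFn (fun j : Fin n => u (i + j.val)))).ncard : ℝ))
        (fun n : ℕ => C * Real.log (Real.log (n : ℝ))) ∨
       Asymptotics.IsEquivalent atTop
        (fun n : ℕ =>
          ((Set.range (fun i : ℕ => List.ofFn (fun j : Fin (n + 1) => u (i + j.val)))).ncard : ℝ)
          - ((Set.range (fun i : ℕ => List.ofFn (fun j : Fin n => u (i + j.val)))).ncard : ℝ))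
        (fun n : ℕ => C * Real.log (n : ℝ)))

end Pool.Agent.H149Z.SU
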