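import Pool.Agent.H149Z.SU.TaperB

/-! The words with non-periodic interior, and the structure theorem. -/

set_option autoImplicit false

namespace Pool.Agent.H149Z.SU.Taper

open Pool.Agent.H149Z.SU

variable {A : Type} [DecidableEq A]

/-- The child relation. -/
def Rel (X : Sys A) (K D : ℕ) (o o' : ℕ × Finset (List A)) : Prop :=
  ∃ T f e1 e2, RelW X K D T f e1 e2 o o'

theorem push [Fintype A] {X : Sys A} {Q K K' D N1 K5 NL : ℕ} (G : Good X Q K) (hD : K + 1 ≤ D)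
    (hK : K ≤ K') (hK5 : K5 ≤ K') (hN : 2 * K' + K ≤ N1)
    (hLE : ∀ p q r n : ℤ, (NL : ℤ) ≤ n → Agr X.U X.U p q n → Agr X.U X.U p r n →
      X.U (p - 1) ≠ X.U (q - 1) → X.U (p + n) ≠ X.U (r + n) →
      Per X.U Q (p + (K + K * K' : ℕ)) (p + n - (K + K * K' : ℕ)) →
      Per X.U Q (p + K5) (p + n - K5))
    (𝓕 : Finset (ℕ × Finset (List A))) {o' : ℕ × Finset (List A)}
    (h𝓕 : ∀ o, o ∈ 𝓕 ↔ Obj X Q K' D N1 o ∧ Rel X K D o o')
    (ho' : Obj X Q K' D N1 o') (hlong : NL + K * N1 + 4 * K ≤ o'.1) :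
    (-1 : ℤ) ^ o'.2.card = ∑ o ∈ 𝓕, (-1 : ℤ) ^ o.2.card := by
  classical
  obtain ⟨n', S'⟩ := o'
  obtain ⟨T0, hS', hP0, hB0⟩ := ho'.ex
  simp only at hS' hP0 hB0 hlong ⊢
  obtain ⟨p0, hp0, -⟩ := hB0.left
  obtain ⟨i0, m, a, b, C⟩ := exists_core G hK (n' := n') (by omega) (hP0 p0 hp0)
  have hK2 := two_le_K G
  have a1 := C.a1
  have a2 := C.a2
  have b1 := C.b1
  have b2 := C.b2
  have hm : N1 ≤ m := by
    have c1 := C.len (Agr.refl X.U i0 m)
    have c2 := G.ub (show i0 ≤ i0 + m by omega)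
    rw [show i0 + m - i0 = m by ring] at c2
    have c3 : (K : ℤ) * N1 ≤ K * m := by
      have : ((K * N1 : ℕ) : ℤ) = K * N1 := by push_cast; ring
      omega
    have c4 : (N1 : ℤ) ≤ m := le_of_mul_le_mul_left c3 (by omega)
    omega
  -- representatives
  let I : Set ℤ := {i | Agr X.U X.U (X.c i - a) p0 n' ∧ Agr X.U X.U i i0 m}
  obtain ⟨I0, hI0, hI1⟩ : ∃ I0 : Finset ℤ, (∀ i ∈ I0, i ∈ I) ∧ ∀ i ∈ I, ∃ i' ∈ I0,
      Agr X.U X.U (i - (D + 2 * K : ℕ)) (i' - (D + 2 * K : ℕ)) (m + 2 * (D + 2 * K : ℕ)) := by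
    have hfin : ((W X.U (D + 2 * K) m) '' I).Finite :=
      (finite_len (m + 2 * (D + 2 * K))).subset (by rintro w ⟨p, -, rfl⟩; simp [W])
    obtain ⟨I0, h1, h2⟩ := Finset.subset_set_image_iff.mp
      (show (↑hfin.toFinset : Set (List A)) ⊆ (W X.U (D + 2 * K) m) '' I by simp)
    refine ⟨I0, fun i hi => h1 hi, fun i hi => ?_⟩
    have : W X.U (D + 2 * K) m i ∈ I0.image (W X.U (D + 2 * K) m) := by
      rw [h2]; simpa using ⟨i, hi, rfl⟩
    obtain ⟨i', hi', e⟩ := Finset.mem_image.mp this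
    exact ⟨i', hi', W_eq_iff.mp e.symm⟩
  let g' : ℤ → List A := fun i => W X.U D n' (X.c i - a)
  let g : ℕ → ℕ → ℤ → List A := fun j1 j2 i => W X.U D (m + j1 + j2) (i - j1)
  have hsub : S' ⊆ I0.image g' := by
    intro w hw
    rw [hS'] at hw
    obtain ⟨p, hp, rfl⟩ := Finset.mem_image.mp hw
    obtain ⟨i, c1, c2⟩ := C.all p (hB0.com p hp p0 hp0)
    obtain ⟨i', hi', c3⟩ := hI1 i ⟨c1 ▸ hB0.com p hp p0 hp0, c2⟩
    refine Finset.mem_image.mpr ⟨i', hi', ?_⟩
    obtain ⟨-, c4⟩ := img_agr X (by omega) (by omega) c3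
    have c5 := C.len c2
    exact (W_eq_iff.mpr (c4.sub (by omega) (by omega) (by omega))).symm
  let 𝒯 := I0.powerset.filter (fun T => T.image g' = S')
  have hBT : ∀ T ∈ 𝒯, (∀ i ∈ T, i ∈ I) ∧ T.image g' = S' ∧ Br X.U T (fun i => X.c i - a) n' := by
    intro T hT
    obtain ⟨h1, h2⟩ := Finset.mem_filter.mp hT
    exact ⟨fun i hi => hI0 i (Finset.mem_powerset.mp h1 hi), h2,
      Br.transfer (D := D) (by omega) (hS'.symm.trans h2.symm) hB0⟩
  have hrep : ∀ T : Finset ℤ, ∃ j : ℕ × ℕ, T ∈ 𝒯 →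
      Br X.U T (fun i => i - j.1) (m + j.1 + j.2 : ℕ) := by
    intro T
    by_cases hT : T ∈ 𝒯
    · obtain ⟨h1, -, h3⟩ := hBT T hT
      obtain ⟨j1, j2, -, -, h⟩ := exists_rep C (fun i hi => (h1 i hi).2) h3
      exact ⟨(j1, j2), fun _ => h⟩
    · exact ⟨(0, 0), fun h => absurd h hT⟩
  choose J hJ using hrep
  let ψ : Finset ℤ → ℕ × Finset (List A) :=
    fun T => (m + (J T).1 + (J T).2, T.image (g (J T).1 (J T).2))
  have hrel : ∀ T ∈ 𝒯, ∃ e1 e2 : ℕ, RelW X K D T (fun i => i - (J T).1) e1 e2 (ψ T) (n', S') ∧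
      ∀ i ∈ T, X.c i - X.c (i - (J T).1) + e1 = a := by
    intro T hT
    obtain ⟨h1, h2, h3⟩ := hBT T hT
    obtain ⟨e1, e2, h4, h5⟩ :=
      relW_of_rep (D := D) G C (by omega) (fun i hi => (h1 i hi).2) h3 (hJ T hT)
    refine ⟨e1, e2, ?_, h5⟩
    rw [← h2]
    exact h4
  have hmaps : ∀ T ∈ 𝒯, ψ T ∈ 𝓕 := by
    intro T hT
    obtain ⟨e1, e2, h4, h5⟩ := hrel T hT
    obtain ⟨h1, h2, h3⟩ := hBT T hT
    refine (h𝓕 _).mpr ⟨obj_of (f := fun i => i - (J T).1) (by omega) ?_ (hJ T hT),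
      _, _, _, _, h4⟩
    intro i hi
    refine parent_nonP G hK5 hLE h4 (by simp only [ψ]; omega) (by simp only; omega) hi ?_
    intro hc
    apply hP0 p0 hp0
    have e := h5 i hi
    simp only at hc
    rw [show X.c (i - (J T).1) - e1 = X.c i - a by omega] at hc
    exact PT_agr (h1 i hi).1 hc
  rw [← fiber_sum I0 g' S' hsub, ← Finset.sum_fiberwise_of_maps_to hmaps]
  refine Finset.sum_congr rfl fun o ho => ?_
  obtain ⟨hobj, T1, f, e1, e2, hR⟩ := (h𝓕 o).mp ho
  obtain ⟨T2, hT2, -, hB2⟩ := hobj.ex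
  have hB1 : Br X.U T1 f o.1 := Br.transfer (D := D) (by omega) (hT2.symm.trans hR.par) hB2
  have hw : ∀ p ∈ T1, Agr X.U X.U (X.c (f p) - e1) p0 n' := by
    intro p hp
    obtain ⟨q, hq, c1⟩ := img_ex (f' := fun p => p) (hR.chi.symm.trans hS') hp
    exact Agr.trans (c1.sub (by omega) (by simp only; omega) (by omega)) (hB0.com q hq p0 hp0)
  obtain ⟨j1, j2, l1, l2, hn, hj⟩ := parent_core C hR rfl hB1 hw
  have hpar : o.2 = T1.image (fun p => W X.U D (m + j1 + j2) (f p)) := hn ▸ hR.par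
  have hsub2 : o.2 ⊆ I0.image (g j1 j2) := by
    intro w hw'
    rw [hpar] at hw'
    obtain ⟨p, hp, rfl⟩ := Finset.mem_image.mp hw'
    obtain ⟨c1, c2⟩ := hj p hp
    obtain ⟨i', hi', c3⟩ := hI1 (f p + j1) ⟨c1 ▸ hw p hp, c2⟩
    refine Finset.mem_image.mpr ⟨i', hi', ?_⟩
    exact (W_eq_iff.mpr (c3.sub (by omega) (by omega) (by omega))).symm
  rw [← fiber_sum I0 (g j1 j2) o.2 hsub2]
  refine Finset.sum_congr ?_ fun _ _ => rfl
  ext T
  simp only [Finset.mem_filter]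
  constructor
  · rintro ⟨hT, hψ⟩
    refine ⟨(Finset.mem_filter.mp hT).1, ?_⟩
    obtain ⟨e1', e2', h4, h5⟩ := hrel T hT
    rw [hψ] at h4
    obtain ⟨rfl, -, -⟩ := h4.unique hD hR
    obtain ⟨i, hi, -⟩ := (hJ T hT).left
    obtain ⟨p, hp, c1⟩ := img_ex (h4.par.symm.trans hR.par) hi
    have c0 : m + (J T).1 + (J T).2 = o.1 := congrArg Prod.fst hψ
    have c2 := X.cut_at c1 (x := i) (y := f p + (J T).1) (by omega) (by omega) (by omega)
    have c3 := X.cut_at c1 (x := i - (J T).1) (y := f p) (by omega) (by omega) (by omega)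
    have c4 := h5 i hi
    have c5 := (hj p hp).1
    have c6 : f p + (J T).1 = f p + j1 := X.mono.injective (by omega)
    have c7 : (J T).1 = j1 := by omega
    have c8 : (J T).2 = j2 := by omega
    have c9 : T.image (g (J T).1 (J T).2) = o.2 := congrArg Prod.snd hψ
    rwa [c7, c8] at c9
  · rintro ⟨hT, hg⟩
    have hTT : T.image (fun i => W X.U D (m + j1 + j2) (i - j1))
        = T1.image (fun p => W X.U D (m + j1 + j2) (f p)) := hg.trans hpar
    have hBj : Br X.U T (fun i => i - j1) (m + j1 + j2 : ℕ) :=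
      Br.transfer (D := D) (by omega) hTT.symm (hn ▸ hB1)
    have key : ∀ i p, p ∈ T1 →
        Agr X.U X.U (f p - D) (i - j1 - D) ((m + j1 + j2 : ℕ) + 2 * D) →
        W X.U D n' (X.c (f p) - e1) = g' i := by
      intro i p hp c1
      have c2 := X.cut_at c1 (x := f p + j1) (y := i) (by omega) (by omega) (by omega)
      have c3 := X.cut_at c1 (x := f p) (y := i - j1) (by omega) (by omega) (by omega)
      have c5 := (hj p hp).1
      have c6 := child_eq X (n' := n') hD hR.l1 hR.l2 c1 (hn ▸ hR.len p hp)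
      rw [c6]
      simp only [g']
      congr 1
      omega
    have hT' : T ∈ 𝒯 := by
      refine Finset.mem_filter.mpr ⟨hT, ?_⟩
      have := hR.chi
      simp only at this
      rw [this]
      ext w
      simp only [Finset.mem_image]
      constructor
      · rintro ⟨i, hi, rfl⟩
        obtain ⟨p, hp, c1⟩ := img_ex (f := fun i => i - j1) hTT hi
        exact ⟨p, hp, key i p hp c1.symm⟩
      · rintro ⟨p, hp, rfl⟩
        obtain ⟨i, hi, c1⟩ := img_ex (f' := fun i => i - j1) hTT.symm hp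
        exact ⟨i, hi, (key i p hp c1).symm⟩
    refine ⟨hT', ?_⟩
    obtain ⟨c1, c2⟩ := br_unique hBj (hJ T hT')
    obtain ⟨c3, c4⟩ := br_unique (hJ T hT') hBj
    have c7 : (J T).1 = j1 := by omega
    have c8 : (J T).2 = j2 := by omega
    simp only [ψ, c7, c8]
    exact Prod.ext hn.symm hg

/-- The common word of a family. -/
noncomputable def mid (D : ℕ) (o : ℕ × Finset (List A)) : List A :=
  if h : o.2.Nonempty then (h.choose.drop D).take o.1 else []

theorem mid_eq {U : ℤ → A} {D : ℕ} {o : ℕ × Finset (List A)} {T : Finset ℤ} {f : ℤ → ℤ}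
    (h : o.2 = T.image (fun p => W U D o.1 (f p))) (hB : Br U T f o.1) {p : ℤ} (hp : p ∈ T) :
    mid D o = fac U (f p) o.1 := by
  have hne : o.2.Nonempty := h ▸ ⟨_, Finset.mem_image_of_mem _ hp⟩
  have h1 := hne.choose_spec
  rw [mid, dif_pos hne]
  generalize hne.choose = w at h1
  rw [h] at h1
  obtain ⟨q, hq, rfl⟩ := Finset.mem_image.mp h1
  rw [W, fac_drop_take _ _ _ _ _ (by omega), fac_eq_iff]
  exact (hB.com q hq p hp).sub (by omega) (by omega) (by omega)

theorem Obj.mid_len {X : Sys A} {Q K' D N1 : ℕ} {o : ℕ × Finset (List A)}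
    (h : Obj X Q K' D N1 o) : (mid D o).length = o.1 := by
  obtain ⟨T, h1, -, h3⟩ := h.ex
  obtain ⟨p, hp, -⟩ := h3.left
  rw [mid_eq (f := fun p => p) h1 h3 hp, fac_length]

theorem obj_sum {X : Sys A} {Q K' D N1 : ℕ}
    (hfin : ∀ n, (FamSet X.U (fun p l => ¬ PT X.U Q K' p l) D n).Finite) (n : ℕ) :
    {o | Obj X Q K' D N1 o ∧ o.1 < n}.Finite ∧
    ∑ᶠ o ∈ {o | Obj X Q K' D N1 o ∧ o.1 < n}, (-1 : ℤ) ^ (o.2.card + 1) =
      ∑ m ∈ Finset.range n, if N1 ≤ m then
        ∑ᶠ S ∈ FamSet X.U (fun p l => ¬ PT X.U Q K' p l) D m, (-1 : ℤ) ^ (S.card + 1) else 0 := by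
  induction n with
  | zero => simp
  | succ n ih =>
    by_cases hn : N1 ≤ n
    · have e : {o | Obj X Q K' D N1 o ∧ o.1 < n + 1} = {o | Obj X Q K' D N1 o ∧ o.1 < n} ∪
          (Prod.mk n) '' FamSet X.U (fun p l => ¬ PT X.U Q K' p l) D n := by
        ext ⟨l, S⟩
        simp only [Set.mem_setOf_eq, Set.mem_union, Set.mem_image, Prod.mk.injEq]
        constructor
        · rintro ⟨h1, h2⟩
          by_cases hl : l < n
          · exact Or.inl ⟨h1, hl⟩
          · obtain rfl : l = n := by omega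
            exact Or.inr ⟨S, h1.2, rfl, rfl⟩
        · rintro (⟨h1, h2⟩ | ⟨S', h1, rfl, rfl⟩)
          · exact ⟨h1, by omega⟩
          · exact ⟨⟨hn, h1⟩, by omega⟩
      rw [e]
      refine ⟨ih.1.union ((hfin n).image _), ?_⟩
      rw [finsum_mem_union _ ih.1 ((hfin n).image _), ih.2, Finset.sum_range_succ, if_pos hn,
        finsum_mem_image (fun _ _ _ _ h => (Prod.mk.inj h).2)]
      rw [Set.disjoint_left]
      rintro o ⟨-, h1⟩ ⟨S, -, rfl⟩
      exact absurd h1 (by simp)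
    · have e : {o | Obj X Q K' D N1 o ∧ o.1 < n + 1} = {o | Obj X Q K' D N1 o ∧ o.1 < n} := by
        ext o
        simp only [Set.mem_setOf_eq]
        constructor
        · rintro ⟨h1, h2⟩
          have := h1.1
          exact ⟨h1, by omega⟩
        · rintro ⟨h1, h2⟩
          exact ⟨h1, by omega⟩
      rw [e, ih.2, Finset.sum_range_succ, if_neg hn, add_zero]
      exact ⟨ih.1, rfl⟩

end Pool.Agent.H149Z.SU.Taper

namespace Pool.Agent.H149Z.SU

open Taper

theorem thm_aper (h1 : S_fam) (h2 : S_LE) (h3 : S_raysum) : S_aper := by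
  intro A _ X Q K G
  classical
  obtain ⟨K5, hK5⟩ := h2 A X Q K G
  refine ⟨K5 + 2 * K, fun K' hK' => ?_⟩
  obtain ⟨NL, hLE⟩ := hK5 (K + K * K')
  have hK2 := two_le_K G
  set D := K + 1 with hD
  set N1 := 2 * K' + K with hN1
  have hfam := fun n => h1 A X.U (fun p l => ¬ PT X.U Q K' p l) D n (by omega)
  have hex : ∀ o : ℕ × Finset (List A), ∃ o', Obj X Q K' D N1 o →
      ∃ (T : Finset ℤ) (e1 e2 : ℕ), RelW X K D T (fun p => p) e1 e2 o o' ∧ Obj X Q K' D N1 o' := by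
    intro o
    by_cases ho : Obj X Q K' D N1 o
    · obtain ⟨T, e1, e2, o', h⟩ := exists_child G (by omega) (by omega) ho
      exact ⟨o', fun _ => ⟨T, e1, e2, h⟩⟩
    · exact ⟨o, fun h => absurd h ho⟩
  choose F hF using hex
  have hset : ∀ n, {o | Obj X Q K' D N1 o ∧ (mid D o).length < n}
      = {o | Obj X Q K' D N1 o ∧ o.1 < n} := by
    intro n
    ext o
    simp only [Set.mem_setOf_eq]
    exact and_congr_right fun h => by rw [h.mid_len]
  have hos := obj_sum (N1 := N1) (fun n => (hfam n).1)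
  have hstep : ∀ o, Obj X Q K' D N1 o → mid D o ≠ [] ∧ Obj X Q K' D N1 (F o) ∧
      ∃ s t : List A, s.length ≤ K ∧ t.length ≤ K ∧
        mid D (F o) = s ++ (mid D o).flatMap X.σ ++ t := by
    intro o ho
    obtain ⟨T, e1, e2, hR, hO⟩ := hF o ho
    obtain ⟨T2, hT2, -, hB2⟩ := ho.ex
    have hB1 : Br X.U T (fun p => p) o.1 :=
      Br.transfer (D := D) (by omega) (hT2.symm.trans hR.par) hB2
    refine ⟨?_, hO, ?_⟩
    · intro e
      have := ho.mid_len
      have := ho.1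
      rw [e] at *
      simp only [List.length_nil] at *
      omega
    · obtain ⟨p, hp, -⟩ := hB1.left
      have c1 := hR.len p hp
      have c2 := X.lb (show p ≤ p + o.1 by omega)
      refine ⟨fac X.U (X.c p - e1) e1, fac X.U (X.c (p + o.1)) e2, by simpa using hR.l1,
        by simpa using hR.l2, ?_⟩
      rw [mid_eq hR.chi hR.br hp, mid_eq hR.par hB1 hp, X.parse.flatMap_fac,
        show (F o).1 = e1 + (X.c (p + o.1) - X.c p).toNat + e2 by omega, fac_add, fac_add]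
      congr 2
      · congr 1; omega
      · omega
  have hmain := h3 A X.σ X.two (ℕ × Finset (List A)) (Obj X Q K' D N1) (mid D) F
    (fun o => (-1 : ℤ) ^ (o.2.card + 1)) K (NL + K * N1 + 4 * K)
    (fun n => by rw [hset]; exact (hos n).1) hstep (by
      intro o' ho' hlong
      rw [ho'.mid_len] at hlong
      have hfin : {o | Obj X Q K' D N1 o ∧ F o = o'}.Finite := by
        refine (hos o'.1).1.subset ?_
        rintro o ⟨ho, rfl⟩
        refine ⟨ho, ?_⟩
        obtain ⟨T, e1, e2, hR, -⟩ := hF o ho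
        obtain ⟨p, hp, -⟩ := hR.br.left
        have c1 := hR.len p hp
        have c2 := X.lb (show p ≤ p + o.1 by omega)
        have := ho.1
        omega
      rw [finsum_mem_eq_finite_toFinset_sum _ hfin]
      have := push G (le_refl D) (by omega) (by omega) (le_refl N1) hLE hfin.toFinset
        (o' := o') (by
          intro o
          simp only [Set.Finite.mem_toFinset, Set.mem_setOf_eq]
          refine and_congr_right fun ho => ?_
          obtain ⟨T, e1, e2, hR, -⟩ := hF o ho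
          constructor
          · rintro rfl
            exact ⟨_, _, _, _, hR⟩
          · rintro ⟨T', f', e1', e2', hR'⟩
            exact (hR.unique (le_refl D) hR').2.2) ho' hlong
      simp only [pow_succ]
      rw [this, Finset.sum_mul])
  refine hmain.of_bdd
    ((∑ m ∈ Finset.range N1, |B2 X.U (fun p l => ¬ PT X.U Q K' p l) m| : ℤ) : ℝ) fun n => ?_
  rw [hset, (hos n).2, ← Int.cast_sub, ← Int.cast_abs, Int.cast_le, ← Finset.sum_sub_distrib]
  refine (Finset.abs_sum_le_sum_abs _ _).trans ?_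
  have e : ∀ m ∈ Finset.range n, |B2 X.U (fun p l => ¬ PT X.U Q K' p l) m - (if N1 ≤ m then
      ∑ᶠ S ∈ FamSet X.U (fun p l => ¬ PT X.U Q K' p l) D m, (-1 : ℤ) ^ (S.card + 1) else 0)|
      = if m < N1 then |B2 X.U (fun p l => ¬ PT X.U Q K' p l) m| else 0 := by
    intro m _
    by_cases hm : N1 ≤ m
    · rw [if_pos hm, if_neg (by omega), ← (hfam m).2]
      simp
    · rw [if_neg hm, if_pos (by omega)]
      simp
  rw [Finset.sum_congr rfl e, ← Finset.sum_filter]
  exact Finset.sum_le_sum_of_subset_of_nonneg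
    (fun m hm => by simpa using (Finset.mem_filter.mp hm).2) (fun _ _ _ => abs_nonneg _)

theorem thm_main (h1 : S_good) (h2 : S_run) (h3 : S_tel) (h4 : S_split) (h5 : S_aper) :
    S_main := by
  intro A _ X
  obtain ⟨Q, K, G⟩ := h1 A X
  obtain ⟨D0, N0, hrun⟩ := h2 A X Q K G
  obtain ⟨K0, hap⟩ := h5 A X Q K G
  obtain ⟨C, hC⟩ := h3 A X.U Q (K0 + D0) N0 G.Qpos
  have a1 := hrun (K0 + D0 + 1) (by omega) N0 le_rfl
  have a2 := hap (K0 + D0) (by omega)
  have a3 := h4 A X.U (PT X.U Q (K0 + D0)) (fun p q n h hp => PT_agr h hp)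
  have a4 : ∀ n : ℕ, (pc X.U (n + 1) : ℤ) - pc X.U n = ((pc X.U 1 : ℤ) - pc X.U 0) +
      (∑ m ∈ Finset.range n, B2 X.U (PT X.U Q (K0 + D0)) m) +
      ∑ m ∈ Finset.range n, B2 X.U (fun p l => ¬ PT X.U Q (K0 + D0) p l) m := by
    intro n
    induction n with
    | zero => simp
    | succ n ih =>
      rw [Finset.sum_range_succ, Finset.sum_range_succ]
      have := a3 n
      rw [show n + 1 + 1 = n + 2 by ring]
      omega
  refine (a1.add a2).of_bdd ((|(pc X.U 1 : ℤ) - pc X.U 0| + C : ℤ) : ℝ) fun n => ?_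
  have b1 := a4 n
  have b2 := abs_le.mp (hC n)
  have b3 := le_abs_self ((pc X.U 1 : ℤ) - pc X.U 0)
  have b4 := neg_abs_le ((pc X.U 1 : ℤ) - pc X.U 0)
  have : |((pc X.U (n + 1) : ℤ) - pc X.U n) -
      ((Set.ncard {ω | ω ∈ RunSet X.U Q (K0 + D0 + 1) N0 ∧ ω.length < n + 2 * (K0 + D0 + 1)} : ℤ)
        + ∑ m ∈ Finset.range n, B2 X.U (fun p l => ¬ PT X.U Q (K0 + D0) p l) m)|
      ≤ |(pc X.U 1 : ℤ) - pc X.U 0| + C := by
    rw [abs_le]
    constructor <;> omega
  exact_mod_cast this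

end Pool.Agent.H149Z.SU
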