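import Pool.Agent.H149Z.SU.Basic

/-! Families of occurrences and the child relation. -/

set_option autoImplicit false

namespace Pool.Agent.H149Z.SU.Taper

open Pool.Agent.H149Z.SU

theorem fiber_sum' {ι Y : Type} [DecidableEq ι] [DecidableEq Y] (I : Finset ι) (g : ι → Y) :
    ∀ S : Finset Y, (∑ T ∈ I.powerset, if T.image g = S then (-1 : ℤ) ^ T.card else 0)
      = if S ⊆ I.image g then (-1 : ℤ) ^ S.card else 0 := by
  induction I using Finset.induction_on with
  | empty =>
    intro S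
    by_cases h : S = ∅
    · subst h; simp
    · have h' : ¬ (∅ = S) := fun e => h e.symm
      simp [h, h']
  | insert a I ha ih =>
    intro S
    rw [Finset.sum_powerset_insert ha, ih S]
    have e1 : ∀ T ∈ I.powerset, (if (insert a T).image g = S then (-1 : ℤ) ^ (insert a T).card else 0)
        = -(if insert (g a) (T.image g) = S then (-1 : ℤ) ^ T.card else 0) := by
      intro T hT
      have : a ∉ T := fun h => ha (Finset.mem_powerset.mp hT h)
      rw [Finset.image_insert, Finset.card_insert_of_notMem this]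
      split_ifs
      · ring
      · simp
    rw [Finset.sum_congr rfl e1, Finset.sum_neg_distrib, Finset.image_insert]
    by_cases hS : g a ∈ S
    · have e2 : ∀ T ∈ I.powerset, (if insert (g a) (T.image g) = S then (-1 : ℤ) ^ T.card else 0)
          = (if T.image g = S then (-1 : ℤ) ^ T.card else 0)
            + (if T.image g = S.erase (g a) then (-1 : ℤ) ^ T.card else 0) := by
        intro T _
        have hne : S ≠ S.erase (g a) := fun e => by
          have : g a ∈ S.erase (g a) := e ▸ hS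
          simp at this
        by_cases h1 : T.image g = S
        · have h2 : ¬ T.image g = S.erase (g a) := fun e => hne (h1.symm.trans e)
          rw [if_pos h1, if_neg h2, if_pos (by rw [h1]; exact Finset.insert_eq_of_mem hS)]
          simp
        · by_cases h2 : T.image g = S.erase (g a)
          · rw [if_neg h1, if_pos h2, if_pos (by rw [h2]; exact Finset.insert_erase hS)]
            simp
          · rw [if_neg h1, if_neg h2, if_neg]
            · simp
            · intro e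
              by_cases h3 : g a ∈ T.image g
              · exact h1 (by rw [← e, Finset.insert_eq_of_mem h3])
              · exact h2 (by rw [← e, Finset.erase_insert h3])
      rw [Finset.sum_congr rfl e2, Finset.sum_add_distrib, ih S, ih (S.erase (g a))]
      have e3 : S ⊆ insert (g a) (I.image g) ↔ S.erase (g a) ⊆ I.image g :=
        Finset.subset_insert_iff
      by_cases h4 : S.erase (g a) ⊆ I.image g
      · rw [if_pos h4, if_pos (e3.mpr h4), ← Finset.card_erase_add_one hS, pow_succ]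
        ring
      · rw [if_neg h4, if_neg (fun h => h4 (e3.mp h))]
        ring
    · have e2 : ∀ T ∈ I.powerset, (if insert (g a) (T.image g) = S then (-1 : ℤ) ^ T.card else 0)
          = 0 := by
        intro T _
        rw [if_neg]
        intro e
        exact hS (e ▸ Finset.mem_insert_self _ _)
      rw [Finset.sum_congr rfl e2]
      simp only [Finset.sum_const_zero, neg_zero, add_zero]
      simp only [Finset.subset_insert_iff_of_notMem hS]

theorem fiber_sum {ι Y : Type} [DecidableEq ι] [DecidableEq Y] (I : Finset ι) (g : ι → Y)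
    (S : Finset Y) (hS : S ⊆ I.image g) :
    ∑ T ∈ I.powerset.filter (fun T => T.image g = S), (-1 : ℤ) ^ T.card = (-1) ^ S.card := by
  rw [Finset.sum_filter, fiber_sum', if_pos hS]

theorem exists_fork (R : ℕ → Prop) (K : ℕ) (h0 : R 0) (hK : ¬ R K) :
    ∃ e, e < K ∧ R e ∧ ¬ R (e + 1) := by
  induction K with
  | zero => exact absurd h0 hK
  | succ K ih =>
    by_cases h : R K
    · exact ⟨K, by omega, h, hK⟩
    · obtain ⟨e, h1, h2⟩ := ih h
      exact ⟨e, by omega, h2⟩

variable {A : Type}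

/-- The word of length `n` at `x`, read with `D` letters of context. -/
def W (U : ℤ → A) (D n : ℕ) (x : ℤ) : List A := fac U (x - D) (n + 2 * D)

theorem W_eq_iff {U : ℤ → A} {D n : ℕ} {x y : ℤ} :
    W U D n x = W U D n y ↔ Agr U U (x - D) (y - D) (n + 2 * D) := by
  rw [W, W, fac_eq_iff]
  push_cast
  rfl

/-- The occurrences `f p`, `p ∈ T`, carry one word of length `n` and branch on both sides. -/
structure Br (U : ℤ → A) (T : Finset ℤ) (f : ℤ → ℤ) (n : ℤ) : Prop where
  com : ∀ p ∈ T, ∀ q ∈ T, Agr U U (f p) (f q) n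
  left : ∃ p ∈ T, ∃ q ∈ T, U (f p - 1) ≠ U (f q - 1)
  right : ∃ p ∈ T, ∃ q ∈ T, U (f p + n) ≠ U (f q + n)

theorem left_fork {U : ℤ → A} {T : Finset ℤ} {f : ℤ → ℤ} {e : ℕ}
    (h1 : ∀ p ∈ T, ∀ q ∈ T, Agr U U (f p - e) (f q - e) e)
    (h2 : ¬ ∀ p ∈ T, ∀ q ∈ T, Agr U U (f p - (e + 1 : ℕ)) (f q - (e + 1 : ℕ)) (e + 1 : ℕ)) :
    ∃ p ∈ T, ∃ q ∈ T, U (f p - e - 1) ≠ U (f q - e - 1) := by
  by_contra hc
  push Not at hc
  apply h2
  intro p hp q hq t h0 ht
  push_cast at ht ⊢
  by_cases h : t = 0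
  · subst h
    have := hc p hp q hq
    convert this using 2 <;> ring
  · exact (h1 p hp q hq).at (by omega) (by omega) (by omega)

theorem right_fork {U : ℤ → A} {T : Finset ℤ} {f : ℤ → ℤ} {e : ℕ}
    (h1 : ∀ p ∈ T, ∀ q ∈ T, Agr U U (f p) (f q) e)
    (h2 : ¬ ∀ p ∈ T, ∀ q ∈ T, Agr U U (f p) (f q) (e + 1 : ℕ)) :
    ∃ p ∈ T, ∃ q ∈ T, U (f p + e) ≠ U (f q + e) := by
  by_contra hc
  push Not at hc
  apply h2
  intro p hp q hq t h0 ht
  push_cast at ht
  by_cases h : t = e
  · subst h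
    exact hc p hp q hq
  · exact (h1 p hp q hq) t h0 (by omega)

theorem agr_glue3 {U : ℤ → A} {p q a b c : ℤ} (h1 : Agr U U (p - a) (q - a) a)
    (h2 : Agr U U p q b) (h3 : Agr U U (p + b) (q + b) c) :
    Agr U U (p - a) (q - a) (a + b + c) := by
  intro t h0 ht
  by_cases x : t < a
  · exact h1 t h0 x
  · by_cases y : t < a + b
    · exact h2.at (by omega) (by omega) (by omega)
    · exact h3.at (by omega) (by omega) (by omega)

variable [DecidableEq A]

theorem img_ex {U : ℤ → A} {D n : ℕ} {T T' : Finset ℤ} {f f' : ℤ → ℤ}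
    (h : T.image (fun p => W U D n (f p)) = T'.image (fun p => W U D n (f' p))) {p : ℤ}
    (hp : p ∈ T) : ∃ q ∈ T', Agr U U (f p - D) (f' q - D) (n + 2 * D) := by
  have : W U D n (f p) ∈ T'.image (fun p => W U D n (f' p)) := h ▸ Finset.mem_image_of_mem _ hp
  obtain ⟨q, hq, e⟩ := Finset.mem_image.mp this
  exact ⟨q, hq, W_eq_iff.mp e.symm⟩

theorem Br.transfer {U : ℤ → A} {D n : ℕ} {T T' : Finset ℤ} {f f' : ℤ → ℤ} (hD : 1 ≤ D)
    (h : T.image (fun p => W U D n (f p)) = T'.image (fun p => W U D n (f' p)))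
    (hB : Br U T f n) : Br U T' f' n := by
  refine ⟨?_, ?_, ?_⟩
  · intro p hp q hq
    obtain ⟨p1, hp1, a1⟩ := img_ex h.symm hp
    obtain ⟨q1, hq1, a2⟩ := img_ex h.symm hq
    have b1 : Agr U U (f' p) (f p1) n := a1.sub (by omega) (by omega) (by omega)
    have b2 : Agr U U (f' q) (f q1) n := a2.sub (by omega) (by omega) (by omega)
    exact (b1.trans (hB.com p1 hp1 q1 hq1)).trans b2.symm
  · obtain ⟨p, hp, q, hq, hne⟩ := hB.left
    obtain ⟨p1, hp1, a1⟩ := img_ex h hp
    obtain ⟨q1, hq1, a2⟩ := img_ex h hq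
    refine ⟨p1, hp1, q1, hq1, ?_⟩
    rw [← a1.at (x := f p - 1) (y := f' p1 - 1) (by omega) (by omega) (by omega),
      ← a2.at (x := f q - 1) (y := f' q1 - 1) (by omega) (by omega) (by omega)]
    exact hne
  · obtain ⟨p, hp, q, hq, hne⟩ := hB.right
    obtain ⟨p1, hp1, a1⟩ := img_ex h hp
    obtain ⟨q1, hq1, a2⟩ := img_ex h hq
    refine ⟨p1, hp1, q1, hq1, ?_⟩
    rw [← a1.at (x := f p + n) (y := f' p1 + n) (by omega) (by omega) (by omega),
      ← a2.at (x := f q + n) (y := f' q1 + n) (by omega) (by omega) (by omega)]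
    exact hne

omit [DecidableEq A] in
/-- Agreement with `D` letters of context gives agreement of the images with `2 D` letters. -/
theorem img_agr (X : Sys A) {x y n D : ℤ} (hD : 0 ≤ D) (hn : 0 ≤ n)
    (h : Agr X.U X.U (x - D) (y - D) (n + 2 * D)) :
    X.c (x + n) - X.c x = X.c (y + n) - X.c y ∧
    Agr X.U X.U (X.c x - 2 * D) (X.c y - 2 * D) (X.c (x + n) - X.c x + 4 * D) := by
  have h1 := X.cut_at h (x := x) (y := y) (by omega) (by omega) (by omega)
  have h2 := X.cut_at h (x := x + n) (y := y + n) (by omega) (by omega) (by omega)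
  have h3 := X.agr h
  have h4 := X.lb (show x - D ≤ x by omega)
  have h5 := X.lb (show x + n ≤ x - D + (n + 2 * D) by omega)
  exact ⟨by omega, h3.sub (by omega) (by omega) (by omega)⟩

/-- The child relation with its witnesses. -/
structure RelW (X : Sys A) (K D : ℕ) (T : Finset ℤ) (f : ℤ → ℤ) (e1 e2 : ℕ)
    (o o' : ℕ × Finset (List A)) : Prop where
  l1 : e1 ≤ K
  l2 : e2 ≤ K
  par : o.2 = T.image (fun p => W X.U D o.1 (f p))
  chi : o'.2 = T.image (fun p => W X.U D o'.1 (X.c (f p) - e1))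
  len : ∀ p ∈ T, X.c (f p + o.1) - X.c (f p) + e1 + e2 = o'.1
  br : Br X.U T (fun p => X.c (f p) - e1) o'.1

theorem RelW.le {X : Sys A} {K D : ℕ} (hD : K + 1 ≤ D) {T T' : Finset ℤ} {f f' : ℤ → ℤ}
    {e1 e2 e1' e2' : ℕ} {o o1 o2 : ℕ × Finset (List A)}
    (h : RelW X K D T f e1 e2 o o1) (h' : RelW X K D T' f' e1' e2' o o2) :
    e1' ≤ e1 ∧ e2' ≤ e2 := by
  have hT := h.par.symm.trans h'.par
  have l1 := h.l1
  have l2 := h.l2
  constructor
  · by_contra hc
    obtain ⟨p, hp, q, hq, hne⟩ := h.br.left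
    obtain ⟨p1, hp1, a1⟩ := img_ex hT hp
    obtain ⟨q1, hq1, a2⟩ := img_ex hT hq
    obtain ⟨b1, c1⟩ := img_agr X (by omega) (by omega) a1
    obtain ⟨b2, c2⟩ := img_agr X (by omega) (by omega) a2
    have m1 := X.lb (show f p ≤ f p + o.1 by omega)
    have m2 := X.lb (show f q ≤ f q + o.1 by omega)
    have m3 := h'.len p1 hp1
    apply hne
    rw [c1.at (x := X.c (f p) - e1 - 1) (y := X.c (f' p1) - e1 - 1) (by omega) (by omega) (by omega),
      c2.at (x := X.c (f q) - e1 - 1) (y := X.c (f' q1) - e1 - 1) (by omega) (by omega) (by omega)]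
    exact (h'.br.com p1 hp1 q1 hq1).at (by omega) (by omega)
      (by omega)
  · by_contra hc
    obtain ⟨p, hp, q, hq, hne⟩ := h.br.right
    obtain ⟨p1, hp1, a1⟩ := img_ex hT hp
    obtain ⟨q1, hq1, a2⟩ := img_ex hT hq
    obtain ⟨b1, c1⟩ := img_agr X (by omega) (by omega) a1
    obtain ⟨b2, c2⟩ := img_agr X (by omega) (by omega) a2
    have m1 := X.lb (show f p ≤ f p + o.1 by omega)
    have m2 := X.lb (show f q ≤ f q + o.1 by omega)
    have m3 := h'.len p1 hp1
    have m4 := h'.len q1 hq1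
    have m5 := h.len p hp
    have m6 := h.len q hq
    apply hne
    rw [c1.at (x := X.c (f p) - e1 + o1.1) (y := X.c (f' p1) - e1 + o1.1) (by omega) (by omega)
        (by omega),
      c2.at (x := X.c (f q) - e1 + o1.1) (y := X.c (f' q1) - e1 + o1.1) (by omega) (by omega)
        (by omega)]
    exact (h'.br.com p1 hp1 q1 hq1).at (by omega) (by omega)
      (by omega)

omit [DecidableEq A] in
theorem child_eq (X : Sys A) {K D n n' e1 e2 : ℕ} (hD : K + 1 ≤ D) (l1 : e1 ≤ K) (l2 : e2 ≤ K)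
    {x y : ℤ} (h : Agr X.U X.U (x - D) (y - D) (n + 2 * D))
    (hl : X.c (x + n) - X.c x + e1 + e2 = n') :
    W X.U D n' (X.c x - e1) = W X.U D n' (X.c y - e1) := by
  obtain ⟨b1, c1⟩ := img_agr X (by omega) (by omega) h
  exact W_eq_iff.mpr (c1.sub (by omega) (by omega) (by omega))

theorem RelW.unique {X : Sys A} {K D : ℕ} (hD : K + 1 ≤ D) {T T' : Finset ℤ} {f f' : ℤ → ℤ}
    {e1 e2 e1' e2' : ℕ} {o o1 o2 : ℕ × Finset (List A)}
    (h : RelW X K D T f e1 e2 o o1) (h' : RelW X K D T' f' e1' e2' o o2) :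
    e1 = e1' ∧ e2 = e2' ∧ o1 = o2 := by
  obtain ⟨a1, a2⟩ := h.le hD h'
  obtain ⟨b1, b2⟩ := h'.le hD h
  obtain rfl : e1 = e1' := by omega
  obtain rfl : e2 = e2' := by omega
  refine ⟨rfl, rfl, ?_⟩
  have hT := h.par.symm.trans h'.par
  have hn : o1.1 = o2.1 := by
    obtain ⟨p, hp, -⟩ := h.br.left
    obtain ⟨p1, hp1, c1⟩ := img_ex hT hp
    obtain ⟨d1, -⟩ := img_agr X (by omega) (by omega) c1
    have m3 := h'.len p1 hp1
    have m5 := h.len p hp
    omega
  refine Prod.ext hn ?_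
  rw [h.chi, h'.chi, ← hn]
  ext w
  simp only [Finset.mem_image]
  constructor
  · rintro ⟨p, hp, rfl⟩
    obtain ⟨p1, hp1, c1⟩ := img_ex hT hp
    exact ⟨p1, hp1, (child_eq X hD h.l1 h.l2 c1 (h.len p hp)).symm⟩
  · rintro ⟨p, hp, rfl⟩
    obtain ⟨p1, hp1, c1⟩ := img_ex hT.symm hp
    exact ⟨p1, hp1, (child_eq X hD h.l1 h.l2 c1 (hn ▸ h'.len p hp)).symm⟩

/-- The objects: long branching families whose word has non-periodic interior. -/
def Obj (X : Sys A) (Q K' D N1 : ℕ) (o : ℕ × Finset (List A)) : Prop :=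
  N1 ≤ o.1 ∧ o.2 ∈ FamSet X.U (fun p l => ¬ PT X.U Q K' p l) D o.1

omit [DecidableEq A] in
theorem PT_agr {U : ℤ → A} {Q K' n : ℕ} {p q : ℤ} (h : Agr U U p q n) (hp : PT U Q K' p n) :
    PT U Q K' q n := by
  have := Per.agr hp (by omega) h (by omega) (by omega)
  exact this.mono (by omega) (by omega)

theorem obj_of {X : Sys A} {Q K' D N1 n : ℕ} {T : Finset ℤ} {f : ℤ → ℤ} (hn : N1 ≤ n)
    (hP : ∀ p ∈ T, ¬ PT X.U Q K' (f p) n) (hB : Br X.U T f n) :
    Obj X Q K' D N1 (n, T.image (fun p => W X.U D n (f p))) := by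
  refine ⟨hn, T.image f, ?_, ?_, ?_, ?_, ?_⟩
  · rw [Finset.image_image]; rfl
  · intro p hp
    obtain ⟨q, hq, rfl⟩ := Finset.mem_image.mp hp
    exact hP q hq
  · intro p hp q hq
    obtain ⟨p1, hp1, rfl⟩ := Finset.mem_image.mp hp
    obtain ⟨q1, hq1, rfl⟩ := Finset.mem_image.mp hq
    exact hB.com p1 hp1 q1 hq1
  · obtain ⟨p, hp, q, hq, h⟩ := hB.left
    exact ⟨f p, Finset.mem_image_of_mem _ hp, f q, Finset.mem_image_of_mem _ hq, h⟩
  · obtain ⟨p, hp, q, hq, h⟩ := hB.right
    exact ⟨f p, Finset.mem_image_of_mem _ hp, f q, Finset.mem_image_of_mem _ hq, h⟩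

theorem Obj.ex {X : Sys A} {Q K' D N1 : ℕ} {o : ℕ × Finset (List A)} (h : Obj X Q K' D N1 o) :
    ∃ T : Finset ℤ, o.2 = T.image (fun p => W X.U D o.1 p) ∧ (∀ p ∈ T, ¬ PT X.U Q K' p o.1) ∧
      Br X.U T (fun p => p) o.1 := by
  obtain ⟨-, T, h1, h2, h3, h4, h5⟩ := h
  exact ⟨T, h1, h2, h3, h4, h5⟩

/-- Every object has a child, which is an object. -/
theorem exists_child {X : Sys A} {Q K K' D N1 : ℕ} (G : Good X Q K) (hK : 2 * K ≤ K')
    (hN : K ≤ N1) {o : ℕ × Finset (List A)} (h : Obj X Q K' D N1 o) :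
    ∃ (T : Finset ℤ) (e1 e2 : ℕ) (o' : ℕ × Finset (List A)),
      RelW X K D T (fun p => p) e1 e2 o o' ∧ Obj X Q K' D N1 o' := by
  obtain ⟨T, h1, h2, h3⟩ := h.ex
  have hn : N1 ≤ o.1 := h.1
  obtain ⟨e1, a1, a2, a3⟩ := exists_fork
    (fun e : ℕ => ∀ p ∈ T, ∀ q ∈ T, Agr X.U X.U (X.c p - e) (X.c q - e) e) K
    (fun p _ q _ t x y => by omega) (by
      intro hc
      obtain ⟨p, hp, q, hq, hne⟩ := h3.left
      exact G.delayL p q ((h3.com p hp q hq).sub (by omega) (by omega) (by omega)) hne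
        (hc p hp q hq))
  obtain ⟨e2, b1, b2, b3⟩ := exists_fork
    (fun e : ℕ => ∀ p ∈ T, ∀ q ∈ T, Agr X.U X.U (X.c (p + o.1)) (X.c (q + o.1)) e) K
    (fun p _ q _ t x y => by omega) (by
      intro hc
      obtain ⟨p, hp, q, hq, hne⟩ := h3.right
      exact G.delayR (p + o.1) (q + o.1)
        ((h3.com p hp q hq).sub (by omega) (by omega) (by omega))
        hne (hc p hp q hq))
  obtain ⟨p0, hp0, -⟩ := h3.left
  have m0 := X.lb (show p0 ≤ p0 + o.1 by omega)
  obtain ⟨n', hn'⟩ := Int.eq_ofNat_of_zero_le (show 0 ≤ X.c (p0 + o.1) - X.c p0 + e1 + e2 by omega)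
  have hl : ∀ p ∈ T, X.c (p + o.1) - X.c p + e1 + e2 = n' := by
    intro p hp
    have := X.cut_at (h3.com p hp p0 hp0) (x := p + o.1) (y := p0 + o.1) (by omega)
      (by omega) (by omega)
    omega
  have hB : Br X.U T (fun p => X.c p - e1) n' := by
    refine ⟨?_, left_fork (f := X.c) a2 a3, ?_⟩
    · intro p hp q hq
      have c1 := X.agr (h3.com p hp q hq)
      have c2 := hl p hp
      have c3 := hl q hq
      have c4 := b2 p hp q hq
      have := agr_glue3 (a2 p hp q hq) c1 (c := e2) (by convert c4 using 1 <;> omega)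
      exact this.sub (by omega) (by omega) (by omega)
    · obtain ⟨p, hp, q, hq, hne⟩ := right_fork (f := fun p => X.c (p + o.1)) b2 b3
      refine ⟨p, hp, q, hq, ?_⟩
      have c2 := hl p hp
      have c3 := hl q hq
      rwa [show X.c p - e1 + n' = X.c (p + o.1) + e2 by omega,
        show X.c q - e1 + n' = X.c (q + o.1) + e2 by omega]
  refine ⟨T, e1, e2, (n', T.image (fun p => W X.U D n' (X.c p - e1))),
    ⟨by omega, by omega, h1, rfl, hl, hB⟩, obj_of (f := fun p => X.c p - e1) (by omega) ?_ hB⟩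
  intro p hp hc
  apply h2 p hp
  have c2 := hl p hp
  have c5 := X.lb (show p ≤ p + (K' - K) by omega)
  have c6 := X.lb (show p + (K' - K) + (o.1 - 2 * (K' - K)) ≤ p + o.1 by omega)
  have := G.per_pre (p + (K' - K)) (o.1 - 2 * (K' - K)) (Per.mono hc (by omega) (by omega))
  exact this.mono (by omega) (by omega)

end Pool.Agent.H149Z.SU.Taper
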