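import Pool.Agent.H149Z.SU.TaperA

/-! The signed count of branching families is invariant under the child map. -/

set_option autoImplicit false

namespace Pool.Agent.H149Z.SU.Taper

open Pool.Agent.H149Z.SU

variable {A : Type}

theorem two_le_K {X : Sys A} {Q K : ℕ} (G : Good X Q K) : 2 ≤ K :=
  (X.two (X.U 0)).trans (G.len_le _)

/-- A preimage word common to all occurrences of the word at `p0`. -/
structure Core (X : Sys A) (K : ℕ) (p0 : ℤ) (n' : ℕ) (i0 : ℤ) (m a b : ℕ) : Prop where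
  a1 : K ≤ a
  a2 : a < 2 * K
  b1 : K ≤ b
  b2 : b < 2 * K
  ea : X.c i0 = p0 + a
  eb : X.c (i0 + m) + b = p0 + n'
  all : ∀ p', Agr X.U X.U p' p0 n' → ∃ i, X.c i - a = p' ∧ Agr X.U X.U i i0 m

theorem exists_core {X : Sys A} {Q K K' : ℕ} (G : Good X Q K) (hK : K ≤ K') {p0 : ℤ} {n' : ℕ}
    (hn : 4 * K ≤ n') (hP : ¬ PT X.U Q K' p0 n') : ∃ i0 m a b, Core X K p0 n' i0 m a b := by
  obtain ⟨l, h1, h2⟩ := X.idx (p0 + K - 1)
  obtain ⟨i1, h3, h4⟩ := X.idx (p0 + n' - K)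
  have u1 := G.ub (show l ≤ l + 1 by omega)
  have u2 := G.ub (show i1 ≤ i1 + 1 by omega)
  rw [show l + 1 - l = 1 by ring, mul_one] at u1
  rw [show i1 + 1 - i1 = 1 by ring, mul_one] at u2
  have h5 : l + 1 < i1 + 1 := X.mono.lt_iff_lt.mp (by omega)
  obtain ⟨m, hm⟩ := Int.eq_ofNat_of_zero_le (show 0 ≤ i1 - (l + 1) by omega)
  obtain ⟨a, ha⟩ := Int.eq_ofNat_of_zero_le (show 0 ≤ X.c (l + 1) - p0 by omega)
  obtain ⟨b, hb⟩ := Int.eq_ofNat_of_zero_le (show 0 ≤ p0 + n' - X.c i1 by omega)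
  have e : l + 1 + m = i1 := by omega
  refine ⟨l + 1, m, a, b, by omega, by omega, by omega, by omega, by omega, by rw [e]; omega, ?_⟩
  intro p' hp'
  rcases G.sync p0 p' n' hp'.symm with ⟨i, j, m', c0, c1, c2, c3, c4, c5, c6⟩ | hper
  · have d1 : i ≤ l + 1 := X.mono.le_iff_le.mp (by omega)
    have d2 : i1 ≤ i + m' := X.mono.le_iff_le.mp (by omega)
    have d3 := X.cut_at c6 (x := l + 1) (y := j + (l + 1 - i)) d1 (by omega) (by omega)
    exact ⟨j + (l + 1 - i), by omega, c6.symm.sub (by omega) (by omega) (by omega)⟩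
  · exact absurd (hper.mono (by omega) (by omega)) hP

theorem Core.len {X : Sys A} {K : ℕ} {p0 : ℤ} {n' : ℕ} {i0 : ℤ} {m a b : ℕ}
    (C : Core X K p0 n' i0 m a b) {i : ℤ} (hi : Agr X.U X.U i i0 m) :
    X.c (i + m) - X.c i + a + b = n' := by
  have := X.cut_at hi (x := i + m) (y := i0 + m) (by omega) (by omega) (by omega)
  have := C.ea
  have := C.eb
  omega

theorem Br.congr {U : ℤ → A} {T : Finset ℤ} {f f' : ℤ → ℤ} {n : ℤ} (h : Br U T f n)
    (e : ∀ p ∈ T, f' p = f p) : Br U T f' n := by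
  refine ⟨fun p hp q hq => ?_, ?_, ?_⟩
  · rw [e p hp, e q hq]; exact h.com p hp q hq
  · obtain ⟨p, hp, q, hq, hne⟩ := h.left
    exact ⟨p, hp, q, hq, by rwa [e p hp, e q hq]⟩
  · obtain ⟨p, hp, q, hq, hne⟩ := h.right
    exact ⟨p, hp, q, hq, by rwa [e p hp, e q hq]⟩

theorem br_unique {U : ℤ → A} {T : Finset ℤ} {m j1 j2 j1' j2' : ℕ}
    (h : Br U T (fun i => i - j1) (m + j1 + j2 : ℕ))
    (h' : Br U T (fun i => i - j1') (m + j1' + j2' : ℕ)) : j1' ≤ j1 ∧ j2' ≤ j2 := by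
  constructor
  · by_contra hc
    obtain ⟨p, hp, q, hq, hne⟩ := h.left
    exact hne ((h'.com p hp q hq).at (by omega) (by omega) (by omega))
  · by_contra hc
    obtain ⟨p, hp, q, hq, hne⟩ := h.right
    exact hne ((h'.com p hp q hq).at (by omega) (by omega) (by omega))

theorem exists_rep {X : Sys A} {K : ℕ} {p0 : ℤ} {n' : ℕ} {i0 : ℤ} {m a b : ℕ}
    (C : Core X K p0 n' i0 m a b) {T : Finset ℤ} (hT : ∀ i ∈ T, Agr X.U X.U i i0 m)
    (hB : Br X.U T (fun i => X.c i - a) n') :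
    ∃ j1 j2 : ℕ, j1 ≤ 2 * K ∧ j2 ≤ 2 * K ∧ Br X.U T (fun i => i - j1) (m + j1 + j2 : ℕ) := by
  have a2 := C.a2
  have b2 := C.b2
  obtain ⟨j1, c1, c2, c3⟩ := exists_fork
    (fun e : ℕ => ∀ p ∈ T, ∀ q ∈ T, Agr X.U X.U (p - e) (q - e) e) (2 * K)
    (fun p _ q _ t x y => by omega) (by
      intro hc
      obtain ⟨p, hp, q, hq, hne⟩ := hB.left
      have d1 := hc p hp q hq
      have d2 := X.agr d1
      have d3 := X.cut_at d1 (x := p) (y := q) (by omega) (by omega) (by omega)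
      have d4 := X.lb (show p - (2 * K : ℕ) ≤ p by omega)
      rw [show p - (2 * K : ℕ) + (2 * K : ℕ) = p by ring] at d2
      exact hne (d2.at (by omega) (by omega) (by omega)))
  obtain ⟨j2, d1, d2, d3⟩ := exists_fork
    (fun e : ℕ => ∀ p ∈ T, ∀ q ∈ T, Agr X.U X.U (p + m) (q + m) e) (2 * K)
    (fun p _ q _ t x y => by omega) (by
      intro hc
      obtain ⟨p, hp, q, hq, hne⟩ := hB.right
      have d1 := hc p hp q hq
      have d2 := X.agr d1
      have d4 := X.lb (show p + m ≤ p + m + (2 * K : ℕ) by omega)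
      have d5 := C.len (hT p hp)
      have d6 := C.len (hT q hq)
      exact hne (d2.at (by omega) (by omega) (by omega)))
  refine ⟨j1, j2, by omega, by omega, ?_, left_fork (f := fun i => i) c2 c3, ?_⟩
  · intro p hp q hq
    have := agr_glue3 (c2 p hp q hq) ((hT p hp).trans (hT q hq).symm) (d2 p hp q hq)
    exact this.sub (by omega) (by omega) (by omega)
  · obtain ⟨p, hp, q, hq, hne⟩ := right_fork (f := fun i => i + m) d2 d3
    refine ⟨p, hp, q, hq, ?_⟩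
    rwa [show p - j1 + (m + j1 + j2 : ℕ) = p + m + j2 by omega,
      show q - j1 + (m + j1 + j2 : ℕ) = q + m + j2 by omega]

variable [DecidableEq A]

theorem relW_of_rep {X : Sys A} {Q K D : ℕ} (G : Good X Q K) {p0 : ℤ} {n' : ℕ} {i0 : ℤ}
    {m a b : ℕ} (C : Core X K p0 n' i0 m a b) (hm : K ≤ m) {T : Finset ℤ}
    (hT : ∀ i ∈ T, Agr X.U X.U i i0 m) (hB : Br X.U T (fun i => X.c i - a) n') {j1 j2 : ℕ}
    (hJ : Br X.U T (fun i => i - j1) (m + j1 + j2 : ℕ)) :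
    ∃ e1 e2 : ℕ, RelW X K D T (fun i => i - j1) e1 e2
      (m + j1 + j2, T.image (fun i => W X.U D (m + j1 + j2) (i - j1)))
      (n', T.image (fun i => W X.U D n' (X.c i - a))) ∧
      ∀ i ∈ T, X.c i - X.c (i - j1) + e1 = a := by
  have k1 : ∀ p ∈ T, ∀ q ∈ T, X.c p - X.c (p - j1) = X.c q - X.c (q - j1) := fun p hp q hq =>
    X.cut_at (hJ.com p hp q hq) (x := p) (y := q) (by omega) (by omega) (by omega)
  have k2 : ∀ p ∈ T, ∀ q ∈ T, X.c (p + m + j2) - X.c (p - j1) = X.c (q + m + j2) - X.c (q - j1) :=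
    fun p hp q hq =>
      X.cut_at (hJ.com p hp q hq) (x := p + m + j2) (y := q + m + j2) (by omega) (by omega)
        (by omega)
  have k3 : ∀ p ∈ T, ∀ q ∈ T, Agr X.U X.U (X.c (p - j1)) (X.c (q - j1))
      (X.c (p + m + j2) - X.c (p - j1)) := by
    intro p hp q hq
    have := X.agr (hJ.com p hp q hq)
    rwa [show p - j1 + (m + j1 + j2 : ℕ) = p + m + j2 by omega] at this
  have k4 : ∀ p : ℤ, X.c (p - j1) ≤ X.c p ∧ X.c p ≤ X.c (p + m) ∧
      X.c (p + m) ≤ X.c (p + m + j2) := fun p =>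
    ⟨X.mono.monotone (by omega), X.mono.monotone (by omega), X.mono.monotone (by omega)⟩
  obtain ⟨p1, hp1, q1, hq1, hne1⟩ := hB.left
  obtain ⟨p2, hp2, q2, hq2, hne2⟩ := hB.right
  have l1 : X.c p1 - X.c (p1 - j1) ≤ a := by
    by_contra hc
    have := k1 p1 hp1 q1 hq1
    have := k4 p1
    exact hne1 ((k3 p1 hp1 q1 hq1).at (by omega) (by omega) (by omega))
  have l2 : X.c (p2 + m + j2) - X.c (p2 + m) ≤ b := by
    by_contra hc
    have := k1 p2 hp2 q2 hq2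
    have := k4 p2
    have := C.len (hT p2 hp2)
    exact hne2 ((k3 p2 hp2 q2 hq2).at (by omega) (by omega) (by omega))
  obtain ⟨e1, he1⟩ := Int.eq_ofNat_of_zero_le (show 0 ≤ a - (X.c p1 - X.c (p1 - j1)) by omega)
  obtain ⟨e2, he2⟩ :=
    Int.eq_ofNat_of_zero_le (show 0 ≤ b - (X.c (p2 + m + j2) - X.c (p2 + m)) by omega)
  have f1 : ∀ i ∈ T, X.c i - X.c (i - j1) + e1 = a := by
    intro i hi
    have := k1 i hi p1 hp1
    omega
  have f2 : ∀ i ∈ T, X.c (i + m + j2) - X.c (i + m) + e2 = b := by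
    intro i hi
    have := k1 i hi p2 hp2
    have := k2 i hi p2 hp2
    have := C.len (hT i hi)
    have := C.len (hT p2 hp2)
    omega
  refine ⟨e1, e2, ⟨?_, ?_, rfl, ?_, ?_, ?_⟩, f1⟩
  · by_contra hc
    obtain ⟨p, hp, q, hq, hne⟩ := hJ.left
    have := f1 p hp
    have := f1 q hq
    have := k4 p
    have := C.len (hT p hp)
    exact G.delayL (p - j1) (q - j1) ((hJ.com p hp q hq).sub (by omega) (by omega) (by omega)) hne
      ((hB.com p hp q hq).sub (by omega) (by omega) (by omega))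
  · by_contra hc
    obtain ⟨p, hp, q, hq, hne⟩ := hJ.right
    rw [show p - j1 + (m + j1 + j2 : ℕ) = p + m + j2 by omega,
      show q - j1 + (m + j1 + j2 : ℕ) = q + m + j2 by omega] at hne
    have := f2 p hp
    have := f2 q hq
    have := k4 p
    have := C.len (hT p hp)
    have := C.len (hT q hq)
    exact G.delayR (p + m + j2) (q + m + j2)
      ((hJ.com p hp q hq).sub (by omega) (by omega) (by omega)) hne
      ((hB.com p hp q hq).sub (by omega) (by omega) (by omega))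
  · refine Finset.image_congr fun i hi => ?_
    have := f1 i hi
    simp only
    congr 1
    omega
  · intro i hi
    have := f1 i hi
    have := f2 i hi
    have := C.len (hT i hi)
    simp only
    rw [show i - j1 + (m + j1 + j2 : ℕ) = i + m + j2 by omega]
    omega
  · exact hB.congr fun i hi => by have := f1 i hi; omega

/-- The parent of a long object has non-periodic interior. -/
theorem parent_nonP {X : Sys A} {Q K K' D K5 NL : ℕ} (G : Good X Q K) (hK5 : K5 ≤ K')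
    (hLE : ∀ p q r n : ℤ, (NL : ℤ) ≤ n → Agr X.U X.U p q n → Agr X.U X.U p r n →
      X.U (p - 1) ≠ X.U (q - 1) → X.U (p + n) ≠ X.U (r + n) →
      Per X.U Q (p + (K + K * K' : ℕ)) (p + n - (K + K * K' : ℕ)) →
      Per X.U Q (p + K5) (p + n - K5))
    {T : Finset ℤ} {f : ℤ → ℤ} {e1 e2 : ℕ} {o o' : ℕ × Finset (List A)}
    (h : RelW X K D T f e1 e2 o o') (hn : 2 * K' + K ≤ o.1) (hn' : NL ≤ o'.1) {p : ℤ}
    (hp : p ∈ T) (hP : ¬ PT X.U Q K' (X.c (f p) - e1) o'.1) : ¬ PT X.U Q K' (f p) o.1 := by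
  intro hc
  apply hP
  have a1 := G.per_img (f p + K') (o.1 - 2 * K') (by omega) (Per.mono hc (by omega) (by omega))
  have a2 := G.ub (show f p ≤ f p + K' by omega)
  have a3 := G.ub (show f p + K' + (o.1 - 2 * K') ≤ f p + o.1 by omega)
  rw [show f p + K' - f p = K' by ring] at a2
  rw [show f p + o.1 - (f p + K' + (o.1 - 2 * K')) = K' by ring] at a3
  have a4 := h.len p hp
  have l1 := h.l1
  have l2 := h.l2
  obtain ⟨q, hq, hq'⟩ : ∃ q ∈ T, X.U (X.c (f p) - e1 - 1) ≠ X.U (X.c (f q) - e1 - 1) := by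
    obtain ⟨x, hx, y, hy, hne⟩ := h.br.left
    by_cases e : X.U (X.c (f p) - e1 - 1) = X.U (X.c (f x) - e1 - 1)
    · exact ⟨y, hy, e ▸ hne⟩
    · exact ⟨x, hx, e⟩
  obtain ⟨r, hr, hr'⟩ : ∃ r ∈ T, X.U (X.c (f p) - e1 + o'.1) ≠ X.U (X.c (f r) - e1 + o'.1) := by
    obtain ⟨x, hx, y, hy, hne⟩ := h.br.right
    by_cases e : X.U (X.c (f p) - e1 + o'.1) = X.U (X.c (f x) - e1 + o'.1)
    · exact ⟨y, hy, e ▸ hne⟩
    · exact ⟨x, hx, e⟩
  have := hLE _ _ _ _ (by omega) (h.br.com p hp q hq) (h.br.com p hp r hr) hq' hr'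
    (a1.mono (by push_cast; omega) (by push_cast; omega))
  exact this.mono (by omega) (by omega)

/-- Every parent of the object `o'` is read around the core. -/
theorem parent_core {X : Sys A} {K D : ℕ} {p0 : ℤ} {n' : ℕ} {i0 : ℤ}
    {m a b : ℕ} (C : Core X K p0 n' i0 m a b) {T1 : Finset ℤ} {f : ℤ → ℤ} {e1 e2 : ℕ}
    {o o' : ℕ × Finset (List A)} (h : RelW X K D T1 f e1 e2 o o') (ho' : o'.1 = n')
    (hB : Br X.U T1 f o.1)
    (hw : ∀ p ∈ T1, Agr X.U X.U (X.c (f p) - e1) p0 n') :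
    ∃ j1 j2 : ℕ, j1 ≤ 2 * K ∧ j2 ≤ 2 * K ∧ o.1 = m + j1 + j2 ∧
      ∀ p ∈ T1, X.c (f p + j1) - a = X.c (f p) - e1 ∧ Agr X.U X.U (f p + j1) i0 m := by
  obtain ⟨p1, hp1, -⟩ := hB.left
  obtain ⟨i1, c1, c2⟩ := C.all _ (hw p1 hp1)
  have l1 := h.l1
  have l2 := h.l2
  have a1 := C.a1
  have a2 := C.a2
  have b1 := C.b1
  have b2 := C.b2
  have d1 : f p1 ≤ i1 := X.mono.le_iff_le.mp (by omega)
  have d2 := X.lb d1
  have d3 := h.len p1 hp1
  have d4 := C.len c2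
  have d5 : i1 + m ≤ f p1 + o.1 := X.mono.le_iff_le.mp (by omega)
  have d6 := X.lb d5
  obtain ⟨j1, hj1⟩ := Int.eq_ofNat_of_zero_le (show 0 ≤ i1 - f p1 by omega)
  obtain ⟨j2, hj2⟩ := Int.eq_ofNat_of_zero_le (show 0 ≤ f p1 + o.1 - (i1 + m) by omega)
  refine ⟨j1, j2, by omega, by omega, by omega, fun p hp => ?_⟩
  obtain ⟨i, c3, c4⟩ := C.all _ (hw p hp)
  have d7 := X.cut_at (hB.com p hp p1 hp1) (x := f p + j1) (y := i1) (by omega) (by omega)
    (by omega)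
  have d8 : f p + j1 = i := X.mono.injective (by omega)
  rw [d8]
  exact ⟨c3, c4⟩

end Pool.Agent.H149Z.SU.Taper
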