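import Pool.Agent.H149Z.SU.Tpansiot1

/-! The complexity of a fixed point of a growing, not quasi-uniform morphism is not linear. -/

set_option autoImplicit false

namespace Pool.Agent.H149Z.SU

open Filter

namespace Tpansiot

variable {A : Type}

/-- the morphism on words -/
def Ph (σ : A → List A) : List A → List A := fun w => w.flatMap σ

/-- prefix of length `i` -/
def pre (u : ℕ → A) (i : ℕ) : List A := (List.range i).map u

theorem it_append (σ : A → List A) (k : ℕ) (v w : List A) :
    (Ph σ)^[k] (v ++ w) = (Ph σ)^[k] v ++ (Ph σ)^[k] w := by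
  induction k with
  | zero => rfl
  | succ k ih => rw [Function.iterate_succ_apply', Function.iterate_succ_apply',
      Function.iterate_succ_apply', ih]; simp [Ph]

theorem it_nil (σ : A → List A) (k : ℕ) : (Ph σ)^[k] [] = [] :=
  Function.iterate_fixed (by simp [Ph]) k

theorem len_lo {σ : A → List A} (h : ∀ b, 2 ≤ (σ b).length) (w : List A) :
    2 * w.length ≤ (Ph σ w).length := by
  induction w with
  | nil => simp [Ph]
  | cons a w ih =>
    have := h a
    simp only [Ph, List.flatMap_cons, List.length_append, List.length_cons] at ih ⊢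
    omega

theorem len_hi {σ : A → List A} {M : ℕ} (h : ∀ b, (σ b).length ≤ M) (w : List A) :
    (Ph σ w).length ≤ M * w.length := by
  induction w with
  | nil => simp [Ph]
  | cons a w ih =>
    have := h a
    simp only [Ph, List.flatMap_cons, List.length_append, List.length_cons] at ih ⊢
    nlinarith

theorem pre_len (u : ℕ → A) (i : ℕ) : (pre u i).length = i := by simp [pre]

theorem pre_succ (u : ℕ → A) (i : ℕ) : pre u (i + 1) = pre u i ++ [u i] := by
  simp [pre, List.range_succ]

theorem pre_add (u : ℕ → A) (i d : ℕ) :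
    pre u (i + d) = pre u i ++ (List.range d).map fun t => u (i + t) := by
  simp [pre, List.range_add]

theorem eq_pre_of_append {u : ℕ → A} {v w : List A} {N : ℕ} (h : v ++ w = pre u N) :
    v = pre u v.length ∧ w = (List.range w.length).map fun t => u (v.length + t) := by
  have hN : N = v.length + w.length := by
    have := congrArg List.length h
    rw [pre_len, List.length_append] at this
    omega
  rw [hN, pre_add] at h
  exact List.append_inj h (by rw [pre_len])

theorem len_mem (σ : A → List A) (k : ℕ) {w : List A} {e : A} (he : e ∈ w) :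
    ((Ph σ)^[k] [e]).length ≤ ((Ph σ)^[k] w).length := by
  obtain ⟨s, t, rfl⟩ := List.append_of_mem he
  rw [show s ++ e :: t = s ++ ([e] ++ t) by simp, it_append, it_append]
  simp only [List.length_append]
  omega

theorem len_sum (σ : A → List A) (k B : ℕ) (K : ℕ) (w : List A)
    (h : ∀ e ∈ w, K * ((Ph σ)^[k] [e]).length ≤ B) :
    K * ((Ph σ)^[k] w).length ≤ w.length * B := by
  induction w with
  | nil => simp [it_nil]
  | cons a w ih =>
    have h1 := ih fun e he => h e (by simp [he])
    have h2 := h a (by simp)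
    rw [show a :: w = [a] ++ w by simp, it_append]
    simp only [List.length_append, List.length_singleton]
    nlinarith

theorem ratio {f g : ℕ → ℕ} {l1 l2 a1 a2 b1 b2 : ℝ} {d1 d2 : ℕ} (hl1 : 1 < l1) (hl2 : 1 < l2)
    (ha1 : 0 < a1) (ha2 : 0 < a2)
    (hf : ∀ k : ℕ, a1 * ((k : ℝ) + 1) ^ d1 * l1 ^ k ≤ f k ∧
      (f k : ℝ) ≤ b1 * ((k : ℝ) + 1) ^ d1 * l1 ^ k)
    (hg : ∀ k : ℕ, a2 * ((k : ℝ) + 1) ^ d2 * l2 ^ k ≤ g k ∧
      (g k : ℝ) ≤ b2 * ((k : ℝ) + 1) ^ d2 * l2 ^ k) :
    (∃ E : ℕ, ∀ k, g k ≤ E * f k) ∨ ∀ K : ℕ, ∀ᶠ k in atTop, K * f k ≤ g k := by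
  have poly : ∀ (d : ℕ) (r : ℝ), 0 ≤ r → r < 1 →
      Tendsto (fun k : ℕ => ((k : ℝ) + 1) ^ d * r ^ k) atTop (nhds 0) := by
    intro d r h0 h1
    rcases h0.eq_or_lt with h | h
    · subst h
      refine tendsto_const_nhds.congr' ?_
      filter_upwards [eventually_ge_atTop 1] with k hk
      rw [zero_pow (by omega), mul_zero]
    · have t := (tendsto_pow_const_mul_const_pow_of_abs_lt_one d
        (r := r) (by rwa [abs_of_pos h])).comp (tendsto_add_atTop_nat 1)
      have t2 := t.div_const r
      rw [zero_div] at t2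
      refine t2.congr fun k => ?_
      simp only [Function.comp]
      push_cast
      rw [pow_succ]
      field_simp
  have hb1 : 0 < b1 := by
    have h := (hf 0).1.trans (hf 0).2
    simp at h; linarith
  have hb2 : 0 < b2 := by
    have h := (hg 0).1.trans (hg 0).2
    simp at h; linarith
  have p1 : ∀ k : ℕ, 0 < ((k : ℝ) + 1) ^ d1 * l1 ^ k := fun k => by positivity
  have p2 : ∀ k : ℕ, 0 < ((k : ℝ) + 1) ^ d2 * l2 ^ k := fun k => by positivity
  have left : ∀ D : ℝ, (∀ k : ℕ, ((k : ℝ) + 1) ^ d2 * l2 ^ k ≤ D * (((k : ℝ) + 1) ^ d1 * l1 ^ k)) →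
      ∃ E : ℕ, ∀ k, g k ≤ E * f k := by
    intro D hD
    have hD0 : 0 ≤ D := by
      have := (p2 0).trans_le (hD 0)
      have q := p1 0
      by_contra c
      nlinarith
    refine ⟨⌈b2 * D / a1⌉₊, fun k => ?_⟩
    have h1 := Nat.le_ceil (b2 * D / a1)
    have h2 : (g k : ℝ) ≤ b2 * D / a1 * f k := by
      calc (g k : ℝ) ≤ b2 * (((k : ℝ) + 1) ^ d2 * l2 ^ k) := by rw [← mul_assoc]; exact (hg k).2
        _ ≤ b2 * (D * (((k : ℝ) + 1) ^ d1 * l1 ^ k)) := mul_le_mul_of_nonneg_left (hD k) hb2.le
        _ = b2 * D / a1 * (a1 * ((k : ℝ) + 1) ^ d1 * l1 ^ k) := by field_simp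
        _ ≤ b2 * D / a1 * f k := mul_le_mul_of_nonneg_left (hf k).1 (by positivity)
    have h3 : (g k : ℝ) ≤ (⌈b2 * D / a1⌉₊ : ℝ) * f k :=
      h2.trans (mul_le_mul_of_nonneg_right h1 (by positivity))
    exact_mod_cast h3
  have right : Tendsto (fun k : ℕ => (((k : ℝ) + 1) ^ d1 * l1 ^ k) / (((k : ℝ) + 1) ^ d2 * l2 ^ k))
      atTop (nhds 0) → ∀ K : ℕ, ∀ᶠ k in atTop, K * f k ≤ g k := by
    intro ht K
    have := ht.eventually (gt_mem_nhds (show (0 : ℝ) < a2 / (b1 * (K + 1)) by positivity))
    filter_upwards [this] with k hk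
    rw [div_lt_div_iff₀ (p2 k) (by positivity)] at hk
    have h1 : (K : ℝ) * f k ≤ g k := by
      calc (K : ℝ) * f k ≤ (K + 1) * (b1 * ((k : ℝ) + 1) ^ d1 * l1 ^ k) :=
            mul_le_mul (by linarith) (hf k).2 (by positivity) (by positivity)
        _ = ((k : ℝ) + 1) ^ d1 * l1 ^ k * (b1 * (K + 1)) := by ring
        _ ≤ a2 * (((k : ℝ) + 1) ^ d2 * l2 ^ k) := hk.le
        _ ≤ g k := by rw [← mul_assoc]; exact (hg k).1
    exact_mod_cast h1
  have one : ∀ (k d : ℕ), (1 : ℝ) ≤ ((k : ℝ) + 1) ^ d := fun k d =>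
    one_le_pow₀ (by have : (0 : ℝ) ≤ k := Nat.cast_nonneg k; linarith)
  rcases lt_trichotomy l1 l2 with h | h | h
  · right
    apply right
    refine squeeze_zero (fun k => (div_pos (p1 k) (p2 k)).le) (fun k => ?_)
      (poly d1 (l1 / l2) (by positivity) ((div_lt_one (by linarith)).2 h))
    rw [div_le_iff₀ (p2 k), div_pow]
    have e : ((k : ℝ) + 1) ^ d1 * (l1 ^ k / l2 ^ k) * (((k : ℝ) + 1) ^ d2 * l2 ^ k)
        = ((k : ℝ) + 1) ^ d1 * l1 ^ k * ((k : ℝ) + 1) ^ d2 := by field_simp
    rw [e]
    exact le_mul_of_one_le_right (p1 k).le (one k d2)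
  · subst h
    rcases lt_or_ge d1 d2 with hd | hd
    · right
      apply right
      refine squeeze_zero (fun k => (div_pos (p1 k) (p2 k)).le) (fun k => ?_)
        tendsto_one_div_add_atTop_nhds_zero_nat
      rw [div_le_div_iff₀ (p2 k) (by positivity), one_mul, mul_right_comm, ← pow_succ]
      exact mul_le_mul_of_nonneg_right
        (pow_le_pow_right₀ (by have : (0 : ℝ) ≤ k := Nat.cast_nonneg k; linarith) hd)
        (by positivity)
    · left
      apply left 1
      intro k
      rw [one_mul]
      exact mul_le_mul_of_nonneg_right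
        (pow_le_pow_right₀ (by have : (0 : ℝ) ≤ k := Nat.cast_nonneg k; linarith) hd)
        (by positivity)
  · left
    obtain ⟨D, hD⟩ := (poly d2 (l2 / l1) (by positivity) ((div_lt_one (by linarith)).2 h)).bddAbove_range
    apply left D
    intro k
    have h1 : ((k : ℝ) + 1) ^ d2 * (l2 / l1) ^ k ≤ D := hD ⟨k, rfl⟩
    have hD0 : 0 ≤ D := le_trans (by positivity) h1
    rw [div_pow, ← mul_div_assoc, div_le_iff₀ (by positivity)] at h1
    refine h1.trans (mul_le_mul_of_nonneg_left ?_ hD0)
    exact le_mul_of_one_le_left (by positivity) (one k d1)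

end Tpansiot

open Tpansiot in
theorem thm_pansiot (h : S_growth) : S_pansiot := by
  classical
  intro A _ σ a u h2 _ hfix hocc hne C
  change ∀ m i : ℕ, i < ((Ph σ)^[m] [a]).length → ((Ph σ)^[m] [a])[i]? = some (u i) at hfix
  set L : ℕ → A → ℕ := fun k b => ((Ph σ)^[k] [b]).length with hL
  change ¬ (∀ b c : A, Asymptotics.IsTheta atTop (fun m : ℕ => (L m b : ℝ))
    (fun m : ℕ => (L m c : ℝ))) at hne
  set cc : ℕ → ℕ → ℕ := fun k i => ((Ph σ)^[k] (pre u i)).length with hcc
  obtain ⟨M, hM⟩ : ∃ M, ∀ b, (σ b).length ≤ M :=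
    ⟨Finset.univ.sup fun b => (σ b).length, fun b =>
      Finset.le_sup (f := fun b => (σ b).length) (Finset.mem_univ b)⟩
  have lo : ∀ k b, 2 * L k b ≤ L (k + 1) b := fun k b => by
    simp only [hL, Function.iterate_succ_apply']; exact len_lo h2 _
  have hi : ∀ k b, L (k + 1) b ≤ M * L k b := fun k b => by
    simp only [hL, Function.iterate_succ_apply']; exact len_hi hM _
  have big : ∀ k b, k < L k b := fun k b => by
    induction k with
    | zero => simp [hL]
    | succ k ih => have := lo k b; omega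
  have hpre : ∀ m, (Ph σ)^[m] [a] = pre u (L m a) := fun m => by
    apply List.ext_getElem (by rw [pre_len])
    intro i h1 h2
    have := hfix m i h1
    rw [List.getElem?_eq_getElem h1] at this
    simp only [pre, List.getElem_map, List.getElem_range]
    exact Option.some.inj this
  have u0 : u 0 = a := by
    have := hfix 0 0 (by simp)
    simpa using this.symm
  have hP : ∀ k i, (Ph σ)^[k] (pre u i) = pre u (cc k i) := fun k i => by
    obtain ⟨d, hd⟩ := Nat.exists_eq_add_of_le (big i a).le
    have e := hpre (k + i)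
    rw [Function.iterate_add_apply, hpre i, hd, pre_add, it_append] at e
    exact (eq_pre_of_append e).1
  have step : ∀ k i, cc k (i + 1) = cc k i + L k (u i) := fun k i => by
    simp only [hcc, hL, pre_succ, it_append, List.length_append]
  have blk : ∀ k i, (Ph σ)^[k] [u i] = (List.range (L k (u i))).map fun t => u (cc k i + t) := by
    intro k i
    have e := hP k (i + 1)
    rw [pre_succ, it_append] at e
    exact (eq_pre_of_append e).2
  let fast : A → Prop := fun b => ∃ E : ℕ, ∀ k, L k a ≤ E * L k b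
  have small1 : ∀ b, ¬ fast b → ∀ K : ℕ, ∀ᶠ k in atTop, K * L k b ≤ L k a := fun b hb => by
    obtain ⟨l1, d1, a1, b1, h1, h1', hf⟩ := h A σ h2 b
    obtain ⟨l2, d2, a2, b2, h3, h3', hg⟩ := h A σ h2 a
    exact (ratio (f := fun k => L k b) (g := fun k => L k a) h1 h3 h1' h3' hf hg).resolve_left hb
  have small : ∀ K : ℕ, ∀ᶠ k in atTop, ∀ b, ¬ fast b → K * L k b ≤ L k a := fun K => by
    rw [eventually_all]
    intro b
    by_cases hb : fast b
    · simp [hb]
    · filter_upwards [small1 b hb K] with k hk _ using hk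
  have Lsucc : ∀ k b, L (k + 1) b = ((Ph σ)^[k] (σ b)).length := fun k b => by
    simp [hL, Function.iterate_succ_apply, Ph]
  have up : ∀ b e, e ∈ σ b → fast e → fast b := by
    rintro b e he ⟨E, hE⟩
    refine ⟨M * E + 1, fun k => ?_⟩
    cases k with
    | zero => simp [hL]
    | succ k =>
      have a1 := hi k a
      have a2 := hE k
      have a3 : L k e ≤ L (k + 1) b := by rw [Lsucc]; exact len_mem σ k he
      have a4 : M * L k a ≤ M * (E * L (k + 1) b) :=
        Nat.mul_le_mul_left _ (a2.trans (Nat.mul_le_mul_left _ a3))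
      nlinarith
  have down : ∀ b, fast b → ∃ e ∈ σ b, fast e := by
    rintro b ⟨E, hE⟩
    by_contra hc
    push Not at hc
    obtain ⟨k, hk⟩ := (small (E * M)).exists
    have a1 := len_sum σ k (L k a) (E * M) (σ b) fun e he => hk e (hc e he)
    rw [← Lsucc] at a1
    have a2 := hE (k + 1)
    have a3 := lo k a
    have a4 := big k a
    have a5 : (σ b).length * L k a ≤ M * L k a := Nat.mul_le_mul_right _ (hM b)
    have a6 : 2 ≤ M := (h2 b).trans (hM b)
    have a7 : M * (2 * L k a) ≤ M * (E * L (k + 1) b) := Nat.mul_le_mul_left _ (a3.trans a2)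
    nlinarith
  have downk : ∀ k b, fast b → ∃ e ∈ (Ph σ)^[k] [b], fast e := fun k b hb => by
    induction k with
    | zero => exact ⟨b, by simp, hb⟩
    | succ k ih =>
      obtain ⟨e, he, hf⟩ := ih
      obtain ⟨e', he', hf'⟩ := down e hf
      refine ⟨e', ?_, hf'⟩
      rw [Function.iterate_succ_apply']
      exact List.mem_flatMap.2 ⟨e, he, he'⟩
  have upk : ∀ k b e, e ∈ (Ph σ)^[k] [b] → fast e → fast b := fun k => by
    induction k with
    | zero => intro b e he hf; simp at he; rwa [← he]
    | succ k ih =>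
      intro b e he hf
      rw [Function.iterate_succ_apply'] at he
      obtain ⟨e', he', h'⟩ := List.mem_flatMap.1 he
      exact ih b e' he' (up e' e h' hf)
  obtain ⟨E, hE⟩ : ∃ E : ℕ, ∀ k b, fast b → L k a ≤ E * L k b := by
    have : ∀ b, ∃ E : ℕ, fast b → ∀ k, L k a ≤ E * L k b := fun b => by
      by_cases hb : fast b
      · obtain ⟨E, hE⟩ := hb; exact ⟨E, fun _ => hE⟩
      · exact ⟨0, fun c => (hb c).elim⟩
    choose Ef hEf using this
    refine ⟨Finset.univ.sup Ef, fun k b hb => (hEf b hb k).trans (Nat.mul_le_mul_right _ ?_)⟩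
    exact Finset.le_sup (Finset.mem_univ b)
  have ub : ∀ b, ∃ D : ℕ, ∀ k, L k b ≤ D * L k a := fun b => by
    obtain ⟨i, rfl⟩ := hocc b
    refine ⟨M ^ i, fun k => ?_⟩
    have a1 : u i ∈ (Ph σ)^[i] [a] := by
      rw [hpre]
      exact List.mem_map.2 ⟨i, List.mem_range.2 (big i a), rfl⟩
    have a2 := len_mem σ k a1
    rw [← Function.iterate_add_apply] at a2
    refine a2.trans ?_
    change L (k + i) a ≤ _
    clear a1 a2
    induction i with
    | zero => simp
    | succ i ih =>
      have := hi (k + i) a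
      rw [pow_succ, ← add_assoc]; nlinarith
  have ex : ∃ b, ¬ fast b := by
    by_contra hc
    push Not at hc
    apply hne
    have bo : ∀ b c : A, Asymptotics.IsBigO atTop (fun m : ℕ => (L m b : ℝ))
        (fun m : ℕ => (L m c : ℝ)) := fun b c => by
      obtain ⟨D, hD⟩ := ub b
      refine Asymptotics.IsBigO.of_bound ((D * E : ℕ) : ℝ) (Eventually.of_forall fun k => ?_)
      rw [Real.norm_natCast, Real.norm_natCast]
      have a1 := hD k
      have a2 : D * L k a ≤ D * (E * L k c) := Nat.mul_le_mul_left _ (hE k c (hc c))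
      have : L k b ≤ D * E * L k c := by rw [mul_assoc]; omega
      exact_mod_cast this
    exact fun b c => ⟨bo b c, bo c b⟩
  have H : Core u cc L fast M E :=
    { zero := fun k => by simp [hcc, pre, it_nil]
      step := step
      comp := fun k r i => by
        change ((Ph σ)^[k + r] (pre u i)).length = ((Ph σ)^[k] (pre u (cc r i))).length
        rw [Function.iterate_add_apply, hP r i]
      L0 := fun b => by simp [hL]
      lo := lo
      hi := hi
      fb := fun k i hf => by
        obtain ⟨e, he, hf'⟩ := downk k _ hf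
        rw [blk] at he
        obtain ⟨t, ht, rfl⟩ := List.mem_map.1 he
        have := List.mem_range.1 ht
        exact ⟨cc k i + t, by omega, by rw [step]; omega, hf'⟩
      sb := fun k i hs t h1 h3 hf => by
        rw [step] at h3
        refine hs (upk k _ (u t) ?_ hf)
        rw [blk]
        exact List.mem_map.2 ⟨t - cc k i, List.mem_range.2 (by omega), by congr 1; omega⟩
      f0 := by rw [u0]; exact ⟨1, fun k => by simp⟩
      hE := by rw [u0]; exact hE
      small := by rw [u0]; exact small
      occ := hocc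
      ex := ex }
  exact H.main C

end Pool.Agent.H149Z.SU
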