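import Pool.Agent.H149Z.SU.Basic

/-! Combinatorial core of the lower bound for the complexity. -/

set_option autoImplicit false

namespace Pool.Agent.H149Z.SU.Tpansiot

open Filter

/-- The abstract data: cuts, lengths, fast letters. -/
structure Core {A : Type} (u : ℕ → A) (cc : ℕ → ℕ → ℕ) (L : ℕ → A → ℕ) (fast : A → Prop)
    (M E : ℕ) : Prop where
  zero : ∀ k, cc k 0 = 0
  step : ∀ k i, cc k (i + 1) = cc k i + L k (u i)
  comp : ∀ k r i, cc (k + r) i = cc k (cc r i)
  L0 : ∀ b, L 0 b = 1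
  lo : ∀ k b, 2 * L k b ≤ L (k + 1) b
  hi : ∀ k b, L (k + 1) b ≤ M * L k b
  fb : ∀ k i, fast (u i) → ∃ t, cc k i ≤ t ∧ t < cc k (i + 1) ∧ fast (u t)
  sb : ∀ k i, ¬ fast (u i) → ∀ t, cc k i ≤ t → t < cc k (i + 1) → ¬ fast (u t)
  f0 : fast (u 0)
  hE : ∀ k b, fast b → L k (u 0) ≤ E * L k b
  small : ∀ K : ℕ, ∀ᶠ k in atTop, ∀ b, ¬ fast b → K * L k b ≤ L k (u 0)
  occ : ∀ b, ∃ i, u i = b
  ex : ∃ b, ¬ fast b

/-- all letters of `[x, y)` are slow -/
def Slow {A : Type} (u : ℕ → A) (fast : A → Prop) (x y : ℕ) : Prop :=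
  ∀ t, x ≤ t → t < y → ¬ fast (u t)

/-- `[x, y)` contains no full block of level `k` -/
def NoFull (cc : ℕ → ℕ → ℕ) (k x y : ℕ) : Prop := ∀ i, x ≤ cc k i → y < cc k (i + 1)

open Classical in
/-- the largest length of a slow letter -/
noncomputable def GG {A : Type} [Fintype A] (L : ℕ → A → ℕ) (fast : A → Prop) (k : ℕ) : ℕ :=
  (Finset.univ.filter fun b => ¬ fast b).sup (L k)

variable {A : Type} {u : ℕ → A} {cc : ℕ → ℕ → ℕ} {L : ℕ → A → ℕ} {fast : A → Prop} {M E : ℕ}

namespace Core

theorem pow_le (H : Core u cc L fast M E) (k r : ℕ) (b : A) : 2 ^ r * L k b ≤ L (k + r) b := by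
  induction r with
  | zero => simp
  | succ r ih =>
    have := H.lo (k + r) b
    rw [pow_succ, ← add_assoc]; nlinarith

theorem le_pow (H : Core u cc L fast M E) (k r : ℕ) (b : A) : L (k + r) b ≤ M ^ r * L k b := by
  induction r with
  | zero => simp
  | succ r ih =>
    have := H.hi (k + r) b
    rw [pow_succ, ← add_assoc]; nlinarith

theorem pos (H : Core u cc L fast M E) (k : ℕ) (b : A) : 1 ≤ L k b := by
  have := H.pow_le 0 k b
  rw [H.L0, zero_add] at this
  have h2 : 1 ≤ 2 ^ k := Nat.one_le_two_pow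
  omega

theorem smono (H : Core u cc L fast M E) (k : ℕ) : StrictMono (cc k) :=
  strictMono_nat_of_lt_succ fun i => by have := H.step k i; have := H.pos k (u i); omega

theorem cc0 (H : Core u cc L fast M E) (i : ℕ) : cc 0 i = i := by
  induction i with
  | zero => exact H.zero 0
  | succ i ih => rw [H.step, ih, H.L0]

theorem cc1 (H : Core u cc L fast M E) (k : ℕ) : cc k 1 = L k (u 0) := by
  have := H.step k 0
  rwa [H.zero, zero_add, zero_add] at this

theorem idx (H : Core u cc L fast M E) (k y : ℕ) : ∃ q, cc k q ≤ y ∧ y < cc k (q + 1) := by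
  classical
  have hex : ∃ q, y < cc k (q + 1) := ⟨y, by have := (H.smono k).le_apply (x := y + 1); omega⟩
  refine ⟨Nat.find hex, ?_, Nat.find_spec hex⟩
  rcases Nat.eq_zero_or_pos (Nat.find hex) with h | h
  · rw [h, H.zero]; omega
  · have := Nat.find_min hex (m := Nat.find hex - 1) (by omega)
    rw [show Nat.find hex - 1 + 1 = Nat.find hex by omega] at this
    omega

variable [Fintype A]

theorem le_G (k : ℕ) {b : A} (hb : ¬ fast b) : L k b ≤ GG L fast k := by
  classical
  unfold GG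
  exact Finset.le_sup (f := L k) (by simpa using hb)

theorem ex_G (H : Core u cc L fast M E) (k : ℕ) : ∃ b, ¬ fast b ∧ GG L fast k = L k b := by
  classical
  obtain ⟨b0, hb0⟩ := H.ex
  obtain ⟨b, hb, h⟩ := Finset.exists_mem_eq_sup (Finset.univ.filter fun b => ¬ fast b)
    ⟨b0, by simpa using hb0⟩ (L k)
  refine ⟨b, by simpa using hb, ?_⟩
  unfold GG
  convert h

theorem G_lo (H : Core u cc L fast M E) (k r : ℕ) :
    2 ^ r * GG L fast k ≤ GG L fast (k + r) := by
  obtain ⟨b, hb, h⟩ := H.ex_G k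
  rw [h]
  exact (H.pow_le k r b).trans (le_G _ hb)

theorem G_hi (H : Core u cc L fast M E) (k r : ℕ) :
    GG L fast (k + r) ≤ M ^ r * GG L fast k := by
  obtain ⟨b, hb, h⟩ := H.ex_G (k + r)
  rw [h]
  exact (H.le_pow k r b).trans (Nat.mul_le_mul_left _ (le_G _ hb))

theorem G_pos (H : Core u cc L fast M E) (k : ℕ) : 1 ≤ GG L fast k := by
  obtain ⟨b, hb, h⟩ := H.ex_G k
  rw [h]; exact H.pos k b

theorem G_small (H : Core u cc L fast M E) (K : ℕ) :
    ∀ᶠ k in atTop, K * GG L fast k ≤ L k (u 0) := by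
  filter_upwards [H.small K] with k hk
  obtain ⟨b, hb, h⟩ := H.ex_G k
  rw [h]; exact hk b hb

theorem sum_le (H : Core u cc L fast M E) (k p d : ℕ) (h : Slow u fast p (p + d)) :
    cc k (p + d) ≤ cc k p + d * GG L fast k := by
  induction d with
  | zero => simp
  | succ d ih =>
    have h1 := ih fun t a b => h t a (by omega)
    have h2 := le_G (L := L) k (h (p + d) (by omega) (by omega))
    rw [← add_assoc, H.step]
    nlinarith

theorem decomp (H : Core u cc L fast M E) (k S R x y : ℕ) (hs : Slow u fast x y)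
    (hS : ∀ x' y', Slow u fast x' y' → NoFull cc k x' y' → y' ≤ x' + S)
    (hR : ∀ p q, x ≤ cc k p → cc k q ≤ y → q ≤ p + R) :
    y ≤ x + (R * GG L fast k + 2 * S) := by
  classical
  have hm := H.smono k
  have hex : ∃ p, x ≤ cc k p := ⟨x, hm.le_apply⟩
  obtain ⟨q, hq1, hq2⟩ := H.idx k y
  set p := Nat.find hex with hp
  have hp1 : x ≤ cc k p := Nat.find_spec hex
  have hp2 : ∀ i, x ≤ cc k i → p ≤ i := fun i hi => Nat.find_min' hex hi
  rcases lt_or_ge q p with h | h
  · have := hS x y hs fun i hi => by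
      have h1 := hp2 i hi
      have h2 : cc k (q + 1) ≤ cc k (i + 1) := hm.monotone (by omega)
      omega
    omega
  · have hpq : cc k p ≤ cc k q := hm.monotone h
    have a1 := hS x (cc k p) (fun t a b => hs t a (by omega)) fun i hi =>
      hm (by have := hp2 i hi; omega)
    have a2 := hS (cc k q) y (fun t a b => hs t (by omega) b) fun i hi => by
      have h1 : q ≤ i := hm.le_iff_le.1 hi
      have h2 : cc k (q + 1) ≤ cc k (i + 1) := hm.monotone (by omega)
      omega
    obtain ⟨d, rfl⟩ := Nat.exists_eq_add_of_le h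
    have a3 := H.sum_le k p d fun i a b hf => by
      obtain ⟨t, t1, t2, t3⟩ := H.fb k i hf
      have h1 : cc k p ≤ cc k i := hm.monotone a
      have h2 : cc k (i + 1) ≤ cc k (p + d) := hm.monotone (by omega)
      exact hs t (by omega) (by omega) t3
    have a4 : d ≤ R := by have := hR p (p + d) hp1 hq1; omega
    have a5 : d * GG L fast k ≤ R * GG L fast k := Nat.mul_le_mul_right _ a4
    omega

omit [Fintype A] in
theorem nofull_len (H : Core u cc L fast M E) (r p q : ℕ) (h : NoFull cc r p q) :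
    q ≤ p + 2 * M ^ r := by
  obtain ⟨i, h1, h2⟩ := H.idx r p
  have h3 := h (i + 1) h2.le
  have a := H.step r i
  have b := H.step r (i + 1)
  have c := H.le_pow 0 r (u i)
  have d := H.le_pow 0 r (u (i + 1))
  rw [H.L0, zero_add, mul_one] at c d
  omega

theorem short (H : Core u cc L fast M E) (m : ℕ) : ∀ x y, Slow u fast x y →
    NoFull cc (2 * m) x y → y ≤ x + M ^ 2 * GG L fast (2 * m) := by
  induction m with
  | zero =>
    intro x y _ h
    have := h x (by rw [mul_zero, H.cc0])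
    rw [mul_zero, H.cc0] at this
    omega
  | succ m ih =>
    intro x y hs h
    have a := H.decomp (2 * m) _ (2 * M ^ 2) x y hs ih fun p q hp hq =>
      H.nofull_len 2 p q fun i hi => by
        have hm := H.smono (2 * m)
        have h1 := h i (by
          rw [show 2 * (m + 1) = 2 * m + 2 by ring, H.comp]
          exact hp.trans (hm.monotone hi))
        rw [show 2 * (m + 1) = 2 * m + 2 by ring, H.comp] at h1
        exact hm.lt_iff_lt.1 (by omega)
    have b := H.G_lo (2 * m) 2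
    rw [show 2 * (m + 1) = 2 * m + 2 by ring]
    nlinarith

theorem inf_fast (H : Core u cc L fast M E) (t : ℕ) : ∃ f, t ≤ f ∧ fast (u f) := by
  have h1 : ∃ i, 1 ≤ i ∧ fast (u i) := by
    by_contra hc
    push Not at hc
    obtain ⟨k, hk⟩ := (H.G_small (M + 1)).exists
    have a := H.sum_le k 1 (cc 1 1 - 1) fun t a _ => hc t a
    have b : cc 1 1 ≤ M := by
      have := H.hi 0 (u 0)
      rw [H.L0] at this
      rw [H.cc1]; simpa using this
    have c : 1 ≤ cc 1 1 := by rw [H.cc1]; exact H.pos _ _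
    rw [show 1 + (cc 1 1 - 1) = cc 1 1 by omega, ← H.comp, H.cc1, H.cc1] at a
    have d := H.lo k (u 0)
    have e : (cc 1 1 - 1) * GG L fast k ≤ M * GG L fast k := Nat.mul_le_mul_right _ (by omega)
    have g := H.G_pos k
    nlinarith
  obtain ⟨i, hi, hf⟩ := h1
  obtain ⟨f, f1, _, f3⟩ := H.fb t i hf
  refine ⟨f, ?_, f3⟩
  have a : cc t 1 ≤ cc t i := (H.smono t).monotone hi
  have b := H.pow_le 0 t (u 0)
  rw [H.L0, zero_add, ← H.cc1] at b
  have c : t < 2 ^ t := Nat.lt_two_pow_self
  omega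

theorem maxrun (H : Core u cc L fast M E) (s e : ℕ) (h1 : 1 ≤ s) (hs : Slow u fast s e) :
    ∃ x y, x + 1 ≤ s ∧ e ≤ y ∧ fast (u x) ∧ fast (u y) ∧ Slow u fast (x + 1) y := by
  classical
  have hex := H.inf_fast e
  have hx : fast (u (Nat.findGreatest (fun t => fast (u t)) (s - 1))) :=
    Nat.findGreatest_spec (P := fun t => fast (u t)) (Nat.zero_le _) H.f0
  have hx2 := Nat.findGreatest_le (P := fun t => fast (u t)) (s - 1)
  refine ⟨Nat.findGreatest (fun t => fast (u t)) (s - 1), Nat.find hex, by omega,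
    (Nat.find_spec hex).1, hx, (Nat.find_spec hex).2, fun t a b hf => ?_⟩
  by_cases c1 : t < s
  · exact Nat.findGreatest_is_greatest (P := fun t => fast (u t)) (n := s - 1) (k := t)
      (by omega) (by omega) hf
  · by_cases c2 : t < e
    · exact hs t (by omega) c2 hf
    · exact Nat.find_min hex b ⟨by omega, hf⟩

theorem runs (H : Core u cc L fast M E) : ∃ C1 : ℕ, M ^ 2 ≤ C1 ∧ ∀ m : ℕ, ∃ x y,
    fast (u x) ∧ fast (u y) ∧ Slow u fast (x + 1) y ∧ x + 1 + GG L fast (2 * m) ≤ y ∧
      y ≤ x + 1 + C1 * GG L fast (2 * m) ∧ L (2 * m) (u 0) ≤ y := by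
  classical
  choose ps hps using H.occ
  choose nx hnx1 hnx2 using H.inf_fast
  refine ⟨Finset.univ.sup (fun b => nx (ps b)) + 2 * M ^ 2, by omega, fun m => ?_⟩
  obtain ⟨b, hb, hG⟩ := H.ex_G (2 * m)
  have hm := H.smono (2 * m)
  have hi : ¬ fast (u (ps b)) := by rw [hps]; exact hb
  have hi1 : 1 ≤ ps b := by
    by_contra h
    rw [show ps b = 0 by omega] at hi
    exact hi H.f0
  have a1 : cc (2 * m) 1 ≤ cc (2 * m) (ps b) := hm.monotone hi1
  have a2 := H.pos (2 * m) (u 0)
  rw [H.cc1] at a1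
  obtain ⟨x, y, x1, y1, fx, fy, hs⟩ := H.maxrun (cc (2 * m) (ps b)) (cc (2 * m) (ps b + 1))
    (by omega) (H.sb _ _ hi)
  have st := H.step (2 * m) (ps b)
  rw [hps, ← hG] at st
  refine ⟨x, y, fx, fy, hs, by omega, ?_, by omega⟩
  have := H.decomp (2 * m) _ (Finset.univ.sup fun b => nx (ps b)) (x + 1) y hs (H.short m)
    fun p q _ hq => by
      have h1 : nx (ps b) ≤ Finset.univ.sup fun b => nx (ps b) :=
        Finset.le_sup (f := fun b => nx (ps b)) (Finset.mem_univ b)
      by_contra hc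
      obtain ⟨t, t1, t2, t3⟩ := H.fb (2 * m) _ (hnx2 (ps b))
      have h2 : cc (2 * m) (ps b) ≤ cc (2 * m) (nx (ps b)) := hm.monotone (hnx1 _)
      have h3 : cc (2 * m) (nx (ps b) + 1) ≤ cc (2 * m) q := hm.monotone (by omega)
      exact hs t (by omega) (by omega) t3
  nlinarith

theorem two (H : Core u cc L fast M E) (m x y x' y' f : ℕ) (h : Slow u fast x y)
    (h' : Slow u fast x' y') (hf : fast (u f)) (h1 : y ≤ f) (h2 : f < x')
    (l : x + M ^ 2 * GG L fast (2 * m) < y) (l' : x' + M ^ 2 * GG L fast (2 * m) < y') :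
    ∃ b, fast b ∧ x + L (2 * m) b ≤ y' := by
  have hm := H.smono (2 * m)
  have a : ¬ NoFull cc (2 * m) x y := fun c => by have := H.short m x y h c; omega
  have a' : ¬ NoFull cc (2 * m) x' y' := fun c => by have := H.short m x' y' h' c; omega
  unfold NoFull at a a'
  push Not at a a'
  obtain ⟨i1, p1, q1⟩ := a
  obtain ⟨i2, p2, q2⟩ := a'
  obtain ⟨i3, p3, q3⟩ := H.idx (2 * m) f
  have hf3 : fast (u i3) := by
    by_contra c
    exact H.sb _ _ c f p3 q3 hf
  have b1 : i1 + 1 < i3 + 1 := hm.lt_iff_lt.1 (by omega)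
  have b2 : i3 < i2 := hm.lt_iff_lt.1 (by omega)
  have c1 : cc (2 * m) i1 ≤ cc (2 * m) i3 := hm.monotone (by omega)
  have c2 : cc (2 * m) (i3 + 1) ≤ cc (2 * m) (i2 + 1) := hm.monotone (by omega)
  have := H.step (2 * m) i3
  exact ⟨u i3, hf3, by omega⟩

theorem main (H : Core u cc L fast M E) (C : ℕ) : ∃ n : ℕ, 1 ≤ n ∧ C * n < pu u n := by
  classical
  obtain ⟨C1, hC1, hruns⟩ := H.runs
  choose X Y fX fY sXY lo hi far using hruns
  obtain ⟨T, hT⟩ : ∃ T, T = 2 * C + 1 := ⟨_, rfl⟩
  obtain ⟨h, hh⟩ : ∃ h, h = C1 := ⟨_, rfl⟩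
  have h2 : C1 < 2 ^ (2 * h) := by
    have : 2 * h < 2 ^ (2 * h) := Nat.lt_two_pow_self
    omega
  obtain ⟨k0, hk0⟩ := eventually_atTop.1
    (H.G_small ((E + 2) * (4 * (C1 + 1) * M ^ (2 * (h * T)))))
  have hbig := hk0 (2 * k0) (by omega)
  set g := GG L fast with hg
  obtain ⟨N, hN⟩ : ∃ N, N = C1 * g (2 * (k0 + h * T)) + 1 := ⟨_, rfl⟩
  have gpos := H.G_pos (2 * k0)
  have gtop := H.G_hi (2 * k0) (2 * (h * T))
  have gtop1 := H.G_pos (2 * (k0 + h * T))
  rw [← hg] at gpos gtop gtop1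
  rw [← mul_add] at gtop
  have hN2 : 2 * N + 1 ≤ 4 * (C1 + 1) * M ^ (2 * (h * T)) * g (2 * k0) := by
    have : 4 * (C1 + 1) * g (2 * (k0 + h * T)) ≤ 4 * (C1 + 1) * (M ^ (2 * (h * T)) * g (2 * k0)) :=
      Nat.mul_le_mul_left _ gtop
    nlinarith
  have hLa : (E + 2) * (2 * N + 1) ≤ L (2 * k0) (u 0) := by
    refine le_trans ?_ hbig
    rw [mul_assoc (E + 2)]
    exact Nat.mul_le_mul_left _ hN2
  have hfast : ∀ b, fast b → 2 * N < L (2 * k0) b := fun b hb => by
    have := H.hE (2 * k0) b hb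
    by_contra c
    have : E * L (2 * k0) b ≤ E * (2 * N) := Nat.mul_le_mul_left _ (by omega)
    nlinarith
  have gmono : ∀ a b, a ≤ b → g a ≤ g b := fun a b hab => by
    obtain ⟨d, rfl⟩ := Nat.exists_eq_add_of_le hab
    have := H.G_lo a d
    have h3 : 1 ≤ 2 ^ d := Nat.one_le_two_pow
    rw [← hg] at this
    nlinarith
  have gjump : ∀ a b, a + h ≤ b → C1 * g (2 * a) < g (2 * b) := fun a b hab => by
    have a1 := H.G_lo (2 * a) (2 * h)
    have a2 := gmono (2 * a + 2 * h) (2 * b) (by omega)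
    have a3 := H.G_pos (2 * a)
    rw [← hg] at a1 a3
    nlinarith
  -- the runs
  set x : ℕ → ℕ := fun t => X (k0 + h * (t + 1)) with hx
  set y : ℕ → ℕ := fun t => Y (k0 + h * (t + 1)) with hy
  have hlen : ∀ t, t < T → y t ≤ x t + N := fun t ht => by
    have a := hi (k0 + h * (t + 1))
    have b := gmono (2 * (k0 + h * (t + 1))) (2 * (k0 + h * T))
      (by have : h * (t + 1) ≤ h * T := Nat.mul_le_mul_left _ ht; omega)
    have c : C1 * g (2 * (k0 + h * (t + 1))) ≤ C1 * g (2 * (k0 + h * T)) :=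
      Nat.mul_le_mul_left _ b
    simp only [hx, hy]; omega
  have hlong : ∀ t, x t + 1 + M ^ 2 * g (2 * k0) < y t := fun t => by
    have a := lo (k0 + h * (t + 1))
    have b := gjump k0 (k0 + h * (t + 1)) (by nlinarith)
    have c : M ^ 2 * g (2 * k0) ≤ C1 * g (2 * k0) := Nat.mul_le_mul_right _ hC1
    simp only [hx, hy]; omega
  have hinc : ∀ t t', t < t' → y t + x t' < y t' + x t := fun t t' htt => by
    have a := hi (k0 + h * (t + 1))
    have b := lo (k0 + h * (t' + 1))
    have c := gjump (k0 + h * (t + 1)) (k0 + h * (t' + 1)) (by nlinarith)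
    simp only [hx, hy]; omega
  have hfar : ∀ t, t < T → N ≤ x t := fun t ht => by
    have a := far (k0 + h * (t + 1))
    have b := H.pow_le (2 * k0) (2 * (h * (t + 1))) (u 0)
    rw [← mul_add] at b
    have h3 : 1 ≤ 2 ^ (2 * (h * (t + 1))) := Nat.one_le_two_pow
    have c := hlen t ht
    have d : L (2 * k0) (u 0) ≤ y t := by simp only [hy]; nlinarith
    nlinarith
  have hfx : ∀ t, fast (u (x t)) := fun t => fX _
  have hfy : ∀ t, fast (u (y t)) := fun t => fY _
  have hs : ∀ t, Slow u fast (x t + 1) (y t) := fun t => sXY _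
  have key : ∀ t i t' i', t < T → i < N → t' < T → i' < N →
      (∀ z, z < 2 * N → u (x t - i + z) = u (x t' - i' + z)) → ¬ i < i' ∧ (i = i' → ¬ t < t') := by
    intro t i t' i' ht hi1 ht' hi' hz
    have f1 := hfar t ht
    have f2 := hfar t' ht'
    have l1 := hlen t ht
    have l2 := hlen t' ht'
    have g1 := hlong t
    have g2 := hlong t'
    constructor
    · intro hlt
      have a : fast (u (x t - i + i')) := by
        rw [hz i' (by omega), show x t' - i' + i' = x t' by omega]; exact hfx t'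
      have b : y t ≤ x t - i + i' := by
        by_contra c
        exact hs t _ (by omega) (by omega) a
      have c : Slow u fast (x t - i + i' + 1) (x t - i + i' + (y t' - x t')) := fun s s1 s2 => by
        have e := hz (s - (x t - i)) (by omega)
        rw [show x t - i + (s - (x t - i)) = s by omega] at e
        rw [e]
        exact hs t' _ (by omega) (by omega)
      obtain ⟨b0, hb0, hb1⟩ := H.two k0 _ _ _ _ _ (hs t) c a b (by omega) (by rw [← hg]; omega)
        (by rw [← hg]; omega)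
      have := hfast b0 hb0
      omega
    · intro e hlt
      subst e
      have a := hinc t t' hlt
      have b := hz (i + (y t - x t)) (by omega)
      rw [show x t - i + (i + (y t - x t)) = y t by omega] at b
      refine hs t' (x t' - i + (i + (y t - x t))) (by omega) (by omega) ?_
      rw [← b]; exact hfy t
  refine ⟨2 * N, by omega, ?_⟩
  set W : ℕ → List A := fun i : ℕ => List.ofFn (fun j : Fin (2 * N) => u (i + j.val)) with hW
  have hfin : (Set.range W).Finite :=
    (finite_len (2 * N)).subset (by rintro w ⟨i, rfl⟩; simp [hW])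
  have hinj : Set.InjOn (fun p : ℕ × ℕ => W (x p.1 - p.2))
      ((Finset.range T ×ˢ Finset.range N : Finset (ℕ × ℕ)) : Set (ℕ × ℕ)) := by
    rintro ⟨t, i⟩ hp ⟨t', i'⟩ hp' he
    simp only [Finset.coe_product, Finset.coe_range, Set.mem_prod, Set.mem_Iio] at hp hp'
    have hz : ∀ z, z < 2 * N → u (x t - i + z) = u (x t' - i' + z) := fun z hz =>
      congrFun (List.ofFn_injective he) ⟨z, hz⟩
    have a := key t i t' i' hp.1 hp.2 hp'.1 hp'.2 hz
    have b := key t' i' t i hp'.1 hp'.2 hp.1 hp.2 fun z h => (hz z h).symm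
    have e : i = i' := by omega
    have e' : t = t' := by have := a.2 e; have := b.2 e.symm; omega
    rw [e, e']
  have hle := Set.ncard_le_ncard_of_injOn _ (fun p _ => Set.mem_range_self (x p.1 - p.2)) hinj hfin
  rw [Set.ncard_coe_finset, Finset.card_product, Finset.card_range, Finset.card_range] at hle
  unfold pu
  have : C * (2 * N) < T * N := by rw [hT]; nlinarith
  exact this.trans_le hle

end Core

end Pool.Agent.H149Z.SU.Tpansiot
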